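import Pool.Agent.Lib.MP_31e762_gt.Defs

/-! Linear algebra of the cross product, the cofactor vector and the normal vector. -/

namespace Pool.Agent.Lib.Quad

open scoped ContDiff RealInnerProductSpace
open Metric Set Function

theorem inner3 (a b : E) : ⟪a, b⟫ = a 0 * b 0 + a 1 * b 1 + a 2 * b 2 := by
  simp [PiLp.inner_apply, Fin.sum_univ_three, mul_comm]

theorem ext3 {a b : E} (h0 : a 0 = b 0) (h1 : a 1 = b 1) (h2 : a 2 = b 2) : a = b := by
  ext i; fin_cases i <;> assumption

@[simp] theorem cross0 (a b : E) : cross a b 0 = a 1 * b 2 - a 2 * b 1 := by simp [cross]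
@[simp] theorem cross1 (a b : E) : cross a b 1 = a 2 * b 0 - a 0 * b 2 := by simp [cross]
@[simp] theorem cross2 (a b : E) : cross a b 2 = a 0 * b 1 - a 1 * b 0 := by simp [cross]

@[simp] theorem ε00 : ε 0 0 = 1 := by simp [ε]
@[simp] theorem ε01 : ε 0 1 = 0 := by simp [ε]
@[simp] theorem ε02 : ε 0 2 = 0 := by simp [ε]
@[simp] theorem ε10 : ε 1 0 = 0 := by simp [ε]
@[simp] theorem ε11 : ε 1 1 = 1 := by simp [ε]
@[simp] theorem ε12 : ε 1 2 = 0 := by simp [ε]
@[simp] theorem ε20 : ε 2 0 = 0 := by simp [ε]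
@[simp] theorem ε21 : ε 2 1 = 0 := by simp [ε]
@[simp] theorem ε22 : ε 2 2 = 1 := by simp [ε]

theorem norm_sq3 (a : E) : ‖a‖ ^ 2 = a 0 ^ 2 + a 1 ^ 2 + a 2 ^ 2 := by
  rw [← real_inner_self_eq_norm_sq, inner3]; ring

theorem det3_eq (a b c : E) : det3 a b c =
    (a 1 * b 2 - a 2 * b 1) * c 0 + (a 2 * b 0 - a 0 * b 2) * c 1 + (a 0 * b 1 - a 1 * b 0) * c 2 := by
  simp [det3, inner3]

theorem mem_S {x : E} : x ∈ S ↔ ‖x‖ = 1 := by simp [S]

theorem S_sq {x : E} (hx : x ∈ S) : x 0 ^ 2 + x 1 ^ 2 + x 2 ^ 2 = 1 := by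
  rw [← norm_sq3, mem_S.1 hx]; norm_num

theorem inner_self_S {x : E} (hx : x ∈ S) : ⟪x, x⟫ = 1 := by
  rw [real_inner_self_eq_norm_sq, mem_S.1 hx]; norm_num

theorem isCompact_S : IsCompact S := isCompact_sphere _ _
theorem isClosed_S : IsClosed S := isClosed_sphere

theorem decomp (w : E) : w = w 0 • ε 0 + w 1 • ε 1 + w 2 • ε 2 := by
  apply ext3 <;> simp

theorem map_decomp (M : E →L[ℝ] E) (w : E) :
    M w = w 0 • M (ε 0) + w 1 • M (ε 1) + w 2 • M (ε 2) := by
  conv_lhs => rw [decomp w]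
  simp

theorem map_decomp_real (M : E →L[ℝ] ℝ) (w : E) :
    M w = w 0 * M (ε 0) + w 1 * M (ε 1) + w 2 * M (ε 2) := by
  conv_lhs => rw [decomp w]
  simp

theorem cross_add_left (a b c : E) : cross (a + b) c = cross a c + cross b c := by
  apply ext3 <;> simp <;> ring
theorem cross_add_right (a b c : E) : cross a (b + c) = cross a b + cross a c := by
  apply ext3 <;> simp <;> ring
theorem cross_sub_left (a b c : E) : cross (a - b) c = cross a c - cross b c := by
  apply ext3 <;> simp <;> ring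
theorem cross_sub_right (a b c : E) : cross a (b - c) = cross a b - cross a c := by
  apply ext3 <;> simp <;> ring
theorem cross_smul_left (t : ℝ) (a b : E) : cross (t • a) b = t • cross a b := by
  apply ext3 <;> simp <;> ring
theorem cross_smul_right (t : ℝ) (a b : E) : cross a (t • b) = t • cross a b := by
  apply ext3 <;> simp <;> ring
@[simp] theorem cross_self (a : E) : cross a a = 0 := by
  apply ext3 <;> simp <;> ring
@[simp] theorem cross_zero_left (a : E) : cross 0 a = 0 := by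
  apply ext3 <;> simp
@[simp] theorem cross_zero_right (a : E) : cross a 0 = 0 := by
  apply ext3 <;> simp
theorem cross_comm (a b : E) : cross a b = -cross b a := by
  apply ext3 <;> simp <;> ring
theorem inner_cross_left (a b : E) : ⟪cross a b, a⟫ = 0 := by
  simp [inner3]; ring
theorem inner_cross_right (a b : E) : ⟪cross a b, b⟫ = 0 := by
  simp [inner3]; ring
theorem inner_left_cross (a b : E) : ⟪a, cross a b⟫ = 0 := by
  simp [inner3]; ring
theorem inner_right_cross (a b : E) : ⟪b, cross a b⟫ = 0 := by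
  simp [inner3]; ring
theorem cross_cross_right (a b c : E) : cross a (cross b c) = ⟪a, c⟫ • b - ⟪a, b⟫ • c := by
  apply ext3 <;> simp [inner3] <;> ring
theorem cross_cross_left (a b c : E) : cross (cross a b) c = ⟪a, c⟫ • b - ⟪b, c⟫ • a := by
  apply ext3 <;> simp [inner3] <;> ring
theorem norm_cross_sq (a b : E) : ‖cross a b‖ ^ 2 = ‖a‖ ^ 2 * ‖b‖ ^ 2 - ⟪a, b⟫ ^ 2 := by
  simp only [norm_sq3, inner3, cross0, cross1, cross2]; ring

theorem norm_cross_le (a b : E) : ‖cross a b‖ ≤ ‖a‖ * ‖b‖ := by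
  refine abs_le_of_sq_le_sq' ?_ (by positivity) |>.2
  rw [norm_cross_sq, mul_pow]; nlinarith [sq_nonneg ⟪a, b⟫]

/-- Cramer expansion. -/
theorem cramer3 (a b c y : E) :
    det3 a b c • y = ⟪a, y⟫ • cross b c + ⟪b, y⟫ • cross c a + ⟪c, y⟫ • cross a b := by
  apply ext3 <;> simp [inner3, det3_eq] <;> ring

theorem eq_zero_of_inner3 {a b c y : E} (h : det3 a b c ≠ 0) (ha : ⟪a, y⟫ = 0) (hb : ⟪b, y⟫ = 0)
    (hc : ⟪c, y⟫ = 0) : y = 0 := by
  have := cramer3 a b c y
  rw [ha, hb, hc] at this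
  simpa [h] using this

theorem cross_eq_zero_iff {a v : E} (hv : v ≠ 0) : cross a v = 0 ↔ ∃ t : ℝ, a = t • v := by
  constructor
  · intro h
    have h2 := cross_cross_left a v v
    rw [h, cross_zero_left] at h2
    have hvv : ⟪v, v⟫ ≠ 0 := by simpa using hv
    refine ⟨⟪a, v⟫ / ⟪v, v⟫, ?_⟩
    have : ⟪v, v⟫ • a = ⟪a, v⟫ • v := (sub_eq_zero.1 h2.symm).symm
    calc a = (⟪v, v⟫)⁻¹ • (⟪v, v⟫ • a) := by rw [smul_smul, inv_mul_cancel₀ hvv, one_smul]
      _ = _ := by rw [this, smul_smul, div_eq_inv_mul]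
  · rintro ⟨t, rfl⟩
    simp [cross_smul_left]

/-- The cross product as a continuous bilinear map. -/
noncomputable def crossL : E →L[ℝ] E →L[ℝ] E :=
  LinearMap.mkContinuous₂
    (LinearMap.mk₂ ℝ cross cross_add_left (fun t a b => cross_smul_left t a b) cross_add_right
      (fun t a b => cross_smul_right t a b)) 1
    (fun a b => by simpa using norm_cross_le a b)

@[simp] theorem crossL_apply (a b : E) : crossL a b = cross a b := rfl

@[fun_prop] theorem contDiff_cross {P : Type*} [NormedAddCommGroup P] [NormedSpace ℝ P]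
    {n : WithTop ℕ∞} {a b : P → E} (ha : ContDiff ℝ n a) (hb : ContDiff ℝ n b) :
    ContDiff ℝ n fun p => cross (a p) (b p) :=
  (crossL.contDiff.comp ha).clm_apply hb

@[fun_prop] theorem continuous_cross {P : Type*} [TopologicalSpace P]
    {a b : P → E} (ha : Continuous a) (hb : Continuous b) :
    Continuous fun p => cross (a p) (b p) :=
  (crossL.continuous.comp ha).clm_apply hb

@[fun_prop] theorem continuousAt_cross {P : Type*} [TopologicalSpace P]
    {a b : P → E} {p : P} (ha : ContinuousAt a p) (hb : ContinuousAt b p) :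
    ContinuousAt (fun p => cross (a p) (b p)) p :=
  (crossL.continuous.continuousAt.comp ha).clm_apply hb

@[fun_prop] theorem continuousOn_cross {P : Type*} [TopologicalSpace P]
    {a b : P → E} {s : Set P} (ha : ContinuousOn a s) (hb : ContinuousOn b s) :
    ContinuousOn (fun p => cross (a p) (b p)) s :=
  (crossL.continuous.comp_continuousOn ha).clm_apply hb

@[fun_prop] theorem differentiable_cross {P : Type*} [NormedAddCommGroup P] [NormedSpace ℝ P]
    {a b : P → E} (ha : Differentiable ℝ a) (hb : Differentiable ℝ b) :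
    Differentiable ℝ fun p => cross (a p) (b p) :=
  (crossL.differentiable.comp ha).clm_apply hb

@[fun_prop] theorem continuous_det3 {P : Type*} [TopologicalSpace P]
    {a b c : P → E} (ha : Continuous a) (hb : Continuous b) (hc : Continuous c) :
    Continuous fun p => det3 (a p) (b p) (c p) := by
  unfold det3; fun_prop

@[fun_prop] theorem continuousAt_det3 {P : Type*} [TopologicalSpace P]
    {a b c : P → E} {p : P} (ha : ContinuousAt a p) (hb : ContinuousAt b p)
    (hc : ContinuousAt c p) :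
    ContinuousAt (fun p => det3 (a p) (b p) (c p)) p := by
  unfold det3; fun_prop

theorem cof_cross (M : E →L[ℝ] E) (a b : E) : cof M (cross a b) = cross (M a) (M b) := by
  rw [map_decomp M a, map_decomp M b]
  apply ext3 <;> simp [cof] <;> ring

theorem inner_cof (M : E →L[ℝ] E) (x w : E) :
    ⟪cof M x, M w⟫ = det3 (M (ε 0)) (M (ε 1)) (M (ε 2)) * ⟪x, w⟫ := by
  rw [map_decomp M w]
  simp [cof, inner3, det3_eq]; ring

theorem cof_smul (M : E →L[ℝ] E) (t : ℝ) (x : E) : cof M (t • x) = t • cof M x := by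
  apply ext3 <;> simp [cof] <;> ring

theorem cof_id (x : E) : cof (ContinuousLinearMap.id ℝ E) x = x := by
  apply ext3 <;> simp [cof]

@[fun_prop] theorem continuous_cof {P : Type*} [TopologicalSpace P]
    {M : P → E →L[ℝ] E} {x : P → E} (hM : Continuous M) (hx : Continuous x) :
    Continuous fun p => cof (M p) (x p) := by
  unfold cof; fun_prop

@[fun_prop] theorem continuousAt_cof {P : Type*} [TopologicalSpace P]
    {M : P → E →L[ℝ] E} {x : P → E} {p : P} (hM : ContinuousAt M p) (hx : ContinuousAt x p) :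
    ContinuousAt (fun p => cof (M p) (x p)) p := by
  unfold cof; fun_prop

@[fun_prop] theorem contDiff_cof {P : Type*} [NormedAddCommGroup P] [NormedSpace ℝ P]
    {n : WithTop ℕ∞} {M : P → E →L[ℝ] E} {x : P → E} (hM : ContDiff ℝ n M)
    (hx : ContDiff ℝ n x) : ContDiff ℝ n fun p => cof (M p) (x p) := by
  unfold cof; fun_prop

/-- Completing a nonzero tangent vector to an oriented tangent basis. -/
theorem cross_tangent {x w : E} (hw : ⟪x, w⟫ = 0) : cross w (cross x w) = ⟪w, w⟫ • x := by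
  rw [cross_cross_right, real_inner_comm x w, hw]; simp

theorem exists_perp_ne_zero (x : E) : ∃ w : E, w ≠ 0 ∧ ⟪x, w⟫ = 0 := by
  by_cases h : cross x (ε 0) = 0
  · refine ⟨ε 1, ?_, ?_⟩
    · intro h1; have := congrArg (· 1) h1; simp at this
    · have h2 := congrArg (· 2) h
      simp at h2
      simp [inner3, h2]
  · exact ⟨cross x (ε 0), h, inner_left_cross _ _⟩

/-- An orthonormal oriented tangent basis. -/
theorem exists_tangent_basis {x : E} (hx : x ∈ S) :
    ∃ a b : E, ⟪x, a⟫ = 0 ∧ ⟪x, b⟫ = 0 ∧ ‖a‖ = 1 ∧ ‖b‖ = 1 ∧ ⟪a, b⟫ = 0 ∧ cross a b = x := by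
  obtain ⟨w, hw0, hw⟩ := exists_perp_ne_zero x
  have hn : ‖w‖ ≠ 0 := by simpa using hw0
  have ha1 : ‖‖w‖⁻¹ • w‖ = 1 := by simp [norm_smul, hn]
  have ha0 : ⟪x, ‖w‖⁻¹ • w⟫ = 0 := by rw [real_inner_smul_right, hw, mul_zero]
  set a := ‖w‖⁻¹ • w
  refine ⟨a, cross x a, ha0, inner_left_cross _ _, ha1, ?_, inner_right_cross _ _, ?_⟩
  · have := norm_cross_sq x a
    rw [mem_S.1 hx, ha1, ha0] at this
    have h0 := norm_nonneg (cross x a)
    nlinarith
  · rw [cross_tangent ha0, real_inner_self_eq_norm_sq, ha1]; simp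

theorem tangent_decomp {x a b w : E} (hx : x ∈ S) (hab : cross a b = x) (hw : ⟪x, w⟫ = 0) :
    w = ⟪cross b x, w⟫ • a + ⟪cross x a, w⟫ • b := by
  have h := cramer3 (cross b x) (cross x a) x w
  have hxx := inner_self_S hx
  subst hab
  have e1 : cross (cross (cross a b) a) (cross a b) = ⟪cross a b, cross a b⟫ • a := by
    rw [cross_cross_left, inner_left_cross]; simp
  have e2 : cross (cross a b) (cross b (cross a b)) = ⟪cross a b, cross a b⟫ • b := by
    rw [cross_cross_right, inner_cross_right]; simp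
  have e3 : det3 (cross b (cross a b)) (cross (cross a b) a) (cross a b) =
      ⟪cross a b, cross a b⟫ ^ 2 := by
    simp only [det3_eq, inner3, cross0, cross1, cross2]; ring
  rw [e1, e2, e3, hw, hxx] at h
  simpa using h

theorem inner_nrm_fderiv (f : E → E) {x w : E} (hw : ⟪x, w⟫ = 0) :
    ⟪nrm f x, fderiv ℝ f x w⟫ = 0 := by
  rw [nrm, inner_cof, hw, mul_zero]

theorem nrm_eq_cross (f : E → E) {x a b : E} (hab : cross a b = x) :
    nrm f x = cross (fderiv ℝ f x a) (fderiv ℝ f x b) := by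
  rw [nrm, ← cof_cross, hab]

/-- The normal depends only on the tangential derivative. -/
theorem nrm_congr {f g : E → E} {x : E} (hx : x ∈ S)
    (h : ∀ w, ⟪x, w⟫ = 0 → fderiv ℝ g x w = fderiv ℝ f x w) : nrm g x = nrm f x := by
  obtain ⟨a, b, ha, hb, -, -, -, hab⟩ := exists_tangent_basis hx
  rw [nrm_eq_cross f hab, nrm_eq_cross g hab, h a ha, h b hb]

theorem nrm_congr_ev {f g : E → E} {x : E} (h : g =ᶠ[nhds x] f) : nrm g x = nrm f x := by
  rw [nrm, nrm, h.fderiv_eq]

theorem inj_of_nrm_ne {f : E → E} {x : E} (hn : nrm f x ≠ 0) {w : E}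
    (hw : ⟪x, w⟫ = 0) (h : fderiv ℝ f x w = 0) : w = 0 := by
  by_contra hw0
  apply hn
  have h1 : cof (fderiv ℝ f x) (cross w (cross x w)) = 0 := by rw [cof_cross, h, cross_zero_left]
  rw [cross_tangent hw, cof_smul] at h1
  have hww : ⟪w, w⟫ ≠ 0 := by simpa using hw0
  exact (smul_eq_zero.1 h1).resolve_left hww

theorem nrm_ne_of_inj {f : E → E} {x : E} (hx : x ∈ S)
    (h : ∀ w : E, ⟪x, w⟫ = 0 → fderiv ℝ f x w = 0 → w = 0) : nrm f x ≠ 0 := by
  obtain ⟨a, b, ha, hb, ha1, hb1, hab0, hab⟩ := exists_tangent_basis hx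
  rw [nrm_eq_cross f hab]
  intro h0
  have hb0 : fderiv ℝ f x b ≠ 0 := by
    intro h1; have := h b hb h1; simp [this] at hb1
  obtain ⟨t, ht⟩ := (cross_eq_zero_iff hb0).1 h0
  have : a - t • b = 0 := by
    apply h
    · rw [inner_sub_right, real_inner_smul_right, ha, hb]; simp
    · rw [map_sub, map_smul, ht, sub_self]
  have h2 : ⟪a, a - t • b⟫ = 0 := by rw [this]; simp
  rw [inner_sub_right, real_inner_smul_right, hab0, real_inner_self_eq_norm_sq, ha1] at h2
  norm_num at h2

theorem imm_iff {f : E → E} : Imm f ↔ ContDiff ℝ ∞ f ∧ ∀ x ∈ S, nrm f x ≠ 0 :=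
  ⟨fun h => ⟨h.1, fun x hx => nrm_ne_of_inj hx (h.2 x hx)⟩,
    fun h => ⟨h.1, fun x hx _ hw h0 => inj_of_nrm_ne (h.2 x hx) hw h0⟩⟩

theorem Imm.nrm_ne {f : E → E} (hf : Imm f) {x : E} (hx : x ∈ S) : nrm f x ≠ 0 :=
  (imm_iff.1 hf).2 x hx

/-- Every vector orthogonal to the normal is the image of a tangent vector. -/
theorem exists_tangent_preimage {f : E → E} {x : E} (hx : x ∈ S) (hn : nrm f x ≠ 0) {u : E}
    (hu : ⟪nrm f x, u⟫ = 0) : ∃ w, ⟪x, w⟫ = 0 ∧ fderiv ℝ f x w = u := by
  obtain ⟨a, b, ha, hb, -, -, -, hab⟩ := exists_tangent_basis hx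
  rw [nrm_eq_cross f hab] at hn hu
  set A := fderiv ℝ f x a
  set B := fderiv ℝ f x b
  set n := cross A B with hn'
  have hnn : ⟪n, n⟫ ≠ 0 := by simpa using hn
  have h := cramer3 (cross B n) (cross n A) n u
  have e1 : cross (cross n A) n = ⟪n, n⟫ • A := by
    rw [cross_cross_left, hn', inner_left_cross]; simp
  have e2 : cross n (cross B n) = ⟪n, n⟫ • B := by
    rw [cross_cross_right, hn', inner_cross_right]; simp
  have e3 : det3 (cross B n) (cross n A) n = ⟪n, n⟫ ^ 2 := by
    simp only [hn', det3_eq, inner3, cross0, cross1, cross2]; ring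
  rw [e1, e2, e3, hu] at h
  refine ⟨(⟪cross B n, u⟫ / ⟪n, n⟫) • a + (⟪cross n A, u⟫ / ⟪n, n⟫) • b, ?_, ?_⟩
  · rw [inner_add_right, real_inner_smul_right, real_inner_smul_right, ha, hb]; simp
  · rw [map_add, map_smul, map_smul]
    have h2 : u = (⟪n, n⟫ ^ 2)⁻¹ • (⟪n, n⟫ ^ 2 • u) := by
      rw [smul_smul, inv_mul_cancel₀ (pow_ne_zero 2 hnn), one_smul]
    conv_rhs => rw [h2, h]
    simp only [zero_smul, add_zero, smul_add, smul_smul]
    congr 2 <;> field_simp

/-- If the tangential derivative is killed by `ν`, the normal is parallel to `ν`. -/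
theorem nrm_parallel {f : E → E} {x ν : E} (hx : x ∈ S)
    (h : ∀ w, ⟪x, w⟫ = 0 → ⟪ν, fderiv ℝ f x w⟫ = 0) : cross (nrm f x) ν = 0 := by
  obtain ⟨a, b, ha, hb, -, -, -, hab⟩ := exists_tangent_basis hx
  rw [nrm_eq_cross f hab, cross_cross_left, real_inner_comm, h a ha, real_inner_comm, h b hb]
  simp

theorem cof_comp (A M : E →L[ℝ] E) (x : E) : cof (A.comp M) x = cof A (cof M x) := by
  have h : ∀ a b c : E, ∀ s t u : ℝ, cof A (s • a + t • b + u • c) =
      s • cof A a + t • cof A b + u • cof A c := by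
    intro a b c s t u
    apply ext3 <;> simp [cof] <;> ring
  conv_rhs => rw [cof.eq_def M x, h, cof_cross, cof_cross, cof_cross]
  simp [cof]

/-- A vertical change of the derivative does not change the vertical component of the normal. -/
theorem inner_cof_vertical (M : E →L[ℝ] E) (l : E →L[ℝ] ℝ) (v x : E) :
    ⟪cof (M + l.smulRight v) x, v⟫ = ⟪cof M x, v⟫ := by
  simp [cof, inner3]; ring

end Pool.Agent.Lib.Quad
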