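import Pool.Agent.Lib.MP_31e762_gt.Defs

/-!
Bridge between smooth extensions and maps on the sphere as a manifold.
-/

namespace Pool.Agent.Lib.Quad

open scoped ContDiff RealInnerProductSpace Manifold Topology
open Metric Set Function

/-- The sphere as a manifold. -/
abbrev S2 := Metric.sphere (0 : E) 1

namespace Bridge

theorem fact3 : Fact (Module.finrank ℝ E = 2 + 1) := ⟨by simp⟩

theorem step_refl {f : E → E} (hf : I4 f) : Step f f :=
  ⟨fun _ => f, hf.1.1.comp contDiff_snd, fun _ _ => hf, rfl, rfl⟩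

theorem step_trans {f g h : E → E} (h1 : Step f g) (h2 : Step g h) : Step f h := by
  obtain ⟨H1, a1, a2, a3, a4⟩ := h1
  obtain ⟨H2, b1, b2, b3, b4⟩ := h2
  have hg : ContDiff ℝ ∞ g := by
    have := (a2 1 ⟨zero_le_one, le_rfl⟩).1.1
    rwa [a4] at this
  have hσ : ∀ t, Real.smoothTransition t ∈ Icc (0 : ℝ) 1 :=
    fun t => ⟨Real.smoothTransition.nonneg t, Real.smoothTransition.le_one t⟩
  have e1 : ∀ t : ℝ, t ≤ 1 / 2 → (fun x => H1 (Real.smoothTransition (2 * t)) x +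
      H2 (Real.smoothTransition (2 * t - 1)) x - g x) = H1 (Real.smoothTransition (2 * t)) := by
    intro t ht
    funext x
    rw [Real.smoothTransition.zero_of_nonpos (x := 2 * t - 1) (by linarith), b3]; simp
  have e2 : ∀ t : ℝ, 1 / 2 ≤ t → (fun x => H1 (Real.smoothTransition (2 * t)) x +
      H2 (Real.smoothTransition (2 * t - 1)) x - g x) =
      H2 (Real.smoothTransition (2 * t - 1)) := by
    intro t ht
    funext x
    rw [Real.smoothTransition.one_of_one_le (x := 2 * t) (by linarith), a4]; simp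
  refine ⟨fun t x => H1 (Real.smoothTransition (2 * t)) x +
    H2 (Real.smoothTransition (2 * t - 1)) x - g x, ?_, fun t _ => ?_, ?_, ?_⟩
  · have c1 : ContDiff ℝ ∞ fun p : ℝ × E => Real.smoothTransition (2 * p.1) :=
      Real.smoothTransition.contDiff.comp (by fun_prop)
    have c2 : ContDiff ℝ ∞ fun p : ℝ × E => Real.smoothTransition (2 * p.1 - 1) :=
      Real.smoothTransition.contDiff.comp (by fun_prop)
    exact ((a1.comp (c1.prodMk contDiff_snd)).add (b1.comp (c2.prodMk contDiff_snd))).sub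
      (hg.comp contDiff_snd)
  · rcases le_total t (1 / 2) with ht | ht
    · simp only [e1 t ht]; exact a2 _ (hσ _)
    · simp only [e2 t ht]; exact b2 _ (hσ _)
  · simp only [e1 0 (by norm_num)]
    rw [Real.smoothTransition.zero_of_nonpos (by norm_num), a3]
  · simp only [e2 1 (by norm_num)]
    rw [Real.smoothTransition.one_of_one_le (by norm_num), b4]

theorem step_of_rel {F G : E → E} (hF : I4 F) (h : Rel F G) : Step F G := by
  induction h with
  | refl => exact step_refl hF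
  | tail _ h2 ih => exact step_trans ih h2

theorem inj_iff {F : E → E} (hF : ContDiff ℝ ∞ F) (x : S2) :
    Injective (mfderiv (𝓡 2) 𝓘(ℝ, E) (fun y : S2 => F y) x) ↔
      ∀ w : E, ⟪(x : E), w⟫ = 0 → fderiv ℝ F x w = 0 → w = 0 := by
  have := fact3
  have h1 : MDifferentiableAt (𝓡 2) 𝓘(ℝ, E) ((↑) : S2 → E) x :=
    (contMDiff_coe_sphere (n := 2) (m := ∞) x).mdifferentiableAt (by simp)
  have h2 : MDifferentiableAt 𝓘(ℝ, E) 𝓘(ℝ, E) F (x : E) :=
    (hF.differentiable (by simp) _).mdifferentiableAt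
  have h3 : mfderiv (𝓡 2) 𝓘(ℝ, E) (fun y : S2 => F y) x =
      (fderiv ℝ F x).comp (mfderiv (𝓡 2) 𝓘(ℝ, E) ((↑) : S2 → E) x) := by
    rw [← mfderiv_eq_fderiv]
    exact mfderiv_comp x h2 h1
  have h4 := range_mfderiv_coe_sphere (n := 2) x
  have h5 := mfderiv_coe_sphere_injective (n := 2) x
  rw [h3]
  constructor
  · intro h w hw h0
    have : w ∈ (ℝ ∙ (x : E))ᗮ := Submodule.mem_orthogonal_singleton_iff_inner_right.2 hw
    rw [← h4] at this
    obtain ⟨u, rfl⟩ := this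
    have hu : u = 0 := h (h0.trans (map_zero _).symm)
    rw [hu]; exact map_zero _
  · intro h
    rw [injective_iff_map_eq_zero]
    intro u hu
    have : mfderiv (𝓡 2) 𝓘(ℝ, E) ((↑) : S2 → E) x u ∈ (ℝ ∙ (x : E))ᗮ := by
      rw [← h4]; exact ⟨u, rfl⟩
    exact h5 ((h _ (Submodule.mem_orthogonal_singleton_iff_inner_right.1 this) hu).trans
      (map_zero _).symm)

theorem encard_fib (F : E → E) (y : E) :
    (fib F S y).encard = ((fun x : S2 => F x) ⁻¹' {y}).encard := by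
  rw [← Subtype.val_injective.encard_image]
  congr 1
  ext x
  simp [fib, S, and_comm]

theorem lt_four {n : ℕ∞} : n < 4 ↔ n ≤ 3 := by
  have : (4 : ℕ∞) = 3 + 1 := by norm_num
  rw [this]
  exact ENat.lt_add_one_iff (by simp)

end Bridge

open Bridge

theorem bridge_in (f : S2 → E) (h1 : ContMDiff (𝓡 2) 𝓘(ℝ, E) ∞ f)
    (h2 : ∀ x, Function.Injective (mfderiv (𝓡 2) 𝓘(ℝ, E) f x))
    (h3 : ∀ y, (f ⁻¹' {y}).encard < 4) : ∃ F : E → E, I4 F ∧ ∀ x : S2, F x = f x := by
  classical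
  have := fact3
  have hm : ∀ y : E, y ≠ 0 → ‖y‖⁻¹ • y ∈ Metric.sphere (0 : E) 1 := fun y hy => by
    simp [norm_smul, hy]
  have h0 : ε 0 ∈ Metric.sphere (0 : E) 1 := by simp [ε]
  let g : E → S2 := fun y => if h : y = 0 then ⟨ε 0, h0⟩ else ⟨‖y‖⁻¹ • y, hm y h⟩
  let U : TopologicalSpace.Opens E := ⟨{y | y ≠ 0}, isOpen_ne⟩
  have a1 : ContMDiff 𝓘(ℝ, E) 𝓘(ℝ, E) ∞ fun y : U => ‖(y : E)‖⁻¹ • (y : E) := fun y =>
    contMDiffAt_subtype_iff.2
      (((contDiffAt_norm ℝ y.2).inv (norm_ne_zero_iff.2 y.2)).smul contDiffAt_id).contMDiffAt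
  have a2 : ContMDiff 𝓘(ℝ, E) (𝓡 2) ∞ fun y : U => g y :=
    (a1.codRestrict_sphere fun y => hm y y.2).congr fun y => dif_neg y.2
  have a3 : ∀ y : E, y ≠ 0 → ContDiffAt ℝ ∞ (fun y => f (g y)) y := fun y hy =>
    ((h1 _).comp y ((contMDiffAt_subtype_iff (U := U) (x := ⟨y, hy⟩)).1 (a2 _))).contDiffAt
  let F : E → E := fun y => Real.smoothTransition (2 * ‖y‖ ^ 2 - 1) • f (g y)
  have a4 : ContDiff ℝ ∞ F := by
    rw [contDiff_iff_contDiffAt]
    intro y
    by_cases hy : y = 0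
    · refine (contDiffAt_const (c := (0 : E))).congr_of_eventuallyEq ?_
      have : ∀ᶠ z in 𝓝 y, ‖z‖ ^ 2 < 1 / 2 := by
        refine ContinuousAt.eventually_lt (by fun_prop) continuousAt_const ?_
        simp [hy]
      filter_upwards [this] with z hz
      simp only [F]
      rw [Real.smoothTransition.zero_of_nonpos (by linarith), zero_smul]
    · have a7 : ContDiff ℝ ∞ fun y : E => Real.smoothTransition (2 * ‖y‖ ^ 2 - 1) :=
        Real.smoothTransition.contDiff.comp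
          ((contDiff_const.mul (contDiff_norm_sq ℝ)).sub contDiff_const)
      exact a7.contDiffAt.smul (a3 y hy)
  have a5 : ∀ x : S2, F x = f x := by
    intro x
    have hx : ‖(x : E)‖ = 1 := by simp
    have hx0 : (x : E) ≠ 0 := ne_zero_of_mem_unit_sphere x
    have : g x = x := by
      simp only [g, dif_neg hx0]
      exact Subtype.ext (by simp)
    simp only [F, hx, this]
    rw [Real.smoothTransition.one_of_one_le (by norm_num), one_smul]
  have a6 : (fun x : S2 => F x) = f := funext a5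
  refine ⟨F, ⟨⟨a4, fun x hx => (inj_iff a4 ⟨x, hx⟩).1 (by rw [a6]; exact h2 _)⟩, fun y => ?_⟩, a5⟩
  rw [encard_fib, a6]
  exact lt_four.1 (h3 y)

theorem bridge_out {F G : E → E} (hF : I4 F) (h : Rel F G) :
    ∃ H : S2 × ℝ → E, ContMDiff ((𝓡 2).prod 𝓘(ℝ, ℝ)) 𝓘(ℝ, E) ∞ H ∧
      (∀ t ∈ Set.Icc (0:ℝ) 1, ContMDiff (𝓡 2) 𝓘(ℝ, E) ∞ (fun x => H (x,t)) ∧
        (∀ x, Function.Injective (mfderiv (𝓡 2) 𝓘(ℝ, E) (fun x => H (x,t)) x)) ∧
        ∀ y, ((fun x => H (x,t)) ⁻¹' {y}).encard < 4) ∧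
      (∀ x : S2, H (x,0) = F x) ∧ ∀ x : S2, H (x,1) = G x := by
  have := fact3
  obtain ⟨H, a1, a2, a3, a4⟩ := step_of_rel hF h
  refine ⟨fun p => H p.2 p.1, ?_, fun t ht => ⟨?_, fun x => ?_, fun y => ?_⟩,
    fun x => by simp only [a3], fun x => by simp only [a4]⟩
  · have b1 : ContMDiff ((𝓡 2).prod 𝓘(ℝ, ℝ)) 𝓘(ℝ, ℝ × E) ∞
        fun p : S2 × ℝ => (p.2, (p.1 : E)) :=
      contMDiff_snd.prodMk_space ((contMDiff_coe_sphere (n := 2)).comp contMDiff_fst)
    exact a1.contMDiff.comp b1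
  · exact (a2 t ht).1.1.contMDiff.comp (contMDiff_coe_sphere (n := 2))
  · exact (inj_iff (a2 t ht).1.1 x).2 ((a2 t ht).1.2 x x.2)
  · exact lt_four.2 ((encard_fib (H t) y).symm ▸ (a2 t ht).2 y)

end Pool.Agent.Lib.Quad
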