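import Pool.Agent.Lib.MP_31e762_gt.Five

/-! Triple points on a common straight double line give the same class. -/

namespace Pool.Agent.Lib.Quad.Connect

open scoped ContDiff RealInnerProductSpace Topology
open Metric Set Function Filter

/-- The two points give the same class. -/
def Conn (f : E → E) (y y' : E) : Prop := ∀ γ : E → E, Tau f y 1 γ ↔ Tau f y' 1 γ

theorem Conn.refl (f : E → E) (y : E) : Conn f y y := fun _ => Iff.rfl

theorem Conn.trans {f : E → E} {y y' y'' : E} (h : Conn f y y') (h' : Conn f y' y'') :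
    Conn f y y'' := fun γ => (h γ).trans (h' γ)

theorem tau_of_finger {f g : E → E} {x : Fin 3 → E} {b q : E} (hf : I4 f) (hq : TT f x q)
    (h : Finger f b q g) : Tau f q 1 g := by
  rcases lt_or_gt_of_ne h.seg.1 with h1 | h1
  · exact (tau_side hf hq).2 (tau_finger hf hq h (by linarith))
  · exact tau_finger hf hq h (by linarith)

theorem conn_of_fingers {f g g' : E → E} {x x' : Fin 3 → E} {b b' q q' : E} (hf : I4 f)
    (hq : TT f x q) (hq' : TT f x' q') (h : Finger f b q' g) (h' : Finger f b' q g')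
    (hr : Rel g g') : Conn f q q' := by
  have k := tau_of_finger hf hq' h
  have k' := tau_of_finger hf hq h'
  intro γ
  exact ⟨fun hγ => k.rel (hr.trans (tau_unique hf hq k' hγ)),
    fun hγ => k'.rel (hr.symm.trans (tau_unique hf hq' k hγ))⟩

theorem det3_smul (s t u : ℝ) (a b c : E) :
    det3 (s • a) (t • b) (u • c) = s * t * u * det3 a b c := by
  simp only [det3_eq, PiLp.smul_apply, smul_eq_mul]; ring

/-- On an open flat piece the normal is a nonzero multiple of the normal of the plane. -/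
theorem nrm_flat {G : E → E} (hG : Imm G) {D : Set E} (hD : IsOpen D) {a p : E} (ha0 : a ≠ 0)
    {s : ℝ} (ha : ∀ z ∈ S, z ∈ D → ⟪a, G z - p⟫ = s) {z : E} (hz : z ∈ S) (hzD : z ∈ D) :
    ∃ t : ℝ, t ≠ 0 ∧ nrm G z = t • a := by
  obtain ⟨t, ht⟩ := nrm_of_flat (smooth_diff hG.1) (s := s + ⟪a, p⟫) hz ha0 (by
    filter_upwards [hD.mem_nhds hzD] with y hy hyS
    have := ha y hyS hy
    rw [inner_sub_right] at this
    linarith)
  refine ⟨t, fun h0 => hG.nrm_ne hz ?_, ht⟩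
  rw [ht, h0, zero_smul]

theorem exists_VD_self {f : E → E} (hf : ContDiff ℝ ∞ f) {x v : E} (hx : x ∈ S)
    (hv : ⟪nrm f x, v⟫ ≠ 0) : ∃ ρ, 0 < ρ ∧ VD f (ball x ρ) v := by
  obtain ⟨ρ, hρ, δ, hδ, hV⟩ := exists_VD hf hx hv
  exact ⟨ρ, hρ, (hV f hf (by simpa using small_zero hδ.le) v (by simpa using hδ.le)).1⟩

section Line

variable {G : E → E} {Da Db : Set E} {a b p d : E}

/-- Two flat sheets. -/
structure Two (G : E → E) (Da Db : Set E) (a b p : E) : Prop where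
  i4 : I4 G
  oa : IsOpen Da
  ob : IsOpen Db
  disj : Disjoint Da Db
  cr : cross a b ≠ 0
  fa : ∀ z ∈ S, z ∈ Da → ⟪a, G z - p⟫ = 0
  fb : ∀ z ∈ S, z ∈ Db → ⟪b, G z - p⟫ = 0
  ia : ∀ z ∈ S, ∀ z' ∈ S, z ∈ Da → z' ∈ Da → G z = G z' → z = z'
  ib : ∀ z ∈ S, ∀ z' ∈ S, z ∈ Db → z' ∈ Db → G z = G z' → z = z'

/-- The point is covered by both sheets. -/
def Cov (G : E → E) (Da Db : Set E) (y : E) : Prop :=
  (∃ z ∈ S, z ∈ Da ∧ G z = y) ∧ ∃ z ∈ S, z ∈ Db ∧ G z = y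

theorem Two.tt (h : Two G Da Db a b p) {z : E} (hz : z ∈ S) (hza : z ∉ Da) (hzb : z ∉ Db)
    (hc : Cov G Da Db (G z)) (hdet : det3 a b (nrm G z) ≠ 0) :
    ∃ x : Fin 3 → E, TT G x (G z) ∧ x 0 ∈ Da ∧ x 1 ∈ Db ∧ x 2 = z := by
  obtain ⟨⟨za, hzaS, hzaD, hza'⟩, zb, hzbS, hzbD, hzb'⟩ := hc
  have ha0 : a ≠ 0 := by rintro rfl; exact h.cr (by simp)
  have hb0 : b ≠ 0 := by rintro rfl; exact h.cr (by simp)
  obtain ⟨s, hs0, hs⟩ := nrm_flat h.i4.1 h.oa ha0 h.fa hzaS hzaD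
  obtain ⟨t, ht0, ht⟩ := nrm_flat h.i4.1 h.ob hb0 h.fb hzbS hzbD
  have n1 : za ≠ zb := by rintro rfl; exact disjoint_left.1 h.disj hzaD hzbD
  have n2 : za ≠ z := by rintro rfl; exact hza hzaD
  have n3 : zb ≠ z := by rintro rfl; exact hzb hzbD
  refine ⟨![za, zb, z], ⟨?_, ?_, ?_, ?_⟩, hzaD, hzbD, rfl⟩
  · intro i; fin_cases i <;> simpa
  · intro i j hij
    fin_cases i <;> fin_cases j <;> simp_all
  · intro i; fin_cases i <;> simp [hza', hzb']
  · have := det3_smul s t 1 a b (nrm G z)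
    rw [one_smul] at this
    simp only [Matrix.cons_val_zero, Matrix.cons_val_one, Matrix.cons_val_two, Matrix.head_cons,
      Matrix.tail_cons, hs, ht, this]
    positivity

theorem Two.uniq (h : Two G Da Db a b p) {z z' : E} (hz : z ∈ S) (hza : z ∉ Da) (hzb : z ∉ Db)
    (hc : Cov G Da Db (G z)) (hdet : det3 a b (nrm G z) ≠ 0) (hz' : z' ∈ S) (hza' : z' ∉ Da)
    (hzb' : z' ∉ Db) (he : G z' = G z) : z' = z := by
  obtain ⟨x, hx, h0, h1, h2⟩ := h.tt hz hza hzb hc hdet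
  have : z' ∈ fib G S (G z) := ⟨hz', he⟩
  rw [hx.fib_eq h.i4] at this
  obtain ⟨i, rfl⟩ := this
  fin_cases i
  · exact absurd h0 hza'
  · exact absurd h1 hzb'
  · exact h2

/-- Consecutive triple points. -/
theorem Two.consec (h : Two G Da Db a b p) {z z' : E} (hz : z ∈ S) (hza : z ∉ Da) (hzb : z ∉ Db)
    (hz' : z' ∈ S) (hza' : z' ∉ Da) (hzb' : z' ∉ Db) (hne : G z ≠ G z')
    (hc : Cov G Da Db (G z)) (hc' : Cov G Da Db (G z'))
    (hdet : det3 a b (nrm G z) ≠ 0) (hdet' : det3 a b (nrm G z') ≠ 0)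
    (hno : ∀ w ∈ S, w ∉ Da → w ∉ Db → G w ∈ segment ℝ (G z) (G z') → G w = G z ∨ G w = G z') :
    Conn G (G z) (G z') := by
  obtain ⟨x, hx, -, -, -⟩ := h.tt hz hza hzb hc hdet
  obtain ⟨x', hx', -, -, -⟩ := h.tt hz' hza' hzb' hc' hdet'
  have onl : ∀ y, Cov G Da Db y → ⟪a, y - p⟫ = 0 ∧ ⟪b, y - p⟫ = 0 := by
    rintro y ⟨⟨u, hu, huD, rfl⟩, u', hu', huD', he⟩
    exact ⟨h.fa u hu huD, he ▸ h.fb u' hu' huD'⟩
  have diff : ∀ y y', (⟪a, y - p⟫ = 0 ∧ ⟪b, y - p⟫ = 0) → (⟪a, y' - p⟫ = 0 ∧ ⟪b, y' - p⟫ = 0) →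
      ∃ t : ℝ, y' - y = t • cross a b := by
    intro y y' h1 h2
    rw [← cross_eq_zero_iff h.cr, cross_cross_right]
    have e : y' - y = (y' - p) - (y - p) := by abel
    rw [real_inner_comm b, real_inner_comm a, e, inner_sub_right, inner_sub_right a, h1.1, h1.2,
      h2.1, h2.2]
    simp
  obtain ⟨τ, hτ⟩ := diff _ _ (onl _ hc) (onl _ hc')
  have hτ0 : τ ≠ 0 := by
    rintro rfl
    rw [zero_smul, sub_eq_zero] at hτ
    exact hne hτ.symm
  have tr : ∀ w, det3 a b (nrm G w) ≠ 0 → ⟪nrm G w, G z' - G z⟫ ≠ 0 := by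
    intro w hw
    rw [hτ, real_inner_smul_right, real_inner_comm]
    exact mul_ne_zero hτ0 hw
  obtain ⟨ρ, hρ, hV1⟩ := exists_VD_self h.i4.1.1 hz (tr z hdet)
  obtain ⟨ρ', hρ', hV2⟩ := exists_VD_self h.i4.1.1 hz' (tr z' hdet')
  have hzz : z ≠ z' := by rintro rfl; exact hne rfl
  obtain ⟨U1, U2, hU1, hU2, hz1, hz2, hU⟩ := t2_separation hzz
  set D := ball z ρ ∩ U1
  set D' := ball z' ρ' ∩ U2
  have hDo : IsOpen D := isOpen_ball.inter hU1
  have hDo' : IsOpen D' := isOpen_ball.inter hU2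
  have hzD : z ∈ D := ⟨mem_ball_self hρ, hz1⟩
  have hzD' : z' ∈ D' := ⟨mem_ball_self hρ', hz2⟩
  have hK : IsCompact (S \ (Da ∪ Db ∪ (D ∪ D'))) :=
    isCompact_S.diff ((h.oa.union h.ob).union (hDo.union hDo'))
  obtain ⟨g, g', hg, hg', hr⟩ := finger_swap_line h.i4 hz hz' (hV1.mono hDo inter_subset_left)
    (hV2.mono hDo' inter_subset_left) hzD hzD'
    (hU.mono inter_subset_right inter_subset_right)
    (hK.image h.i4.1.1.continuous).isClosed.isOpen_compl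
    (by
      rintro y hy ⟨w, ⟨hwS, hw⟩, rfl⟩
      simp only [mem_union, not_or] at hw
      rcases hno w hwS hw.1.1 hw.1.2 hy with h1 | h1
      · exact hw.2.1 (h.uniq hz hza hzb hc hdet hwS hw.1.1 hw.1.2 h1 ▸ hzD)
      · exact hw.2.2 (h.uniq hz' hza' hzb' hc' hdet' hwS hw.1.1 hw.1.2 h1 ▸ hzD'))
    (by
      intro y hy
      have hsub : fib G (S \ (D ∪ D')) y ⊆ fib G (S ∩ Da) y ∪ fib G (S ∩ Db) y := by
        rintro w ⟨⟨hwS, hw⟩, rfl⟩
        by_contra hcon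
        apply hy
        refine ⟨w, ⟨hwS, ?_⟩, rfl⟩
        rintro ((h1 | h1) | h1)
        · exact hcon (Or.inl ⟨⟨hwS, h1⟩, rfl⟩)
        · exact hcon (Or.inr ⟨⟨hwS, h1⟩, rfl⟩)
        · exact hw h1
      have s1 : (fib G (S ∩ Da) y).Subsingleton := fun u hu u' hu' =>
        h.ia u hu.1.1 u' hu'.1.1 hu.1.2 hu'.1.2 (hu.2.trans hu'.2.symm)
      have s2 : (fib G (S ∩ Db) y).Subsingleton := fun u hu u' hu' =>
        h.ib u hu.1.1 u' hu'.1.1 hu.1.2 hu'.1.2 (hu.2.trans hu'.2.symm)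
      have e1 := encard_le_one_iff_subsingleton.2 s1
      have e2 := encard_le_one_iff_subsingleton.2 s2
      have e3 := (encard_le_encard hsub).trans (encard_union_le _ _)
      refine ⟨e3.trans ((add_le_add e1 e2).trans (by norm_num)), fun h2 => ?_⟩
      have n1 : (fib G (S ∩ Da) y).Nonempty := by
        rw [nonempty_iff_ne_empty]
        intro h0
        rw [h0, encard_empty, zero_add] at e3
        exact absurd (h2.trans (e3.trans e2)) (by norm_num)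
      have n2 : (fib G (S ∩ Db) y).Nonempty := by
        rw [nonempty_iff_ne_empty]
        intro h0
        rw [h0, encard_empty, add_zero] at e3
        exact absurd (h2.trans (e3.trans e1)) (by norm_num)
      obtain ⟨u, ⟨hu, huD⟩, hu'⟩ := n1
      obtain ⟨u', ⟨hv, hvD⟩, hv'⟩ := n2
      obtain ⟨t, ht⟩ := diff _ _ (onl _ hc) (onl y ⟨⟨u, hu, huD, hu'⟩, u', hv, hvD, hv'⟩)
      rw [ht, hτ, cross_smul_left, cross_smul_right, cross_self, smul_zero, smul_zero])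
  exact conn_of_fingers h.i4 hx hx' hg hg' hr

/-- Triple points on a straight double line along which all other sheets are transverse. -/
theorem Two.conn (h : Two G Da Db a b p) {z₀ z₁ : E} (hz₀ : z₀ ∈ S) (ha₀ : z₀ ∉ Da)
    (hb₀ : z₀ ∉ Db) (hz₁ : z₁ ∈ S) (ha₁ : z₁ ∉ Da) (hb₁ : z₁ ∉ Db)
    (hc : ∀ y ∈ segment ℝ (G z₀) (G z₁), Cov G Da Db y)
    (htr : ∀ w ∈ S, w ∉ Da → w ∉ Db → G w ∈ segment ℝ (G z₀) (G z₁) →
      det3 a b (nrm G w) ≠ 0) : Conn G (G z₀) (G z₁) := by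
  by_cases hne : G z₀ = G z₁
  · rw [hne]; exact Conn.refl _ _
  set y₀ := G z₀ with hy₀
  set d := G z₁ - G z₀ with hd
  have hd0 : d ≠ 0 := sub_ne_zero.2 (Ne.symm hne)
  have hseg : ∀ t ∈ Icc (0 : ℝ) 1, y₀ + t • d ∈ segment ℝ (G z₀) (G z₁) := by
    intro t ht
    rw [segment_eq_image']
    exact ⟨t, ht, rfl⟩
  have hinj : ∀ s t : ℝ, y₀ + s • d = y₀ + t • d → s = t := fun s t hst =>
    smul_left_injective ℝ hd0 (add_left_cancel hst)
  -- finiteness
  set Z : Set E := (S \ (Da ∪ Db)) ∩ G ⁻¹' segment ℝ (G z₀) (G z₁) with hZ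
  have hZc : IsCompact Z := by
    refine (isCompact_S.diff (h.oa.union h.ob)).inter_right (IsClosed.preimage h.i4.1.1.continuous ?_)
    rw [segment_eq_image']
    exact (isCompact_Icc.image (by fun_prop)).isClosed
  have hZf : (G '' Z).Finite := by
    have iso : ∀ z ∈ Z, ∃ ρ, 0 < ρ ∧ ∀ y, ‖y - G z‖ < ρ → Tri G y → y = G z := by
      rintro z ⟨⟨hzS, hz⟩, hzs⟩
      simp only [mem_union, not_or] at hz
      obtain ⟨x, hx, -, -, -⟩ := h.tt hzS hz.1 hz.2 (hc _ hzs) (htr z hzS hz.1 hz.2 hzs)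
      obtain ⟨ρ, hρ, δ, hδ, H⟩ := hx.isolated h.i4
      exact ⟨ρ, hρ, (H G h.i4.1.1 (by simpa using small_zero hδ.le) hx.2.2.1).2.2⟩
    choose! ρ hρ hiso using iso
    obtain ⟨t, htZ, ht⟩ := hZc.elim_nhds_subcover (fun z => G ⁻¹' ball (G z) (ρ z))
      (fun z hz => h.i4.1.1.continuous.continuousAt.preimage_mem_nhds (ball_mem_nhds _ (hρ z hz)))
    refine (t.finite_toSet.image G).subset ?_
    rintro _ ⟨z, hz, rfl⟩
    obtain ⟨w, hw, hzw⟩ := mem_iUnion₂.1 (ht hz)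
    refine ⟨w, hw, (hiso w (htZ w hw) (G z) (by simpa [dist_eq_norm] using hzw) ?_).symm⟩
    obtain ⟨⟨hzS, hz'⟩, hzs⟩ := hz
    simp only [mem_union, not_or] at hz'
    obtain ⟨x, hx, -, -, -⟩ := h.tt hzS hz'.1 hz'.2 (hc _ hzs) (htr z hzS hz'.1 hz'.2 hzs)
    exact hx.tri
  set T : Set ℝ := {t | t ∈ Icc (0 : ℝ) 1 ∧ ∃ z ∈ S, z ∉ Da ∧ z ∉ Db ∧ G z = y₀ + t • d} with hT
  have hTf : T.Finite := by
    refine Finite.of_finite_image (f := fun t => y₀ + t • d) (hZf.subset ?_)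
      (fun s _ t _ hst => hinj s t hst)
    rintro _ ⟨t, ⟨ht, z, hz, hza, hzb, he⟩, rfl⟩
    refine ⟨z, ⟨⟨hz, by simp [hza, hzb]⟩, ?_⟩, he⟩
    rw [mem_preimage, he]
    exact hseg t ht
  have key : ∀ n : ℕ, ∀ s ∈ T, ∀ t ∈ T, s < t → (T ∩ Ioo s t).ncard = n →
      Conn G (y₀ + s • d) (y₀ + t • d) := by
    intro n
    induction n using Nat.strong_induction_on with
    | _ n ih =>
      intro s hs t ht hst hn
      by_cases hex : (T ∩ Ioo s t).Nonempty
      · obtain ⟨u, huT, hu⟩ := hex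
        have l1 : (T ∩ Ioo s u).ncard < n := by
          rw [← hn]
          refine ncard_lt_ncard ⟨inter_subset_inter_right _ (Ioo_subset_Ioo_right hu.2.le), ?_⟩
            (hTf.inter_of_left _)
          intro hsub
          exact lt_irrefl _ (hsub ⟨huT, hu⟩).2.2
        have l2 : (T ∩ Ioo u t).ncard < n := by
          rw [← hn]
          refine ncard_lt_ncard ⟨inter_subset_inter_right _ (Ioo_subset_Ioo_left hu.1.le), ?_⟩
            (hTf.inter_of_left _)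
          intro hsub
          exact lt_irrefl _ (hsub ⟨huT, hu⟩).2.1
        exact (ih _ l1 s hs u huT hu.1 rfl).trans (ih _ l2 u huT t ht hu.2 rfl)
      · obtain ⟨hs1, z, hz, hza, hzb, he⟩ := hs
        obtain ⟨ht1, z', hz', hza', hzb', he'⟩ := ht
        rw [← he, ← he']
        have m1 : G z ∈ segment ℝ (G z₀) (G z₁) := he ▸ hseg s hs1
        have m2 : G z' ∈ segment ℝ (G z₀) (G z₁) := he' ▸ hseg t ht1
        refine h.consec hz hza hzb hz' hza' hzb' ?_ (hc _ m1) (hc _ m2) (htr z hz hza hzb m1)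
          (htr z' hz' hza' hzb' m2) ?_
        · rw [he, he']
          exact fun h0 => hst.ne (hinj _ _ h0)
        · intro w hw hwa hwb hws
          rw [segment_eq_image'] at hws
          obtain ⟨θ, hθ, hw'⟩ := hws
          have e : G w = y₀ + (s + θ * (t - s)) • d := by
            rw [← hw', he, he']
            simp only [add_smul, mul_smul, sub_smul, add_sub_add_left_eq_sub]
            abel
          have b1 : s ≤ s + θ * (t - s) := by nlinarith [hθ.1]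
          have b2 : s + θ * (t - s) ≤ t := by nlinarith [hθ.2]
          rcases b1.eq_or_lt with c1 | c1
          · left; rw [e, ← c1, he]
          rcases b2.eq_or_lt with c2 | c2
          · right; rw [e, c2, he']
          exact absurd ⟨_, ⟨⟨hs1.1.trans b1, b2.trans ht1.2⟩, w, hw, hwa, hwb, e⟩, c1, c2⟩ hex
  have := key _ 0 ⟨⟨le_rfl, zero_le_one⟩, z₀, hz₀, ha₀, hb₀, by simp [hy₀]⟩ 1
    ⟨⟨zero_le_one, le_rfl⟩, z₁, hz₁, ha₁, hb₁, by simp [hd, hy₀]⟩ zero_lt_one rfl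
  simpa [hd, hy₀] using this

end Line

end Pool.Agent.Lib.Quad.Connect
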