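import Pool.Agent.Lib.MP_31e762_gt.ConnArr

/-! Any two transverse triple points give the same class. -/

namespace Pool.Agent.Lib.Quad

open scoped ContDiff RealInnerProductSpace Topology
open Metric Set Function Filter

namespace Connect

theorem par {a b P : E} (h : cross a b ≠ 0) (ha : ⟪a, P⟫ = 0) (hb : ⟪b, P⟫ = 0) :
    ∃ t : ℝ, P = t • cross a b := by
  rw [← cross_eq_zero_iff h, cross_cross_right, real_inner_comm b, real_inner_comm a, ha, hb]
  simp

theorem cross_add_v (y q v : E) (t : ℝ) : cross (y + t • v - q) v = cross (y - q) v := by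
  rw [show y + t • v - q = (y - q) + t • v by abel, cross_add_left, cross_smul_left, cross_self,
    smul_zero, add_zero]

theorem vd_inj {f : E → E} {D : Set E} {v : E} (h : VD f D v) (χ : E → ℝ) {z z' : E} (hz : z ∈ S)
    (hz' : z' ∈ S) (hD : z ∈ D) (hD' : z' ∈ D) (he : vm f χ v z = vm f χ v z') : z = z' := by
  refine h.2.2 z' hz' z hz hD' hD (χ z' - χ z) ?_
  simp only [vm] at he
  rw [sub_smul, ← add_sub_assoc, ← he]; abel

theorem tilt_i4 {f : E → E} {x x' : Fin 3 → E} {q q' : E} {ν ν' : Fin 3 → E} {ρ r : ℝ}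
    (hf : I4 f) (hA : Arr f x x' q q' ν ν' ρ r) (hq : TT f x q) (hne : q ≠ q')
    (hdet' : det3 (ν' 0) (ν' 1) (ν' 2) ≠ 0)
    (g3 : ∀ j k, j ≠ k → det3 (q' - q) (cross (ν 0) (ν 1)) (cross (ν' j) (ν' k)) ≠ 0)
    {χ ψ : E → ℝ} (hχ : ContDiff ℝ ∞ χ) (hs : tsupport χ ⊆ ball (x 0) ρ ∪ ball (x 1) ρ)
    (hχψ : ∀ z ∈ S, z ∈ ball (x 0) ρ ∪ ball (x 1) ρ → χ z = ψ (f z))
    (ψi : ∀ (y : E) (t : ℝ), ψ (y + t • (q' - q)) = ψ y)
    (ψ0 : ∀ y, r < ‖cross (y - q) (q' - q)‖ → ψ y = 0) (ψq : ψ q = 0) :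
    I4 (vm f χ (q' - q)) := by
  set v := q' - q with hv
  set G := vm f χ v with hG
  have out : ∀ z, z ∉ ball (x 0) ρ ∪ ball (x 1) ρ → G z = f z := fun z hz =>
    (vm_eventuallyEq f v fun h => hz (hs h)).eq_of_nhds
  refine ⟨vm_imm hf.1 hχ fun z hz hzs => ?_, fun y => ?_⟩
  · rcases hs hzs with h | h
    · exact (hA.vd 0).2.1 z hz h
    · exact (hA.vd 1).2.1 z hz h
  by_cases hy : ‖cross (y - q) v‖ ≤ r
  swap
  · refine (encard_le_encard ?_).trans (hf.2 y)
    rintro z ⟨hz, rfl⟩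
    refine ⟨hz, ?_⟩
    by_cases hzD : z ∈ ball (x 0) ρ ∪ ball (x 1) ρ
    · have : χ z = 0 := by
        rw [hχψ z hz hzD]
        apply ψ0
        rw [← cross_add_v (f z) q v (χ z)]
        exact not_le.1 hy
      simp [hG, vm, this]
    · exact (out z hzD).symm
  set A := fib G (S ∩ ball (x 0) ρ) y
  set B := fib G (S ∩ ball (x 1) ρ) y
  set T := fib f (S \ (ball (x 0) ρ ∪ ball (x 1) ρ)) y
  have hsub : fib G S y ⊆ A ∪ B ∪ T := by
    rintro z ⟨hz, he⟩
    by_cases hzD : z ∈ ball (x 0) ρ ∪ ball (x 1) ρ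
    · rcases hzD with h | h
      · exact Or.inl (Or.inl ⟨⟨hz, h⟩, he⟩)
      · exact Or.inl (Or.inr ⟨⟨hz, h⟩, he⟩)
    · exact Or.inr ⟨⟨hz, hzD⟩, (out z hzD).symm.trans he⟩
  have tot : (fib G S y).encard ≤ A.encard + B.encard + T.encard :=
    (encard_le_encard hsub).trans ((encard_union_le _ _).trans
      (add_le_add (encard_union_le _ _) le_rfl))
  have eA : A.encard ≤ 1 := encard_le_one_iff_subsingleton.2 fun z hz z' hz' =>
    vd_inj (hA.vd 0) χ hz.1.1 hz'.1.1 hz.1.2 hz'.1.2 (hz.2.trans hz'.2.symm)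
  have eB : B.encard ≤ 1 := encard_le_one_iff_subsingleton.2 fun z hz z' hz' =>
    vd_inj (hA.vd 1) χ hz.1.1 hz'.1.1 hz.1.2 hz'.1.2 (hz.2.trans hz'.2.symm)
  have eT : T.encard ≤ 3 :=
    (encard_le_encard fun z hz => (⟨hz.1.1, hz.2⟩ : z ∈ fib f S y)).trans (hf.2 y)
  have notop : ∀ i, ∀ z ∈ S, z ∈ ball (x i) ρ → z ∈ ball (x 0) ρ ∪ ball (x 1) ρ → G z ≠ q' := by
    intro i z hz hzi hzD he
    have e1 : f z + χ z • v = q' := he
    have e2 : z = x i := (hA.vd i).2.2 _ (hq.1 i) z hz (mem_ball_self hA.ρ0) hzi (1 - χ z) (by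
      rw [hq.2.2.1 i, sub_smul, one_smul, eq_sub_of_add_eq e1, hv]; abel)
    rw [hχψ z hz hzD, e2, hq.2.2.1 i, ψq, zero_smul, add_zero] at e1
    exact hne e1
  have emp : y = q' → A = ∅ ∧ B = ∅ := by
    intro hyq
    constructor
    · rw [eq_empty_iff_forall_notMem]
      exact fun z hz => notop 0 z hz.1.1 hz.1.2 (Or.inl hz.1.2) (hz.2.trans hyq)
    · rw [eq_empty_iff_forall_notMem]
      exact fun z hz => notop 1 z hz.1.1 hz.1.2 (Or.inr hz.1.2) (hz.2.trans hyq)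
  have prim : ∀ z ∈ T, ∀ z' ∈ T, z ≠ z' → ∃ j, z ∈ ball (x' j) ρ := by
    rintro z ⟨⟨hz, hzD⟩, he⟩ z' ⟨⟨hz', hzD'⟩, he'⟩ hzz
    simp only [mem_union, not_or] at hzD hzD'
    by_contra hcon
    push Not at hcon
    by_cases h' : ∃ j, z' ∈ ball (x' j) ρ
    · obtain ⟨j, hj⟩ := h'
      obtain ⟨k, hk⟩ := hA.top z hz hzD.1 hzD.2 (he ▸ hy) j
        (by rw [he, ← he']; exact hA.fl' j z' hj)
      exact hcon k hk
    · push Not at h'
      exact hzz (hA.one z hz z' hz' hzD.1 hzD.2 hcon hzD'.1 hzD'.2 h' (he.trans he'.symm) (he ▸ hy))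
  have dist' : ∀ z ∈ T, ∀ z' ∈ T, z ≠ z' → ∀ j k, z ∈ ball (x' j) ρ → z' ∈ ball (x' k) ρ →
      j ≠ k := by
    rintro z hz z' hz' hzz j k hj hk rfl
    exact hzz ((hA.vd' j).2.2 z' hz'.1.1 z hz.1.1 hk hj 0 (by rw [hz.2, hz'.2]; simp))
  by_cases h1 : T.encard ≤ 1
  · exact tot.trans ((add_le_add (add_le_add eA eB) h1).trans (by norm_num))
  by_cases h2 : T.encard ≤ 2
  · have : A = ∅ ∨ B = ∅ := by
      by_contra hcon
      push Not at hcon
      obtain ⟨⟨za, hza⟩, zb, hzb⟩ := hcon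
      rw [encard_le_one_iff_subsingleton, not_subsingleton_iff] at h1
      obtain ⟨z, hz, z', hz', hzz⟩ := h1
      obtain ⟨j, hj⟩ := prim z hz z' hz' hzz
      obtain ⟨k, hk⟩ := prim z' hz' z hz hzz.symm
      have hjk := dist' z hz z' hz' hzz j k hj hk
      have p1 : ⟪ν' j, y - q'⟫ = 0 := hz.2 ▸ hA.fl' j z hj
      have p2 : ⟪ν' k, y - q'⟫ = 0 := hz'.2 ▸ hA.fl' k z' hk
      have ea : f za + χ za • v = y := hza.2
      have eb : f zb + χ zb • v = y := hzb.2
      have sa : χ za = ψ y := by rw [hχψ za hza.1.1 (Or.inl hza.1.2), ← ea, ψi]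
      have sb : χ zb = ψ y := by rw [hχψ zb hzb.1.1 (Or.inr hzb.1.2), ← eb, ψi]
      have p3 := hA.fl 0 za hza.1.2
      have p4 := hA.fl 1 zb hzb.1.2
      rw [eq_sub_of_add_eq ea, sa] at p3
      rw [eq_sub_of_add_eq eb, sb] at p4
      have hd := g3 j k hjk
      have c1 : cross (ν 0) (ν 1) ≠ 0 := by
        intro h0; apply hd; rw [h0]; simp [det3]
      have c2 : cross (ν' j) (ν' k) ≠ 0 := by
        intro h0; apply hd; rw [h0]; simp [det3]
      obtain ⟨s, hs'⟩ := par c1 p3 p4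
      obtain ⟨t, ht⟩ := par c2 p1 p2
      have e : y - q' = s • cross (ν 0) (ν 1) + (ψ y - 1) • v := by
        rw [← hs', sub_smul, one_smul, hv]; abel
      have e2 : ⟪cross v (cross (ν 0) (ν 1)), y - q'⟫ = 0 := by
        rw [e, inner_add_right, real_inner_smul_right, real_inner_smul_right, inner_cross_left,
          inner_cross_right]
        simp
      rw [ht, real_inner_smul_right] at e2
      have t0 : t = 0 := (mul_eq_zero.1 e2).resolve_right hd
      rw [t0, zero_smul, sub_eq_zero] at ht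
      rw [(emp ht).1] at hza
      exact hza
    rcases this with h | h
    · rw [h, encard_empty, zero_add] at tot
      exact tot.trans ((add_le_add eB h2).trans (by norm_num))
    · rw [h, encard_empty, add_zero] at tot
      exact tot.trans ((add_le_add eA h2).trans (by norm_num))
  · have h3 := mt (encard_le_iff (s := T) (k := 2)).2 h2
    push Not at h3
    obtain ⟨Z, hZ, hZi⟩ := h3
    have hp : ∀ i, ∃ j, Z i ∈ ball (x' j) ρ := fun i =>
      prim _ (hZ i) _ (hZ (i + 1)) (hZi.ne (by fin_cases i <;> decide))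
    choose J hJ using hp
    have hJi : Injective J := fun i i' hii => by
      by_contra hne'
      exact dist' _ (hZ i) _ (hZ i') (hZi.ne hne') _ _ (hJ i) (hJ i') hii
    have pl : ∀ j, ⟪ν' j, y - q'⟫ = 0 := by
      intro j
      obtain ⟨i, rfl⟩ := (Finite.injective_iff_surjective.1 hJi) j
      exact (hZ i).2 ▸ hA.fl' _ _ (hJ i)
    have := emp (sub_eq_zero.1 (eq_zero_of_inner3 hdet' (pl 0) (pl 1) (pl 2)))
    rw [this.1, this.2, encard_empty, zero_add, zero_add] at tot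
    exact tot.trans eT

theorem det3_cyc (a b c : E) : det3 a b c = det3 b c a := by
  simp only [det3_eq]; ring

theorem det3_swap (a b c : E) : det3 a b c = -det3 a c b := by
  simp only [det3_eq]; ring

theorem det3_smul3 (t : ℝ) (a b c : E) : det3 a b (t • c) = t * det3 a b c := by
  rw [det3, real_inner_smul_right, det3]

theorem cross_ne_of_det3 {a b c : E} (h : det3 a b c ≠ 0) : cross a b ≠ 0 := by
  intro h0; apply h; rw [det3, h0, inner_zero_left]

theorem convex_plane (N p : E) : Convex ℝ {y : E | ⟪N, y - p⟫ = 0} := by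
  intro y hy y' hy' a b _ _ hab
  have e : a • y + b • y' - p = a • (y - p) + b • (y' - p) := by
    rw [smul_sub, smul_sub]
    conv_lhs => rw [← one_smul ℝ p, ← hab, add_smul]
    abel
  simp only [mem_ofPred_eq] at hy hy' ⊢
  rw [e, inner_add_right, real_inner_smul_right, real_inner_smul_right, hy, hy']
  simp

theorem convex_core (q v : E) (r : ℝ) : Convex ℝ {y : E | ‖cross (y - q) v‖ < r} := by
  intro y hy y' hy' a b ha hb hab
  have e : a • y + b • y' - q = a • (y - q) + b • (y' - q) := by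
    rw [smul_sub, smul_sub]
    conv_lhs => rw [← one_smul ℝ q, ← hab, add_smul]
    abel
  simp only [mem_ofPred_eq] at hy hy' ⊢
  rw [e, cross_add_left, cross_smul_left, cross_smul_left, ← mem_ball_zero_iff]
  exact convex_ball 0 r (mem_ball_zero_iff.2 hy) (mem_ball_zero_iff.2 hy') ha hb hab

theorem Prep.conn {f : E → E} {x x' : Fin 3 → E} {q q' : E} (h : Prep f x x' q q') :
    Conn f q q' := by
  obtain ⟨ρ, r, hA⟩ := h.arr
  have hf := h.i4.1.1
  have hfc := hf.continuous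
  have hr := hA.r0
  set v := q' - q with hv
  set ν : Fin 3 → E := fun i => nv (nrm f (x i)) v with hν
  set ν' : Fin 3 → E := fun i => nv (nrm f (x' i)) v with hν'
  have h1 : ∀ i, ⟪ν i, v⟫ = 1 := fun i => inner_nv (h.gen.g1 i)
  have h2 : ∀ i, ⟪ν' i, v⟫ = 1 := fun i => inner_nv (h.gen.g2 i)
  have i1 : ∀ i, ⟪nrm f (x i), v⟫⁻¹ ≠ 0 := fun i => inv_ne_zero (h.gen.g1 i)
  have i2 : ∀ i, ⟪nrm f (x' i), v⟫⁻¹ ≠ 0 := fun i => inv_ne_zero (h.gen.g2 i)
  have hΔ : det3 (ν 0) (ν 1) (ν 2) ≠ 0 := by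
    simp only [hν, nv, det3_smul]
    exact mul_ne_zero (mul_ne_zero (mul_ne_zero (i1 0) (i1 1)) (i1 2)) h.tt.2.2.2
  have hΔ' : det3 (ν' 0) (ν' 1) (ν' 2) ≠ 0 := by
    simp only [hν', nv, det3_smul]
    exact mul_ne_zero (mul_ne_zero (mul_ne_zero (i2 0) (i2 1)) (i2 2)) h.tt'.2.2.2
  have g3 : ∀ j k, j ≠ k → det3 v (cross (ν 0) (ν 1)) (cross (ν' j) (ν' k)) ≠ 0 := by
    intro j k hjk
    have := h.gen.g3 j k hjk
    simp only [hν, hν', nv, det3, cross_smul_left, cross_smul_right, real_inner_smul_left,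
      real_inner_smul_right] at this ⊢
    exact mul_ne_zero (i2 _) (mul_ne_zero (i2 _) (mul_ne_zero (i1 _) (mul_ne_zero (i1 _) this)))
  have g4 : ∀ j k, j ≠ k → ⟪ν 2 - ν 0, cross (ν' j) (ν' k)⟫ ≠ 0 := by
    intro j k hjk
    have := h.gen.g4 j k hjk
    simp only [hν', nv, cross_smul_left, cross_smul_right, real_inner_smul_right]
    exact mul_ne_zero (i2 _) (mul_ne_zero (i2 _) this)
  obtain ⟨m, u₁, u₂, hm, hfam, n1, n2, n3, a1, b1, c1, a2, b2, c2, d1, d2, d3⟩ :=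
    exists_tilt h1 h2 hΔ (g4 0 1 (by decide)) (g4 0 2 (by decide)) hr
  -- the tilting function
  set ψ : E → ℝ := fun y => cut (‖cross (y - q) v‖ ^ 2 / r ^ 2) * ⟪m, y - q⟫ with hψ
  have ψs : ContDiff ℝ ∞ ψ := by
    refine ContDiff.mul ?_ (contDiff_const.inner ℝ (contDiff_id.sub contDiff_const))
    refine Real.smoothTransition.contDiff.comp (contDiff_const.sub (contDiff_const.mul
      (ContDiff.div_const (ContDiff.norm_sq ℝ ?_) _)))
    fun_prop
  have ψi : ∀ (y : E) (t : ℝ), ψ (y + t • v) = ψ y := by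
    intro y t
    simp only [hψ, cross_add_v]
    rw [show y + t • v - q = (y - q) + t • v by abel, inner_add_right, real_inner_smul_right, hm]
    simp
  have ψ0 : ∀ y, r < ‖cross (y - q) v‖ → ψ y = 0 := by
    intro y hy
    have : 1 ≤ ‖cross (y - q) v‖ ^ 2 / r ^ 2 := by
      rw [one_le_div (by positivity)]; gcongr
    simp only [hψ, cut]
    rw [Real.smoothTransition.zero_of_nonpos (by linarith), zero_mul]
  have ψ1 : ∀ y, ‖cross (y - q) v‖ < r / 2 → ψ y = ⟪m, y - q⟫ := by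
    intro y hy
    have : ‖cross (y - q) v‖ ^ 2 / r ^ 2 ≤ 1 / 2 := by
      rw [div_le_iff₀ (by positivity)]
      nlinarith [norm_nonneg (cross (y - q) v)]
    simp only [hψ, cut]
    rw [Real.smoothTransition.one_of_one_le (by linarith), one_mul]
  have ψq : ψ q = 0 := by simp [hψ]
  obtain ⟨φ, φs, φsupp, -, -, φ1⟩ := exists_cutoff
    (K := closedBall (x 0) (ρ / 2) ∪ closedBall (x 1) (ρ / 2)) (U := ball (x 0) ρ ∪ ball (x 1) ρ)
    ((isCompact_closedBall _ _).union (isCompact_closedBall _ _)) (isOpen_ball.union isOpen_ball)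
    (union_subset_union (closedBall_subset_ball (half_lt_self hA.ρ0))
      (closedBall_subset_ball (half_lt_self hA.ρ0)))
  have half : ∀ i, ∀ z ∈ S, z ∈ ball (x i) ρ → ‖cross (f z - q) v‖ ≤ r → z ∈ ball (x i) (ρ / 2) := by
    intro i z hz hzi hc
    obtain ⟨z', hz', hz'', he⟩ := hA.cov i (f z) hc (hA.fl i z hzi)
    have : z' = z := (hA.vd i).2.2 z hz z' hz' hzi
      (ball_subset_ball (half_le_self hA.ρ0.le) hz'') 0 (by simpa using he)
    exact this ▸ hz''
  set χ : ℝ → E → ℝ := fun s z => φ z * (s * ψ (f z)) with hχ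
  have χs : ∀ s, ContDiff ℝ ∞ (χ s) := fun s => φs.mul (contDiff_const.mul (ψs.comp hf))
  have χsupp : ∀ s, tsupport (χ s) ⊆ ball (x 0) ρ ∪ ball (x 1) ρ := fun s =>
    (tsupport_mul_subset_left).trans φsupp
  have χψ : ∀ s, ∀ z ∈ S, z ∈ ball (x 0) ρ ∪ ball (x 1) ρ → χ s z = s * ψ (f z) := by
    intro s z hz hzD
    by_cases hc : ‖cross (f z - q) v‖ ≤ r
    · have : φ z = 1 := by
        refine (φ1 z ?_).eq_of_nhds
        rcases hzD with k | k
        · exact Or.inl (ball_subset_closedBall (half 0 z hz k hc))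
        · exact Or.inr (ball_subset_closedBall (half 1 z hz k hc))
      simp [hχ, this]
    · simp [hχ, ψ0 _ (not_le.1 hc)]
  set G : ℝ → E → E := fun s => vm f (χ s) v with hG
  have GI : ∀ s, I4 (G s) := fun s => tilt_i4 h.i4 hA h.tt h.ne hΔ' g3 (χs s) (χsupp s)
    (ψ := fun y => s * ψ y) (χψ s) (fun y t => by rw [ψi]) (fun y hy => by rw [ψ0 y hy, mul_zero])
    (by rw [ψq, mul_zero])
  have out : ∀ s z, z ∉ ball (x 0) ρ → z ∉ ball (x 1) ρ → G s =ᶠ[𝓝 z] f := fun s z k0 k1 =>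
    vm_eventuallyEq f v fun k => (χsupp s k).elim k0 k1
  set Core : Set E := {y | ‖cross (y - q) v‖ < r / 2} with hCore
  have hCo : IsOpen Core := isOpen_lt (by fun_prop) continuous_const
  have coreG : ∀ s z, G s z ∈ Core ↔ f z ∈ Core := by
    intro s z
    simp only [hCore, hG, vm, mem_ofPred_eq, cross_add_v]
  have core_le : ∀ y ∈ Core, ‖cross (y - q) v‖ ≤ r := fun y hy => by
    have : ‖cross (y - q) v‖ < r / 2 := hy
    linarith
  set D : Fin 3 → Set E := fun i => ball (x i) ρ ∩ f ⁻¹' Core with hD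
  have hDo : ∀ i, IsOpen (D i) := fun i => isOpen_ball.inter (hCo.preimage hfc)
  have hqC : q ∈ Core := by simp [hCore, hr]
  have mem01 : ∀ i : Fin 3, i ≠ 2 → ∀ z ∈ ball (x i) ρ, z ∈ ball (x 0) ρ ∪ ball (x 1) ρ := by
    intro i hi z hz
    fin_cases i
    · exact Or.inl hz
    · exact Or.inr hz
    · exact absurd rfl hi
  have flatD : ∀ s, ∀ i : Fin 3, i ≠ 2 → ∀ z ∈ S, z ∈ D i → ⟪ν i - s • m, G s z - q⟫ = 0 := by
    intro s i hi z hz hzD
    have e : G s z - q = (f z - q) + (s * ⟪m, f z - q⟫) • v := by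
      simp only [hG, vm]
      rw [χψ s z hz (mem01 i hi z hzD.1), ψ1 _ hzD.2]; abel
    rw [e, inner_sub_left, inner_add_right, real_inner_smul_right, hA.fl i z hzD.1, h1,
      real_inner_smul_left, inner_add_right, real_inner_smul_right, hm]
    ring
  have nz : ∀ (s : ℝ) i, ν i - s • m ≠ 0 := by
    intro s i h0
    have := congrArg (fun u => ⟪u, v⟫) h0
    simp only [inner_sub_left, real_inner_smul_left, h1, hm] at this
    simp at this
  have nrmD : ∀ s, ∀ i : Fin 3, i ≠ 2 → ∀ z ∈ S, z ∈ D i →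
      ∃ t : ℝ, t ≠ 0 ∧ nrm (G s) z = t • (ν i - s • m) := fun s i hi z hz hzD =>
    nrm_flat (GI s).1 (hDo i) (nz s i) (flatD s i hi) hz hzD
  have xD : ∀ i, x i ∈ D i := fun i =>
    ⟨mem_ball_self hA.ρ0, by rw [mem_preimage, h.tt.2.2.1 i]; exact hqC⟩
  have x2a : x 2 ∉ ball (x 0) ρ := fun k =>
    disjoint_left.1 (hA.d1 0 2 (by decide)) k (mem_ball_self hA.ρ0)
  have x2b : x 2 ∉ ball (x 1) ρ := fun k =>
    disjoint_left.1 (hA.d1 1 2 (by decide)) k (mem_ball_self hA.ρ0)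
  have pa : ∀ i j, ∀ z ∈ ball (x' j) ρ, z ∉ ball (x i) ρ := fun i j z hz k =>
    disjoint_left.1 (hA.d2 i j) k hz
  have outp : ∀ s j, ∀ z ∈ ball (x' j) ρ, G s =ᶠ[𝓝 z] f := fun s j z hz =>
    out s z (pa 0 j z hz) (pa 1 j z hz)
  have hsame : Same (G 0) (G 1) q q' := by
    refine same_family (x := x) (x' := x') ?_ fun s hs => ⟨GI s, ⟨h.tt.1, h.tt.2.1, fun i => ?_, ?_⟩,
      h.tt'.1, h.tt'.2.1, fun i => ?_, ?_⟩
    · have k1 : ContDiff ℝ ∞ fun p : ℝ × E => f p.2 := hf.comp contDiff_snd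
      have k2 : ContDiff ℝ ∞ fun p : ℝ × E => φ p.2 := φs.comp contDiff_snd
      have k3 : ContDiff ℝ ∞ fun p : ℝ × E => ψ (f p.2) := ψs.comp k1
      exact k1.add ((k2.mul (contDiff_fst.mul k3)).smul contDiff_const)
    · simp [hG, vm, hχ, h.tt.2.2.1 i, ψq]
    · obtain ⟨t0, ht0, e0⟩ := nrmD s 0 (by decide) _ (h.tt.1 0) (xD 0)
      obtain ⟨t1, ht1, e1⟩ := nrmD s 1 (by decide) _ (h.tt.1 1) (xD 1)
      rw [e0, e1, nrm_congr_ev (out s _ x2a x2b), smul_nv (h.gen.g1 2), det3_smul]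
      exact mul_ne_zero (mul_ne_zero (mul_ne_zero ht0 ht1) (h.gen.g1 2)) (hfam s hs)
    · rw [(outp s i _ (mem_ball_self hA.ρ0)).eq_of_nhds, h.tt'.2.2.1 i]
    · simp only [fun i => nrm_congr_ev (outp s i _ (mem_ball_self hA.ρ0))]
      exact h.tt'.2.2.2
  have G0 : G 0 = f := by
    funext z; simp [hG, vm, hχ]
  rw [G0] at hsame
  refine hsame.conn ?_
  -- the arrangement after the tilt
  have flat1 := flatD 1
  have nrm1 := nrmD 1
  have det1 := hfam 1 ⟨zero_le_one, le_rfl⟩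
  simp only [one_smul] at flat1 nrm1 det1
  set g := G 1 with hg
  have gI : I4 g := GI 1
  have injD : ∀ i, ∀ z ∈ S, ∀ z' ∈ S, z ∈ D i → z' ∈ D i → g z = g z' → z = z' :=
    fun i z hz z' hz' k k' he => vd_inj (hA.vd i) (χ 1) hz hz' k.1 k'.1 he
  have injP : ∀ i, ∀ z ∈ S, ∀ z' ∈ S, z ∈ ball (x' i) ρ → z' ∈ ball (x' i) ρ → g z = g z' →
      z = z' := fun i z hz z' hz' k k' he => vd_inj (hA.vd' i) (χ 1) hz hz' k k' he
  have flatP : ∀ i, ∀ z ∈ S, z ∈ ball (x' i) ρ → ⟪ν' i, g z - q'⟫ = 0 := fun i z _ k => by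
    rw [hg, (outp 1 i z k).eq_of_nhds]; exact hA.fl' i z k
  have nrmP : ∀ i, ∀ z ∈ S, z ∈ ball (x' i) ρ → ∃ t : ℝ, t ≠ 0 ∧ nrm g z = t • ν' i :=
    fun i z hz k => nrm_flat gI.1 isOpen_ball
      (fun h0 => by simpa [h0] using h2 i) (flatP i) hz k
  have covD : ∀ i : Fin 3, i ≠ 2 → ∀ y ∈ Core, ⟪ν i - m, y - q⟫ = 0 →
      ∃ z ∈ S, z ∈ D i ∧ g z = y := by
    intro i hi y hy h0
    have hy' : y + (-⟪m, y - q⟫) • v ∈ Core := by
      simp only [hCore, mem_ofPred_eq, cross_add_v]; exact hy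
    obtain ⟨z, hz, hz', he⟩ := hA.cov i _ (core_le _ hy') (by
      rw [show y + (-⟪m, y - q⟫) • v - q = (y - q) + (-⟪m, y - q⟫) • v by abel, inner_add_right,
        real_inner_smul_right, h1]
      rw [inner_sub_left] at h0
      linarith)
    have hzb := ball_subset_ball (half_le_self hA.ρ0.le) hz'
    refine ⟨z, hz, ⟨hzb, by rw [mem_preimage, he]; exact hy'⟩, ?_⟩
    simp only [hg, hG, vm]
    rw [χψ 1 z hz (mem01 i hi z hzb), he, ψi, ψ1 y hy, one_mul, neg_smul]; abel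
  have covP : ∀ i, ∀ y ∈ Core, ⟪ν' i, y - q'⟫ = 0 → ∃ z ∈ S, z ∈ ball (x' i) ρ ∧ g z = y := by
    intro i y hy h0
    obtain ⟨z, hz, hz', he⟩ := hA.cov' i y (core_le _ hy) h0
    exact ⟨z, hz, hz', (outp 1 i z hz').eq_of_nhds.trans he⟩
  have cls : ∀ z, g z ∈ Core → z ∈ D 0 ∨ z ∈ D 1 ∨ (z ∉ ball (x 0) ρ ∧ z ∉ ball (x 1) ρ) := by
    intro z hz
    by_cases k0 : z ∈ ball (x 0) ρ
    · exact Or.inl ⟨k0, (coreG 1 z).1 hz⟩
    by_cases k1 : z ∈ ball (x 1) ρ
    · exact Or.inr (Or.inl ⟨k1, (coreG 1 z).1 hz⟩)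
    exact Or.inr (Or.inr ⟨k0, k1⟩)
  have cls' : ∀ z ∈ S, g z ∈ Core → ⟪ν' 0, g z - q'⟫ = 0 →
      z ∈ D 0 ∨ z ∈ D 1 ∨ ∃ j, z ∈ ball (x' j) ρ := by
    intro z hz hc h0
    rcases cls z hc with k | k | k
    · exact Or.inl k
    · exact Or.inr (Or.inl k)
    · have e : g z = f z := (out 1 z k.1 k.2).eq_of_nhds
      rw [e] at hc h0
      exact Or.inr (Or.inr (hA.top z hz k.1 k.2 (core_le _ hc) 0 h0))
  have cC : Convex ℝ Core := convex_core q v (r / 2)
  have e1 : q' + u₁ - q = v + u₁ := by rw [hv]; abel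
  have e2 : q' + u₂ - q = v + u₂ := by rw [hv]; abel
  have P1C : q' + u₁ ∈ Core := by
    simp only [hCore, mem_ofPred_eq, e1, cross_add_left, cross_self, zero_add]; exact n2
  have P2C : q' + u₂ ∈ Core := by
    simp only [hCore, mem_ofPred_eq, e2, cross_add_left, cross_self, zero_add]; exact n3
  have hqC' : q' ∈ Core := by simp [hCore, ← hv, hr]
  have cab := cross_ne_of_det3 det1
  obtain ⟨τ, hτ⟩ := par cab a1 b1
  have dab : ∀ n : E, ⟪n, v + u₁⟫ ≠ 0 → det3 (ν 0 - m) (ν 1 - m) n ≠ 0 := by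
    intro n hn h0
    apply hn
    rw [hτ, real_inner_smul_right, real_inner_comm]
    exact mul_eq_zero_of_right _ h0
  -- the points realising the vertices
  obtain ⟨z₁, hz₁, k₁, he₁⟩ := covP 0 _ P1C (by simpa using c1)
  obtain ⟨w₁, hw₁, l₁, hf₁⟩ := covD 1 (by decide) _ P1C (by rw [e1]; exact b1)
  obtain ⟨z₂, hz₂, k₂, he₂⟩ := covP 1 _ P2C (by simpa using c2)
  obtain ⟨w₂, hw₂, l₂, hf₂⟩ := covD 0 (by decide) _ P2C (by rw [e2]; exact a2)
  have gq : g (x 2) = q := (out 1 _ x2a x2b).eq_of_nhds.trans (h.tt.2.2.1 2)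
  have gq' : g (x' 2) = q' := (outp 1 2 _ (mem_ball_self hA.ρ0)).eq_of_nhds.trans (h.tt'.2.2.1 2)
  have dD : Disjoint (D 0) (D 1) :=
    (hA.d1 0 1 (by decide)).mono inter_subset_left inter_subset_left
  have s1 : Conn g q (q' + u₁) := by
    have T : Two g (D 0) (D 1) (ν 0 - m) (ν 1 - m) q :=
      ⟨gI, hDo 0, hDo 1, dD, cab, flat1 0 (by decide), flat1 1 (by decide), injD 0, injD 1⟩
    have := T.conn (h.tt.1 2) (fun k => x2a k.1) (fun k => x2b k.1) hz₁ (fun k => pa 0 0 _ k₁ k.1)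
      (fun k => pa 1 0 _ k₁ k.1)
    rw [gq, he₁] at this
    refine this (fun y hy => ?_) fun w hw k0 k1 hy => ?_
    · have hyC := cC.segment_subset hqC P1C hy
      exact ⟨covD 0 (by decide) y hyC ((convex_plane _ q).segment_subset (by simp)
        (by rw [mem_ofPred_eq, e1]; exact a1) hy), covD 1 (by decide) y hyC
        ((convex_plane _ q).segment_subset (by simp) (by rw [mem_ofPred_eq, e1]; exact b1) hy)⟩
    · have hyC := cC.segment_subset hqC P1C hy
      rcases cls w hyC with k | k | k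
      · exact absurd k k0
      · exact absurd k k1
      · apply dab
        rw [nrm_congr_ev (out 1 w k.1 k.2)]
        exact hA.tr w hw (core_le _ ((coreG 1 w).1 hyC)) u₁ n1
  have s2 : Conn g (q' + u₁) (q' + u₂) := by
    have pl1 : ∀ y, ⟪ν 0 - m, y - (q' + u₁)⟫ = ⟪ν 0 - m, y - q⟫ := by
      intro y
      rw [show y - q = y - (q' + u₁) + (q' + u₁ - q) by abel, inner_add_right, e1, a1, add_zero]
    have pl2 : ∀ y, ⟪ν' 0, y - (q' + u₁)⟫ = ⟪ν' 0, y - q'⟫ := by
      intro y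
      rw [show y - q' = y - (q' + u₁) + u₁ by abel, inner_add_right, c1, add_zero]
    have T : Two g (D 0) (ball (x' 0) ρ) (ν 0 - m) (ν' 0) (q' + u₁) :=
      ⟨gI, hDo 0, isOpen_ball, (hA.d2 0 0).mono_left inter_subset_left, cross_ne_of_det3 d1,
        fun z hz k => by rw [pl1]; exact flat1 0 (by decide) z hz k,
        fun z hz k => by rw [pl2]; exact flatP 0 z hz k, injD 0, injP 0⟩
    have := T.conn hw₁ (fun k => disjoint_left.1 dD k l₁) (fun k => pa 1 0 _ k l₁.1) hz₂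
      (fun k => pa 0 1 _ k₂ k.1) (fun k => disjoint_left.1 (hA.d3 0 1 (by decide)) k k₂)
    rw [hf₁, he₂] at this
    have onP : ∀ y ∈ segment ℝ (q' + u₁) (q' + u₂), ⟪ν' 0, y - q'⟫ = 0 := fun y hy =>
      (convex_plane _ q').segment_subset (by simpa using c1) (by simpa using b2) hy
    refine this (fun y hy => ?_) fun w hw k0 k1 hy => ?_
    · have hyC := cC.segment_subset P1C P2C hy
      exact ⟨covD 0 (by decide) y hyC ((convex_plane _ q).segment_subset
        (by rw [mem_ofPred_eq, e1]; exact a1) (by rw [mem_ofPred_eq, e2]; exact a2) hy),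
        covP 0 y hyC (onP y hy)⟩
    · rcases cls' w hw (cC.segment_subset P1C P2C hy) (onP _ hy) with k | k | ⟨j, k⟩
      · exact absurd k k0
      · obtain ⟨t, ht, e⟩ := nrm1 1 (by decide) w hw k
        rw [e, det3_smul3, det3_swap]
        refine mul_ne_zero ht (neg_ne_zero.2 (dab _ ?_))
        rw [inner_add_right, h2, c1]; norm_num
      · obtain ⟨t, ht, e⟩ := nrmP j w hw k
        rw [e, det3_smul3]
        refine mul_ne_zero ht ?_
        fin_cases j
        · exact absurd k k1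
        · exact d1
        · exact d2
  have s3 : Conn g (q' + u₂) q' := by
    have T : Two g (ball (x' 0) ρ) (ball (x' 1) ρ) (ν' 0) (ν' 1) q' :=
      ⟨gI, isOpen_ball, isOpen_ball, hA.d3 0 1 (by decide), cross_ne_of_det3 hΔ', flatP 0, flatP 1,
        injP 0, injP 1⟩
    have := T.conn hw₂ (fun k => pa 0 0 _ k l₂.1) (fun k => pa 0 1 _ k l₂.1) (h.tt'.1 2)
      (fun k => disjoint_left.1 (hA.d3 0 2 (by decide)) k (mem_ball_self hA.ρ0))
      (fun k => disjoint_left.1 (hA.d3 1 2 (by decide)) k (mem_ball_self hA.ρ0))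
    rw [hf₂, gq'] at this
    have onP : ∀ y ∈ segment ℝ (q' + u₂) q', ⟪ν' 0, y - q'⟫ = 0 := fun y hy =>
      (convex_plane _ q').segment_subset (by simpa using b2) (by simp) hy
    refine this (fun y hy => ?_) fun w hw k0 k1 hy => ?_
    · have hyC := cC.segment_subset P2C hqC' hy
      exact ⟨covP 0 y hyC (onP y hy), covP 1 y hyC
        ((convex_plane _ q').segment_subset (by simpa using c2) (by simp) hy)⟩
    · rcases cls' w hw (cC.segment_subset P2C hqC' hy) (onP _ hy) with k | k | ⟨j, k⟩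
      · obtain ⟨t, ht, e⟩ := nrm1 0 (by decide) w hw k
        rw [e, det3_smul3, ← det3_cyc]
        exact mul_ne_zero ht d1
      · obtain ⟨t, ht, e⟩ := nrm1 1 (by decide) w hw k
        rw [e, det3_smul3]
        exact mul_ne_zero ht d3
      · obtain ⟨t, ht, e⟩ := nrmP j w hw k
        rw [e, det3_smul3]
        refine mul_ne_zero ht ?_
        fin_cases j
        · exact absurd k k0
        · exact absurd k k1
        · exact hΔ'
  exact (s1.trans s2).trans s3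

end Connect

/-- The class obtained by crossing a transverse triple point does not depend on the point. -/
theorem tau_connect {f γ : E → E} {x x' : Fin 3 → E} {q q' : E} (hf : I4 f) (hq : TT f x q)
    (hq' : TT f x' q') (h : Tau f q 1 γ) : Tau f q' 1 γ := by
  by_cases hne : q = q'
  · exact hne ▸ h
  obtain ⟨g, hg, hs⟩ := Connect.exists_prep hf hq hq' hne
  exact (hs.conn hg.conn γ).1 h

end Pool.Agent.Lib.Quad
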