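import Pool.Agent.Lib.MP_31e762_gt.FiveTip

/-! Crossing a transverse triple point from either side gives the same class. -/

namespace Pool.Agent.Lib.Quad

open scoped ContDiff RealInnerProductSpace Topology
open Metric Set Function Filter

namespace Five

theorem tip_tsupport (g : E → E) (β : E → ℝ) (ν q v : E) (a θ : ℝ) :
    tsupport (fun x => θ * tip g β ν q v a x) ⊆ tsupport β :=
  closure_mono fun x hx h0 => hx (by simp [tip, h0])

theorem vm_comm (g : E → E) (χ χ' : E → ℝ) (v v' : E) :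
    vm (vm g χ v) χ' v' = vm (vm g χ' v') χ v := by
  funext x; simp only [vm]; abel

theorem nu_smul (n : Fin 3 → E) (c : ℝ) (i : Fin 5) : nu (fun k => c • n k) i = c • nu n i := by
  fin_cases i <;> simp [nu, smul_add, smul_comm c]

theorem two_fingers {g : E → E} {x : Fin 3 → E} {q w v₀ : E} {n : Fin 3 → E} {B : Fin 3 → Set E}
    {ρ d s : ℝ} {bD bE : E} (hg : I4 g) (hq : TT g x q) (hdet : det3 (n 0) (n 1) (n 2) ≠ 0)
    (hv₀ : ∀ k, ⟪n k, v₀⟫ = 1) (hw0 : ⟪n 0, w⟫ = 0) (hw1 : ⟪n 1, w⟫ = 1) (hw2 : ⟪n 2, w⟫ = 1)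
    (hB : ∀ k, IsOpen (B k)) (hxB : ∀ k, x k ∈ B k) (hdisj : ∀ k l, k ≠ l → ∀ y ∈ B k, y ∉ B l)
    (hcov : ∀ y ∈ S, g y ∈ ball q ρ → ∃ k, y ∈ B k)
    (hinj : ∀ k, ∀ y ∈ S, ∀ y' ∈ S, y ∈ B k → y' ∈ B k → g y = g y' → y = y')
    (hd : 0 < d) (hflat : ∀ k, ∀ y ∈ S, y ∈ B k → ⟪n k, g y - q⟫ = 0 ∨
      (k = 0 ∧ d ≤ ‖g y - q‖ ∧ ⟪n 1, g y - q⟫ ≠ 0 ∧ ⟪n 2, g y - q⟫ ≠ 0))
    (hsgn : ∀ k, ∀ y ∈ S, y ∈ B k → ‖g y - q‖ < d → 0 < ⟪nrm g y, v₀⟫)
    (hs : 0 < s) (hsw : d < ‖s • w‖) (hsρ : ‖s • w‖ < ρ)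
    (hbD : bD ∈ S) (hbDB : bD ∈ B 0) (hgD : g bD + s • w = q) (hnD : ⟪nrm g bD, w⟫ < 0)
    (hbE : bE ∈ S) (hbEB : bE ∈ B 0) (hgE : g bE + (-s) • w = q) (hnE : ⟪nrm g bE, w⟫ < 0) :
    ∃ g₁ g₂, Tau g q 1 g₁ ∧ Tau g q (-1) g₂ ∧ Rel g₁ g₂ := by
  have hgs := hg.1.1
  have hgc := hgs.continuous
  have hνD : ∀ y, ⟪nu n 3, y⟫ = ⟪n 0, y⟫ + ⟪n 1, y⟫ + ⟪n 2, y⟫ := fun y => by
    rw [inner_nu]; simp [nuY]
  have hνE : ∀ y, ⟪nu n 4, y⟫ = ⟪n 0, y⟫ + 2 * ⟪n 1, y⟫ + 3 * ⟪n 2, y⟫ := fun y => by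
    rw [inner_nu]; simp [nuY]
  have hvD : ⟪nu n 3, s • w⟫ = 2 * s := by
    rw [real_inner_smul_right, hνD, hw0, hw1, hw2]; ring
  have hvE : ⟪nu n 4, (-s) • w⟫ = -5 * s := by
    rw [real_inner_smul_right, hνE, hw0, hw1, hw2]; ring
  have hvD' : ⟪nu n 3, s • w⟫ ≠ 0 := by rw [hvD]; positivity
  have hvE' : ⟪nu n 4, (-s) • w⟫ ≠ 0 := by rw [hvE]; nlinarith
  have hgD' : g bD - q = -(s • w) := by rw [← hgD]; abel
  have hgE' : g bE - q = s • w := by rw [← hgE]; simp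
  have htD : ⟪nrm g bD, s • w⟫ < 0 := by rw [real_inner_smul_right]; nlinarith
  have htE : 0 < ⟪nrm g bE, (-s) • w⟫ := by rw [real_inner_smul_right]; nlinarith
  obtain ⟨DD, βD, ηD, D1, D2, D3, D4, D5, D6, D7, D8, D9, D10⟩ := finger_data hgs hbD hgD htD.ne hvD'
    (V := B 0 ∩ {y | ⟪nu n 3, g y - q⟫ < 0 ∧ ⟪n 1, g y - q⟫ < 0 ∧ d < ‖g y - q‖})
    (inter_mem ((hB 0).mem_nhds hbDB) (IsOpen.mem_nhds
      (IsOpen.and (isOpen_lt (by fun_prop) continuous_const) (IsOpen.and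
        (isOpen_lt (by fun_prop) continuous_const) (isOpen_lt continuous_const (by fun_prop))))
      (by
        simp only [mem_ofPred_eq, hgD', inner_neg_right, hvD, real_inner_smul_right, hw1, norm_neg]
        exact ⟨by linarith, by linarith, hsw⟩))) hsρ
  obtain ⟨DE, βE, ηE, E1, E2, E3, E4, E5, E6, E7, E8, E9, E10⟩ := finger_data hgs hbE hgE htE.ne' hvE'
    (V := B 0 ∩ {y | 0 < ⟪nu n 4, g y - q⟫ ∧ 0 < ⟪n 1, g y - q⟫ ∧ d < ‖g y - q‖})
    (inter_mem ((hB 0).mem_nhds hbEB) (IsOpen.mem_nhds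
      (IsOpen.and (isOpen_lt continuous_const (by fun_prop)) (IsOpen.and
        (isOpen_lt continuous_const (by fun_prop)) (isOpen_lt continuous_const (by fun_prop))))
      (by
        simp only [mem_ofPred_eq, hgE', hνE, real_inner_smul_right, hw0, hw1, hw2]
        exact ⟨by linarith, by linarith, hsw⟩))) (ρ := ρ) (by simpa using hsρ)
  have hDE : ∀ y ∈ DD, y ∉ DE := fun y h1 h2 => by
    have := (D2 h1).2.2.1; have := (E2 h2).2.2.1; linarith
  -- the three old sheets fill their planes near `q`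
  have hsur : ∀ᶠ y in 𝓝 q, ∀ k, ⟪n k, y - q⟫ = 0 →
      ∃ z ∈ S, z ∈ B k ∧ ‖g z - q‖ < d ∧ g z = y := by
    refine eventually_all.2 fun k => ?_
    have h1 := local_surj hgs (hq.1 k) (v := v₀)
      (hsgn k _ (hq.1 k) (hxB k) (by rw [hq.2.2.1 k]; simpa using hd)).ne'
      (V := B k ∩ {y | ‖g y - q‖ < d}) (inter_mem ((hB k).mem_nhds (hxB k))
        ((isOpen_lt (by fun_prop) continuous_const).mem_nhds (by simpa [hq.2.2.1 k] using hd)))
      one_pos
    rw [hq.2.2.1 k] at h1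
    filter_upwards [h1] with y ⟨z, hz, hzB, t, _, ht⟩ hy
    have h2 : ⟪n k, g z - q⟫ = 0 := (hflat k z hz hzB.1).resolve_right fun h =>
      absurd h.2.1 (not_le.2 hzB.2)
    rw [← ht, show g z + t • v₀ - q = (g z - q) + t • v₀ by abel, inner_add_right, h2,
      real_inner_smul_right, hv₀] at hy
    have h3 : t = 0 := by linarith
    exact ⟨z, hz, hzB.1, hzB.2, by simpa [h3] using ht⟩
  obtain ⟨η₀, hη₀, hsur⟩ := Metric.eventually_nhds_iff.1 hsur
  obtain ⟨η, hη, hη1, hη2, hη3, hη4⟩ : ∃ η : ℝ, 0 < η ∧ η ≤ ηD ∧ η ≤ ηE ∧ η ≤ d ∧ η ≤ η₀ :=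
    ⟨min (min ηD ηE) (min d η₀), by positivity, (min_le_left _ _).trans (min_le_left _ _),
      (min_le_left _ _).trans (min_le_right _ _), (min_le_right _ _).trans (min_le_left _ _),
      (min_le_right _ _).trans (min_le_right _ _)⟩
  obtain ⟨C, hC, hCb⟩ := nu_bound hdet
  obtain ⟨ε, hε, hε1, hε2, hε3⟩ : ∃ ε : ℝ, 0 < ε ∧ 4 * ε < η ∧ 10 * (ε * ‖v₀‖) < η / 8 ∧
      C * (64 * ε) < η / 8 := by
    have h0 : 0 < 80 * ‖v₀‖ + 512 * C + 5 := by positivity
    have h1 : η / (80 * ‖v₀‖ + 512 * C + 5) * (80 * ‖v₀‖ + 512 * C + 5) = η := by field_simp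
    have h2 : 0 < η / (80 * ‖v₀‖ + 512 * C + 5) := by positivity
    refine ⟨η / (80 * ‖v₀‖ + 512 * C + 5), h2, ?_, ?_, ?_⟩ <;>
      nlinarith [mul_nonneg h2.le (norm_nonneg v₀), mul_pos h2 hC]
  set χD : ℝ → E → ℝ := fun θ y => θ * tip g βD (nu n 3) q (s • w) (-3 * ε) y with hχD
  set χE : ℝ → E → ℝ := fun θ y => θ * tip g βE (nu n 4) q ((-s) • w) (4 * ε) y with hχE
  have sD : ∀ θ, ContDiff ℝ ∞ (χD θ) := fun θ => contDiff_const.mul (tip_smooth hgs D3 _ _ _ _)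
  have sE : ∀ θ, ContDiff ℝ ∞ (χE θ) := fun θ => contDiff_const.mul (tip_smooth hgs E3 _ _ _ _)
  have tD : ∀ θ, tsupport (χD θ) ⊆ DD := fun θ => (tip_tsupport _ _ _ _ _ _ _).trans D4
  have tE : ∀ θ, tsupport (χE θ) ⊆ DE := fun θ => (tip_tsupport _ _ _ _ _ _ _).trans E4
  set H : ℝ → E → E := fun θ => vm (vm g (χD θ) (s • w)) (χE θ) ((-s) • w) with hH
  have evD : ∀ θ y, y ∉ DE → H θ =ᶠ[𝓝 y] vm g (χD θ) (s • w) := fun θ y hy =>
    vm_eventuallyEq _ _ fun h => hy (tE θ h)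
  have evE : ∀ θ y, y ∉ DD → H θ =ᶠ[𝓝 y] vm g (χE θ) ((-s) • w) := fun θ y hy => by
    simp only [hH]
    rw [vm_comm]
    exact vm_eventuallyEq _ _ fun h => hy (tD θ h)
  have ev0 : ∀ θ y, y ∉ DD → y ∉ DE → H θ =ᶠ[𝓝 y] g := fun θ y h1 h2 =>
    (evD θ y h2).trans (vm_eventuallyEq _ _ fun h => h1 (tD θ h))
  have eqD : ∀ θ, ∀ y ∈ DD, H θ y = g y + χD θ y • s • w := fun θ y hy =>
    (evD θ y (hDE y hy)).eq_of_nhds
  have eqE : ∀ θ, ∀ y ∈ DE, H θ y = g y + χE θ y • (-s) • w := fun θ y hy =>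
    (evE θ y fun h => hDE y h hy).eq_of_nhds
  have nD : ∀ θ, ∀ y ∈ S, y ∈ DD → ⟪nrm (H θ) y, s • w⟫ < 0 := fun θ y hy hyD => by
    rw [nrm_congr_ev (evD θ y (hDE y hyD)), inner_nrm_vm hgs (sD θ)]
    have := D7 y hy hyD
    nlinarith
  have nE : ∀ θ, ∀ y ∈ S, y ∈ DE → 0 < ⟪nrm (H θ) y, (-s) • w⟫ := fun θ y hy hyE => by
    rw [nrm_congr_ev (evE θ y fun h => hDE y h hyE), inner_nrm_vm hgs (sE θ)]
    have := E7 y hy hyE
    nlinarith
  have injD : ∀ θ, ∀ y ∈ S, ∀ y' ∈ S, y ∈ DD → y' ∈ DD → H θ y = H θ y' → y = y' :=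
    fun θ y hy y' hy' h1 h2 h3 => D1.2.2 y' hy' y hy h2 h1 (χD θ y' - χD θ y) (by
      rw [eqD θ y h1, eqD θ y' h2] at h3
      rw [sub_smul, ← add_sub_assoc, ← h3]; abel)
  have injE : ∀ θ, ∀ y ∈ S, ∀ y' ∈ S, y ∈ DE → y' ∈ DE → H θ y = H θ y' → y = y' :=
    fun θ y hy y' hy' h1 h2 h3 => E1.2.2 y' hy' y hy h2 h1 (χE θ y' - χE θ y) (by
      rw [eqE θ y h1, eqE θ y' h2] at h3
      rw [sub_smul, ← add_sub_assoc, ← h3]; abel)
  have hHs : ContDiff ℝ ∞ (uncurry H) := by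
    have h1 := tip_smooth hgs D3 (nu n 3) q (s • w) (-3 * ε)
    have h2 := tip_smooth hgs E3 (nu n 4) q ((-s) • w) (4 * ε)
    exact ((hgs.comp contDiff_snd).add ((contDiff_fst.mul (h1.comp contDiff_snd)).smul
      contDiff_const)).add ((contDiff_fst.mul (h2.comp contDiff_snd)).smul contDiff_const)
  have hHi : ∀ θ, Imm (H θ) := fun θ => imm_iff.2 ⟨vm_smooth (vm_smooth hgs (sD θ) _) (sE θ) _,
    fun y hy h0 => by
      by_cases h1 : y ∈ DD
      · have := nD θ y hy h1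
        rw [h0] at this; simp at this
      · by_cases h2 : y ∈ DE
        · have := nE θ y hy h2
          rw [h0] at this; simp at this
        · rw [nrm_congr_ev (ev0 θ y h1 h2)] at h0
          exact hg.1.nrm_ne hy h0⟩
  have hxD : ∀ y, ‖g y - q‖ < d → y ∉ DD ∧ y ∉ DE := fun y hy =>
    ⟨fun h => absurd (D2 h).2.2.2 (not_lt.2 hy.le), fun h => absurd (E2 h).2.2.2 (not_lt.2 hy.le)⟩
  have hfam : ∀ θ ∈ Icc (0 : ℝ) 1, I4 (H θ) ∧ TT (H θ) x q := by
    intro θ hθ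
    constructor
    · refine i4_of_labels (hHi θ) hg (W := ball q ρ)
        (Lab := ![B 0 \ (DD ∪ DE), B 1 \ (DD ∪ DE), B 2 \ (DD ∪ DE), DD, DE])
        (P := fun i y => ![⟪n 0, y - q⟫ = 0 ∨ (⟪n 1, y - q⟫ ≠ 0 ∧ ⟪n 2, y - q⟫ ≠ 0),
          ⟪n 1, y - q⟫ = 0, ⟪n 2, y - q⟫ = 0, ⟪nu n 3, y - q⟫ < 0, 0 < ⟪nu n 4, y - q⟫] i)
        (fun z _ hz => ?_) (fun z hz hW => ?_) ?_ fun m y hy => ?_
      · refine (ev0 θ z (fun h => hz ?_) fun h => hz ?_).eq_of_nhds
        · rw [eqD θ z h]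
          exact D10 _ (by rw [abs_lt]; constructor <;> linarith) z h θ hθ
        · rw [eqE θ z h]
          exact E10 _ (by rw [abs_lt]; constructor <;> linarith) z h θ hθ
      · by_cases h1 : z ∈ DD
        · refine ⟨3, h1, ?_⟩
          change ⟪nu n 3, H θ z - q⟫ < 0
          rw [eqD θ z h1, tip_level hvD']
          have h2 := (D2 h1).2.1
          have h3 := D5 z
          have h4 : 0 ≤ θ * βD z := mul_nonneg hθ.1 h3.1
          have h5 : θ * βD z ≤ 1 := by nlinarith [hθ.1, hθ.2, h3.1, h3.2]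
          rcases h4.eq_or_lt with h6 | h6
          · rw [← h6]; linarith
          · nlinarith [mul_pos h6 hε]
        by_cases h2 : z ∈ DE
        · refine ⟨4, h2, ?_⟩
          change 0 < ⟪nu n 4, H θ z - q⟫
          rw [eqE θ z h2, tip_level hvE']
          have h2 := (E2 h2).2.1
          have h3 := E5 z
          have h4 : 0 ≤ θ * βE z := mul_nonneg hθ.1 h3.1
          have h5 : θ * βE z ≤ 1 := by nlinarith [hθ.1, hθ.2, h3.1, h3.2]
          rcases h4.eq_or_lt with h6 | h6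
          · rw [← h6]; linarith
          · nlinarith [mul_pos h6 hε]
        have h3 := (ev0 θ z h1 h2).eq_of_nhds
        rw [h3] at hW ⊢
        obtain ⟨k, hk⟩ := hcov z hz hW
        have h4 := hflat k z hz hk
        have h5 : z ∉ DD ∪ DE := by simp [h1, h2]
        fin_cases k
        · exact ⟨0, ⟨hk, h5⟩, h4.imp id fun h => h.2.2⟩
        · exact ⟨1, ⟨hk, h5⟩, h4.resolve_right fun h => absurd h.1 (by decide)⟩
        · exact ⟨2, ⟨hk, h5⟩, h4.resolve_right fun h => absurd h.1 (by decide)⟩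
      · have key : ∀ k, ∀ z ∈ S, ∀ z' ∈ S, z ∈ B k \ (DD ∪ DE) → z' ∈ B k \ (DD ∪ DE) →
            H θ z = H θ z' → z = z' := by
          intro k z hz z' hz' h1 h2 h3
          rw [(ev0 θ z (fun h => h1.2 (Or.inl h)) fun h => h1.2 (Or.inr h)).eq_of_nhds,
            (ev0 θ z' (fun h => h2.2 (Or.inl h)) fun h => h2.2 (Or.inr h)).eq_of_nhds] at h3
          exact hinj k z hz z' hz' h1.1 h2.1 h3
        intro i
        fin_cases i
        exacts [key 0, key 1, key 2, injD θ, injE θ]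
      · have h0 : 0 ≠ m → ⟪n 0, y - q⟫ = 0 ∨ (⟪n 1, y - q⟫ ≠ 0 ∧ ⟪n 2, y - q⟫ ≠ 0) := hy 0
        have h1 : 1 ≠ m → ⟪n 1, y - q⟫ = 0 := hy 1
        have h2 : 2 ≠ m → ⟪n 2, y - q⟫ = 0 := hy 2
        have h3 : 3 ≠ m → ⟪nu n 3, y - q⟫ < 0 := hy 3
        have h4 : 4 ≠ m → 0 < ⟪nu n 4, y - q⟫ := hy 4
        rw [hνD] at h3
        rw [hνE] at h4
        fin_cases m
        · linarith [h1 (by decide), h2 (by decide), h3 (by decide), h4 (by decide)]
        · linarith [(h0 (by decide)).resolve_right fun h => h.2 (h2 (by decide)), h2 (by decide),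
            h3 (by decide), h4 (by decide)]
        · linarith [(h0 (by decide)).resolve_right fun h => h.1 (h1 (by decide)), h1 (by decide),
            h3 (by decide), h4 (by decide)]
        · linarith [(h0 (by decide)).resolve_right fun h => h.1 (h1 (by decide)), h1 (by decide),
            h2 (by decide), h4 (by decide)]
        · linarith [(h0 (by decide)).resolve_right fun h => h.1 (h1 (by decide)), h1 (by decide),
            h2 (by decide), h3 (by decide)]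
    · have h1 : ∀ i, H θ =ᶠ[𝓝 (x i)] g := fun i =>
        have h2 := hxD (x i) (by rw [hq.2.2.1 i]; simpa using hd)
        ev0 θ _ h2.1 h2.2
      refine ⟨hq.1, hq.2.1, fun i => ?_, ?_⟩
      · rw [(h1 i).eq_of_nhds, hq.2.2.1 i]
      · rw [nrm_congr_ev (h1 0), nrm_congr_ev (h1 1), nrm_congr_ev (h1 2)]
        exact hq.2.2.2
  have hH0 : H 0 = g := by funext y; simp [hH, hχD, hχE, vm]
  have htau := fun σ (hσ : σ ≠ 0) γ => tau_family hHs hfam hσ γ
  rw [hH0] at htau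
  obtain ⟨hF, -⟩ := hfam 1 ⟨zero_le_one, le_rfl⟩
  have hFc : Continuous (H 1) := hF.1.1.continuous
  have lD : ∀ y ∈ S, y ∈ DD → H 1 y ∈ ball q η → ⟪nu n 3, H 1 y - q⟫ = -3 * ε := by
    intro y hy h1 h2
    rw [eqD 1 y h1] at h2 ⊢
    rw [tip_level hvD', D8 y hy h1 _ (ball_subset_ball hη1 h2)]
    ring
  have lE : ∀ y ∈ S, y ∈ DE → H 1 y ∈ ball q η → ⟪nu n 4, H 1 y - q⟫ = 4 * ε := by
    intro y hy h1 h2
    rw [eqE 1 y h1] at h2 ⊢
    rw [tip_level hvE', E8 y hy h1 _ (ball_subset_ball hη2 h2)]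
    ring
  have hoW : IsOpen (H 1 ⁻¹' ball q η) := isOpen_ball.preimage hFc
  have hod : IsOpen {y | ‖g y - q‖ < d} := isOpen_lt (by fun_prop) continuous_const
  let D₀ : Fin 5 → Set E := ![B 0 ∩ {y | ‖g y - q‖ < d}, B 1 ∩ {y | ‖g y - q‖ < d},
    B 2 ∩ {y | ‖g y - q‖ < d}, DD, DE]
  have hε0 : ε ≠ 0 := hε.ne'
  have hlev : ∀ i (y : E), ⟪nu (fun k => ε⁻¹ • n k) i, y⟫ = lev0 i ↔ ⟪nu n i, y⟫ = lev0 i * ε := by
    intro i y
    rw [nu_smul, real_inner_smul_left, inv_mul_eq_iff_eq_mul₀ hε0, mul_comm]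
  have hdet' : det3 (ε⁻¹ • n 0) (ε⁻¹ • n 1) (ε⁻¹ • n 2) ≠ 0 := by
    have : det3 (ε⁻¹ • n 0) (ε⁻¹ • n 1) (ε⁻¹ • n 2) = ε⁻¹ ^ 3 * det3 (n 0) (n 1) (n 2) := by
      simp [det3_eq]; ring
    rw [this]; positivity
  have old : ∀ k, ∀ y ∈ S, y ∈ B k ∩ {y | ‖g y - q‖ < d} →
      H 1 =ᶠ[𝓝 y] g ∧ ⟪n k, H 1 y - q⟫ = 0 := by
    intro k y hy h1
    have h2 := ev0 1 y (hxD y h1.2).1 (hxD y h1.2).2
    refine ⟨h2, ?_⟩
    rw [h2.eq_of_nhds]
    exact (hflat k y hy h1.1).resolve_right fun h => absurd h.2.1 (not_le.2 h1.2)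
  obtain ⟨g₁, g₂, k1, k2, k3⟩ := five_planes (F := H 1) (q := q) (v := ε • v₀) (η := η)
    (n := fun k => ε⁻¹ • n k) (D := fun i => D₀ i ∩ H 1 ⁻¹' ball q η) hF hdet'
    (fun k => by rw [real_inner_smul_left, real_inner_smul_right, hv₀]; field_simp)
    (nu_det (n := fun k => ε⁻¹ • n k) hdet')
    (by rw [norm_smul, Real.norm_eq_abs, abs_of_pos hε]; exact hε2)
    (fun i j k hij hik hjk y hy => (hCb i j k hij hik hjk y (64 * ε) (by positivity) fun l hl => by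
      have := hy l hl
      rw [nu_smul, real_inner_smul_left, abs_mul, abs_of_pos (inv_pos.2 hε),
        inv_mul_le_iff₀ hε] at this
      linarith).trans_lt hε3)
    (fun i => IsOpen.inter (by
      fin_cases i
      exacts [(hB 0).inter hod, (hB 1).inter hod, (hB 2).inter hod, D1.1, E1.1]) hoW)
    (fun i j hij y hi hj => by
      have h1 := hi.1
      have h2 := hj.1
      fin_cases i <;> fin_cases j <;> first
        | exact hij rfl
        | exact hdisj _ _ (by decide) y h1.1 h2.1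
        | exact (hxD y h1.2).1 h2
        | exact (hxD y h1.2).2 h2
        | exact (hxD y h2.2).1 h1
        | exact (hxD y h2.2).2 h1
        | exact hDE y h1 h2
        | exact hDE y h2 h1)
    (fun y hy hW => by
      by_cases h1 : y ∈ DD
      · exact ⟨3, h1, hW⟩
      by_cases h2 : y ∈ DE
      · exact ⟨4, h2, hW⟩
      have h3 := hW
      rw [(ev0 1 y h1 h2).eq_of_nhds] at h3
      obtain ⟨k, hk⟩ := hcov y hy (ball_subset_ball (by linarith) h3)
      have h4 : ‖g y - q‖ < d := by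
        rw [mem_ball, dist_eq_norm] at h3; linarith
      fin_cases k
      exacts [⟨0, ⟨hk, h4⟩, hW⟩, ⟨1, ⟨hk, h4⟩, hW⟩, ⟨2, ⟨hk, h4⟩, hW⟩])
    (fun i y hy hi => by
      rw [hlev]
      have h1 := hi.1
      fin_cases i
      · simpa [nu, lev0] using (old 0 y hy h1).2
      · simpa [nu, lev0] using (old 1 y hy h1).2
      · simpa [nu, lev0] using (old 2 y hy h1).2
      · exact lD y hy h1 hi.2
      · exact lE y hy h1 hi.2)
    (fun i y hy y' hy' hi hi' h => by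
      have h1 := hi.1
      have h2 := hi'.1
      have key : ∀ k, y ∈ B k ∩ {y | ‖g y - q‖ < d} → y' ∈ B k ∩ {y | ‖g y - q‖ < d} → y = y' :=
        fun k h1 h2 => hinj k y hy y' hy' h1.1 h2.1 (by
          rwa [(old k y hy h1).1.eq_of_nhds, (old k y' hy' h2).1.eq_of_nhds] at h)
      fin_cases i
      exacts [key 0 h1 h2, key 1 h1 h2, key 2 h1 h2, injD 1 y hy y' hy' h1 h2 h,
        injE 1 y hy y' hy' h1 h2 h])
    (fun i y hy hl => by
      rw [hlev] at hl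
      suffices h : ∃ z ∈ S, z ∈ D₀ i ∧ H 1 z = y by
        obtain ⟨z, hz, h1, h2⟩ := h
        exact ⟨z, hz, ⟨h1, by rw [mem_preimage, h2]; exact hy⟩, h2⟩
      have key : ∀ k, ⟪n k, y - q⟫ = 0 → ∃ z ∈ S, z ∈ B k ∩ {y | ‖g y - q‖ < d} ∧ H 1 z = y := by
        intro k hk
        obtain ⟨z, hz, h1, h2, h3⟩ := hsur ((mem_ball.1 hy).trans_le hη4) k hk
        exact ⟨z, hz, ⟨h1, h2⟩, by rw [(old k z hz ⟨h1, h2⟩).1.eq_of_nhds, h3]⟩
      fin_cases i
      · exact key 0 (by simpa [nu, lev0] using hl)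
      · exact key 1 (by simpa [nu, lev0] using hl)
      · exact key 2 (by simpa [nu, lev0] using hl)
      · obtain ⟨z, hz, h1, t, ht⟩ := D9 y (ball_subset_ball hη1 hy)
        have h2 := D8 z hz h1 t (by rw [ht]; exact ball_subset_ball hη1 hy)
        refine ⟨z, hz, h1, ?_⟩
        have h3 : ⟪nu n 3, y - q⟫ = -3 * ε := hl
        rw [eqD 1 z h1, ← ht]
        rw [← ht, show g z + t • s • w - q = (g z - q) + t • s • w by abel, inner_add_right,
          real_inner_smul_right] at h3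
        congr 2
        simp only [hχD, tip, h2, one_mul]
        rw [div_eq_iff hvD']; linarith
      · obtain ⟨z, hz, h1, t, ht⟩ := E9 y (ball_subset_ball hη2 hy)
        have h2 := E8 z hz h1 t (by rw [ht]; exact ball_subset_ball hη2 hy)
        refine ⟨z, hz, h1, ?_⟩
        have h3 : ⟪nu n 4, y - q⟫ = 4 * ε := hl
        rw [eqE 1 z h1, ← ht]
        rw [← ht, show g z + t • (-s) • w - q = (g z - q) + t • (-s) • w by abel, inner_add_right,
          real_inner_smul_right] at h3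
        congr 2
        simp only [hχE, tip, h2, one_mul]
        rw [div_eq_iff hvE']; linarith)
    (fun i y hy hi => by
      have h1 := hi.1
      rw [real_inner_smul_right]
      have key : ∀ k, y ∈ B k ∩ {y | ‖g y - q‖ < d} → 0 < 1 * (ε * ⟪nrm (H 1) y, v₀⟫) := by
        intro k hk
        rw [nrm_congr_ev (old k y hy hk).1]
        have := hsgn k y hy hk.1 hk.2
        positivity
      fin_cases i
      · exact key 0 h1
      · exact key 1 h1
      · exact key 2 h1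
      · obtain ⟨t, ht⟩ := nrm_of_flat (smooth_diff hF.1.1) hy (ν := nu n 3)
          (fun h0 => hvD' (by rw [h0, inner_zero_left])) (s := -3 * ε + ⟪nu n 3, q⟫) (by
            filter_upwards [D1.1.mem_nhds h1, hoW.mem_nhds hi.2] with z hz1 hz2 hz
            have := lD z hz hz1 hz2
            rw [inner_sub_right] at this
            linarith)
        have h2 := nD 1 y hy h1
        rw [ht, real_inner_smul_left, hvD] at h2
        change 0 < -1 * (ε * ⟪nrm (H 1) y, v₀⟫)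
        rw [ht, real_inner_smul_left, hνD, hv₀, hv₀, hv₀]
        have h3 : t < 0 := by nlinarith
        nlinarith
      · obtain ⟨t, ht⟩ := nrm_of_flat (smooth_diff hF.1.1) hy (ν := nu n 4)
          (fun h0 => hvE' (by rw [h0, inner_zero_left])) (s := 4 * ε + ⟪nu n 4, q⟫) (by
            filter_upwards [E1.1.mem_nhds h1, hoW.mem_nhds hi.2] with z hz1 hz2 hz
            have := lE z hz hz1 hz2
            rw [inner_sub_right] at this
            linarith)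
        have h2 := nE 1 y hy h1
        rw [ht, real_inner_smul_left, hvE] at h2
        change 0 < -1 * (ε * ⟪nrm (H 1) y, v₀⟫)
        rw [ht, real_inner_smul_left, hνE, hv₀, hv₀, hv₀]
        have h3 : t < 0 := by nlinarith
        nlinarith)
  exact ⟨g₁, g₂, (htau 1 one_ne_zero _).2 k1, (htau (-1) (by norm_num) _).2 k2, k3⟩

theorem flat_case {f : E → E} {x : Fin 3 → E} {q : E} (hf : I4 f) (hq : TT f x q)
    (hfl : ∀ k, ∀ᶠ y in 𝓝 (x k), ⟪nrm f (x k), f y - q⟫ = 0) :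
    ∃ g₁ g₂, Tau f q 1 g₁ ∧ Tau f q (-1) g₂ ∧ Rel g₁ g₂ := by
  have hfs := hf.1.1
  have hfc := hfs.continuous
  set n : Fin 3 → E := fun k => nrm f (x k) with hn
  have hdet : det3 (n 0) (n 1) (n 2) ≠ 0 := hq.2.2.2
  obtain ⟨v₀, hv₀⟩ := exists_coord hdet fun _ => 1
  obtain ⟨w, hw⟩ := exists_coord hdet ![0, 1, 1]
  have hw0 : ⟪n 0, w⟫ = 0 := hw 0
  have hw1 : ⟪n 1, w⟫ = 1 := hw 1
  have hw2 : ⟪n 2, w⟫ = 1 := hw 2
  have hwne : w ≠ 0 := by rintro rfl; simp at hw1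
  have hwn : 0 < ‖w‖ := norm_pos_iff.2 hwne
  -- small flat discs about the three preimages
  obtain ⟨ρ₀, hρ₀, δ₀, hδ₀, hsep⟩ := hf.1.sep'
  have hsep := (hsep f hfs (by simpa using small_zero hδ₀.le)).2
  have hev : ∀ᶠ r in 𝓝[>] (0 : ℝ), (∀ k, ∀ y ∈ ball (x k) r, ⟪n k, f y - q⟫ = 0 ∧
      0 < ⟪nrm f y, v₀⟫) ∧ (∀ k l, k ≠ l → 2 * r < dist (x k) (x l)) ∧ 2 * r < ρ₀ := by
    refine Eventually.filter_mono nhdsWithin_le_nhds ?_
    have c2 : ContinuousAt (fun r : ℝ => 2 * r) 0 := by fun_prop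
    refine (eventually_all.2 fun k => ?_).and ((eventually_all.2 fun k => eventually_all.2 fun l =>
      ?_).and (c2.eventually_lt continuousAt_const (by simpa using hρ₀)))
    · have h1 : ∀ᶠ y in 𝓝 (x k), 0 < ⟪nrm f y, v₀⟫ := by
        have := continuous_nrm hfs
        exact continuousAt_const.eventually_lt (by fun_prop) (by rw [hv₀ k]; exact one_pos)
      obtain ⟨r, hr, h2⟩ := Metric.eventually_nhds_iff.1 ((hfl k).and h1)
      filter_upwards [Iio_mem_nhds hr] with r' hr' y hy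
      exact h2 ((mem_ball.1 hy).trans hr')
    · by_cases hkl : k = l
      · exact Eventually.of_forall fun _ h => absurd hkl h
      · filter_upwards [c2.eventually_lt continuousAt_const
          (show 2 * (0 : ℝ) < dist (x k) (x l) by simpa using fun h => hkl (hq.2.1 h))] with r hr _
        exact hr
  obtain ⟨r, ⟨hr1, hr2, hr3⟩, hr0⟩ := (hev.and self_mem_nhdsWithin).exists
  have hr0 : 0 < r := hr0
  obtain ⟨ρ, hρ, hpre⟩ := preimage_near hfc (C := {q}) (V := ⋃ k, ball (x k) r) isClosed_singleton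
    (isOpen_iUnion fun _ => isOpen_ball) (fun y hy hyq => by
      have : y ∈ fib f S q := ⟨hy, hyq⟩
      rw [hq.fib_eq hf] at this
      obtain ⟨k, rfl⟩ := this
      exact mem_iUnion.2 ⟨k, mem_ball_self hr0⟩)
  have hpre : ∀ y ∈ S, f y ∈ ball q ρ → ∃ k, y ∈ ball (x k) r := fun y hy h =>
    mem_iUnion.1 (hpre f (by simpa using fun _ _ => hρ.le) y hy
      ⟨q, rfl, by rw [← dist_eq_norm]; exact (mem_ball.1 h).le⟩)
  -- the two base points
  have hsur := local_surj hfs (hq.1 0) (v := v₀) (by rw [hv₀ 0]; exact one_ne_zero)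
    (ball_mem_nhds (x 0) hr0) one_pos
  rw [hq.2.2.1 0] at hsur
  obtain ⟨r₁, hr₁, hsur⟩ := Metric.eventually_nhds_iff.1 hsur
  have hbase : ∀ t : ℝ, |t| * ‖w‖ < r₁ → ∃ b ∈ S, b ∈ ball (x 0) r ∧ f b + t • w = q := by
    intro t ht
    obtain ⟨b, hb, hbB, u, -, hu⟩ := @hsur (q - t • w) (by simpa [norm_smul] using ht)
    have h1 := (hr1 0 b hbB).1
    have h2 : f b - q = -(t • w) - u • v₀ := by rw [← sub_eq_zero, ← sub_eq_zero.2 hu]; abel
    rw [h2, inner_sub_right, inner_neg_right, real_inner_smul_right, real_inner_smul_right, hw0,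
      hv₀] at h1
    have h3 : u = 0 := by linarith
    rw [h3, zero_smul, add_zero] at hu
    exact ⟨b, hb, hbB, by rw [hu]; abel⟩
  obtain ⟨s, hs, hs1, hs2⟩ : ∃ s : ℝ, 0 < s ∧ s * ‖w‖ < r₁ ∧ s * ‖w‖ < ρ / 2 := by
    refine ⟨min r₁ (ρ / 2) / (2 * ‖w‖), by positivity, ?_, ?_⟩
    · have : min r₁ (ρ / 2) / (2 * ‖w‖) * ‖w‖ = min r₁ (ρ / 2) / 2 := by field_simp
      rw [this]; linarith [min_le_left r₁ (ρ / 2)]
    · have : min r₁ (ρ / 2) / (2 * ‖w‖) * ‖w‖ = min r₁ (ρ / 2) / 2 := by field_simp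
      rw [this]; linarith [min_le_right r₁ (ρ / 2)]
  obtain ⟨bD, hbD, hbDB, hfD⟩ := hbase s (by rwa [abs_of_pos hs])
  obtain ⟨bE, hbE, hbEB, hfE⟩ := hbase (-s) (by rwa [abs_neg, abs_of_pos hs])
  have hsw : ‖s • w‖ = s * ‖w‖ := by rw [norm_smul, Real.norm_eq_abs, abs_of_pos hs]
  obtain ⟨d, hd, hd1, hd2, hd3⟩ : ∃ d : ℝ, 0 < d ∧ ‖n 1‖ * d < s / 2 ∧ ‖n 2‖ * d < s / 2 ∧
      d < s * ‖w‖ / 2 := by
    have h0 : 0 < ‖n 1‖ + ‖n 2‖ + 1 := by positivity
    refine ⟨min (s / 2 / (‖n 1‖ + ‖n 2‖ + 1)) (s * ‖w‖ / 4), by positivity, ?_, ?_, ?_⟩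
    · refine (mul_le_mul_of_nonneg_left (min_le_left _ _) (norm_nonneg _)).trans_lt ?_
      rw [← mul_div_assoc, div_lt_iff₀ h0]
      nlinarith [norm_nonneg (n 2)]
    · refine (mul_le_mul_of_nonneg_left (min_le_left _ _) (norm_nonneg _)).trans_lt ?_
      rw [← mul_div_assoc, div_lt_iff₀ h0]
      nlinarith [norm_nonneg (n 1)]
    · have := mul_pos hs hwn
      exact (min_le_right _ _).trans_lt (by linarith)
  have hκ : ∀ a : ℝ, d < a → 1 < d⁻¹ * a := fun a ha => by rw [lt_inv_mul_iff₀ hd]; linarith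
  have hκ' : ∀ a : ℝ, d ≤ a → 1 ≤ d⁻¹ * a := fun a ha => by rw [le_inv_mul_iff₀ hd]; linarith
  have hqD : q - f bD = s • w := by rw [← hfD]; abel
  have hqE : q - f bE = (-s) • w := by rw [← hfE]; abel
  have hqD' : ‖q - f bD‖ = s * ‖w‖ := by rw [hqD, hsw]
  have hqE' : ‖q - f bE‖ = s * ‖w‖ := by rw [hqE, neg_smul, norm_neg, hsw]
  have hDE : ‖f bE - f bD‖ = 2 * (s * ‖w‖) := by
    rw [show f bE - f bD = (q - f bD) - (q - f bE) by abel, hqD, hqE, ← sub_smul, norm_smul,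
      Real.norm_eq_abs, abs_of_pos (by linarith)]
    ring
  have hswp := mul_pos hs hwn
  -- normals at the base points
  have hnb : ∀ b ∈ S, b ∈ ball (x 0) r → ∀ μ : ℝ, 0 ≤ μ → -w + μ • nrm f b ≠ 0 := by
    intro b hb hbB μ _ h0
    obtain ⟨t, ht⟩ := nrm_of_flat (smooth_diff hfs) hb (ν := n 0) (hf.1.nrm_ne (hq.1 0))
      (s := ⟪n 0, q⟫) (by
        filter_upwards [isOpen_ball.mem_nhds hbB] with y hy _
        have := (hr1 0 y hy).1
        rwa [inner_sub_right, sub_eq_zero] at this)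
    have h1 : ⟪-w + μ • nrm f b, w⟫ = 0 := by rw [h0, inner_zero_left]
    rw [inner_add_left, ht, real_inner_smul_left, real_inner_smul_left, hw0, inner_neg_left] at h1
    simp [hwne] at h1
  have hrot : ∀ b ∈ S, b ∈ ball (x 0) r → ⟪rot (zvec (nrm f b) (-w)) (nrm f b), w⟫ < 0 := by
    intro b hb hbB
    rw [rot_zvec (hf.1.nrm_ne hb) (hnb b hb hbB), real_inner_smul_left, inner_neg_left,
      real_inner_self_eq_norm_sq, norm_neg]
    have := norm_pos_iff.2 (hf.1.nrm_ne hb)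
    have : 0 < ‖nrm f b‖ / ‖w‖ * ‖w‖ ^ 2 := by positivity
    linarith
  set zD := zvec (nrm f bD) (-w)
  set zE := zvec (nrm f bE) (-w)
  obtain ⟨a1, a2, a3⟩ := twist_tau hf hq (f bD) zD (hκ _ (by rw [hqD']; linarith))
  set f₁ := tw (f bD) zD d⁻¹ ∘ f with hf₁
  obtain ⟨b1, b2, b3⟩ := twist_tau a1 a2 (f bE) zE (hκ _ (by rw [hqE']; linarith))
  set g := tw (f bE) zE d⁻¹ ∘ f₁ with hg
  have e1 : f₁ =ᶠ[𝓝 bE] f := tw_comp_eventually_far hfc zD (hκ _ (by rw [hDE]; linarith))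
  have e2 : f₁ bD = f bD := tw_center _ _ _
  have e3 : g =ᶠ[𝓝 bD] f₁ := tw_comp_eventually_far a1.1.1.continuous zE
    (hκ _ (by rw [e2, norm_sub_rev, hDE]; linarith))
  have tri : ∀ y, g y = f y ∨ (‖f y - f bD‖ < d ∧ ‖g y - f bD‖ < d) ∨
      (‖f y - f bE‖ < d ∧ ‖g y - f bE‖ < d) := by
    intro y
    have h1 : ‖f₁ y - f bD‖ = ‖f y - f bD‖ := norm_tw_sub _ _ _ _
    have h2 : ‖g y - f bE‖ = ‖f₁ y - f bE‖ := norm_tw_sub _ _ _ _
    by_cases h3 : ‖f y - f bD‖ < d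
    · have h4 : g y = f₁ y := tw_of_far zE (hκ' _ (by
        have := norm_sub_le_norm_sub_add_norm_sub (f bE) (f₁ y) (f bD)
        rw [norm_sub_rev (f bE) (f₁ y)] at this
        linarith))
      exact Or.inr (Or.inl ⟨h3, by rw [h4, h1]; exact h3⟩)
    · have h4 : f₁ y = f y := tw_of_far zD (hκ' _ (not_lt.1 h3))
      by_cases h5 : ‖f y - f bE‖ < d
      · exact Or.inr (Or.inr ⟨h5, by rw [h2, h4]; exact h5⟩)
      · exact Or.inl ((tw_of_far zE (hκ' _ (by rw [h4]; exact not_lt.1 h5))).trans h4)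
  have far : ∀ y : E, ‖y - f bD‖ < d ∨ ‖y - f bE‖ < d →
      y ∈ ball q ρ ∧ d ≤ ‖y - q‖ ∧ ⟪n 1, y - q⟫ ≠ 0 ∧ ⟪n 2, y - q⟫ ≠ 0 := by
    have key : ∀ (c y : E) (t : ℝ), |t| = s → q - c = t • w → ‖y - c‖ < d →
        y ∈ ball q ρ ∧ d ≤ ‖y - q‖ ∧ ⟪n 1, y - q⟫ ≠ 0 ∧ ⟪n 2, y - q⟫ ≠ 0 := by
      intro c y t ht hc hy
      have h1 : ‖q - c‖ = s * ‖w‖ := by rw [hc, norm_smul, Real.norm_eq_abs, ht]
      have h2 := norm_sub_le_norm_sub_add_norm_sub y c q
      have h3 := norm_sub_le_norm_sub_add_norm_sub q y c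
      rw [norm_sub_rev c q] at h2
      rw [norm_sub_rev q y] at h3
      have h4 : ∀ m : E, ⟪m, w⟫ = 1 → ‖m‖ * d < s / 2 → ⟪m, y - q⟫ ≠ 0 := by
        intro m hm hm' h0
        rw [show y - q = (y - c) - (q - c) by abel, inner_sub_right, hc, real_inner_smul_right, hm,
          mul_one, sub_eq_zero] at h0
        have h5 := abs_real_inner_le_norm m (y - c)
        rw [h0, ht] at h5
        nlinarith [mul_le_mul_of_nonneg_left hy.le (norm_nonneg m)]
      exact ⟨by rw [mem_ball, dist_eq_norm]; linarith, by linarith, h4 _ hw1 hd1, h4 _ hw2 hd2⟩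
    rintro y (h | h)
    · exact key _ y s (abs_of_pos hs) hqD h
    · exact key _ y (-s) (by rw [abs_neg, abs_of_pos hs]) hqE h
  have near : ∀ y, ‖g y - q‖ < d → g y = f y := fun y hy => (tri y).resolve_right fun h =>
    absurd (far (g y) (h.imp And.right And.right)).2.1 (not_le.2 hy)
  obtain ⟨g₁, g₂, k1, k2, k3⟩ := two_fingers (g := g) (x := x) (q := q) (w := w) (v₀ := v₀) (n := n)
    (B := fun k => ball (x k) r) (ρ := ρ) (d := d) (s := s) (bD := bD) (bE := bE) b1 b2 hdet hv₀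
    hw0 hw1 hw2 (fun _ => isOpen_ball) (fun _ => mem_ball_self hr0)
    (fun k l hkl y h1 h2 => by
      have := hr2 k l hkl
      have := dist_triangle_left (x k) (x l) y
      rw [mem_ball] at h1 h2
      linarith)
    (fun y hy h => hpre y hy (by
      rcases tri y with h1 | h1
      · rwa [h1] at h
      · exact (far (f y) (h1.imp And.left And.left)).1))
    (fun k y hy y' hy' h1 h2 h => hsep y hy y' hy' (by
      have := dist_triangle_right y y' (x k)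
      rw [mem_ball] at h1 h2
      linarith) ((tw_amb _ _ _).2.1 ((tw_amb _ _ _).2.1 h))) hd
    (fun k y _ hy => by
      have h0 := (hr1 k y hy).1
      rcases tri y with h1 | h1
      · left; rwa [h1]
      · right
        have h2 := far (f y) (h1.imp And.left And.left)
        refine ⟨?_, (far (g y) (h1.imp And.right And.right)).2⟩
        fin_cases k
        · rfl
        · exact absurd h0 h2.2.2.1
        · exact absurd h0 h2.2.2.2)
    (fun k y _ hy h => by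
      have h1 : g =ᶠ[𝓝 y] f := by
        have := b1.1.1.continuous
        filter_upwards [(isOpen_lt (f := fun y => ‖g y - q‖) (by fun_prop)
          continuous_const).mem_nhds h] with z hz
        exact near z hz
      rw [nrm_congr_ev h1]
      exact (hr1 k y hy).2) hs (by rw [hsw]; linarith) (by rw [hsw]; linarith)
    hbD hbDB (by rw [e3.eq_of_nhds, e2, hfD])
    (by rw [nrm_congr_ev e3, hf₁, nrm_tw_center hfs]; exact hrot bD hbD hbDB)
    hbE hbEB (by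
      have : g bE = f bE := by
        change tw (f bE) zE d⁻¹ (f₁ bE) = f bE
        rw [e1.eq_of_nhds, tw_center]
      rw [this, hfE])
    (by
      have h1 := nrm_tw_center a1.1.1 zE d⁻¹ bE
      rw [e1.eq_of_nhds, nrm_congr_ev e1] at h1
      rw [hg, h1]
      exact hrot bE hbE hbEB)
  exact ⟨g₁, g₂, (a3 1 one_ne_zero _).2 ((b3 1 one_ne_zero _).2 k1),
    (a3 (-1) (by norm_num) _).2 ((b3 (-1) (by norm_num) _).2 k2), k3⟩

end Five

/-- The class obtained by crossing a transverse triple point does not depend on the side. -/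
theorem tau_side {f γ : E → E} {x : Fin 3 → E} {q : E} (hf : I4 f) (hq : TT f x q) :
    Tau f q 1 γ ↔ Tau f q (-1) γ := by
  obtain ⟨δ, hδ, hc⟩ := tau_close hf hq
  obtain ⟨g, hg, hs, -, h⟩ := flatten hf.1 hq.1 hq.2.1 (V := univ) (fun _ => univ_mem) hδ
  obtain ⟨h1, h2, h3⟩ := hc g hg hs fun i => by rw [(h i).1, hq.2.2.1 i]
  obtain ⟨g₁, g₂, k1, k2, k3⟩ := Five.flat_case h1 h2 fun k => by
    have := (h k).2.2
    rwa [hq.2.2.1 k, ← (h k).2.1] at this
  rw [h3 1 γ one_ne_zero, h3 (-1) γ (by norm_num)]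
  exact ⟨fun h4 => k2.rel (k3.symm.trans (tau_unique h1 h2 k1 h4)),
    fun h4 => k1.rel (k3.trans (tau_unique h1 h2 k2 h4))⟩

end Pool.Agent.Lib.Quad
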