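import Pool.Agent.Lib.MP_31e762_gt.FiveArr

/-! The walk around the ten chambers of an arrangement of five planes. -/

namespace Pool.Agent.Lib.Quad.Five

open scoped ContDiff RealInnerProductSpace Topology
open Metric Set Function Filter

/-- The normals of the five planes. -/
noncomputable def nu (n : Fin 3 → E) : Fin 5 → E :=
  ![n 0, n 1, n 2, n 0 + n 1 + n 2, n 0 + (2 : ℝ) • n 1 + (3 : ℝ) • n 2]

/-- The initial levels. -/
noncomputable def lev0 : Fin 5 → ℝ := ![0, 0, 0, -3, 4]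

/-- The orientations of the five sheets. -/
noncomputable def e0 : Fin 5 → ℝ := ![1, 1, 1, -1, -1]

/-- The speeds of the five planes. -/
noncomputable def c0 : Fin 5 → ℝ := ![1, 1, 1, 3, 6]

/-- Coordinates of the normals applied to a vector with coordinates `Y`. -/
noncomputable def nuY (Y : Fin 3 → ℝ) : Fin 5 → ℝ :=
  ![Y 0, Y 1, Y 2, Y 0 + Y 1 + Y 2, Y 0 + 2 * Y 1 + 3 * Y 2]

theorem inner_nu (n : Fin 3 → E) (y : E) (i : Fin 5) :
    ⟪nu n i, y⟫ = nuY (fun k => ⟪n k, y⟫) i := by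
  fin_cases i <;> simp [nu, nuY, inner_add_left, real_inner_smul_left]

theorem inner_nu_v {n : Fin 3 → E} {v : E} (hv : ∀ k, ⟪n k, v⟫ = 1) (i : Fin 5) :
    ⟪nu n i, v⟫ = c0 i := by
  rw [inner_nu]
  fin_cases i <;> simp [nuY, c0, hv] <;> norm_num

/-- The equations of the walls. -/
noncomputable def LL (m : Fin 5) (t : Fin 5 → ℝ) : ℝ :=
  (4 + 6 * t 4 - t 0 - 2 * t 1 - 3 * t 2) * ![1, 1, 1, 1, 0] m -
    (-3 + 3 * t 3 - t 0 - t 1 - t 2) * ![1, 2, 3, 0, -1] m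

theorem wall_eq {n : Fin 3 → E} {v : E} (hv : ∀ k, ⟪n k, v⟫ = 1) {t : Fin 5 → ℝ} {m : Fin 5}
    (h : Wall (nu n) (pos (nu n) lev0 v t) m) : LL m t = 0 := by
  obtain ⟨y, hy⟩ := h
  have h0 := hy 0
  have h1 := hy 1
  have h2 := hy 2
  have h3 := hy 3
  have h4 := hy 4
  simp only [pos, inner_nu_v hv] at h0 h1 h2 h3 h4
  simp only [inner_nu] at h0 h1 h2 h3 h4
  fin_cases m <;> simp [nuY, lev0, c0] at h0 h1 h2 h3 h4 <;> simp [LL] <;> linarith

theorem LL_seg (m : Fin 5) (t t' : Fin 5 → ℝ) (s : ℝ) :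
    LL m ((1 - s) • t + s • t') = (1 - s) * LL m t + s * LL m t' := by
  simp only [LL, Pi.add_apply, Pi.smul_apply, smul_eq_mul]; ring

theorem LL_ne {m : Fin 5} {t t' : Fin 5 → ℝ} (h : 0 < LL m t * LL m t') {s : ℝ}
    (hs : s ∈ Icc (0 : ℝ) 1) : LL m ((1 - s) • t + s • t') ≠ 0 := by
  rw [LL_seg]
  intro h0
  have h1 : (1 - s) * (LL m t * LL m t') + s * LL m t' ^ 2 = 0 := by
    linear_combination LL m t' * h0
  have h2 : (1 - s) * LL m t ^ 2 + s * (LL m t * LL m t') = 0 := by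
    linear_combination LL m t * h0
  nlinarith [mul_nonneg hs.1 (sq_nonneg (LL m t')), mul_nonneg (sub_nonneg.2 hs.2) (sq_nonneg (LL m t)),
    mul_nonneg hs.1 h.le, mul_nonneg (sub_nonneg.2 hs.2) h.le]

theorem LL_single_ne {m j : Fin 5} {t : Fin 5 → ℝ} {u : ℝ} (hu : u ≠ 0)
    (h : 0 < LL m t * LL m (t + Pi.single j u)) {w : ℝ} (hw : w ∈ uIcc 0 u) :
    LL m (t + Pi.single j w) ≠ 0 := by
  have hs : w / u ∈ Icc (0 : ℝ) 1 := by
    rcases lt_or_gt_of_ne hu with h1 | h1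
    · rw [uIcc_of_ge h1.le] at hw
      exact ⟨div_nonneg_of_nonpos hw.2 h1.le, by rw [div_le_one_of_neg h1]; exact hw.1⟩
    · rw [uIcc_of_le h1.le] at hw
      exact ⟨div_nonneg hw.1 h1.le, by rw [div_le_one h1]; exact hw.2⟩
  have := LL_ne h hs
  have e1 : (1 - w / u) • t + (w / u) • (t + Pi.single j u) = t + Pi.single j w := by
    funext i
    by_cases hi : i = j
    · subst hi; simp; field_simp; ring
    · simp [hi]; ring
  rwa [e1] at this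

theorem exists_coord {n : Fin 3 → E} (hdet : det3 (n 0) (n 1) (n 2) ≠ 0) (Y : Fin 3 → ℝ) :
    ∃ y : E, ∀ k, ⟪n k, y⟫ = Y k := by
  refine ⟨(det3 (n 0) (n 1) (n 2))⁻¹ • (Y 0 • cross (n 1) (n 2) + Y 1 • cross (n 2) (n 0) +
    Y 2 • cross (n 0) (n 1)), fun k => ?_⟩
  rw [real_inner_smul_right, inv_mul_eq_iff_eq_mul₀ hdet]
  fin_cases k <;> simp [inner3, det3_eq] <;> ring

variable {F : E → E} {q v : E} {η : ℝ} {n : Fin 3 → E} {D : Fin 5 → Set E} {χ : Fin 5 → E → ℝ}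

theorem step (h : Arr F q v η (nu n) lev0 e0 D χ) (hv : ∀ k, ⟪n k, v⟫ = 1) (t : Fin 5 → ℝ)
    (ht : ∀ i, |t i| ≤ 10) (hg : ∀ m, LL m t ≠ 0) (j m : Fin 5) (hjm : j ≠ m) (u lam : ℝ)
    (hu : |t j + u| ≤ 10) (hlam : lam ≠ 0) (hul : 1 < u / lam) {p : E} (Y : Fin 3 → ℝ)
    (hp : ∀ k, ⟪n k, p - q⟫ = Y k) (h1 : ∀ i, i ≠ j → i ≠ m → nuY Y i = lev0 i + t i * c0 i)
    (h2 : nuY Y j = lev0 j + t j * c0 j + lam * c0 j)
    (h3 : ∀ m', m' ≠ j → m' ≠ m → 0 < LL m' t * LL m' (t + Pi.single j u)) (s : ℝ)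
    (hs : 0 < s * (e0 j * u)) :
    (∃ x, TT (mv F v χ t) x p) ∧ Tau (mv F v χ t) p s (mv F v χ (t + Pi.single j u)) := by
  have hY : (fun k => ⟪n k, p - q⟫) = Y := funext hp
  have hu0 : u ≠ 0 := by rintro rfl; norm_num at hul
  refine h.finger ht (fun m hm => hg m (wall_eq hv hm)) hjm hu hlam hul (fun i hi hi' => ?_) ?_
    (fun m' hm hm' w hw hW => LL_single_ne hu0 (h3 m' hm hm') hw (wall_eq hv hW)) hs
  · rw [pos, inner_nu_v hv, inner_nu, hY, h1 i hi hi']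
  · rw [pos, inner_nu_v hv, inner_nu, hY, h2]

theorem swap (h : Arr F q v η (nu n) lev0 e0 D χ) (hdet : det3 (n 0) (n 1) (n 2) ≠ 0)
    (hv : ∀ k, ⟪n k, v⟫ = 1) (t : Fin 5 → ℝ)
    (ht : ∀ i, |t i| ≤ 10) (hg : ∀ m, LL m t ≠ 0) (j m : Fin 5) (hjm : j ≠ m) (u lam u' lam' : ℝ)
    (hu : |t j + u| ≤ 10) (hlam : lam ≠ 0) (hul : 1 < u / lam)
    (hu' : |t m + u'| ≤ 10) (hlam' : lam' ≠ 0) (hul' : 1 < u' / lam') (Y : Fin 3 → ℝ)
    (h1 : ∀ i, i ≠ j → i ≠ m → nuY Y i = lev0 i + t i * c0 i)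
    (h2 : nuY Y j = lev0 j + t j * c0 j + lam * c0 j)
    (h2' : nuY Y m = lev0 m + t m * c0 m + lam' * c0 m)
    (h3 : ∀ m', m' ≠ j → m' ≠ m → 0 < LL m' t * LL m' (t + Pi.single j u))
    (h3' : ∀ m', m' ≠ m → m' ≠ j → 0 < LL m' t * LL m' (t + Pi.single m u')) (s : ℝ)
    (hs : 0 < s * (e0 j * u)) (hs' : 0 < s * (e0 m * u')) :
    Rel (mv F v χ (t + Pi.single j u)) (mv F v χ (t + Pi.single m u')) := by
  obtain ⟨y, hy⟩ := exists_coord hdet Y
  have hp : ∀ k, ⟪n k, (q + y) - q⟫ = Y k := by simpa using hy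
  obtain ⟨⟨x, hx⟩, k1⟩ := step h hv t ht hg j m hjm u lam hu hlam hul Y hp h1 h2 h3 s hs
  obtain ⟨-, k2⟩ := step h hv t ht hg m j hjm.symm u' lam' hu' hlam' hul' Y hp
    (fun i hi hi' => h1 i hi' hi) h2' h3' s hs'
  exact tau_unique (h.mv_i4 ht fun m hm => hg m (wall_eq hv hm)) hx k1 k2

theorem same (h : Arr F q v η (nu n) lev0 e0 D χ) (hv : ∀ k, ⟪n k, v⟫ = 1) (t t' : Fin 5 → ℝ)
    (ht : ∀ i, |t i| ≤ 10) (ht' : ∀ i, |t' i| ≤ 10) (hs : ∀ m, 0 < LL m t * LL m t') :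
    Rel (mv F v χ t) (mv F v χ t') :=
  h.mv_rel ht ht' fun _ hs' m hm => LL_ne (hs m) hs' (wall_eq hv hm)

theorem walk (h : Arr F q v η (nu n) lev0 e0 D χ) (hdet : det3 (n 0) (n 1) (n 2) ≠ 0)
    (hv : ∀ k, ⟪n k, v⟫ = 1) : ∃ g g', Tau F q 1 g ∧ Tau F q (-1) g' ∧ Rel g g' := by
  have k0 := step h hv 0 (by simp) (by simp [Fin.forall_fin_succ, LL]; norm_num) 4 3 (by decide)
    (-1) (-2 / 3) (by norm_num) (by norm_num) (by norm_num) (p := q) 0 (by simp)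
    (by simp [Fin.forall_fin_succ, nuY, lev0]) (by simp [nuY, lev0, c0]; norm_num)
    (by simp [Fin.forall_fin_succ, LL]; norm_num) 1 (by simp [e0])
  have k9 := step h hv 0 (by simp) (by simp [Fin.forall_fin_succ, LL]; norm_num) 3 4 (by decide)
    (4 / 3) 1 (by norm_num [abs_le]) (by norm_num) (by norm_num) (p := q) 0 (by simp)
    (by simp [Fin.forall_fin_succ, nuY, lev0]) (by simp [nuY, lev0, c0])
    (by simp [Fin.forall_fin_succ, LL]; norm_num) (-1) (by simp [e0])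
  rw [mv_zero] at k0 k9
  have s2 := swap h hdet hv ![0, 0, 0, -5 / 3, -8 / 3]
    (by simp [Fin.forall_fin_succ, abs_le]; norm_num)
    (by simp [Fin.forall_fin_succ, LL]; norm_num) 1 0 (by decide) (-5) (-4) (-5) (-4)
    (by norm_num) (by norm_num) (by norm_num) (by norm_num) (by norm_num) (by norm_num)
    ![-4, -4, 0] (by simp [Fin.forall_fin_succ, nuY, lev0, c0]; norm_num)
    (by simp [nuY, lev0, c0]) (by simp [nuY, lev0, c0])
    (by simp [Fin.forall_fin_succ, LL]; norm_num) (by simp [Fin.forall_fin_succ, LL]; norm_num)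
    (-1) (by simp [e0]) (by simp [e0])
  have s4 := swap h hdet hv ![0, 0, 0, 0, -17 / 6]
    (by simp [Fin.forall_fin_succ, abs_le]; norm_num)
    (by simp [Fin.forall_fin_succ, LL]; norm_num) 4 2 (by decide) 1 (2 / 3) (-4) (-3)
    (by simp [abs_le]; norm_num) (by norm_num) (by norm_num) (by simp; norm_num) (by norm_num)
    (by norm_num)
    ![0, 0, -3] (by simp [Fin.forall_fin_succ, nuY, lev0, c0])
    (by simp [nuY, lev0, c0]; norm_num) (by simp [nuY, lev0, c0])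
    (by simp [Fin.forall_fin_succ, LL]; norm_num) (by simp [Fin.forall_fin_succ, LL]; norm_num)
    (-1) (by simp [e0]) (by simp [e0])
  have s6 := swap h hdet hv ![0, 0, 0, 3, 0]
    (by simp [Fin.forall_fin_succ, abs_le]; norm_num)
    (by simp [Fin.forall_fin_succ, LL]; norm_num) 0 3 (by decide) 5 4 (-1) (-2 / 3)
    (by simp; norm_num) (by norm_num) (by norm_num) (by simp [abs_le]; norm_num) (by norm_num)
    (by norm_num)
    ![4, 0, 0] (by simp [Fin.forall_fin_succ, nuY, lev0, c0])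
    (by simp [nuY, lev0, c0]) (by simp [nuY, lev0, c0]; norm_num)
    (by simp [Fin.forall_fin_succ, LL]; norm_num) (by simp [Fin.forall_fin_succ, LL]; norm_num)
    1 (by simp [e0]) (by simp [e0])
  have s8 := swap h hdet hv ![0, 0, 0, 11 / 3, 5 / 2]
    (by simp [Fin.forall_fin_succ, abs_le]; norm_num)
    (by simp [Fin.forall_fin_succ, LL]; norm_num) 2 1 (by decide) 5 3 6 5
    (by simp; norm_num) (by norm_num) (by norm_num) (by simp; norm_num) (by norm_num)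
    (by norm_num)
    ![0, 5, 3] (by simp [Fin.forall_fin_succ, nuY, lev0, c0]; norm_num)
    (by simp [nuY, lev0, c0]) (by simp [nuY, lev0, c0])
    (by simp [Fin.forall_fin_succ, LL]; norm_num) (by simp [Fin.forall_fin_succ, LL]; norm_num)
    1 (by simp [e0]) (by simp [e0])
  refine ⟨_, _, k0.2, k9.2, ?_⟩
  refine (same h hv _ _ ?_ ?_ ?_).trans (s2.trans ((same h hv _ _ ?_ ?_ ?_).trans (s4.trans
    ((same h hv _ _ ?_ ?_ ?_).trans (s6.trans ((same h hv _ _ ?_ ?_ ?_).trans (s8.trans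
      (same h hv _ _ ?_ ?_ ?_))))))))
  all_goals simp [Fin.forall_fin_succ, LL, abs_le]
  all_goals norm_num

theorem five_planes (hF : I4 F) (hdet : det3 (n 0) (n 1) (n 2) ≠ 0) (hv : ∀ k, ⟪n k, v⟫ = 1)
    (hdet' : ∀ i j k, i ≠ j → i ≠ k → j ≠ k → det3 (nu n i) (nu n j) (nu n k) ≠ 0)
    (hvs : 10 * ‖v‖ < η / 8)
    (hcore : ∀ i j k, i ≠ j → i ≠ k → j ≠ k → ∀ y : E,
      (∀ l, l = i ∨ l = j ∨ l = k → |⟪nu n l, y⟫| ≤ 64) → ‖y‖ < η / 8)
    (hopn : ∀ i, IsOpen (D i)) (hdisj : ∀ i j, i ≠ j → ∀ x ∈ D i, x ∉ D j)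
    (hcov : ∀ x ∈ S, F x ∈ ball q η → ∃ i, x ∈ D i)
    (hflat : ∀ i, ∀ x ∈ S, x ∈ D i → ⟪nu n i, F x - q⟫ = lev0 i)
    (hinj : ∀ i, ∀ x ∈ S, ∀ x' ∈ S, x ∈ D i → x' ∈ D i → F x = F x' → x = x')
    (hsurj : ∀ i, ∀ y ∈ ball q η, ⟪nu n i, y - q⟫ = lev0 i → ∃ x ∈ S, x ∈ D i ∧ F x = y)
    (hsgn : ∀ i, ∀ x ∈ S, x ∈ D i → 0 < e0 i * ⟪nrm F x, v⟫) :
    ∃ g g', Tau F q 1 g ∧ Tau F q (-1) g' ∧ Rel g g' := by
  have hη : 0 < η := by have := norm_nonneg v; linarith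
  have hFc : Continuous F := hF.1.1.continuous
  have key : ∀ i, ∃ χ : E → ℝ, ContDiff ℝ ∞ χ ∧ tsupport χ ⊆ D i ∩ F ⁻¹' ball q (η / 2) ∧
      (∀ x, χ x ∈ Icc (0 : ℝ) 1) ∧
      ∀ x ∈ S, x ∈ D i → ‖F x - q‖ ≤ η / 4 → χ =ᶠ[𝓝 x] 1 := by
    intro i
    have hK : IsCompact ((S ∩ F ⁻¹' closedBall q (η / 4)) \ ⋃ j ∈ {j | j ≠ i}, D j) :=
      (isCompact_S.inter_right (isClosed_closedBall.preimage hFc)).diff
        (isOpen_biUnion fun j _ => hopn j)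
    obtain ⟨χ, h1, h2, -, h3, h4⟩ := exists_cutoff hK
      ((hopn i).inter (isOpen_ball.preimage hFc) : IsOpen (D i ∩ F ⁻¹' ball q (η / 2))) (by
        rintro x ⟨⟨hx, hx1⟩, hx2⟩
        obtain ⟨j, hj⟩ := hcov x hx (closedBall_subset_ball (by linarith) hx1)
        have : j = i := by
          by_contra h0
          exact hx2 (mem_biUnion (t := D) h0 hj)
        have hx3 : F x ∈ ball q (η / 2) := closedBall_subset_ball (by linarith) hx1
        exact ⟨this ▸ hj, hx3⟩)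
    refine ⟨χ, h1, h2, h3, fun x hx hxD hx1 => h4 x ⟨⟨hx, by simpa [dist_eq_norm] using hx1⟩, ?_⟩⟩
    simp only [mem_iUnion, not_exists]
    exact fun j hj => hdisj i j (Ne.symm hj) x hxD
  choose χ h1 h2 h3 h4 using key
  refine walk (χ := χ) ⟨hF, hopn, hdisj, hcov, hflat, hinj, hsurj, hsgn, fun i => ?_, hdet', hvs,
    fun i j k hij hik hjk y hy => hcore i j k hij hik hjk y fun l hl => ?_, h1, h2, h3, h4⟩ hdet hv
  · rw [inner_nu_v hv]; fin_cases i <;> simp [c0]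
  · obtain ⟨u, hu, hu'⟩ := hy l hl
    rw [hu', inner_nu_v hv]
    have := abs_le.1 hu
    rw [abs_le]
    fin_cases l <;> simp [lev0, c0] <;> constructor <;> linarith

end Pool.Agent.Lib.Quad.Five
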