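import Pool.Agent.Lib.MP_31e762_gt.FivePlanes

/-! Fingers with flat tips; two extra sheets near a triple point. -/

namespace Pool.Agent.Lib.Quad.Five

open scoped ContDiff RealInnerProductSpace Topology
open Metric Set Function Filter

theorem nu_det {n : Fin 3 → E} (hdet : det3 (n 0) (n 1) (n 2) ≠ 0) (i j k : Fin 5) (hij : i ≠ j)
    (hik : i ≠ k) (hjk : j ≠ k) : det3 (nu n i) (nu n j) (nu n k) ≠ 0 := by
  let co : Fin 5 → Fin 3 → ℤ := ![![1, 0, 0], ![0, 1, 0], ![0, 0, 1], ![1, 1, 1], ![1, 2, 3]]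
  have h1 : ∀ i, nu n i = (co i 0 : ℝ) • n 0 + (co i 1 : ℝ) • n 1 + (co i 2 : ℝ) • n 2 := by
    intro i; fin_cases i <;> simp [nu, co]
  have h2 : ∀ i j k : Fin 5, i ≠ j → i ≠ k → j ≠ k →
      (co i 1 * co j 2 - co i 2 * co j 1) * co k 0 + (co i 2 * co j 0 - co i 0 * co j 2) * co k 1 +
        (co i 0 * co j 1 - co i 1 * co j 0) * co k 2 ≠ 0 := by decide
  have h3 : det3 (nu n i) (nu n j) (nu n k) =
      (((co i 1 * co j 2 - co i 2 * co j 1) * co k 0 + (co i 2 * co j 0 - co i 0 * co j 2) * co k 1 +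
        (co i 0 * co j 1 - co i 1 * co j 0) * co k 2 : ℤ) : ℝ) * det3 (n 0) (n 1) (n 2) := by
    rw [h1 i, h1 j, h1 k]
    simp [det3_eq]
    ring
  rw [h3]
  exact mul_ne_zero (Int.cast_ne_zero.2 (h2 i j k hij hik hjk)) hdet

theorem bound_of_det {a b c : E} (h : det3 a b c ≠ 0) : ∃ C : ℝ, ∀ (y : E) (r : ℝ),
    |⟪a, y⟫| ≤ r → |⟪b, y⟫| ≤ r → |⟪c, y⟫| ≤ r → ‖y‖ ≤ C * r := by
  refine ⟨(‖cross b c‖ + ‖cross c a‖ + ‖cross a b‖) / |det3 a b c|, fun y r h1 h2 h3 => ?_⟩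
  have h0 := abs_pos.2 h
  rw [div_mul_eq_mul_div, le_div_iff₀ h0]
  have h4 := congrArg norm (cramer3 a b c y)
  rw [norm_smul, Real.norm_eq_abs] at h4
  have h5 := norm_add₃_le (a := ⟪a, y⟫ • cross b c) (b := ⟪b, y⟫ • cross c a)
    (c := ⟪c, y⟫ • cross a b)
  simp only [norm_smul, Real.norm_eq_abs] at h5
  nlinarith [mul_le_mul_of_nonneg_right h1 (norm_nonneg (cross b c)),
    mul_le_mul_of_nonneg_right h2 (norm_nonneg (cross c a)),
    mul_le_mul_of_nonneg_right h3 (norm_nonneg (cross a b))]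

theorem nu_bound {n : Fin 3 → E} (hdet : det3 (n 0) (n 1) (n 2) ≠ 0) :
    ∃ C : ℝ, 0 < C ∧ ∀ i j k, i ≠ j → i ≠ k → j ≠ k → ∀ (y : E) (r : ℝ), 0 ≤ r →
      (∀ l, l = i ∨ l = j ∨ l = k → |⟪nu n l, y⟫| ≤ r) → ‖y‖ ≤ C * r := by
  have h1 : ∀ p : Fin 5 × Fin 5 × Fin 5, ∃ C : ℝ, p.1 ≠ p.2.1 → p.1 ≠ p.2.2 → p.2.1 ≠ p.2.2 →
      ∀ (y : E) (r : ℝ), |⟪nu n p.1, y⟫| ≤ r → |⟪nu n p.2.1, y⟫| ≤ r → |⟪nu n p.2.2, y⟫| ≤ r →
        ‖y‖ ≤ C * r := by
    rintro ⟨i, j, k⟩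
    by_cases h : i ≠ j ∧ i ≠ k ∧ j ≠ k
    · obtain ⟨C, hC⟩ := bound_of_det (nu_det hdet i j k h.1 h.2.1 h.2.2)
      exact ⟨C, fun _ _ _ => hC⟩
    · exact ⟨0, fun a b c => (h ⟨a, b, c⟩).elim⟩
  choose C hC using h1
  obtain ⟨B, hB⟩ := Finite.bddAbove_range C
  refine ⟨|B| + 1, by positivity, fun i j k hij hik hjk y r hr hy => ?_⟩
  have h2 := hC (i, j, k) hij hik hjk y r (hy _ (by simp)) (hy _ (by simp)) (hy _ (by simp))
  have h3 : C (i, j, k) ≤ B := hB ⟨_, rfl⟩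
  nlinarith [le_abs_self B]

/-- The height function of a finger with a flat tip at level `a`. -/
noncomputable def tip (g : E → E) (β : E → ℝ) (ν q v : E) (a : ℝ) : E → ℝ :=
  fun x => β x * ((a - ⟪ν, g x - q⟫) / ⟪ν, v⟫)

theorem tip_smooth {g : E → E} {β : E → ℝ} (hg : ContDiff ℝ ∞ g) (hβ : ContDiff ℝ ∞ β)
    (ν q v : E) (a : ℝ) : ContDiff ℝ ∞ (tip g β ν q v a) :=
  hβ.mul ((contDiff_const.sub (contDiff_const.inner ℝ (hg.sub contDiff_const))).div_const _)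

theorem tip_level {g : E → E} {β : E → ℝ} {ν q v : E} (hν : ⟪ν, v⟫ ≠ 0) (a θ : ℝ) (x : E) :
    ⟪ν, g x + (θ * tip g β ν q v a x) • v - q⟫ =
      (1 - θ * β x) * ⟪ν, g x - q⟫ + θ * β x * a := by
  rw [show g x + (θ * tip g β ν q v a x) • v - q = (g x - q) + (θ * tip g β ν q v a x) • v by abel,
    inner_add_right, real_inner_smul_right, tip]
  field_simp
  ring

theorem finger_data {g : E → E} (hg : ContDiff ℝ ∞ g) {b q v ν : E} (hb : b ∈ S)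
    (hv : g b + v = q) (htr : ⟪nrm g b, v⟫ ≠ 0) (hν : ⟪ν, v⟫ ≠ 0) {V : Set E} (hV : V ∈ 𝓝 b)
    {ρ : ℝ} (hρ : ‖v‖ < ρ) :
    ∃ (D : Set E) (β : E → ℝ) (η : ℝ), VD g D v ∧ D ⊆ V ∧ ContDiff ℝ ∞ β ∧ tsupport β ⊆ D ∧
      (∀ x, β x ∈ Icc (0 : ℝ) 1) ∧ 0 < η ∧
      (∀ x ∈ S, x ∈ D → 0 < ⟪nrm g b, v⟫ * ⟪nrm g x, v⟫) ∧
      (∀ x ∈ S, x ∈ D → ∀ t : ℝ, g x + t • v ∈ ball q η → β x = 1) ∧
      (∀ y ∈ ball q η, ∃ x ∈ S, x ∈ D ∧ ∃ t : ℝ, g x + t • v = y) ∧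
      ∀ a : ℝ, |a| < η → ∀ x ∈ D, ∀ θ ∈ Icc (0 : ℝ) 1,
        g x + (θ * tip g β ν q v a x) • v ∈ ball q ρ := by
  have hgc := hg.continuous
  obtain ⟨r₀, hr₀, δ, hδ, hVD⟩ := exists_VD hg hb htr
  obtain ⟨hVD1, hVD2⟩ := hVD g hg (by simpa using small_zero hδ.le) v (by simpa using hδ.le)
  have hρ0 : 0 < ρ := (norm_nonneg _).trans_lt hρ
  -- the region where the moved points stay in the ball
  have hev : ∀ᶠ p : E × ℝ in 𝓝 (b, 0), g p.1 ∈ ball q ρ ∧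
      g p.1 + ((p.2 - ⟪ν, g p.1 - q⟫) / ⟪ν, v⟫) • v ∈ ball q ρ := by
    have c1 : Continuous fun p : E × ℝ => g p.1 := by fun_prop
    have c2 : Continuous fun p : E × ℝ => g p.1 + ((p.2 - ⟪ν, g p.1 - q⟫) / ⟪ν, v⟫) • v := by
      fun_prop
    refine Eventually.and (c1.continuousAt.preimage_mem_nhds (isOpen_ball.mem_nhds ?_))
      (c2.continuousAt.preimage_mem_nhds (isOpen_ball.mem_nhds ?_))
    · rw [mem_ball, dist_eq_norm, ← hv]; simpa using hρ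
    · have : (0 - ⟪ν, g b - q⟫) / ⟪ν, v⟫ = 1 := by
        rw [← hv, show g b - (g b + v) = -v by abel, inner_neg_right]; field_simp; ring
      simp only [this, one_smul, hv]
      exact mem_ball_self hρ0
  obtain ⟨r₁, hr₁, hev⟩ := Metric.eventually_nhds_iff.1 hev
  obtain ⟨r₂, hr₂, hV2⟩ := Metric.mem_nhds_iff.1 hV
  set r := min (min (r₀ / 2) r₁) r₂ with hr
  have hr0 : 0 < r := by positivity
  have hrr0 : r < r₀ := ((min_le_left _ _).trans (min_le_left _ _)).trans_lt (by linarith)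
  have hrr1 : r ≤ r₁ := (min_le_left _ _).trans (min_le_right _ _)
  have hrr2 : r ≤ r₂ := min_le_right _ _
  obtain ⟨β, hβ, hβs, -, hβr, hβ1⟩ := exists_cutoff (isCompact_closedBall b (r / 2)) isOpen_ball
    (closedBall_subset_ball (by linarith) : closedBall b (r / 2) ⊆ ball b r)
  -- away from the centre the vertical lines miss `q`
  have hK : IsCompact ((S ∩ closedBall b r) \ ball b (r / 2)) :=
    (isCompact_S.inter_right isClosed_closedBall).diff isOpen_ball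
  have hv0 : v ≠ 0 := by rintro rfl; simp at hν
  obtain ⟨m, hm0, hm⟩ : ∃ m : ℝ, 0 < m ∧ ∀ x ∈ (S ∩ closedBall b r) \ ball b (r / 2),
      m ≤ ‖cross (g x - q) v‖ := by
    refine hK.exists_forall_le' (f := fun x => ‖cross (g x - q) v‖) (by fun_prop) ?_
    rintro x ⟨⟨hx, hx1⟩, hx2⟩
    rw [norm_pos_iff]
    intro h0
    obtain ⟨t, ht⟩ := (cross_eq_zero_iff hv0).1 h0
    have : x = b := hVD1.2.2 b hb x hx (mem_ball_self hr₀) (closedBall_subset_ball hrr0 hx1) (t + 1)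
      (by rw [add_smul, one_smul, ← ht, ← hv]; abel)
    exact hx2 (this ▸ mem_ball_self (by linarith))
  obtain ⟨r₃, hr₃, hsur⟩ := Metric.eventually_nhds_iff.1
    (local_surj hg hb htr (ball_mem_nhds b hr0) one_pos)
  have hvn : 0 < ‖v‖ := norm_pos_iff.2 hv0
  refine ⟨ball b r, β, min (min (m / ‖v‖) r₃) r₁, hVD1.mono isOpen_ball (ball_subset_ball hrr0.le),
    (ball_subset_ball hrr2).trans hV2, hβ, hβs, hβr, by positivity,
    fun x hx hxD => hVD2 x hx (ball_subset_ball hrr0.le hxD), fun x hx hxD t ht => ?_,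
    fun y hy => ?_, fun a ha x hx θ hθ => ?_⟩
  · by_cases hx2 : x ∈ ball b (r / 2)
    · exact (hβ1 x (ball_subset_closedBall hx2)).eq_of_nhds
    · exfalso
      have h1 := hm x ⟨⟨hx, ball_subset_closedBall hxD⟩, hx2⟩
      have h2 : cross (g x - q) v = cross (g x + t • v - q) v := by
        rw [show g x + t • v - q = (g x - q) + t • v by abel, cross_add_left, cross_smul_left]
        simp
      have h3 := norm_cross_le (g x + t • v - q) v
      rw [mem_ball, dist_eq_norm] at ht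
      have h4 : ‖g x + t • v - q‖ < m / ‖v‖ :=
        ht.trans_le ((min_le_left _ _).trans (min_le_left _ _))
      rw [lt_div_iff₀ hvn] at h4
      rw [h2] at h1
      linarith
  · obtain ⟨x, hx, hxD, t, -, ht⟩ := @hsur (y - v) (by
      rw [dist_eq_norm, show y - v - g b = y - q by rw [← hv]; abel, ← dist_eq_norm]
      exact (mem_ball.1 hy).trans_le ((min_le_left _ _).trans (min_le_right _ _)))
    exact ⟨x, hx, hxD, t + 1, by rw [add_smul, one_smul, ← add_assoc, ht]; abel⟩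
  · obtain ⟨h1, h2⟩ := @hev (x, a) (by
      rw [Prod.dist_eq, max_lt_iff]
      exact ⟨(mem_ball.1 hx).trans_le hrr1, by
        simpa [Real.dist_eq] using ha.trans_le (min_le_right _ _)⟩)
    have h3 := hβr x
    have h4 := (convex_ball q ρ) h1 h2 (a := 1 - θ * β x) (b := θ * β x)
      (by nlinarith [hθ.1, hθ.2, h3.1, h3.2]) (mul_nonneg hθ.1 h3.1) (by ring)
    convert h4 using 1
    simp only [tip, smul_add, smul_smul, sub_smul, one_smul, mul_assoc]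
    abel

theorem twist_tau {f : E → E} {x : Fin 3 → E} {q : E} (hf : I4 f) (hq : TT f x q) (c z : E) {κ : ℝ}
    (h : 1 < κ * ‖q - c‖) :
    I4 (tw c z κ ∘ f) ∧ TT (tw c z κ ∘ f) x q ∧
      ∀ σ : ℝ, σ ≠ 0 → ∀ γ, (Tau f q σ γ ↔ Tau (tw c z κ ∘ f) q σ γ) := by
  have key : ∀ z : E, I4 (tw c z κ ∘ f) ∧ TT (tw c z κ ∘ f) x q := by
    intro z
    have h1 : ∀ i, tw c z κ ∘ f =ᶠ[𝓝 (x i)] f := fun i =>
      tw_comp_eventually_far hf.1.1.continuous z (by rw [hq.2.2.1 i]; exact h)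
    refine ⟨(tw_amb c z κ).i4 hf, hq.1, hq.2.1, fun i => ?_, ?_⟩
    · rw [(h1 i).eq_of_nhds, hq.2.2.1 i]
    · rw [nrm_congr_ev (h1 0), nrm_congr_ev (h1 1), nrm_congr_ev (h1 2)]
      exact hq.2.2.2
  refine ⟨(key z).1, (key z).2, fun σ hσ γ => ?_⟩
  have h2 := tau_family (G := fun s => tw c (s • z) κ ∘ f) (x := x) (q := q)
    (contDiff_tw (c := fun _ : ℝ × E => c) (z := fun p : ℝ × E => p.1 • z) (κ := fun _ => κ)
      (y := fun p : ℝ × E => f p.2) contDiff_const (by fun_prop) contDiff_const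
      (hf.1.1.comp contDiff_snd)) (fun s _ => key (s • z)) hσ γ
  simpa using h2

end Pool.Agent.Lib.Quad.Five
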