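import Mathlib

/-!
Equal-dimension Sard theorem and an affine parametric transversality theorem.
-/

namespace Pool.Agent.Lib.Quad.Generic

open MeasureTheory Set Function Module Filter
open scoped Topology

/-- Critical values of a map into a space of at least the same dimension form a null set. -/
theorem sard {X V : Type*} [NormedAddCommGroup X] [NormedSpace ℝ X] [FiniteDimensional ℝ X]
    [NormedAddCommGroup V] [NormedSpace ℝ V] [FiniteDimensional ℝ V] [MeasurableSpace V]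
    [BorelSpace V] (μ : Measure V) [μ.IsAddHaarMeasure] (hd : finrank ℝ X ≤ finrank ℝ V)
    {f : X → V} {s : Set X}
    (hf : ∀ x ∈ s, ∃ f' : X →L[ℝ] V, HasFDerivAt f f' x ∧ ¬ Surjective f') :
    μ (f '' s) = 0 := by
  obtain ⟨j, hj⟩ := finrank_le_iff_exists_linearMap.1 hd
  obtain ⟨r, hr⟩ := LinearMap.exists_leftInverse_of_injective j (LinearMap.ker_eq_bot.2 hj)
  have hrs : Surjective r := fun x => ⟨j x, by simpa using LinearMap.congr_fun hr x⟩
  set π : V →L[ℝ] X := LinearMap.toContinuousLinearMap r with hπ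
  have hπs : Surjective π := hrs
  choose! f' hf'1 hf'2 using hf
  have e : f '' s = (f ∘ π) '' (π ⁻¹' s) := by
    rw [image_comp, image_preimage_eq _ hπs]
  rw [e]
  refine addHaar_image_eq_zero_of_det_fderivWithin_eq_zero μ
    (f' := fun y => (f' (π y)).comp π) (fun y hy => ?_) (fun y hy => ?_)
  · exact ((hf'1 _ hy).comp y π.hasFDerivAt).hasFDerivWithinAt
  · by_contra h
    apply hf'2 _ hy
    have h1 : Surjective ((f' (π y)).comp π) :=
      (LinearMap.equivOfDetNeZero (((f' (π y)).comp π : V →L[ℝ] V) : V →ₗ[ℝ] V) h).surjective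
    exact Surjective.of_comp (g := π) h1

/-- Parametric transversality for families depending affinely on the parameter. -/
theorem param {X V W : Type*} [NormedAddCommGroup X] [NormedSpace ℝ X] [FiniteDimensional ℝ X]
    [NormedAddCommGroup W] [NormedSpace ℝ W] [FiniteDimensional ℝ W]
    [NormedAddCommGroup V] [NormedSpace ℝ V] [FiniteDimensional ℝ V] [MeasurableSpace V]
    [BorelSpace V] (μ : Measure V) [μ.IsAddHaarMeasure] (hd : finrank ℝ X ≤ finrank ℝ W)
    (G : X → W) (Λ : X → V →L[ℝ] W) (hG : Differentiable ℝ G) (hΛ : Differentiable ℝ Λ) :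
    μ {P | ∃ ξ, Surjective (Λ ξ) ∧ G ξ + Λ ξ P = 0 ∧ ∃ θ : W →L[ℝ] ℝ, θ ≠ 0 ∧
      ∀ h, θ (fderiv ℝ (fun η => G η + Λ η P) ξ h) = 0} = 0 := by
  have : CompleteSpace W := FiniteDimensional.complete ℝ W
  -- local statement
  have loc : ∀ ξ0, Surjective (Λ ξ0) → ∃ N ∈ 𝓝 ξ0,
      μ {P | ∃ ξ ∈ N, G ξ + Λ ξ P = 0 ∧ ∃ θ : W →L[ℝ] ℝ, θ ≠ 0 ∧
        ∀ h, θ (fderiv ℝ (fun η => G η + Λ η P) ξ h) = 0} = 0 := by
    intro ξ0 h0
    obtain ⟨r, hr⟩ := LinearMap.exists_rightInverse_of_surjective (Λ ξ0 : V →ₗ[ℝ] W)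
      (LinearMap.range_eq_top.2 h0)
    set R : W →L[ℝ] V := LinearMap.toContinuousLinearMap r with hR
    have hR1 : ∀ w, Λ ξ0 (R w) = w := fun w => LinearMap.congr_fun hr w
    set L : X → W →L[ℝ] W := fun ξ => (Λ ξ).comp R with hL
    have hLd : Differentiable ℝ L := hΛ.clm_comp (differentiable_const _)
    have hNo : IsOpen {ξ | IsUnit (L ξ)} := Units.isOpen.preimage hLd.continuous
    have hN0 : IsUnit (L ξ0) := by
      have : L ξ0 = 1 := by ext w; simp [hL, hR1]
      rw [this]; exact isUnit_one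
    refine ⟨{ξ | IsUnit (L ξ)}, hNo.mem_nhds hN0, ?_⟩
    set V0 : Submodule ℝ V := LinearMap.ker (Λ ξ0 : V →ₗ[ℝ] W) with hV0
    set Φ : X × V0 → V := fun z =>
      (z.2 : V) - R (Ring.inverse (L z.1) (G z.1 + Λ z.1 (z.2 : V))) with hΦ
    have hdim : finrank ℝ (X × V0) ≤ finrank ℝ V := by
      have h1 := LinearMap.finrank_range_add_finrank_ker (Λ ξ0 : V →ₗ[ℝ] W)
      rw [LinearMap.range_eq_top.2 h0, finrank_top, ← hV0] at h1
      rw [finrank_prod]
      omega
    have hzero : ∀ z : X × V0, IsUnit (L z.1) → G z.1 + Λ z.1 (Φ z) = 0 := by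
      intro z hz
      have h1 : L z.1 (Ring.inverse (L z.1) (G z.1 + Λ z.1 (z.2 : V))) =
          G z.1 + Λ z.1 (z.2 : V) := by
        rw [← mul_apply_eq_comp, Ring.mul_inverse_cancel _ hz]; rfl
      have h2 : Λ z.1 (Φ z) = Λ z.1 (z.2 : V) -
          L z.1 (Ring.inverse (L z.1) (G z.1 + Λ z.1 (z.2 : V))) := by
        simp only [hΦ, map_sub, hL, ContinuousLinearMap.comp_apply]
      rw [h2, h1]; abel
    set s : Set (X × V0) := {z | IsUnit (L z.1) ∧ ∃ θ : W →L[ℝ] ℝ, θ ≠ 0 ∧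
        ∀ h, θ (fderiv ℝ (fun η => G η + Λ η (Φ z)) z.1 h) = 0} with hs
    have hnull : μ (Φ '' s) = 0 := by
      refine sard μ hdim fun z hz => ?_
      obtain ⟨hu, θ, hθ, hθ2⟩ := hz
      have hv : Differentiable ℝ (fun z : X × V0 => (z.2 : V)) :=
        (V0.subtypeL.comp (ContinuousLinearMap.snd ℝ X V0)).differentiable
      have hΦd : DifferentiableAt ℝ Φ z := by
        have h1 : DifferentiableAt ℝ (fun z : X × V0 => Ring.inverse (L z.1)) z :=
          DifferentiableAt.inverse ((hLd.comp differentiable_fst) z) hu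
        have h2 : DifferentiableAt ℝ (fun z : X × V0 => G z.1 + Λ z.1 (z.2 : V)) z :=
          ((hG.comp differentiable_fst) z).add
            (((hΛ.comp differentiable_fst) z).clm_apply (hv z))
        exact (hv z).sub (R.differentiableAt.comp z (h1.clm_apply h2))
      refine ⟨fderiv ℝ Φ z, hΦd.hasFDerivAt, fun hsurj => hθ ?_⟩
      have hev : (fun y : X × V0 => G y.1 + Λ y.1 (Φ y)) =ᶠ[𝓝 z] fun _ => 0 := by
        have : {y : X × V0 | IsUnit (L y.1)} ∈ 𝓝 z :=
          (hNo.preimage continuous_fst).mem_nhds hu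
        filter_upwards [this] with y hy using hzero y hy
      have hD0 : HasFDerivAt (fun y : X × V0 => G y.1 + Λ y.1 (Φ y)) (0 : X × V0 →L[ℝ] W) z :=
        (hasFDerivAt_const (0 : W) z).congr_of_eventuallyEq hev
      have hG1 : HasFDerivAt (fun y : X × V0 => G y.1)
          ((fderiv ℝ G z.1).comp (ContinuousLinearMap.fst ℝ X V0)) z :=
        (hG z.1).hasFDerivAt.comp z hasFDerivAt_fst
      have hΛ1 : HasFDerivAt (fun y : X × V0 => Λ y.1)
          ((fderiv ℝ Λ z.1).comp (ContinuousLinearMap.fst ℝ X V0)) z :=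
        (hΛ z.1).hasFDerivAt.comp z hasFDerivAt_fst
      have hD1 := hG1.add (hΛ1.clm_apply hΦd.hasFDerivAt)
      have hE := hD0.unique hD1
      have hP : HasFDerivAt (fun η => G η + Λ η (Φ z))
          (fderiv ℝ G z.1 + (fderiv ℝ Λ z.1).flip (Φ z)) z.1 := by
        have := (hG z.1).hasFDerivAt.add
          ((hΛ z.1).hasFDerivAt.clm_apply (hasFDerivAt_const (Φ z) z.1))
        simp only [ContinuousLinearMap.comp_zero, zero_add] at this
        exact this
      rw [hP.fderiv] at hθ2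
      ext w
      obtain ⟨y, hy⟩ := hsurj (R (Ring.inverse (L z.1) w))
      have h1 := congrArg (fun T : X × V0 →L[ℝ] W => θ (T y)) hE
      have h2 := hθ2 y.1
      have h3 : Λ z.1 (R (Ring.inverse (L z.1) w)) = w := by
        change L z.1 (Ring.inverse (L z.1) w) = w
        rw [← mul_apply_eq_comp, Ring.mul_inverse_cancel _ hu]; rfl
      simp only [zero_apply, map_zero, add_apply,
        ContinuousLinearMap.comp_apply, ContinuousLinearMap.coe_fst', map_add,
        ContinuousLinearMap.flip_apply, hy, h3] at h1 h2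
      simp only [zero_apply]
      linarith
    refine measure_mono_null ?_ hnull
    rintro P ⟨ξ, hξ, hP0, θ, hθ, hθ2⟩
    have hξ' : IsUnit (L ξ) := hξ
    set P0 : V0 := ⟨P - R (Λ ξ0 P), by simp [hV0, hR1]⟩ with hP0def
    have hΦP : Φ (ξ, P0) = P := by
      have h1 : G ξ + Λ ξ (P0 : V) = - L ξ (Λ ξ0 P) := by
        simp only [hP0def, map_sub, hL, ContinuousLinearMap.comp_apply]
        rw [← add_sub_assoc, hP0]; simp
      have h2 : Ring.inverse (L ξ) (L ξ (Λ ξ0 P)) = Λ ξ0 P := by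
        rw [← mul_apply_eq_comp, Ring.inverse_mul_cancel _ hξ']; rfl
      change (P0 : V) - R (Ring.inverse (L ξ) (G ξ + Λ ξ (P0 : V))) = P
      rw [h1, map_neg, h2, map_neg]
      simp [hP0def]
    exact ⟨(ξ, P0), ⟨hξ', θ, hθ, by rw [hΦP]; exact hθ2⟩, hΦP⟩
  choose! N hN hNμ using loc
  obtain ⟨t, ht, htc, hcov⟩ := TopologicalSpace.countable_cover_nhdsWithin
    (s := {ξ | Surjective (Λ ξ)}) (f := N) fun ξ hξ => mem_nhdsWithin_of_mem_nhds (hN ξ hξ)
  refine measure_mono_null ?_ ((measure_biUnion_null_iff htc).2 fun ξ hξ => hNμ ξ (ht hξ))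
  rintro P ⟨ξ, hξ, hP⟩
  obtain ⟨ξ0, hξ0, hm⟩ := mem_iUnion₂.1 (hcov hξ)
  exact mem_iUnion₂.2 ⟨ξ0, hξ0, ξ, hm, hP⟩

end Pool.Agent.Lib.Quad.Generic
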