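import Pool.Agent.Lib.MP_31e762_gt.Defs
import Pool.Agent.Lib.MP_31e762_gt.GenericSard

/-!
Multi-point transversality on the sphere for a finite-dimensional family of perturbations.
-/

namespace Pool.Agent.Lib.Quad.Generic

open MeasureTheory Set Function Module Filter Metric
open scoped Topology ContDiff RealInnerProductSpace

/-- Spherical coordinates. -/
noncomputable def sph (a : ℝ × ℝ) : E :=
  !₂[Real.cos a.1 * Real.cos a.2, Real.sin a.1 * Real.cos a.2, Real.sin a.2]

theorem mem_S_iff (x : E) : x ∈ S ↔ x 0 ^ 2 + x 1 ^ 2 + x 2 ^ 2 = 1 := by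
  unfold S
  rw [mem_sphere_zero_iff_norm, EuclideanSpace.norm_eq, Real.sqrt_eq_one, Fin.sum_univ_three]
  simp

theorem sph_mem (a : ℝ × ℝ) : sph a ∈ S := by
  rw [mem_S_iff]
  simp only [sph, PiLp.toLp_apply, Matrix.cons_val_zero, Matrix.cons_val_one, Matrix.cons_val]
  nlinarith [Real.sin_sq_add_cos_sq a.1, Real.sin_sq_add_cos_sq a.2]

theorem sph_surj {x : E} (hx : x ∈ S) : ∃ a, sph a = x := by
  rw [mem_S_iff] at hx
  set z : ℂ := ⟨x 0, x 1⟩ with hz
  have h2 : -1 ≤ x 2 ∧ x 2 ≤ 1 := by constructor <;> nlinarith [sq_nonneg (x 0), sq_nonneg (x 1)]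
  have hc : Real.cos (Real.arcsin (x 2)) = ‖z‖ := by
    rw [Real.cos_arcsin, Complex.norm_def, Complex.normSq_mk]
    congr 1; nlinarith
  refine ⟨(Complex.arg z, Real.arcsin (x 2)), ?_⟩
  ext i
  fin_cases i
  · simp only [sph, hc]
    have := Complex.norm_mul_cos_arg z
    rw [mul_comm] at this
    exact this
  · simp only [sph, hc]
    have := Complex.norm_mul_sin_arg z
    rw [mul_comm] at this
    exact this
  · simp [sph, Real.sin_arcsin h2.1 h2.2]

theorem sph_diff : Differentiable ℝ sph := by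
  rw [differentiable_euclidean]
  intro i
  fin_cases i <;> simp [sph] <;> fun_prop

theorem sph_tangent (a h : ℝ × ℝ) : ⟪sph a, fderiv ℝ sph a h⟫ = 0 := by
  have h1 := (sph_diff a).hasFDerivAt.norm_sq
  have h2 : (fun a => ‖sph a‖ ^ 2) = fun _ => (1 : ℝ) := by
    funext a
    have : ‖sph a‖ = 1 := mem_sphere_zero_iff_norm.1 (sph_mem a)
    simp [this]
  rw [h2] at h1
  have h3 := congrArg (fun T : ℝ × ℝ →L[ℝ] ℝ => T h) ((hasFDerivAt_const (1 : ℝ) a).unique h1)
  simpa using h3.symm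

/-- The perturbation with coefficients `C`. -/
noncomputable def pert {ι : Type} [Fintype ι] (φ : ι → E → ℝ) (C : ι → E) (x : E) : E :=
  ∑ σ, φ σ x • C σ

theorem pert_diff {ι : Type} [Fintype ι] {φ : ι → E → ℝ} (hφ : ∀ σ, Differentiable ℝ (φ σ))
    (C : ι → E) : Differentiable ℝ (pert φ C) := by
  unfold pert
  fun_prop

theorem engine {ι : Type} [Fintype ι] {φ : ι → E → ℝ} (hφ : ∀ σ, Differentiable ℝ (φ σ))
    (μ : Measure (ι → E)) [μ.IsAddHaarMeasure] {k : ℕ} {Y : Type} [NormedAddCommGroup Y]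
    [NormedSpace ℝ Y] [FiniteDimensional ℝ Y] (hd : finrank ℝ Y ≤ k) {F : E → E}
    (hF : Differentiable ℝ F) (c : E) (B : Y →L[ℝ] E) :
    ∀ᵐ C ∂μ, ∀ x : Fin k → E, (∀ i, x i ∈ S) →
      (∀ i, ∃ l : ι → ℝ, ∀ j, ∑ σ, l σ * φ σ (x j) = if j = i then 1 else 0) →
      ∀ z, (∀ i, (F + pert φ C) (x i) = c + B z) → ∀ θ : Fin k → E,
        (∀ i w, ⟪x i, w⟫ = 0 → ⟪θ i, fderiv ℝ (F + pert φ C) (x i) w⟫ = 0) →
        (∀ ζ, ⟪∑ i, θ i, B ζ⟫ = 0) → θ = 0 := by
  classical
  set T : Fin k → ι → (ι → E) →L[ℝ] (Fin k → E) := fun i σ =>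
    (ContinuousLinearMap.single ℝ (fun _ : Fin k => E) i).comp
      (ContinuousLinearMap.proj (R := ℝ) (φ := fun _ : ι => E) σ) with hT
  set G : (Fin k → ℝ × ℝ) × Y → (Fin k → E) := fun ξ i => F (sph (ξ.1 i)) - c - B ξ.2 with hG
  set Λ : (Fin k → ℝ × ℝ) × Y → (ι → E) →L[ℝ] (Fin k → E) := fun ξ =>
    ∑ i, ∑ σ, φ σ (sph (ξ.1 i)) • T i σ with hΛ
  have hs := sph_diff
  have hGd : Differentiable ℝ G := by
    rw [hG]; fun_prop
  have hΛd : Differentiable ℝ Λ := by
    rw [hΛ]; fun_prop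
  have hΛa : ∀ ξ C i, Λ ξ C i = pert φ C (sph (ξ.1 i)) := by
    intro ξ C i
    simp only [hΛ, hT, pert, sum_apply, Finset.sum_apply, smul_apply, Pi.smul_apply,
      ContinuousLinearMap.comp_apply, ContinuousLinearMap.single_apply,
      ContinuousLinearMap.proj_apply]
    rw [Finset.sum_eq_single i]
    · simp
    · intro j _ hj
      simp [Pi.single_eq_of_ne hj.symm]
    · simp
  have hdim : finrank ℝ ((Fin k → ℝ × ℝ) × Y) ≤ finrank ℝ (Fin k → E) := by
    rw [finrank_prod, finrank_pi_fintype, finrank_pi_fintype]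
    simp
    omega
  have h := param μ hdim G Λ hGd hΛd
  rw [ae_iff]
  refine measure_mono_null ?_ h
  intro C hC
  simp only [mem_ofPred_eq, not_forall] at hC
  obtain ⟨x, hxS, hsep, z, hz, θ, hθ1, hθ2, hθ⟩ := hC
  choose a ha using fun i => sph_surj (hxS i)
  choose l hl using hsep
  refine ⟨(a, z), ?_, ?_, ∑ i, (innerSL ℝ (θ i)).comp
    (ContinuousLinearMap.proj (R := ℝ) (φ := fun _ : Fin k => E) i), ?_, ?_⟩
  · intro u
    refine ⟨fun σ => ∑ i, l i σ • u i, ?_⟩
    funext j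
    rw [hΛa]
    simp only [pert, ha, Finset.smul_sum, smul_smul]
    rw [Finset.sum_comm]
    simp only [← Finset.sum_smul, mul_comm (φ _ _), hl]
    simp
  · funext i
    have := hz i
    simp only [Pi.add_apply] at this
    simp only [Pi.add_apply, hΛa, hG, ha, Pi.zero_apply]
    rw [← sub_eq_zero] at this
    rw [← this]; abel
  · intro h0
    apply hθ
    have h1 := congrArg (fun T : (Fin k → E) →L[ℝ] ℝ => T θ) h0
    simp only [sum_apply, ContinuousLinearMap.comp_apply, ContinuousLinearMap.proj_apply,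
      innerSL_apply_apply, zero_apply] at h1
    rw [Finset.sum_eq_zero_iff_of_nonneg (fun i _ => real_inner_self_nonneg)] at h1
    funext i
    exact inner_self_eq_zero.1 (h1 i (Finset.mem_univ i))
  · intro h
    have hg : Differentiable ℝ (F + pert φ C) := hF.add (pert_diff hφ C)
    have e : (fun η => G η + Λ η C) = fun η i =>
        (F + pert φ C) (sph (η.1 i)) - c - B η.2 := by
      funext η i
      simp only [Pi.add_apply, hΛa, hG]; abel
    have hD : HasFDerivAt (fun (η : (Fin k → ℝ × ℝ) × Y) (i : Fin k) =>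
        (F + pert φ C) (sph (η.1 i)) - c - B η.2)
        (ContinuousLinearMap.pi fun i =>
          (fderiv ℝ (F + pert φ C) (sph (a i))).comp ((fderiv ℝ sph (a i)).comp
            ((ContinuousLinearMap.proj (R := ℝ) (φ := fun _ : Fin k => ℝ × ℝ) i).comp
              (ContinuousLinearMap.fst ℝ _ Y))) - B.comp (ContinuousLinearMap.snd ℝ _ Y))
        (a, z) := by
      rw [hasFDerivAt_pi]
      intro i
      have h1 : HasFDerivAt (fun η : (Fin k → ℝ × ℝ) × Y => η.1 i)
          ((ContinuousLinearMap.proj (R := ℝ) (φ := fun _ : Fin k => ℝ × ℝ) i).comp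
              (ContinuousLinearMap.fst ℝ _ Y)) (a, z) :=
        ((ContinuousLinearMap.proj (R := ℝ) (φ := fun _ : Fin k => ℝ × ℝ) i).comp
              (ContinuousLinearMap.fst ℝ _ Y)).hasFDerivAt
      have h2 := (hg (sph (a i))).hasFDerivAt.comp (a, z) ((hs (a i)).hasFDerivAt.comp (a, z) h1)
      exact (h2.sub_const c).sub (B.comp (ContinuousLinearMap.snd ℝ (Fin k → ℝ × ℝ) Y)).hasFDerivAt
    rw [e, hD.fderiv]
    simp only [sum_apply, ContinuousLinearMap.comp_apply, ContinuousLinearMap.proj_apply,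
      innerSL_apply_apply, ContinuousLinearMap.pi_apply, sub_apply, inner_sub_right,
      Finset.sum_sub_distrib]
    rw [← sum_inner, hθ2, sub_zero]
    refine Finset.sum_eq_zero fun i _ => ?_
    rw [ha]
    refine hθ1 i _ ?_
    rw [← ha]
    exact sph_tangent _ _

end Pool.Agent.Lib.Quad.Generic
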