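import Pool.Agent.Lib.MP_31e762_gt.MainVert

/-! Among three immersions without quadruple points two are regularly homotopic through such
immersions. -/

open scoped ContDiff RealInnerProductSpace Topology Manifold
open Metric Set Function Filter

namespace Pool.Agent.Lib.Quad.Main

theorem exists_pos_le {ι : Type} [Finite ι] {a : ι → ℝ} (h : ∀ i, 0 < a i) :
    ∃ m, 0 < m ∧ ∀ i, m ≤ a i := by
  have h1 : ∀ᶠ m : ℝ in 𝓝[>] 0, ∀ i, m ≤ a i := eventually_all.2 fun i =>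
    mem_nhdsWithin_of_mem_nhds (Iic_mem_nhds (h i))
  obtain ⟨m, h2, h3⟩ := (h1.and self_mem_nhdsWithin).exists
  exact ⟨m, h3, h2⟩

theorem exists_dirs {n : E} (hn : n ≠ 0) :
    ∃ (ξ : Option (Fin 3) → E →L[ℝ] ℝ) (v : Option (Fin 3) → E), (∀ l, ⟪n, v l⟫ ≠ 0) ∧
      ∀ u, ∑ l, ξ l u • v l = u := by
  have h0 : 0 < ‖n‖ := norm_pos_iff.2 hn
  refine ⟨fun l => l.elim (-(2 / ‖n‖) • (innerSL ℝ (ε 0) + innerSL ℝ (ε 1) + innerSL ℝ (ε 2)))
    fun i => innerSL ℝ (ε i), fun l => l.elim n fun i => ε i + (2 / ‖n‖) • n, ?_, fun u => ?_⟩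
  · rintro (_ | i)
    · simpa using hn
    · simp only [Option.elim_some]
      rw [inner_add_right, real_inner_smul_right, real_inner_self_eq_norm_sq]
      have h1 := abs_real_inner_le_norm n (ε i)
      have h2 : ‖ε i‖ = 1 := by simp [ε]
      have h3 : 2 / ‖n‖ * ‖n‖ ^ 2 = 2 * ‖n‖ := by field_simp
      rw [h2] at h1
      rw [h3]
      linarith [neg_abs_le ⟪n, ε i⟫]
  · rw [Fintype.sum_option, Fin.sum_univ_three]
    apply ext3 <;> simp [inner3] <;> ring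

theorem exists_frag {f₀ : E → E} (hf : Imm f₀) :
    ∃ (K : Type) (_ : Fintype K) (ρ : K → E → ℝ) (ξ : K → E →L[ℝ] ℝ) (v : K → E) (D : K → Set E)
      (δ : ℝ), 0 < δ ∧ (∀ k, ContDiff ℝ ∞ (ρ k)) ∧ (∀ k, tsupport (ρ k) ⊆ D k) ∧
      (∀ x ∈ S, ∀ u, ∑ k, (ρ k x * ξ k u) • v k = u) ∧
      ∀ g, ContDiff ℝ ∞ g → Small δ (g - f₀) → ∀ k, VD g (D k) (v k) := by
  choose ξ v hv hsum using fun x : S => exists_dirs (hf.nrm_ne x.2)
  choose r hr δ hδ hVD using fun (x : S) l => exists_VD hf.1 x.2 (hv x l)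
  choose r' hr' hr'' using fun x : S => exists_pos_le (hr x)
  obtain ⟨t, ht⟩ := isCompact_S.elim_nhds_subcover' (fun x hx => ball x (r' ⟨x, hx⟩))
    fun x hx => ball_mem_nhds x (hr' _)
  obtain ⟨ρ, hρ⟩ := SmoothPartitionOfUnity.exists_isSubordinate 𝓘(ℝ, E) isClosed_S
    (fun j : t => ball (j.1 : E) (r' j)) (fun _ => isOpen_ball) (fun x hx => by
      obtain ⟨j, hj, h⟩ := mem_iUnion₂.1 (ht hx)
      exact mem_iUnion.2 ⟨⟨j, hj⟩, h⟩)
  obtain ⟨δ', hδ', h1⟩ := exists_pos_le (a := fun k : t × Option (Fin 3) => δ k.1 k.2)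
    fun k => hδ _ _
  refine ⟨t × Option (Fin 3), inferInstance, fun k => ρ k.1, fun k => ξ k.1 k.2, fun k => v k.1 k.2,
    fun k => ball (k.1.1 : E) (r' k.1), δ', hδ', fun k => (ρ k.1).contMDiff.contDiff,
    fun k => hρ k.1, fun x hx u => ?_, fun g hg hs k => ?_⟩
  · have h2 := ρ.sum_eq_one hx
    rw [finsum_eq_sum_of_fintype] at h2
    rw [Fintype.sum_prod_type]
    simp only [mul_smul, ← Finset.smul_sum, hsum]
    rw [← Finset.sum_smul, h2, one_smul]
  · exact (hVD k.1 k.2 g hg (hs.mono (h1 k)) _ (by simpa using (hδ _ _).le)).1.mono isOpen_ball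
      (ball_subset_ball (hr'' _ _))

theorem small_of_eqOn {p : E → E} (hp : Differentiable ℝ p) (h : ∀ x ∈ S, p x = 0) :
    Small 0 p := fun x hx => ⟨by simp [h x hx], fun w hw => by
  obtain ⟨c, h1, h2, h3⟩ := exists_curve hx hw
  have h4 := (hp (c 0)).hasFDerivAt.comp_hasDerivAt 0 h3
  have h5 : p ∘ c = fun _ => 0 := funext fun t => h _ (h1 t)
  rw [h5, h2] at h4
  simp [h4.unique (hasDerivAt_const 0 0)]⟩

theorem i4_of_gen {g : E → E} {q v : E} (hg : Imm g) (h : GenOn g S q v) :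
    I4 g ∧ ∀ y, Tri g y → ∃ x, TT g x y := by
  refine ⟨⟨hg, fun y => (encard_le_iff (k := 3)).2 fun x hx hi =>
    h.1 x (fun i => (hx i).1) hi fun i => (hx i).2.trans (hx 0).2.symm⟩, fun y hy => ?_⟩
  obtain ⟨x, h1, h2, h3⟩ := tri_iff.1 hy
  exact ⟨x, h1, h2, h3, h.2.1 x h1 h2 fun i => (h3 i).trans (h3 0).symm⟩

theorem ε0_ne : ε 0 ≠ 0 := fun h => by simpa using congrArg (· 0) h

theorem ch_local {f₀ : E → E} (hf₀ : Imm f₀) :
    ∃ δ, 0 < δ ∧ ∀ f g : E → E, I4 f → I4 g → Small δ (f - f₀) → Small δ (g - f₀) → Ch f g := by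
  classical
  obtain ⟨K, _, ρ, ξ, v, D, δ₁, hδ₁, hρ, hρD, hsum, hVD⟩ := exists_frag hf₀
  obtain ⟨δ₂, hδ₂, himm⟩ := hf₀.open
  choose C hC hC' using fun k => exists_small_smul (hρ k)
  obtain ⟨M, hM⟩ : ∃ M, M = ∑ k, C k * ‖(ξ k).smulRight (v k)‖ := ⟨_, rfl⟩
  have hM0 : 0 ≤ M := hM ▸ Finset.sum_nonneg fun k _ => mul_nonneg (hC k).le (norm_nonneg _)
  obtain ⟨δ₀, hδ₀, d1, d2⟩ : ∃ δ₀, 0 < δ₀ ∧ δ₀ ≤ δ₁ ∧ δ₀ ≤ δ₂ :=
    ⟨min δ₁ δ₂, lt_min hδ₁ hδ₂, min_le_left _ _, min_le_right _ _⟩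
  obtain ⟨δ, hδ, hδe⟩ : ∃ δ, 0 < δ ∧ δ + M * (δ + δ) = δ₀ / 2 :=
    ⟨δ₀ / 2 / (1 + 2 * M), by positivity, by field_simp; ring⟩
  refine ⟨δ, hδ, fun f g hf hg sf sg => ?_⟩
  have cf := hf.1.1
  have cg := hg.1.1
  have su : Small (δ + δ) (g - f) :=
    sf.sub_comm.triangle sg (smooth_diff cf) (smooth_diff hf₀.1) (smooth_diff cg)
  obtain ⟨χ, hχ⟩ : ∃ χ : K → E → ℝ, χ = fun k x => ρ k x * ξ k (g x - f x) := ⟨_, rfl⟩
  have cχ : ∀ k, ContDiff ℝ ∞ (χ k) := fun k => by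
    rw [hχ]; exact (hρ k).mul ((ξ k).contDiff.comp (cg.sub cf))
  have sχ : ∀ k, tsupport (χ k) ⊆ D k := fun k => by
    rw [hχ]; exact tsupport_mul_subset_left.trans (hρD k)
  obtain ⟨w, hw⟩ : ∃ w : K → E → E, w = fun k x => χ k x • v k := ⟨_, rfl⟩
  have cw : ∀ k, ContDiff ℝ ∞ (w k) := fun k => by rw [hw]; exact (cχ k).smul contDiff_const
  have sw : ∀ k, Small (C k * ‖(ξ k).smulRight (v k)‖ * (δ + δ)) (w k) := fun k => by
    have h1 := hC' k _ _ (smooth_diff (((ξ k).smulRight (v k)).contDiff.comp (cg.sub cf)))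
      (su.comp_clm (smooth_diff (cg.sub cf)) ((ξ k).smulRight (v k)))
    rw [← mul_assoc] at h1
    convert h1 using 1
    funext x
    simp [hw, hχ, mul_smul]
  have cF : ∀ I : Finset K, ContDiff ℝ ∞ (f + ∑ k ∈ I, w k) := fun I => by
    refine cf.add ?_
    rw [show ∑ k ∈ I, w k = fun x => ∑ k ∈ I, w k x from funext fun x => Finset.sum_apply _ _ _]
    exact ContDiff.sum fun k _ => cw k
  have sF : ∀ I : Finset K, Small (δ₀ / 2) (f + ∑ k ∈ I, w k - f₀) := fun I => by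
    have h1 := Small.sum I (fun k _ => sw k) fun k _ => smooth_diff (cw k)
    rw [← Finset.sum_mul] at h1
    have h2 : (∑ k ∈ I, C k * ‖(ξ k).smulRight (v k)‖) * (δ + δ) ≤ M * (δ + δ) :=
      mul_le_mul_of_nonneg_right (hM ▸ Finset.sum_le_sum_of_subset_of_nonneg (Finset.subset_univ I)
        fun k _ _ => mul_nonneg (hC k).le (norm_nonneg _)) (by positivity)
    have h3 := sf.triangle (h := f + ∑ k ∈ I, w k) (by rw [add_sub_cancel_left]; exact h1.mono h2)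
      (smooth_diff hf₀.1) (smooth_diff cf) (smooth_diff (cF I))
    rwa [hδe] at h3
  obtain ⟨δf, hδf, hcf⟩ := hf.close
  obtain ⟨δg, hδg, hcg⟩ := hg.close
  obtain ⟨p, cp, sp, -, hp⟩ := generic (fun I : Finset K => f + ∑ k ∈ I, w k)
    (fun I => himm _ (cF I) ((sF I).mono (by linarith))) isCompact_S Subset.rfl isOpen_univ
    (subset_univ _) 0 (ε 0) ε0_ne (lt_min (half_pos hδ₀) (lt_min hδf hδg))
  have cG : ∀ I : Finset K, ContDiff ℝ ∞ (f + ∑ k ∈ I, w k + p) := fun I => (cF I).add cp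
  have sG : ∀ I : Finset K, Small δ₀ (f + ∑ k ∈ I, w k + p - f₀) := fun I => by
    have h3 := (sF I).triangle (h := f + ∑ k ∈ I, w k + p)
      (by rw [add_sub_cancel_left]; exact sp.mono (min_le_left _ _))
      (smooth_diff hf₀.1) (smooth_diff (cF I)) (smooth_diff (cG I))
    rwa [add_halves] at h3
  have hG := fun I => i4_of_gen (himm _ (cG I) ((sG I).mono d2)) (hp I)
  have key : ∀ I : Finset K, Ch f (f + ∑ k ∈ I, w k + p) := fun I => by
    induction I using Finset.induction_on with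
    | empty =>
      refine Relation.ReflTransGen.single ⟨hf, Or.inl (hcf _ (cG ∅) ?_).2⟩
      simpa using sp.mono ((min_le_right _ _).trans (min_le_left _ _))
    | insert k I hk ih =>
      have e0 : vm (f + ∑ k ∈ I, w k + p) (fun _ => 0) (v k) = f + ∑ k ∈ I, w k + p := by
        funext x; simp [vm]
      have e1 : vm (f + ∑ k ∈ I, w k + p) (χ k) (v k) = f + ∑ k ∈ insert k I, w k + p := by
        funext x
        rw [Finset.sum_insert hk]
        simp only [vm, Pi.add_apply, hw]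
        abel
      have h1 := ch_vert (hG I).1 (hG I).2 (hVD _ (cG I) ((sG I).mono d1) k) (cχ k) (sχ k)
        (by rw [e1]; exact (hG (insert k I)).1) (χ₀ := fun _ => 0) contDiff_const (by simp) (by rw [e0]; exact (hG I).1)
      rw [e0, e1] at h1
      exact Relation.ReflTransGen.trans ih h1
  refine Relation.ReflTransGen.tail (key Finset.univ) ⟨(hG _).1,
    Or.inl (hcg _ (cG _) ?_).2.symm⟩
  have h1 : Small 0 (f + ∑ k, w k - g) := small_of_eqOn (p := f + ∑ k, w k - g)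
    (smooth_diff ((cF _).sub cg)) fun x hx => by
    have h2 := hsum x hx (g x - f x)
    simp only [hw, hχ, Pi.sub_apply, Pi.add_apply, Finset.sum_apply, h2]
    abel
  have h2 := h1.triangle (h := f + ∑ k, w k + p)
    (by rw [add_sub_cancel_left]; exact sp.mono ((min_le_right _ _).trans (min_le_right _ _)))
    (smooth_diff cg) (smooth_diff (cF _)) (smooth_diff (cG _))
  rwa [zero_add] at h2

theorem exists_i4 {F : E → E} (hF : Imm F) {δ : ℝ} (hδ : 0 < δ) :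
    ∃ g, I4 g ∧ Small δ (g - F) := by
  obtain ⟨δ', hδ', h⟩ := hF.open
  obtain ⟨p, cp, sp, -, hp⟩ := generic (fun _ : Unit => F) (fun _ => hF) isCompact_S Subset.rfl
    isOpen_univ (subset_univ _) 0 (ε 0) ε0_ne (lt_min hδ hδ')
  exact ⟨F + p, (i4_of_gen (h (F + p) (hF.1.add cp)
    (by simpa using sp.mono (min_le_right _ _))) (hp ())).1, by simpa using sp.mono (min_le_left _ _)⟩

/-- All immersions without quadruple points near `F` are reached from `f`. -/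
def Near (f F : E → E) : Prop := ∃ δ, 0 < δ ∧ ∀ g, I4 g → Small δ (g - F) → Ch f g

theorem near_close {F : E → E} (hF : Imm F) :
    ∃ δ, 0 < δ ∧ ∀ G, Imm G → Small δ (G - F) → ∀ f, Near f F ↔ Near f G := by
  obtain ⟨δ, hδ, h⟩ := ch_local hF
  refine ⟨δ / 2, half_pos hδ, fun G hG hs f => ?_⟩
  have tri : ∀ g, I4 g → Small (δ / 2) (g - G) → Small δ (g - F) := fun g hg h1 => by
    have := hs.triangle h1 (smooth_diff hF.1) (smooth_diff hG.1) (smooth_diff hg.1.1)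
    rwa [add_halves] at this
  constructor
  · rintro ⟨η, hη, h1⟩
    obtain ⟨g, hg, h2⟩ := exists_i4 hF (lt_min hη hδ)
    exact ⟨δ / 2, half_pos hδ, fun g' hg' h3 => (h1 g hg (h2.mono (min_le_left _ _))).trans
      (h g g' hg hg' (h2.mono (min_le_right _ _)) (tri g' hg' h3))⟩
  · rintro ⟨η, hη, h1⟩
    obtain ⟨g, hg, h2⟩ := exists_i4 hG (lt_min hη (half_pos hδ))
    exact ⟨δ, hδ, fun g' hg' h3 => (h1 g hg (h2.mono (min_le_left _ _))).trans
      (h g g' hg hg' (tri g hg (h2.mono (min_le_right _ _))) h3)⟩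

theorem near_istep {F G f : E → E} (h : IStep F G) : Near f F ↔ Near f G := by
  obtain ⟨H, hH, hi, rfl, rfl⟩ := h
  refine isPreconnected_Icc.induction₂ (fun s t => Near f (H s) ↔ Near f (H t)) (fun s hs => ?_)
    (fun _ _ _ _ _ _ => Iff.trans) (fun _ _ _ _ => Iff.symm) ⟨le_rfl, zero_le_one⟩
    ⟨zero_le_one, le_rfl⟩
  obtain ⟨δ, hδ, h1⟩ := near_close (hi s hs)
  filter_upwards [(fam_small hH s hδ).filter_mono nhdsWithin_le_nhds, self_mem_nhdsWithin]
    with t h2 ht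
  exact h1 _ (hi t ht) h2 f

theorem ch_all {f g : E → E} (hf : I4 f) (hg : I4 g) : Ch f g := by
  have h1 : ∀ G, Relation.ReflTransGen IStep f G → Near f G := fun G h => by
    induction h with
    | refl =>
      obtain ⟨δ, hδ, h⟩ := hf.close
      exact ⟨δ, hδ, fun g hg hs => Relation.ReflTransGen.single ⟨hf, Or.inl (h g hg.1.1 hs).2⟩⟩
    | tail _ h ih => exact (near_istep h).1 ih
  obtain ⟨δ, hδ, h⟩ := h1 g (smale hf.1 hg.1)
  exact h g hg (by rw [sub_self]; exact small_zero hδ.le)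

end Pool.Agent.Lib.Quad.Main

namespace Pool.Agent.Lib.Quad

open Main in
/-- There are at most two regular homotopy classes of immersions without quadruple points. -/
theorem main_three {f g h : E → E} (hf : I4 f) (hg : I4 g) (hh : I4 h) :
    Rel f g ∨ Rel f h ∨ Rel g h := by
  obtain ⟨β, hβ⟩ := N.exists hf
  have h0 : (Rel f f ∧ N f β) ∨ (Rel f β ∧ N f f) := Or.inl ⟨Rel.refl f, hβ⟩
  rcases (ch_all hf hg).two h0 with h1 | h1
  · exact Or.inl h1.1.symm
  rcases (ch_all hf hh).two h0 with h2 | h2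
  · exact Or.inr (Or.inl h2.1.symm)
  · exact Or.inr (Or.inr (h1.1.trans h2.1.symm))

end Pool.Agent.Lib.Quad
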