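import Pool.Agent.Lib.MP_31e762_gt.SmaleSphere

/-! Any two immersions of the two-sphere in three-space are regularly homotopic. -/

open scoped ContDiff RealInnerProductSpace Topology
open Metric Set Function Filter

namespace Pool.Agent.Lib.Quad.Smale

theorem istep_symm {f g : E → E} (h : IStep f g) : IStep g f := by
  obtain ⟨H, hH, hi, h0, h1⟩ := h
  refine ⟨fun t => H (1 - t), hH.comp (f := fun z : ℝ × E => (1 - z.1, z.2)) (by fun_prop),
    fun t ht => hi _ ⟨by linarith [ht.2], by linarith [ht.1]⟩, by simpa using h1, by simpa using h0⟩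

theorem istep_imm {f g : E → E} (h : IStep f g) : Imm g := by
  obtain ⟨H, -, hi, -, h1⟩ := h
  exact h1 ▸ hi 1 ⟨zero_le_one, le_rfl⟩

theorem hasFDerivAt_fam {f : E → E} (hf : ContDiff ℝ ∞ f) (T : E →L[ℝ] E) (c d x : E) :
    HasFDerivAt (fun x => T (f x) + c + (⟪x, x⟫ - 1) • d)
      (T.comp (fderiv ℝ f x) + ((2 : ℝ) • innerSL ℝ x).smulRight d) x := by
  have h1 : HasFDerivAt (fun x : E => ⟪x, x⟫) ((2 : ℝ) • innerSL ℝ x) x := by
    simp only [real_inner_self_eq_norm_sq]
    refine (hasStrictFDerivAt_norm_sq x).hasFDerivAt.congr_fderiv ?_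
    ext; simp
  exact ((T.hasFDerivAt.comp x (hf.differentiable (by simp) x).hasFDerivAt).add_const c).add
    ((h1.sub_const 1).smul_const d)

theorem istep_fam {f : E → E} (hf : Imm f) (L : ℝ → E →L[ℝ] E)
    (hL : ContDiff ℝ ∞ fun z : ℝ × E => L z.1 z.2) (h0 : ∀ y, L 0 y = y)
    (hi : ∀ s ∈ Icc (0 : ℝ) 1, ∀ y, L s y = 0 → y = 0) (c d : E) :
    IStep f fun x => L 1 (f x) + c + (⟪x, x⟫ - 1) • d := by
  have h1 : ContDiff ℝ ∞ fun z : ℝ × E => L z.1 (f z.2) + z.1 • c + (⟪z.2, z.2⟫ - 1) • z.1 • d := by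
    have h2 : ContDiff ℝ ∞ fun z : ℝ × E => L z.1 (f z.2) :=
      hL.comp (f := fun z : ℝ × E => (z.1, f z.2)) (contDiff_fst.prodMk (hf.1.comp contDiff_snd))
    have h3 : ContDiff ℝ ∞ fun z : ℝ × E => ⟪z.2, z.2⟫ := contDiff_snd.inner ℝ contDiff_snd
    exact (h2.add (by fun_prop)).add (by fun_prop)
  refine ⟨fun s x => L s (f x) + s • c + (⟪x, x⟫ - 1) • s • d, h1, fun s hs => ?_, ?_, ?_⟩
  · refine ⟨h1.comp (contDiff_const.prodMk contDiff_id), fun x hx w hw hw0 => ?_⟩
    rw [(hasFDerivAt_fam hf.1 (L s) (s • c) (s • d) x).fderiv] at hw0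
    refine hf.2 x hx w hw (hi s hs _ ?_)
    simpa [hw] using hw0
  · funext x; simp [h0]
  · funext x; simp

/-- The rotation as a continuous linear map. -/
noncomputable def rotL (q : Qu) : E →L[ℝ] E := LinearMap.toContinuousLinearMap
  { toFun := rot q, map_add' := rot_add q, map_smul' := rot_smul q }

@[simp] theorem rotL_apply (q : Qu) (v : E) : rotL q v = rot q v := rfl

theorem istep_rot {f : E → E} (hf : Imm f) {q : Qu} (hq : ‖q‖ = 1) :
    IStep f fun x => rotL q (f x) := by
  wlog h : q ≠ -1 generalizing q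
  · have h1 : q = -1 := not_not.1 h
    have h2 := this (q := 1) norm_one (fun h2 => by
      have := congrArg (·.re) h2
      simp at this; linarith)
    simpa only [h1, rotL_apply, rot_neg] using h2
  have h1 := istep_fam hf (fun s => rotL ((1 - s) • 1 + s • q)) (by
      have : ∀ z : ℝ × E, rotL ((1 - z.1) • 1 + z.1 • q) z.2 =
        rot ((1 - z.1) • 1 + z.1 • q) z.2 0 • ε 0 + rot ((1 - z.1) • 1 + z.1 • q) z.2 1 • ε 1 +
          rot ((1 - z.1) • 1 + z.1 • q) z.2 2 • ε 2 := fun p => decomp _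
      rw [funext this]
      simp only [rot0, rot1, rot2, Quaternion.re_add, Quaternion.imI_add, Quaternion.imJ_add,
        Quaternion.imK_add, Quaternion.re_smul, Quaternion.imI_smul, Quaternion.imJ_smul,
        Quaternion.imK_smul]
      fun_prop) (fun y => by simp [rot_one]) (fun s hs y hy => rot_eq_zero (fun h0 => by
        have h2 : (1 - s) • (1 : Qu) = -(s • q) := eq_neg_of_add_eq_zero_left h0
        have h3 := congrArg norm h2
        rw [norm_neg, norm_smul, norm_smul, norm_one, hq, Real.norm_of_nonneg hs.1,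
          Real.norm_of_nonneg (by linarith [hs.2])] at h3
        have h4 : 1 - s = s := by linarith
        have h5 : s ≠ 0 := by intro h5; rw [h5] at h4; norm_num at h4
        rw [h4, ← smul_neg] at h2
        exact h (neg_eq_iff_eq_neg.1 (smul_right_injective Qu h5 h2).symm)) hy) 0 0
  simpa using h1

/-- Normal form at the north pole. -/
theorem exists_normal {f : E → E} (hf : Imm f) :
    ∃ f' : E → E, Relation.ReflTransGen IStep f f' ∧ Imm f' ∧ f' (ε 2) = 0 ∧
      fderiv ℝ f' (ε 2) = ContinuousLinearMap.id ℝ E := by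
  have hN : ε 2 ∈ S := by simp [mem_S, ε]
  have h1 : cross (fderiv ℝ f (ε 2) (ε 0)) (fderiv ℝ f (ε 2) (ε 1)) ≠ 0 := by
    rw [← nrm_eq_cross f (x := ε 2) (by apply ext3 <;> simp)]
    exact hf.nrm_ne hN
  obtain ⟨q, hq, ht⟩ := exists_tri h1
  have s1 := istep_rot hf hq
  have hf1 := istep_imm s1
  have hd : ∀ v, fderiv ℝ (fun x => rotL q (f x)) (ε 2) v = rot q (fderiv ℝ f (ε 2) v) := fun v => by
    rw [((rotL q).hasFDerivAt.comp (ε 2)
      (hf.1.differentiable (by simp) (ε 2)).hasFDerivAt).fderiv.symm.symm.trans rfl |> fun h =>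
        (show fderiv ℝ (fun x => rotL q (f x)) (ε 2) = _ from h)]
    rfl
  rw [← hd, ← hd] at ht
  generalize (fun x => rotL q (f x)) = f1 at s1 hf1 ht
  set a := fderiv ℝ f1 (ε 2) (ε 0) with ha
  set b := fderiv ℝ f1 (ε 2) (ε 1) with hb
  obtain ⟨a0, a1, a2, b1, b2⟩ := ht
  let T : E →L[ℝ] E := LinearMap.toContinuousLinearMap
    { toFun := fun y => (y 0 / a 0 - b 0 * y 1 / (a 0 * b 1)) • ε 0 + (y 1 / b 1) • ε 1 + y 2 • ε 2
      map_add' := fun x y => by apply ext3 <;> simp <;> ring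
      map_smul' := fun t y => by apply ext3 <;> simp <;> ring }
  have hT : ∀ y, T y = (y 0 / a 0 - b 0 * y 1 / (a 0 * b 1)) • ε 0 + (y 1 / b 1) • ε 1 + y 2 • ε 2 :=
    fun y => rfl
  have s2 := istep_fam hf1 (fun s => (1 - s) • ContinuousLinearMap.id ℝ E + s • T)
    (by
      simp only [add_apply, smul_apply, ContinuousLinearMap.id_apply]
      fun_prop) (fun y => by simp) (fun s hs y hy => by
      have e0 := congrArg (· 0) hy
      have e1 := congrArg (· 1) hy
      have e2 := congrArg (· 2) hy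
      simp [hT] at e0 e1 e2
      have hm : ∀ x : ℝ, 0 < x → (1 - s) + s / x ≠ 0 := fun x hx => by
        rcases hs.1.lt_or_eq with h | h
        · have : 0 < s / x := div_pos h hx
          linarith [hs.2]
        · subst h; simp
      have y1 : y 1 = 0 :=
        (mul_eq_zero.1 (show ((1 - s) + s / b 1) * y 1 = 0 by linear_combination e1)).resolve_left
          (hm _ b1)
      rw [y1] at e0
      have y0 : y 0 = 0 :=
        (mul_eq_zero.1 (show ((1 - s) + s / a 0) * y 0 = 0 by linear_combination e0)).resolve_left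
          (hm _ a0)
      exact ext3 y0 y1 (by simp; linear_combination e2))
    (-T (f1 (ε 2))) ((1 / 2 : ℝ) • (ε 2 - T (fderiv ℝ f1 (ε 2) (ε 2))))
  have eT : (1 - 1 : ℝ) • ContinuousLinearMap.id ℝ E + (1 : ℝ) • T = T := by ext1; simp
  rw [eT] at s2
  refine ⟨_, (Relation.ReflTransGen.single s1).tail s2, istep_imm s2,
    by simp [mem_S.1 hN], ?_⟩
  rw [(hasFDerivAt_fam hf1.1 T _ _ _).fderiv]
  ext1 v
  have hTa : T a = ε 0 := by
    rw [hT]; apply ext3 <;> simp [a1, a2, a0.ne']
  have hTb : T b = ε 1 := by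
    rw [hT]; apply ext3 <;> simp [b2, b1.ne']
    field_simp; ring
  simp only [add_apply, ContinuousLinearMap.comp_apply, ContinuousLinearMap.smulRight_apply,
    smul_apply, innerSL_apply_apply, ContinuousLinearMap.id_apply]
  rw [map_decomp (fderiv ℝ f1 (ε 2)) v, map_add, map_add, map_smul, map_smul, map_smul, ← ha, ← hb,
    hTa, hTb]
  apply ext3 <;> simp [inner3] <;> ring

theorem exists_small {h : E → E} (hh : ContDiff ℝ ∞ h) {N : E} (h0 : h N = 0)
    (h1 : fderiv ℝ h N = 0) {δ : ℝ} (hδ : 0 < δ) :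
    ∃ p : E → E, ContDiff ℝ ∞ p ∧ (∀ x, ‖fderiv ℝ p x‖ < δ) ∧ p =ᶠ[𝓝 N] h := by
  let χ : ContDiffBump (0 : E) := ⟨1, 2, one_pos, one_lt_two⟩
  have hχ : ContDiff ℝ ∞ χ := χ.contDiff
  obtain ⟨C, hC⟩ := (χ.hasCompactSupport.fderiv ℝ).exists_bound_of_continuous
    (hχ.continuous_fderiv (by simp))
  have hC0 : 0 ≤ C := (norm_nonneg _).trans (hC 0)
  set η : ℝ := δ / (2 + 2 * C) with hη
  have hη0 : 0 < η := by positivity
  have e1 : ∀ᶠ x in 𝓝 N, ‖h x‖ ≤ η * ‖x - N‖ := by
    have h2 := (hh.differentiable (by simp) N).hasFDerivAt.isLittleO.bound hη0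
    simpa [h0, h1] using h2
  have e2 : ∀ᶠ x in 𝓝 N, ‖fderiv ℝ h x‖ < η := by
    have h2 := (hh.continuous_fderiv (by simp)).norm.continuousAt (x := N)
    exact h2.eventually_lt continuousAt_const (by simpa [h1] using hη0)
  obtain ⟨ρ, hρ, h2⟩ := Metric.eventually_nhds_iff.1 (e1.and e2)
  set r : ℝ := ρ / 3 with hr
  have hr0 : 0 < r := by positivity
  have hn : ∀ x : E, ‖r⁻¹ • (x - N)‖ = ‖x - N‖ / r := fun x => by
    rw [norm_smul, Real.norm_of_nonneg (by positivity), div_eq_inv_mul]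
  refine ⟨fun x => χ (r⁻¹ • (x - N)) • h x, by fun_prop, fun x => ?_, ?_⟩
  · rcases le_or_gt ‖x - N‖ (2 * r) with hx | hx
    · obtain ⟨h3, h4⟩ := h2 (y := x) (by rw [dist_eq_norm]; linarith)
      have d1 : HasFDerivAt (fun x : E => r⁻¹ • (x - N)) (r⁻¹ • ContinuousLinearMap.id ℝ E) x :=
        ((hasFDerivAt_id x).sub_const N).const_smul r⁻¹
      have d2 := ((hχ.differentiable (by simp) _).hasFDerivAt.comp x d1).smul
        (hh.differentiable (by simp) x).hasFDerivAt
      rw [show fderiv ℝ (fun x => χ (r⁻¹ • (x - N)) • h x) x = _ from d2.fderiv]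
      refine (norm_add_le _ _).trans_lt ?_
      have b1 : ‖(χ ∘ fun x : E => r⁻¹ • (x - N)) x • fderiv ℝ h x‖ ≤ η := by
        rw [norm_smul, comp_apply, Real.norm_of_nonneg χ.nonneg]
        exact (mul_le_of_le_one_left (norm_nonneg _) χ.le_one).trans h4.le
      have b2 : ‖((fderiv ℝ χ (r⁻¹ • (x - N))).comp
          (r⁻¹ • ContinuousLinearMap.id ℝ E)).smulRight (h x)‖ ≤ C * r⁻¹ * (η * (2 * r)) := by
        rw [ContinuousLinearMap.norm_smulRight_apply]
        refine mul_le_mul ((ContinuousLinearMap.opNorm_comp_le _ _).trans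
          (mul_le_mul (hC _) ?_ (norm_nonneg _) hC0)) (h3.trans (by gcongr)) (norm_nonneg _)
          (by positivity)
        rw [norm_smul, Real.norm_of_nonneg (by positivity)]
        exact mul_le_of_le_one_right (by positivity) ContinuousLinearMap.norm_id_le
      have b3 : C * r⁻¹ * (η * (2 * r)) = 2 * C * η := by field_simp
      have b4 : η * (2 + 2 * C) = δ := by rw [hη]; field_simp
      nlinarith
    · have : (fun x => χ (r⁻¹ • (x - N)) • h x) =ᶠ[𝓝 x] fun _ => 0 := by
        refine eventually_of_mem ((isOpen_lt continuous_const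
          (continuous_id.sub continuous_const).norm).mem_nhds hx) fun y hy => ?_
        have hy' : 2 * r < ‖y - N‖ := hy
        have : χ (r⁻¹ • (y - N)) = 0 := χ.zero_of_le_dist (by
          rw [dist_zero_right, hn, le_div_iff₀ hr0]; exact hy'.le)
        simp [this]
      rw [this.fderiv_eq]
      simpa using hδ
  · filter_upwards [ball_mem_nhds N hr0] with y hy
    have : χ (r⁻¹ • (y - N)) = 1 := χ.one_of_mem_closedBall (by
      rw [mem_closedBall_zero_iff, hn, div_le_iff₀ hr0]
      rw [mem_ball_iff_norm] at hy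
      change ‖y - N‖ ≤ 1 * r
      linarith)
    simp [this]

theorem exists_local {f g : E → E} (hf : Imm f) (hg : ContDiff ℝ ∞ g) {N : E} (h0 : f N = g N)
    (h1 : fderiv ℝ f N = fderiv ℝ g N) : ∃ f' : E → E, IStep f f' ∧ f' =ᶠ[𝓝 N] g := by
  have key := isCompact_S.eventually_forall_of_forall_eventually (x₀ := (0 : E →L[ℝ] E))
    (P := fun L x => cof (fderiv ℝ f x + L) x ≠ 0) (by
      intro x hx
      apply ContinuousAt.eventually_ne
      · have := hf.1.continuous_fderiv (by simp)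
        fun_prop
      · simpa [nrm] using hf.nrm_ne hx)
  obtain ⟨δ, hδ, h2⟩ := Metric.eventually_nhds_iff.1 key
  have hfd := hf.1.differentiable (by simp)
  obtain ⟨p, hp, hp1, hp2⟩ := exists_small (hg.sub hf.1) (N := N) (by simp [h0])
    (by rw [fderiv_fun_sub (hg.differentiable (by simp) N) (hfd N), h1, sub_self]) hδ
  have h3 : ContDiff ℝ ∞ fun z : ℝ × E => f z.2 + z.1 • p z.2 := by
    have := hf.1
    fun_prop
  refine ⟨fun x => f x + p x, ⟨fun s x => f x + s • p x, h3, fun s hs => ?_, by funext x; simp,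
    by funext x; simp⟩, hp2.mono fun y hy => by simp [hy]⟩
  refine imm_iff.2 ⟨h3.comp (contDiff_const.prodMk contDiff_id), fun x hx => ?_⟩
  have h4 := ((hfd x).hasFDerivAt.add
    ((hp.differentiable (by simp) x).hasFDerivAt.const_smul s)).fderiv
  rw [nrm, show fderiv ℝ (fun x => f x + s • p x) x = _ from h4]
  refine h2 ?_ x hx
  rw [dist_zero_right, norm_smul, Real.norm_of_nonneg hs.1]
  exact (mul_le_of_le_one_left (norm_nonneg _) hs.2).trans_lt (hp1 x)

end Pool.Agent.Lib.Quad.Smale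

namespace Pool.Agent.Lib.Quad

open Smale in
/-- Any two immersions of the sphere are joined by a chain of smooth families of immersions. -/
theorem smale {f g : E → E} (hf : Imm f) (hg : Imm g) : Relation.ReflTransGen IStep f g := by
  obtain ⟨f1, s1, hf1, a1, a2⟩ := exists_normal hf
  obtain ⟨g1, s2, hg1, b1, b2⟩ := exists_normal hg
  obtain ⟨f2, s3, h⟩ := exists_local hf1 hg1.1 (a1.trans b1.symm) (a2.trans b2.symm)
  have s4 := istep_of_eventuallyEq (istep_imm s3) hg1 h
  refine ((s1.tail s3).tail s4).trans ?_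
  clear s4 h b1 b2 hg1
  induction s2 with
  | refl => exact Relation.ReflTransGen.refl
  | tail _ h ih => exact Relation.ReflTransGen.head (istep_symm h) ih

end Pool.Agent.Lib.Quad
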