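import Pool.Agent.Lib.MP_31e762_gt.MainAug

/-! The neighbour class of an immersion without quadruple points. -/

open scoped ContDiff RealInnerProductSpace Topology
open Metric Set Function Filter

namespace Pool.Agent.Lib.Quad.Main

/-- `γ` represents the class obtained by crossing an auxiliary triple point in a small ball. -/
def N (f γ : E → E) : Prop :=
  ∃ r, 0 < r ∧ ∀ (c : E) (ρ : ℝ) (γ' : E → E), ρ ≤ r → Aug (closedBall c ρ) f γ' → Rel γ' γ

theorem N.rel {f γ γ' : E → E} (h : N f γ) (h' : Rel γ γ') : N f γ' := by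
  obtain ⟨r, hr, h⟩ := h
  exact ⟨r, hr, fun c ρ γ'' h1 h2 => (h c ρ γ'' h1 h2).trans h'⟩

theorem exists_aug_off {f : E → E} (hf : I4 f) {B : Set E} (hB : IsClosed B) {x : E} (hx : x ∈ S)
    (hxB : f x ∉ B) {r : ℝ} (hr : 0 < r) :
    ∃ ρ γ, ρ ≤ r ∧ Disjoint B (closedBall (f x) ρ) ∧ Aug (closedBall (f x) ρ) f γ := by
  obtain ⟨η, hη, h1⟩ := Metric.nhds_basis_closedBall.mem_iff.1 (hB.isOpen_compl.mem_nhds hxB)
  obtain ⟨γ, hγ⟩ := exists_aug hf hx (lt_min hη hr)
  exact ⟨_, γ, min_le_right _ _, disjoint_right.2 fun y hy =>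
    h1 (closedBall_subset_closedBall (min_le_left _ _) hy), hγ⟩

theorem exists_off_finite {f : E → E} (hf : I4 f) {T : Set E} (hT : T.Finite) :
    ∃ x ∈ S, f x ∉ T := by
  obtain ⟨x, hx, -, h⟩ := exists_near_not_mem (x := ε 0) (by simp [mem_S, ε]) univ_mem
    (finite_fib hf hT)
  exact ⟨x, hx, fun h1 => h ⟨hx, h1⟩⟩

theorem N.exists {f : E → E} (hf : I4 f) : ∃ γ, N f γ := by
  obtain ⟨a, ha, -⟩ := exists_off_finite hf finite_empty
  obtain ⟨b, hb, h1⟩ := exists_off_finite hf (finite_singleton (f a))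
  obtain ⟨c, hc, h2⟩ := exists_off_finite hf (toFinite {f a, f b})
  simp only [mem_insert_iff, mem_singleton_iff, not_or] at h1 h2
  have d1 := dist_pos.2 h1
  have d2 := dist_pos.2 h2.1
  have d3 := dist_pos.2 h2.2
  obtain ⟨r, hr, r1, r2, r3⟩ : ∃ r, 0 < r ∧ 2 * r < dist (f b) (f a) ∧ 2 * r < dist (f c) (f a) ∧
      2 * r < dist (f c) (f b) := by
    refine ⟨min (dist (f b) (f a)) (min (dist (f c) (f a)) (dist (f c) (f b))) / 3,
      by positivity, ?_, ?_, ?_⟩
    · linarith [min_le_left (dist (f b) (f a)) (min (dist (f c) (f a)) (dist (f c) (f b)))]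
    · linarith [min_le_right (dist (f b) (f a)) (min (dist (f c) (f a)) (dist (f c) (f b))),
        min_le_left (dist (f c) (f a)) (dist (f c) (f b))]
    · linarith [min_le_right (dist (f b) (f a)) (min (dist (f c) (f a)) (dist (f c) (f b))),
        min_le_right (dist (f c) (f a)) (dist (f c) (f b))]
  obtain ⟨γ, hγ⟩ := exists_aug hf ha hr
  refine ⟨γ, r, hr, fun z ρ γ' hρ h => ?_⟩
  obtain ⟨x, hx, hxB⟩ : ∃ x ∈ S, f x ∉ closedBall z ρ ∪ closedBall (f a) r := by
    by_contra h3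
    simp only [not_exists, not_and, not_not, mem_union, mem_closedBall] at h3
    have e1 := (h3 b hb).resolve_right (by linarith)
    have e2 := (h3 c hc).resolve_right (by linarith)
    linarith [dist_triangle_right (f c) (f b) z]
  obtain ⟨ρ', γ'', -, h3, h4⟩ := exists_aug_off hf (isClosed_closedBall.union isClosed_closedBall)
    hx hxB hr
  exact (h.disj (h3.mono_left subset_union_left) hf h4).trans
    (hγ.disj (h3.mono_left subset_union_right) hf h4).symm

theorem N.unique' {B : Set E} {f g γ γ' : E → E} (hf : I4 f) (hB : IsClosed B) (h : LEq B f g)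
    {x : E} (hx : x ∈ S) (hxB : f x ∉ B) (h1 : N f γ) (h2 : N g γ') : Rel γ γ' := by
  obtain ⟨r, hr, h1⟩ := h1
  obtain ⟨r', hr', h2⟩ := h2
  obtain ⟨ρ, γ'', h3, h4, h5⟩ := exists_aug_off hf hB hx hxB (lt_min hr hr')
  exact (h1 _ _ _ (h3.trans (min_le_left _ _)) h5).symm.trans
    (h2 _ _ _ (h3.trans (min_le_right _ _)) (h5.transfer h4 hf h))

theorem N.unique {f γ γ' : E → E} (hf : I4 f) (h1 : N f γ) (h2 : N f γ') : Rel γ γ' :=
  N.unique' hf isClosed_empty Relation.ReflTransGen.refl (x := ε 0) (by simp [mem_S, ε])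
    (notMem_empty _) h1 h2

theorem N.leq_iff {B : Set E} {f g : E → E} (hf : I4 f) (hB : IsClosed B) (h : LEq B f g)
    {x : E} (hx : x ∈ S) (hxB : f x ∉ B) (γ : E → E) : N f γ ↔ N g γ := by
  obtain ⟨a, ha⟩ := N.exists hf
  obtain ⟨b, hb⟩ := N.exists (h.i4 hf)
  exact ⟨fun h1 => hb.rel (N.unique' hf hB h hx hxB h1 hb).symm,
    fun h1 => ha.rel (N.unique' hf hB h hx hxB ha h1)⟩

theorem N.close {f : E → E} (hf : I4 f) :
    ∃ δ, 0 < δ ∧ ∀ g : E → E, I4 g → Small δ (g - f) → ∀ γ, N f γ ↔ N g γ := by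
  obtain ⟨a, ha, -⟩ := exists_off_finite hf finite_empty
  obtain ⟨b, hb, h1⟩ := exists_off_finite hf (finite_singleton (f a))
  have hd : 0 < ‖f b - f a‖ := norm_pos_iff.2 (sub_ne_zero.2 h1)
  obtain ⟨r, hr, hr2⟩ : ∃ r, 0 < r ∧ ‖f b - f a‖ = 10 * r := ⟨‖f b - f a‖ / 10, by positivity, by ring⟩
  have hfc := hf.1.1.continuous
  obtain ⟨χ, hχ, hχU, -, hχ01, hχ1⟩ := exists_cutoff
    (K := S ∩ f ⁻¹' closedBall (f a) (2 * r)) (U := f ⁻¹' ball (f a) (3 * r))
    (isCompact_S.inter_right (isClosed_closedBall.preimage hfc)) (isOpen_ball.preimage hfc)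
    fun x hx => show f x ∈ ball (f a) (3 * r) from closedBall_subset_ball (by linarith)
      (show f x ∈ closedBall (f a) (2 * r) from hx.2)
  obtain ⟨C, hC, h2⟩ := exists_small_smul (χ := fun x => 1 - χ x) (contDiff_const.sub hχ)
  obtain ⟨δ, hδ, h3⟩ := lstep_small hf
  refine ⟨min (min δ r) (min δ r / C), by positivity, fun g hg hs γ => ?_⟩
  have s1 : Small (min δ r) (g - f) := hs.mono (min_le_left _ _)
  have s2 := h2 _ _ (smooth_diff (hg.1.1.sub hf.1.1)) (hs.mono (min_le_right _ _))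
  rw [mul_div_cancel₀ _ hC.ne'] at s2
  set g' : E → E := fun x => f x + (1 - χ x) • (g x - f x) with hg'
  have c1 : ContDiff ℝ ∞ g' := hf.1.1.add ((contDiff_const.sub hχ).smul (hg.1.1.sub hf.1.1))
  have s3 : Small (min δ r) (g' - f) := by
    convert s2 using 1; funext x; simp [hg']
  have n1 : ∀ x ∈ S, ‖g x - f x‖ ≤ r := fun x hx => (s1 x hx).1.trans (min_le_right _ _)
  have n2 : ∀ x ∈ S, ‖g' x - f x‖ ≤ r := fun x hx => (s3 x hx).1.trans (min_le_right _ _)
  have l1 : LStep (ball (f a) r)ᶜ f g' := by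
    refine h3 f g' hf.1.1 c1 (by rw [sub_self]; exact small_zero hδ.le)
      (s3.mono (min_le_left _ _)) _ fun s hs x hx => ?_
    have key : ‖f x - f a‖ ≤ 2 * r → (fun x => f x + s • (g' x - f x)) =ᶠ[𝓝 x] f := fun h =>
      (hχ1 x ⟨hx, show f x ∈ closedBall (f a) (2 * r) from mem_closedBall_iff_norm.2 h⟩).mono fun y hy => by simp [hg', hy]
    refine ⟨fun h => key ?_, fun h => ?_⟩
    · have := mem_ball_iff_norm.1 (show f x ∈ ball (f a) r from not_not.1 h)
      linarith
    · rcases le_or_gt ‖f x - f a‖ (2 * r) with h4 | h4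
      · exact mem_of_eq_of_mem (key h4).eq_of_nhds h
      · intro h5
        have h6 := mem_ball_iff_norm.1 h5
        have h7 : ‖s • (g' x - f x)‖ ≤ r := by
          rw [norm_smul, Real.norm_of_nonneg hs.1]
          exact (mul_le_of_le_one_left (norm_nonneg _) hs.2).trans (n2 x hx)
        have h8 := norm_sub_le (f x + s • (g' x - f x) - f a) (s • (g' x - f x))
        rw [show f x + s • (g' x - f x) - f a - s • (g' x - f x) = f x - f a by abel] at h8
        linarith
  have l2 : LStep (closedBall (f a) (8 * r)) g g' := by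
    refine h3 g g' hg.1.1 c1 (s1.mono (min_le_left _ _)) (s3.mono (min_le_left _ _)) _
      (loc_line (V := f ⁻¹' ball (f a) (3 * r)) (fun x _ hx => ?_) (fun x hx h => ?_)
        fun x hx => ?_)
    · exact (eventually_zero fun h => hx (hχU h)).mono fun y hy => by simp [hg', hy]
    · have h4 : ‖f x - f a‖ < 3 * r := mem_ball_iff_norm.1 (show f x ∈ ball (f a) (3 * r) from h)
      rw [mem_ball_iff_norm, show g x - f a = (g x - f x) + (f x - f a) by abel]
      linarith [norm_add_le (g x - f x) (f x - f a), n1 x hx]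
    · rw [show g' x - g x = (g' x - f x) - (g x - f x) by abel]
      linarith [norm_sub_le (g' x - f x) (g x - f x), n1 x hx, n2 x hx]
  refine (N.leq_iff hf isOpen_ball.isClosed_compl l1.leq ha (by simpa using hr) γ).trans
    (N.leq_iff hg isClosed_closedBall l2.leq hb (fun h => ?_) γ).symm
  have h4 := mem_closedBall_iff_norm.1 h
  have h5 := norm_sub_le (g b - f a) (g b - f b)
  rw [show g b - f a - (g b - f b) = f b - f a by abel] at h5
  linarith [n1 b hb]

theorem N.step {f g : E → E} (h : Step f g) (γ : E → E) : N f γ ↔ N g γ := by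
  obtain ⟨H, hH, hi, rfl, rfl⟩ := h
  refine isPreconnected_Icc.induction₂ (fun s t => N (H s) γ ↔ N (H t) γ) (fun s hs => ?_)
    (fun _ _ _ _ _ _ => Iff.trans) (fun _ _ _ _ => Iff.symm) ⟨le_rfl, zero_le_one⟩
    ⟨zero_le_one, le_rfl⟩
  obtain ⟨δ, hδ, h1⟩ := N.close (hi s hs)
  filter_upwards [(fam_small hH s hδ).filter_mono nhdsWithin_le_nhds, self_mem_nhdsWithin]
    with t h2 ht
  exact h1 _ (hi t ht) h2 γ

theorem N.of_rel {f g γ : E → E} (h : Rel f g) (h1 : N f γ) : N g γ := by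
  induction h with
  | refl => exact h1
  | tail _ h ih => exact (N.step h γ).1 ih

theorem finger_notMem {f : E → E} {D : Set E} {b q x : E} (hb : b ∈ S) (hD : VD f D (q - f b))
    (hbD : b ∈ D) (hx : x ∈ S) (hq : f x = q) : x ∉ D := fun hxD => by
  have h1 := hD.2.2 b hb x hx hbD hxD 1 (by rw [hq]; simp)
  subst h1
  exact hD.2.1 x hx hxD (by simp [hq])

theorem N.finger {f g : E → E} {x : Fin 3 → E} {b q : E} (hf : I4 f) (ht : TT f x q)
    (h : Finger f b q g) : N f g := by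
  have h1 : Tau f q 1 g := by
    rcases lt_or_gt_of_ne h.seg.1 with h2 | h2
    · exact (tau_side hf ht).2 (tau_finger hf ht h (by linarith))
    · exact tau_finger hf ht h (by linarith)
  obtain ⟨γ, r, hr, h2⟩ := N.exists hf
  obtain ⟨y, hy, h3⟩ := exists_off_finite hf (finite_singleton q)
  obtain ⟨ρ, γ', h4, h5, h6⟩ := exists_aug_off hf isClosed_singleton hy h3 hr
  exact N.rel ⟨r, hr, h2⟩ ((h6.tri hf ht h1 (disjoint_left.1 h5 rfl)).trans (h2 _ _ _ h4 h6)).symm

theorem finger_symm {f g : E → E} {x : Fin 3 → E} {b q : E} (hf : I4 f) (ht : TT f x q)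
    (h : Finger f b q g) : TT g x q ∧ Finger g b q f := by
  obtain ⟨hb, D, χ, hD, hbD, hχ, hs, h1, h2, rfl⟩ := h
  have e : ∀ i, vm f χ (q - f b) =ᶠ[𝓝 (x i)] f := fun i => vm_eventuallyEq f _ fun h =>
    finger_notMem hb hD hbD (ht.1 i) (ht.2.2.1 i) (hs h)
  refine ⟨⟨ht.1, ht.2.1, fun i => (e i).eq_of_nhds.trans (ht.2.2.1 i), by
    rw [nrm_congr_ev (e 0), nrm_congr_ev (e 1), nrm_congr_ev (e 2)]; exact ht.2.2.2⟩, hb, D,
    fun y => (χ b - 1)⁻¹ * χ y, ?_⟩
  have h0 : 0 < χ b - 1 := by linarith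
  have e1 : q - vm f χ (q - f b) b = (1 - χ b) • (q - f b) := by
    simp only [vm]; module
  have e2 : ∀ y t, vm f χ (q - f b) y + t • (1 - χ b) • (q - f b) =
      f y + (χ y + t * (1 - χ b)) • (q - f b) := fun y t => by
    simp only [vm]; module
  rw [e1]
  refine ⟨(hD.vm hf.1.1 hχ).smul (by linarith), hbD, contDiff_const.mul hχ,
    tsupport_mul_subset_right.trans hs, ?_, fun y hy hyD t ht => ?_, ?_⟩
  · beta_reduce
    rw [← div_eq_inv_mul, one_lt_div h0]; linarith
  · rw [e2, fib_vm_subset hD hs hy hyD]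
    refine h2 y hy hyD _ ?_
    obtain ⟨u, hu, rfl⟩ : ∃ u ∈ Icc (0 : ℝ) 1, t = u * ((χ b - 1)⁻¹ * χ y) := by
      rw [← segment_eq_uIcc, segment_eq_image] at ht
      obtain ⟨u, hu, rfl⟩ := ht
      exact ⟨u, hu, by simp⟩
    rw [← segment_eq_uIcc, segment_eq_image]
    refine ⟨1 - u, ⟨by linarith [hu.2], by linarith [hu.1]⟩, ?_⟩
    simp only [smul_eq_mul]
    field_simp
    ring
  · funext y
    change f y = vm f χ (q - f b) y + _
    rw [e2]
    have : χ y + (χ b - 1)⁻¹ * χ y * (1 - χ b) = 0 := by field_simp; ring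
    rw [this]; simp

/-- Elementary moves: a regular homotopy without quadruple points, or a finger across a transverse
triple point. -/
def Mv (f g : E → E) : Prop :=
  I4 f ∧ (Rel f g ∨ ∃ (x : Fin 3 → E) (b q : E), TT f x q ∧ Finger f b q g)

/-- Chains of elementary moves. -/
def Ch : (E → E) → (E → E) → Prop := Relation.ReflTransGen Mv

theorem Ch.two {α β f g : E → E} (h : Ch f g)
    (hf : (Rel f α ∧ N f β) ∨ (Rel f β ∧ N f α)) : (Rel g α ∧ N g β) ∨ (Rel g β ∧ N g α) := by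
  induction h with
  | refl => exact hf
  | tail _ h ih =>
    obtain ⟨h1, h | ⟨x, b, q, h2, h3⟩⟩ := h
    · exact ih.imp (fun h4 => ⟨h.symm.trans h4.1, h4.2.of_rel h⟩)
        fun h4 => ⟨h.symm.trans h4.1, h4.2.of_rel h⟩
    · have n1 := N.finger h1 h2 h3
      obtain ⟨h4, h5⟩ := finger_symm h1 h2 h3
      have n2 := N.finger (h3.i4 h1) h4 h5
      exact (ih.imp (fun h6 => And.intro (N.unique h1 n1 h6.2) (n2.rel h6.1))
        fun h6 => And.intro (N.unique h1 n1 h6.2) (n2.rel h6.1)).symm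

end Pool.Agent.Lib.Quad.Main
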