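import Pool.Agent.Lib.MP_31e762_gt.MainN

/-! A vertical move is a chain of elementary moves. -/

open scoped ContDiff RealInnerProductSpace Topology
open Metric Set Function Filter

namespace Pool.Agent.Lib.Quad.Main

theorem mem_uIcc_param {a b t : ℝ} : t ∈ uIcc a b ↔ ∃ u ∈ Icc (0 : ℝ) 1, t = a + u * (b - a) := by
  rw [← segment_eq_uIcc, segment_eq_image']
  exact ⟨fun ⟨u, hu, h⟩ => ⟨u, hu, h.symm⟩, fun ⟨u, hu, h⟩ => ⟨u, hu, h.symm⟩⟩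

/-- Heights over points of the chart at which a triple point of the rest of the surface lies. -/
def Bad (F : E → E) (D : Set E) (v : E) : Set (E × ℝ) :=
  {p | p.1 ∈ S ∧ p.1 ∈ D ∧ 3 ≤ (fib F (S \ {p.1}) (F p.1 + p.2 • v)).encard}

theorem Bad.tri {F : E → E} {D : Set E} {v : E} {p : E × ℝ} (h : p ∈ Bad F D v) :
    Tri F (F p.1 + p.2 • v) :=
  h.2.2.trans (encard_le_encard fun _ hx => ⟨hx.1.1, hx.2⟩)

theorem bad_finite {F : E → E} {D : Set E} {v : E} (hD : VD F D v) (hT : {y | Tri F y}.Finite) :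
    (Bad F D v).Finite := by
  refine Finite.of_injOn (f := fun p : E × ℝ => F p.1 + p.2 • v) (fun p hp => Bad.tri hp) ?_ hT
  rintro ⟨x, t⟩ hp ⟨x', t'⟩ hp' h
  simp only at h
  have h1 := hD.2.2 x hp.1 x' hp'.1 hp.2.1 hp'.2.1 (t - t')
    (by rw [sub_smul, ← add_sub_assoc, h, add_sub_cancel_right])
  subst h1
  have hv : v ≠ 0 := fun h0 => hD.2.1 x' hp.1 hp.2.1 (by simp [h0])
  rw [smul_left_injective ℝ hv (add_left_cancel h)]

theorem le_two_of_not {n : ℕ∞} (h : ¬ 3 ≤ n) : n ≤ 2 :=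
  Order.le_of_lt_add_one (not_le.1 h)

theorem good_of_i4 {F : E → E} {D : Set E} {v : E} {χ : E → ℝ} (hD : VD F D v)
    (hs : tsupport χ ⊆ D) (h : I4 (vm F χ v)) (x : E) : (x, χ x) ∉ Bad F D v := by
  rintro ⟨h1, h2, h3⟩
  simp only at h1 h2 h3
  rw [← fib_vm_subset hD hs h1 h2] at h3
  have h4 : insert x (fib (vm F χ v) (S \ {x}) (F x + χ x • v)) ⊆
      fib (vm F χ v) S (F x + χ x • v) :=
    insert_subset ⟨h1, rfl⟩ fun _ hy => ⟨hy.1.1, hy.2⟩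
  have h5 := (encard_le_encard h4).trans (h.2 _)
  rw [encard_insert_of_notMem fun hy => hy.1.2 rfl] at h5
  have h6 : (3 : ℕ∞) + 1 ≤ 3 := (add_le_add_left h3 1).trans h5
  norm_num at h6

theorem tsupp_comb {χ₀ χ₁ : E → ℝ} {D : Set E} (h₀ : tsupport χ₀ ⊆ D) (h₁ : tsupport χ₁ ⊆ D)
    (a b : E → ℝ) : tsupport (fun x => a x * χ₀ x + b x * χ₁ x) ⊆ D :=
  (tsupport_add _ _).trans (union_subset (tsupport_mul_subset_right.trans h₀)
    (tsupport_mul_subset_right.trans h₁))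

theorem tt_vm {F : E → E} {D : Set E} {v : E} {χ : E → ℝ} (hF : I4 F)
    (hT : ∀ y, Tri F y → ∃ x, TT F x y) (hD : VD F D v) (hs : tsupport χ ⊆ D) {p : E × ℝ}
    (hp : p ∈ Bad F D v) : ∃ x, TT (vm F χ v) x (F p.1 + p.2 • v) := by
  obtain ⟨x, ht⟩ := hT _ (Bad.tri hp)
  have h0 : fib F (S \ {p.1}) (F p.1 + p.2 • v) ⊆ fib F S (F p.1 + p.2 • v) :=
    fun _ hx => ⟨hx.1.1, hx.2⟩
  have h1 : fib F (S \ {p.1}) (F p.1 + p.2 • v) = fib F S (F p.1 + p.2 • v) :=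
    Finite.eq_of_subset_of_encard_le (finite_of_encard_le_coe (k := 3)
      ((encard_le_encard h0).trans (hF.2 (F p.1 + p.2 • v)))) h0 ((hF.2 _).trans hp.2.2)
  have e : ∀ i, vm F χ v =ᶠ[𝓝 (x i)] F := fun i => vm_eventuallyEq F _ fun h => by
    have h2 : x i ∈ fib F (S \ {p.1}) (F p.1 + p.2 • v) := h1 ▸ ⟨ht.1 i, ht.2.2.1 i⟩
    exact h2.1.2 (hD.2.2 _ hp.1 _ (ht.1 i) hp.2.1 (hs h) _ h2.2)
  exact ⟨x, ht.1, ht.2.1, fun i => (e i).eq_of_nhds.trans (ht.2.2.1 i), by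
    rw [nrm_congr_ev (e 0), nrm_congr_ev (e 1), nrm_congr_ev (e 2)]; exact ht.2.2.2⟩

theorem ch_vert {F : E → E} {D : Set E} {v : E} (hF : I4 F) (hT : ∀ y, Tri F y → ∃ x, TT F x y)
    (hD : VD F D v) {χ₁ : E → ℝ} (c₁ : ContDiff ℝ ∞ χ₁) (s₁ : tsupport χ₁ ⊆ D)
    (i₁ : I4 (vm F χ₁ v)) {χ₀ : E → ℝ} (c₀ : ContDiff ℝ ∞ χ₀) (s₀ : tsupport χ₀ ⊆ D)
    (i₀ : I4 (vm F χ₀ v)) : Ch (vm F χ₀ v) (vm F χ₁ v) := by
  have hfin := bad_finite hD (finite_tri hF hT)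
  have g₁ := good_of_i4 hD s₁ i₁
  induction hn : {p | p ∈ Bad F D v ∧ p.2 ∈ uIcc (χ₀ p.1) (χ₁ p.1)}.ncard
    using Nat.strong_induction_on generalizing χ₀ with
  | _ n ih =>
  have g₀ := good_of_i4 hD s₀ i₀
  by_cases hC : ∀ p ∈ Bad F D v, p.2 ∉ uIcc (χ₀ p.1) (χ₁ p.1)
  · refine Relation.ReflTransGen.single ⟨i₀, Or.inl (step_vm hF.1.1 c₀ c₁ fun s hs => ?_).rel⟩
    refine vm_I4 hF hD (by fun_prop) (tsupp_comb s₀ s₁ (fun _ => 1 - s) fun _ => s)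
      fun x hx hxD _ => le_two_of_not fun h => hC (x, _) ⟨hx, hxD, h⟩
        (mem_uIcc_param.2 ⟨s, hs, by simp only; ring⟩)
  simp only [not_forall, not_not] at hC
  obtain ⟨⟨b, h₀⟩, hb, hb'⟩ := hC
  simp only at hb'
  obtain ⟨s', hs', rfl⟩ := mem_uIcc_param.1 hb'
  obtain ⟨d, hd⟩ : ∃ d, d = χ₁ b - χ₀ b := ⟨_, rfl⟩
  rw [← hd] at hb
  have hd0 : d ≠ 0 := fun h => g₀ b (by simpa [h] using hb)
  have hA : {σ : ℝ | (b, χ₀ b + σ * d) ∈ Bad F D v}.Finite :=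
    hfin.preimage (f := fun σ : ℝ => (b, χ₀ b + σ * d)) fun x _ y _ h =>
      mul_right_cancel₀ hd0 (add_left_cancel (Prod.ext_iff.1 h).2)
  obtain ⟨s, ⟨hsA, hs⟩, hmin⟩ := exists_min_image _ id (hA.inter_of_left (Icc 0 1)) ⟨s', hb, hs'⟩
  have hs0 : 0 < s := hs.1.lt_of_ne fun h => g₀ b (by simpa [← h] using hsA)
  have hs1 : s < 1 := hs.2.lt_of_ne fun h => g₁ b (by simpa [h, hd] using hsA)
  obtain ⟨θ, hθ, hθ'⟩ := mem_nhdsGT_iff_exists_Ioc_subset.1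
    (show {σ : ℝ | (b, χ₀ b + σ * d) ∉ Bad F D v ∧ σ < 1} ∈ 𝓝[>] s by
      filter_upwards [mem_nhdsWithin_of_mem_nhds ((hA.sdiff (t := {s})).isClosed.isOpen_compl.mem_nhds
        (show s ∈ _ from fun h => h.2 rfl)), mem_nhdsWithin_of_mem_nhds (Iio_mem_nhds hs1),
        self_mem_nhdsWithin] with σ h1 h2 h3
      exact ⟨fun h => h1 ⟨h, ne_of_gt h3⟩, h2⟩)
  have hθs : s < θ := hθ
  have hθ1 : θ < 1 := (hθ' ⟨hθs, le_rfl⟩).2
  obtain ⟨β, hβ, hβZ, -, hβ01, hβ1⟩ := exists_cutoff (isCompact_singleton (x := b))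
    ((hfin.image Prod.fst).sdiff (t := {b})).isClosed.isOpen_compl
    (singleton_subset_iff.2 fun h => h.2 rfl)
  have hβb : β b = 1 := (hβ1 b rfl).eq_of_nhds
  set χ : E → ℝ := fun x => (1 - θ * β x) * χ₀ x + θ * β x * χ₁ x with hχ
  have cχ : ContDiff ℝ ∞ χ := by rw [hχ]; fun_prop
  have sχ : tsupport χ ⊆ D := tsupp_comb s₀ s₁ _ _
  have hsd : s * d ≠ 0 := mul_ne_zero hs0.ne' hd0
  have e1 : F b + (χ₀ b + s * d) • v - vm F χ₀ v b = (s * d) • v := by simp only [vm]; module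
  have e2 : ∀ y t, vm F χ₀ v y + t • (s * d) • v = F y + (χ₀ y + t * (s * d)) • v := fun y t => by
    simp only [vm]; module
  have hfing : Finger (vm F χ₀ v) b (F b + (χ₀ b + s * d) • v) (vm F χ v) := by
    refine ⟨hsA.1, D, fun x => -((s * d)⁻¹ * θ * β x) * χ₀ x + (s * d)⁻¹ * θ * β x * χ₁ x, ?_⟩
    rw [e1]
    refine ⟨(hD.vm hF.1.1 c₀).smul hsd, hsA.2.1, by fun_prop, tsupp_comb s₀ s₁ _ _, ?_,
      fun x hx hxD t ht => ?_, ?_⟩
    · have : -((s * d)⁻¹ * θ * β b) * χ₀ b + (s * d)⁻¹ * θ * β b * χ₁ b = θ / s := by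
        rw [hβb, show χ₁ b = χ₀ b + d by rw [hd]; ring]; field_simp; ring
      beta_reduce
      rw [this, one_lt_div hs0]; exact hθs
    · rw [e2, fib_vm_subset hD s₀ hx hxD]
      by_cases h : 3 ≤ (fib F (S \ {x}) (F x + (χ₀ x + t * (s * d)) • v)).encard
      swap
      · exact Or.inl (le_two_of_not h)
      right
      have hbad : (x, χ₀ x + t * (s * d)) ∈ Bad F D v := ⟨hx, hxD, h⟩
      obtain ⟨u, hu, rfl⟩ := mem_uIcc_param.1 ht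
      by_cases hxb : x = b
      · subst hxb
        have e3 : (0 + u * (-((s * d)⁻¹ * θ * β x) * χ₀ x + (s * d)⁻¹ * θ * β x * χ₁ x - 0)) *
            (s * d) = u * θ * d := by
          rw [hβb, show χ₁ x = χ₀ x + d by rw [hd]; ring]; field_simp; ring
        rw [e3] at hbad ⊢
        have h1 : u * θ ≤ θ := mul_le_of_le_one_left (by linarith) hu.2
        have h2 : s ≤ u * θ := hmin _ ⟨hbad, mul_nonneg hu.1 (by linarith), by linarith⟩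
        rw [h2.eq_or_lt.resolve_right fun h3 => (hθ' ⟨h3, h1⟩).1 hbad]
      · have h1 : β x = 0 := image_eq_zero_of_notMem_tsupport fun h1 =>
          hβZ h1 ⟨⟨_, hbad, rfl⟩, hxb⟩
        exact (g₀ x (by simpa [h1] using hbad)).elim
    · funext y
      change _ = vm F χ₀ v y + _
      rw [e2]
      simp only [vm, hχ]
      congr 2
      field_simp
      ring
  obtain ⟨x, hx⟩ := tt_vm hF hT hD s₀ hsA
  refine Relation.ReflTransGen.head ⟨i₀, Or.inr ⟨x, b, _, hx, hfing⟩⟩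
    (ih _ ?_ cχ sχ (hfing.i4 i₀) rfl)
  rw [← hn]
  refine ncard_lt_ncard ⟨fun p hp => ⟨hp.1, uIcc_subset_uIcc ?_ right_mem_uIcc hp.2⟩, fun h => ?_⟩
    (hfin.subset fun p hp => hp.1)
  · refine mem_uIcc_param.2 ⟨θ * β p.1, ⟨mul_nonneg (by linarith) (hβ01 _).1,
      mul_le_one₀ hθ1.le (hβ01 _).1 (hβ01 _).2⟩, by simp only [hχ]; ring⟩
  · obtain ⟨u, hu, h1⟩ := mem_uIcc_param.1 (h (a := (b, χ₀ b + s * d))
      ⟨hsA, mem_uIcc_param.2 ⟨s, hs, by rw [hd]⟩⟩).2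
    simp only [hχ, hβb, show χ₁ b = χ₀ b + d by rw [hd]; ring] at h1
    have h2 : s = θ + u * (1 - θ) := mul_right_cancel₀ hd0 (by linear_combination h1)
    have : 0 ≤ u * (1 - θ) := mul_nonneg hu.1 (by linarith)
    linarith

end Pool.Agent.Lib.Quad.Main
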