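import Pool.Agent.Lib.MP_31e762_gt.Defs2

/-! Openness of the multiplicity conditions, families, triple points, flattening. -/

namespace Pool.Agent.Lib.Quad

open scoped ContDiff RealInnerProductSpace Topology
open Metric Set Function Filter

theorem encard_le_iff {α : Type*} {s : Set α} {k : ℕ} :
    s.encard ≤ k ↔ ∀ x : Fin (k + 1) → α, (∀ i, x i ∈ s) → ¬ Injective x := by
  constructor
  · intro h x hx hinj
    have h1 : (range x).encard = ((k + 1 : ℕ) : ℕ∞) := by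
      rw [← image_univ, hinj.encard_image]; simp
    have h2 : (range x).encard ≤ s.encard := encard_le_encard (range_subset_iff.2 hx)
    have h3 : ((k + 1 : ℕ) : ℕ∞) ≤ k := h1 ▸ h2.trans h
    exact absurd (by exact_mod_cast h3 : k + 1 ≤ k) (by omega)
  · intro h
    by_contra hlt
    have h1 : ((k + 1 : ℕ) : ℕ∞) ≤ s.encard := by
      push_cast; exact Order.add_one_le_of_lt (not_le.1 hlt)
    obtain ⟨t, hts, ht⟩ := exists_subset_encard_eq h1
    have hfin : t.Finite := finite_of_encard_eq_coe ht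
    have hc : hfin.toFinset.card = k + 1 := by
      have := hfin.encard_eq_coe_toFinset_card
      rw [ht] at this; exact_mod_cast this.symm
    let e := (Finset.equivFinOfCardEq hc).symm
    exact h (fun i => e i) (fun i => hts (hfin.mem_toFinset.1 (e i).2))
      (Subtype.val_injective.comp e.injective)

theorem Step.symm {f g : E → E} (h : Step f g) : Step g f := by
  obtain ⟨H, h1, h2, h3, h4⟩ := h
  refine ⟨fun t => H (1 - t), ?_, fun t ht => h2 _ ⟨by linarith [ht.2], by linarith [ht.1]⟩,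
    by simpa using h4, by simpa using h3⟩
  exact h1.comp (f := fun p : ℝ × E => (1 - p.1, p.2)) (by fun_prop)
theorem Step.left {f g : E → E} (h : Step f g) : I4 f := by
  obtain ⟨H, -, h2, h3, -⟩ := h
  exact h3 ▸ h2 0 ⟨le_rfl, zero_le_one⟩
theorem Step.right {f g : E → E} (h : Step f g) : I4 g := h.symm.left
theorem Step.rel {f g : E → E} (h : Step f g) : Rel f g := Relation.ReflTransGen.single h
theorem Rel.refl (f : E → E) : Rel f f := Relation.ReflTransGen.refl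
theorem Rel.symm {f g : E → E} (h : Rel f g) : Rel g f := by
  induction h with
  | refl => exact Relation.ReflTransGen.refl
  | tail _ h2 ih => exact Relation.ReflTransGen.head h2.symm ih
theorem Rel.trans {f g h : E → E} (h1 : Rel f g) (h2 : Rel g h) : Rel f h := Relation.ReflTransGen.trans h1 h2
theorem Rel.i4 {f g : E → E} (h : Rel f g) (hf : I4 f) : I4 g := by
  induction h with
  | refl => exact hf
  | tail _ h2 _ => exact h2.right

/-- Upper semicontinuity of multiplicities. -/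
theorem mult_open {f : E → E} (hf : Imm f) {A C : Set E} (hA : IsClosed A) (hAS : A ⊆ S)
    (hC : IsClosed C) {k : ℕ} (h : ∀ y ∈ C, (fib f A y).encard ≤ k) :
    ∃ δ, 0 < δ ∧ ∀ g : E → E, ContDiff ℝ ∞ g → Small δ (g - f) →
      ∀ y, (∃ y₀ ∈ C, ‖y - y₀‖ ≤ δ) → (fib g A y).encard ≤ k := by
  rcases C.eq_empty_or_nonempty with rfl | hCne
  · exact ⟨1, one_pos, fun g _ _ y ⟨_, h0, _⟩ => h0.elim⟩
  obtain ⟨ρ, hρ, δ₀, hδ₀, hsep⟩ := hf.sep'
  let K : Set (Fin (k + 1) → E) := {x | (∀ i, x i ∈ A) ∧ ∀ i j, i ≠ j → ρ ≤ dist (x i) (x j)}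
  have hK : IsCompact K := by
    apply (isCompact_univ_pi fun _ => isCompact_S).of_isClosed_subset
    · simp only [K, ofPred_and, ofPred_forall]
      refine (isClosed_iInter fun i => hA.preimage (continuous_apply i)).inter
        (isClosed_iInter fun i => isClosed_iInter fun j => isClosed_iInter fun _ => ?_)
      exact isClosed_le continuous_const (by fun_prop)
    · exact fun x hx i _ => hAS (hx.1 i)
  let Φ : (Fin (k + 1) → E) → ℝ := fun x => infDist (f (x 0)) C + ∑ i, ‖f (x i) - f (x 0)‖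
  have hfc := hf.1.continuous
  have hΦ : Continuous Φ := by
    have : Continuous fun y : E => infDist y C := continuous_infDist_pt C
    fun_prop
  have hpos : ∀ x ∈ K, 0 < Φ x := by
    intro x hx
    have h1 : 0 ≤ infDist (f (x 0)) C := infDist_nonneg
    have h2 : 0 ≤ ∑ i, ‖f (x i) - f (x 0)‖ := Finset.sum_nonneg fun _ _ => norm_nonneg _
    by_contra h0
    have h3 : infDist (f (x 0)) C = 0 := by simp only [Φ] at h0; linarith
    have h4 : ∑ i, ‖f (x i) - f (x 0)‖ = 0 := by simp only [Φ] at h0; linarith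
    rw [Finset.sum_eq_zero_iff_of_nonneg fun _ _ => norm_nonneg _] at h4
    refine encard_le_iff.1 (h _ ((hC.mem_iff_infDist_zero hCne).2 h3)) x
      (fun i => ⟨hx.1 i, sub_eq_zero.1 (norm_eq_zero.1 (h4 i (Finset.mem_univ _)))⟩) ?_
    intro i j hij
    by_contra hne
    have := hx.2 i j hne
    rw [hij, dist_self] at this; linarith
  obtain ⟨m, hm, hmK⟩ := hK.exists_forall_le' hΦ.continuousOn hpos
  have hk0 : (0 : ℝ) < 2 * k + 5 := by positivity
  refine ⟨min δ₀ (m / (2 * k + 5)), by positivity, fun g hg hgf y ⟨y₀, hy₀, hy⟩ => ?_⟩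
  rw [encard_le_iff]
  intro x hx hinj
  set d := min δ₀ (m / (2 * k + 5))
  have hd : d * (2 * k + 5) ≤ m := by rw [← le_div_iff₀ hk0]; exact min_le_right _ _
  have hd0 : 0 < d := by positivity
  have hxK : x ∈ K := by
    refine ⟨fun i => (hx i).1, fun i j hij => ?_⟩
    by_contra hlt
    exact hij (hinj ((hsep g hg (hgf.mono (min_le_left _ _))).2 _ (hAS (hx i).1) _ (hAS (hx j).1)
      (not_le.1 hlt) ((hx i).2.trans (hx j).2.symm)))
  have hfy : ∀ i, ‖f (x i) - y‖ ≤ d := by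
    intro i
    have := (hgf _ (hAS (hx i).1)).1
    rw [Pi.sub_apply, (hx i).2, norm_sub_rev] at this; exact this
  have h1 : infDist (f (x 0)) C ≤ 2 * d := by
    refine (infDist_le_dist_of_mem hy₀).trans ?_
    rw [dist_eq_norm]
    calc _ = ‖(f (x 0) - y) + (y - y₀)‖ := by congr 1; abel
      _ ≤ d + d := (norm_add_le _ _).trans (add_le_add (hfy 0) hy)
      _ = _ := by ring
  have h2 : ∑ i, ‖f (x i) - f (x 0)‖ ≤ ∑ _i : Fin (k + 1), 2 * d := by
    refine Finset.sum_le_sum fun i _ => ?_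
    calc _ = ‖(f (x i) - y) - (f (x 0) - y)‖ := by congr 1; abel
      _ ≤ d + d := (norm_sub_le _ _).trans (add_le_add (hfy i) (hfy 0))
      _ = _ := by ring
  have h3 := hmK x hxK
  simp only [Finset.sum_const, Finset.card_univ, Fintype.card_fin, nsmul_eq_mul] at h2
  push_cast at h2
  simp only [Φ] at h3
  nlinarith

theorem I4.close {f : E → E} (hf : I4 f) :
    ∃ δ, 0 < δ ∧ ∀ g : E → E, ContDiff ℝ ∞ g → Small δ (g - f) → I4 g ∧ Rel f g := by
  obtain ⟨δ₁, hδ₁, h₁⟩ := hf.1.open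
  obtain ⟨δ₂, hδ₂, h₂⟩ := mult_open hf.1 isClosed_S subset_rfl isClosed_univ (k := 3)
    fun y _ => hf.2 y
  have key : ∀ g : E → E, ContDiff ℝ ∞ g → Small (min δ₁ δ₂) (g - f) → I4 g := fun g hg hgf =>
    ⟨h₁ g hg (hgf.mono (min_le_left _ _)), fun y => h₂ g hg (hgf.mono (min_le_right _ _)) y
      ⟨y, trivial, by simpa using hδ₂.le⟩⟩
  refine ⟨min δ₁ δ₂, by positivity, fun g hg hgf => ⟨key g hg hgf, Step.rel ?_⟩⟩
  have hf1 := hf.1.1
  refine ⟨fun t => f + t • (g - f), ?_, fun t ht => key _ ?_ ?_, by simp, by simp⟩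
  · change ContDiff ℝ ∞ fun p : ℝ × E => f p.2 + p.1 • (g p.2 - f p.2)
    fun_prop
  · change ContDiff ℝ ∞ fun x : E => f x + t • (g x - f x)
    fun_prop
  · rw [add_sub_cancel_left]
    exact hgf.smul_unit ((smooth_diff hg).sub (smooth_diff hf1)) ht

theorem fam_member {P : Type*} [NormedAddCommGroup P] [NormedSpace ℝ P] {G : P → E → E}
    (hG : ContDiff ℝ ∞ (uncurry G)) (p : P) : ContDiff ℝ ∞ (G p) :=
  hG.comp (f := fun x : E => (p, x)) (by fun_prop)

theorem fam_fderiv_continuous {P : Type*} [NormedAddCommGroup P] [NormedSpace ℝ P]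
    {G : P → E → E} (hG : ContDiff ℝ ∞ (uncurry G)) :
    Continuous fun z : P × E => fderiv ℝ (G z.1) z.2 := by
  have h1 : ContDiff ℝ ∞ (uncurry fun (z : P × E) (y : E) => G z.1 y) :=
    hG.comp (f := fun w : (P × E) × E => (w.1.1, w.2)) (by fun_prop)
  exact (ContDiff.fderiv (n := 0) h1 contDiff_snd (by simp)).continuous

/-- Members of a smooth family are close for close parameters. -/
theorem fam_small {P : Type*} [NormedAddCommGroup P] [NormedSpace ℝ P] {G : P → E → E}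
    (hG : ContDiff ℝ ∞ (uncurry G)) (p₀ : P) {δ : ℝ} (hδ : 0 < δ) :
    ∀ᶠ p in 𝓝 p₀, Small δ (G p - G p₀) := by
  have h1 := fam_fderiv_continuous hG
  have h2 : Continuous fun z : P × E => G z.1 z.2 := hG.continuous
  have h3 := (fam_member hG p₀).continuous
  have h4 := smooth_cont_fderiv (fam_member hG p₀)
  have key : ∀ᶠ p in 𝓝 p₀, ∀ x ∈ S, ‖G p x - G p₀ x‖ < δ ∧
      ‖fderiv ℝ (G p) x - fderiv ℝ (G p₀) x‖ < δ := by
    apply isCompact_S.eventually_forall_of_forall_eventually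
    intro x _
    have c1 : Continuous fun z : P × E => ‖G z.1 z.2 - G p₀ z.2‖ := by fun_prop
    have c2 : Continuous fun z : P × E => ‖fderiv ℝ (G z.1) z.2 - fderiv ℝ (G p₀) z.2‖ := by
      fun_prop
    exact (c1.continuousAt.eventually_lt continuousAt_const (by simpa using hδ)).and
      (c2.continuousAt.eventually_lt continuousAt_const (by simpa using hδ))
  filter_upwards [key] with p hp x hx
  refine ⟨(hp x hx).1.le, fun w _ => ?_⟩
  rw [fderiv_sub (smooth_diff (fam_member hG p) x) (smooth_diff (fam_member hG p₀) x)]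
  exact (ContinuousLinearMap.le_opNorm _ _).trans
    (mul_le_mul_of_nonneg_right (hp x hx).2.le (norm_nonneg _))

/-- Composition with a smooth family of maps of space is continuous. -/
theorem comp_small {P : Type*} [NormedAddCommGroup P] [NormedSpace ℝ P] [FiniteDimensional ℝ P]
    {G : P → E → E} (hG : ContDiff ℝ ∞ (uncurry G)) (p₀ : P) {f : E → E} (hf : ContDiff ℝ ∞ f)
    {η : ℝ} (hη : 0 < η) :
    ∃ δ, 0 < δ ∧ ∀ p, ‖p - p₀‖ ≤ δ → ∀ g : E → E, ContDiff ℝ ∞ g → Small δ (g - f) →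
      Small η (G p ∘ g - G p₀ ∘ f) := by
  have h1 := fam_fderiv_continuous hG
  have h2 : Continuous fun z : P × E => G z.1 z.2 := hG.continuous
  have h3 := (fam_member hG p₀).continuous
  have h4 := smooth_cont_fderiv (fam_member hG p₀)
  have hfc := hf.continuous
  obtain ⟨C1, hC1⟩ := isCompact_S.exists_bound_of_continuousOn
    (f := fun x => fderiv ℝ (G p₀) (f x)) (by fun_prop)
  obtain ⟨C2, hC2⟩ := isCompact_S.exists_bound_of_continuousOn (smooth_cont_fderiv hf).continuousOn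
  have hC : 0 < |C1| + |C2| + 2 := by positivity
  set η' := min 1 (η / (|C1| + |C2| + 2)) with hη'
  have hη0 : 0 < η' := by positivity
  have hη1 : η' ≤ 1 := min_le_left _ _
  have hη2 : η' * (|C1| + |C2| + 2) ≤ η := by rw [← le_div_iff₀ hC]; exact min_le_right _ _
  have key : ∀ᶠ z : P × E in 𝓝 (p₀, 0), ∀ x ∈ S, ‖G z.1 (f x + z.2) - G p₀ (f x)‖ < η' ∧
      ‖fderiv ℝ (G z.1) (f x + z.2) - fderiv ℝ (G p₀) (f x)‖ < η' := by
    apply isCompact_S.eventually_forall_of_forall_eventually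
    intro x _
    have c1 : Continuous fun w : (P × E) × E => ‖G w.1.1 (f w.2 + w.1.2) - G p₀ (f w.2)‖ := by
      have : Continuous fun w : (P × E) × E => G w.1.1 (f w.2 + w.1.2) :=
        h2.comp (f := fun w : (P × E) × E => (w.1.1, f w.2 + w.1.2)) (by fun_prop)
      fun_prop
    have c2 : Continuous fun w : (P × E) × E =>
        ‖fderiv ℝ (G w.1.1) (f w.2 + w.1.2) - fderiv ℝ (G p₀) (f w.2)‖ := by
      have : Continuous fun w : (P × E) × E => fderiv ℝ (G w.1.1) (f w.2 + w.1.2) :=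
        h1.comp (f := fun w : (P × E) × E => (w.1.1, f w.2 + w.1.2)) (by fun_prop)
      fun_prop
    exact (c1.continuousAt.eventually_lt continuousAt_const (by simpa using hη0)).and
      (c2.continuousAt.eventually_lt continuousAt_const (by simpa using hη0))
  obtain ⟨r, hr, hr'⟩ := Metric.eventually_nhds_iff.1 key
  refine ⟨min (r / 2) η', by positivity, fun p hp g hg hgf x hx => ?_⟩
  have hz : dist (p, g x - f x) (p₀, 0) < r := by
    rw [Prod.dist_eq, max_lt_iff, dist_eq_norm, dist_zero_right]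
    have a1 := min_le_left (r / 2) η'
    have a2 : ‖g x - f x‖ ≤ _ := (hgf x hx).1
    constructor <;> linarith
  have k := hr' hz x hx
  simp only [add_sub_cancel] at k
  refine ⟨k.1.le.trans (by nlinarith [abs_nonneg C1, abs_nonneg C2]), fun w hw => ?_⟩
  have d1 : fderiv ℝ (G p ∘ g) x = (fderiv ℝ (G p) (g x)).comp (fderiv ℝ g x) :=
    fderiv_comp x (smooth_diff (fam_member hG p) _) (smooth_diff hg x)
  have d2 : fderiv ℝ (G p₀ ∘ f) x = (fderiv ℝ (G p₀) (f x)).comp (fderiv ℝ f x) :=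
    fderiv_comp x (smooth_diff (fam_member hG p₀) _) (smooth_diff hf x)
  rw [fderiv_sub (smooth_diff ((fam_member hG p).comp hg) x)
    (smooth_diff ((fam_member hG p₀).comp hf) x), d1, d2]
  have k2 := (hgf x hx).2 w hw
  rw [fderiv_sub (smooth_diff hg x) (smooth_diff hf x), sub_apply] at k2
  set A := fderiv ℝ (G p) (g x)
  set A₀ := fderiv ℝ (G p₀) (f x)
  have hA : ‖A‖ ≤ |C1| + 1 := by
    have b1 : ‖A₀‖ ≤ |C1| := (hC1 x hx).trans (le_abs_self _)
    have b2 : ‖A‖ ≤ ‖A - A₀‖ + ‖A₀‖ := by simpa using norm_add_le (A - A₀) A₀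
    linarith [k.2]
  have hw2 : ‖fderiv ℝ f x w‖ ≤ |C2| * ‖w‖ := (ContinuousLinearMap.le_opNorm _ _).trans
    (mul_le_mul_of_nonneg_right ((hC2 x hx).trans (le_abs_self _)) (norm_nonneg _))
  have e : (A.comp (fderiv ℝ g x) - A₀.comp (fderiv ℝ f x)) w =
      A (fderiv ℝ g x w - fderiv ℝ f x w) + (A - A₀) (fderiv ℝ f x w) := by simp
  rw [e]
  have k3 : ‖fderiv ℝ g x w - fderiv ℝ f x w‖ ≤ η' * ‖w‖ :=
    k2.trans (mul_le_mul_of_nonneg_right (min_le_right _ _) (norm_nonneg _))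
  calc _ ≤ _ := norm_add_le _ _
    _ ≤ (|C1| + 1) * (η' * ‖w‖) + η' * (|C2| * ‖w‖) :=
      add_le_add ((A.le_opNorm _).trans (mul_le_mul hA k3 (norm_nonneg _) (by positivity)))
        (((A - A₀).le_opNorm _).trans (mul_le_mul k.2.le hw2 (norm_nonneg _) hη0.le))
    _ ≤ _ := by nlinarith [norm_nonneg w, mul_nonneg hη0.le (norm_nonneg w)]

theorem hasFDerivAt_normalize {x : E} (hx : x ∈ S) :
    HasFDerivAt (fun y : E => ‖y‖⁻¹ • y)
      (ContinuousLinearMap.id ℝ E - (innerSL ℝ x).smulRight x) x := by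
  have hx1 := mem_S.1 hx
  have h2 : HasFDerivAt (fun y : E => ‖y‖ ^ 2) (2 • innerSL ℝ x) x :=
    (hasStrictFDerivAt_norm_sq x).hasFDerivAt
  have h3 := h2.sqrt (by simp [hx1])
  simp only [Real.sqrt_sq (norm_nonneg _), hx1] at h3
  have h4 := ((hasDerivAt_inv (x := ‖x‖) (by simp [hx1])).comp_hasFDerivAt x h3).smul
    (hasFDerivAt_id x)
  refine HasFDerivAt.congr_fderiv h4 ?_
  ext w i
  simp [hx1]
  ring

theorem normalize_mem {y : E} (hy : y ≠ 0) : ‖y‖⁻¹ • y ∈ S := by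
  rw [mem_S, norm_smul, norm_inv, norm_norm, inv_mul_cancel₀ (by simpa using hy)]

/-- A curve on the sphere through `x` with prescribed tangent vector. -/
theorem exists_curve {x w : E} (hx : x ∈ S) (hw : ⟪x, w⟫ = 0) :
    ∃ c : ℝ → E, (∀ t, c t ∈ S) ∧ c 0 = x ∧ HasDerivAt c w 0 := by
  have hne : ∀ t : ℝ, x + t • w ≠ 0 := by
    intro t h0
    have : ⟪x, x + t • w⟫ = 0 := by rw [h0]; simp
    rw [inner_add_right, real_inner_smul_right, hw, inner_self_S hx] at this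
    norm_num at this
  refine ⟨fun t => ‖x + t • w‖⁻¹ • (x + t • w), fun t => normalize_mem (hne t),
    by simp [mem_S.1 hx], ?_⟩
  have h1 : HasDerivAt (fun t : ℝ => x + t • w) w 0 := by
    simpa using ((hasDerivAt_id (0 : ℝ)).smul_const w).const_add x
  have h2 := hasFDerivAt_normalize hx
  have h3 : x = (fun t : ℝ => x + t • w) 0 := by simp
  rw [h3] at h2
  have h4 := h2.comp_hasDerivAt (0 : ℝ) h1
  refine HasDerivAt.congr_deriv h4 ?_
  simp [hw]

/-- Points of the sphere are not isolated. -/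
theorem exists_near_not_mem {x : E} (hx : x ∈ S) {V : Set E} (hV : V ∈ 𝓝 x) {Z : Set E}
    (hZ : Z.Finite) : ∃ x' ∈ S, x' ∈ V ∧ x' ∉ Z := by
  obtain ⟨w, hw0, hw⟩ := exists_perp_ne_zero x
  obtain ⟨c, hc, hc0, hd⟩ := exists_curve hx hw
  have h1 : ∀ᶠ t in 𝓝[≠] (0 : ℝ), ∀ z ∈ Z, c t ≠ z :=
    (eventually_all_finite hZ).2 fun z _ => hd.eventually_ne hw0
  have h2 : ∀ᶠ t in 𝓝[≠] (0 : ℝ), c t ∈ V :=
    nhdsWithin_le_nhds (hd.continuousAt.preimage_mem_nhds (hc0 ▸ hV))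
  obtain ⟨t, ht1, ht2⟩ := (h1.and h2).exists
  exact ⟨c t, hc t, ht2, fun h => ht1 _ h rfl⟩

theorem fderiv_congr_S {F : Type*} [NormedAddCommGroup F] [NormedSpace ℝ F] {f g : E → F}
    (hf : Differentiable ℝ f) (hg : Differentiable ℝ g) {x : E}
    (hx : x ∈ S) (h : ∀ᶠ y in 𝓝 x, y ∈ S → g y = f y) {w : E} (hw : ⟪x, w⟫ = 0) :
    fderiv ℝ g x w = fderiv ℝ f x w := by
  obtain ⟨c, hc, hc0, hd⟩ := exists_curve hx hw
  have h1 : HasDerivAt (f ∘ c) (fderiv ℝ f x w) 0 := by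
    have := (hf (c 0)).hasFDerivAt.comp_hasDerivAt (0 : ℝ) hd
    rwa [hc0] at this
  have h2 : HasDerivAt (g ∘ c) (fderiv ℝ g x w) 0 := by
    have := (hg (c 0)).hasFDerivAt.comp_hasDerivAt (0 : ℝ) hd
    rwa [hc0] at this
  have h3 : f ∘ c =ᶠ[𝓝 0] g ∘ c := by
    have := hd.continuousAt.eventually (hc0 ▸ h)
    filter_upwards [this] with t ht
    exact (ht (hc t)).symm
  exact (h2.congr_of_eventuallyEq h3).unique h1

/-- Maps that agree on the sphere near `x` have the same normal at `x`. -/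
theorem nrm_congr_S {f g : E → E} (hf : Differentiable ℝ f) (hg : Differentiable ℝ g) {x : E}
    (hx : x ∈ S) (h : ∀ᶠ y in 𝓝 x, y ∈ S → g y = f y) : nrm g x = nrm f x := nrm_congr hx fun _ hw => fderiv_congr_S hf hg hx h hw

/-- On a flat piece the normal is parallel to the normal of the plane. -/
theorem nrm_of_flat {f : E → E} (hf : Differentiable ℝ f) {x ν : E} {s : ℝ} (hx : x ∈ S)
    (hν : ν ≠ 0) (h : ∀ᶠ y in 𝓝 x, y ∈ S → ⟪ν, f y⟫ = s) : ∃ t : ℝ, nrm f x = t • ν := by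
  rw [← cross_eq_zero_iff hν]
  refine nrm_parallel hx fun w hw => ?_
  have h1 := fderiv_congr_S (f := fun _ => s) (g := fun y => innerSL ℝ ν (f y))
    (differentiable_const s) ((innerSL ℝ ν).differentiable.comp hf) hx h hw
  have h2 : fderiv ℝ (fun y => innerSL ℝ ν (f y)) x = (innerSL ℝ ν).comp (fderiv ℝ f x) :=
    ((innerSL ℝ ν).hasFDerivAt.comp x (hf x).hasFDerivAt).fderiv
  rw [h2] at h1
  simpa using h1

/-- Local surjectivity of the projection along a transverse direction. -/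
theorem local_surj {f : E → E} (hf : ContDiff ℝ ∞ f) {x v : E} (hx : x ∈ S)
    (hv : ⟪nrm f x, v⟫ ≠ 0) {V : Set E} (hV : V ∈ 𝓝 x) {η : ℝ} (hη : 0 < η) :
    ∀ᶠ y in 𝓝 (f x), ∃ x' ∈ S, x' ∈ V ∧ ∃ t : ℝ, |t| < η ∧ f x' + t • v = y := by
  have hx1 := mem_S.1 hx
  have hx0 : x ≠ 0 := by rintro rfl; simp at hx1
  let N : E → E := fun y => ‖y‖⁻¹ • y
  have hNx : N x = x := by simp [N, hx1]
  let Φ : E → E := fun y => f (N y) + (⟪x, y⟫ - 1) • v
  have hN : ContDiffAt ℝ ∞ N x :=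
    ((contDiffAt_norm ℝ hx0).inv (by simpa using hx0)).smul contDiffAt_id
  have hΦ : ContDiffAt ℝ ∞ Φ x :=
    (hf.contDiffAt.comp x hN).add
      (((contDiffAt_const.inner ℝ contDiffAt_id).sub contDiffAt_const).smul contDiffAt_const)
  have hd : HasFDerivAt Φ (lin (fderiv ℝ f x) x v) x := by
    have h1 : HasFDerivAt f (fderiv ℝ f x) (N x) := by rw [hNx]; exact (smooth_diff hf x).hasFDerivAt
    have h2 := h1.comp x (hasFDerivAt_normalize hx)
    have h3 := (((innerSL ℝ x).hasFDerivAt (x := x)).sub_const 1).smul_const v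
    refine HasFDerivAt.congr_fderiv (h2.add h3) ?_
    ext1 w
    simp [lin_apply]
  have hs : HasStrictFDerivAt Φ (lin (fderiv ℝ f x) x v) x := by
    have := hΦ.hasStrictFDerivAt (by simp)
    rwa [hd.fderiv] at this
  have hsurj : (lin (fderiv ℝ f x) x v).range = ⊤ := by
    rw [LinearMap.range_eq_top]
    exact LinearMap.surjective_of_injective (lin_injective hx hv)
  have hmap := hs.map_nhds_eq_of_surj hsurj
  have hΦx : Φ x = f x := by simp [Φ, hNx, hx1]
  have h1 : ∀ᶠ y in 𝓝 x, N y ∈ V := hN.continuousAt.eventually (hNx.symm ▸ hV)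
  have h2 : ∀ᶠ y in 𝓝 x, |⟪x, y⟫ - 1| < η := by
    have c : Continuous fun y : E => |⟪x, y⟫ - 1| := by fun_prop
    exact c.continuousAt.eventually_lt continuousAt_const (by simpa [hx1] using hη)
  have h3 : ∀ᶠ y in 𝓝 x, y ≠ 0 := continuousAt_id.eventually_ne hx0
  rw [← hΦx, ← hmap, eventually_map]
  filter_upwards [h1, h2, h3] with y a1 a2 a3
  exact ⟨N y, normalize_mem a3, a1, _, a2, rfl⟩

/-- Small balls are vertical charts, also for nearby maps and directions. -/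
theorem exists_VD {f : E → E} (hf : ContDiff ℝ ∞ f) {x v : E} (hx : x ∈ S)
    (hv : ⟪nrm f x, v⟫ ≠ 0) :
    ∃ ρ, 0 < ρ ∧ ∃ δ, 0 < δ ∧ ∀ g : E → E, ContDiff ℝ ∞ g → Small δ (g - f) → ∀ v' : E,
      ‖v' - v‖ ≤ δ → VD g (ball x ρ) v' ∧
        ∀ y ∈ S, y ∈ ball x ρ → 0 < ⟪nrm f x, v⟫ * ⟪nrm g y, v'⟫ := by
  obtain ⟨c, hc, ρ₁, hρ₁, δ₁, hδ₁, h₁⟩ := robust_lower hf hx hv
  have c1 : Continuous fun z : E × E => ⟪nrm f x, v⟫ * ⟪z.1, z.2⟫ := by fun_prop
  have e1 := continuousAt_const.eventually_lt (c1.continuousAt (x := (nrm f x, v)))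
    (show (0 : ℝ) < _ from mul_self_pos.2 hv)
  obtain ⟨η, hη, hη'⟩ := Metric.eventually_nhds_iff.1 e1
  obtain ⟨δ₂, hδ₂, h₂⟩ := nrm_close hf (η := η / 3) (by positivity)
  obtain ⟨ρ₂, hρ₂, h₃⟩ := Metric.continuousAt_iff.1 (continuous_nrm hf).continuousAt (η / 3)
    (by positivity)
  refine ⟨min ρ₁ ρ₂, by positivity, min δ₁ (min δ₂ (η / 2)), by positivity,
    fun g hg hgf v' hv' => ?_⟩
  have hpos : ∀ y ∈ S, y ∈ ball x (min ρ₁ ρ₂) → 0 < ⟪nrm f x, v⟫ * ⟪nrm g y, v'⟫ := by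
    intro y hy hb
    apply hη' (y := (nrm g y, v'))
    rw [Prod.dist_eq, max_lt_iff]
    constructor
    · have a1 := h₂ g (smooth_diff hg)
        (hgf.mono ((min_le_right _ _).trans (min_le_left _ _))) y hy
      have a2 := h₃ (ball_subset_ball (min_le_right _ _) hb)
      rw [← dist_eq_norm] at a1
      linarith [dist_triangle (nrm g y) (nrm f y) (nrm f x)]
    · rw [dist_eq_norm]
      linarith [hv'.trans ((min_le_right _ _).trans (min_le_right _ _))]
  refine ⟨⟨isOpen_ball, fun y hy hb h0 => ?_, fun y hy y' hy' hb hb' t ht => ?_⟩, hpos⟩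
  · have := hpos y hy hb; rw [h0] at this; simp at this
  · have := h₁ g (smooth_diff hg) (hgf.mono (min_le_left _ _)) v' (hv'.trans (min_le_left _ _))
      y hy y' hy' (ball_subset_ball (min_le_left _ _) hb) (ball_subset_ball (min_le_left _ _) hb')
      (-t)
    rw [ht, neg_smul, add_sub_cancel_left, add_neg_cancel, norm_zero] at this
    have h0 : ‖y' - y‖ ≤ 0 := by
      by_contra h4; rw [not_le] at h4; nlinarith [abs_nonneg (-t)]
    exact sub_eq_zero.1 (norm_le_zero_iff.1 h0)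

theorem VD.mono {f : E → E} {D D' : Set E} {v : E} (h : VD f D v) (hD' : IsOpen D')
    (hsub : D' ⊆ D) : VD f D' v :=   ⟨hD', fun x hx hxD => h.2.1 x hx (hsub hxD), fun x hx x' hx' a b => h.2.2 x hx x' hx' (hsub a) (hsub b)⟩

theorem VD.smul {f : E → E} {D : Set E} {v : E} (h : VD f D v) {c : ℝ} (hc : c ≠ 0) :
    VD f D (c • v) := by
  refine ⟨h.1, fun x hx hxD => ?_, fun x hx x' hx' a b t ht => h.2.2 x hx x' hx' a b (t * c) ?_⟩
  · rw [real_inner_smul_right]; exact mul_ne_zero hc (h.2.1 x hx hxD)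
  · rw [ht, smul_smul]

/-- Preimages of a small ball lie near the fibre, also for nearby maps. -/
theorem preimage_near {f : E → E} (hf : Continuous f) {C V : Set E} (hC : IsClosed C)
    (hV : IsOpen V) (h : ∀ x ∈ S, f x ∈ C → x ∈ V) :
    ∃ δ, 0 < δ ∧ ∀ g : E → E, (∀ x ∈ S, ‖g x - f x‖ ≤ δ) → ∀ x ∈ S,
      (∃ y₀ ∈ C, ‖g x - y₀‖ ≤ δ) → x ∈ V := by
  have hK : IsCompact (f '' (S \ V)) := (isCompact_S.diff hV).image hf
  obtain ⟨δ, hδ, hδ'⟩ := hK.exists_cthickening_subset_open hC.isOpen_compl (by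
    rintro _ ⟨x, hx, rfl⟩ hfx
    exact hx.2 (h x hx.1 hfx))
  refine ⟨δ / 2, by positivity, fun g hg x hx ⟨y₀, hy₀, hy⟩ => ?_⟩
  by_contra hxV
  refine hδ' (mem_cthickening_of_dist_le y₀ (f x) δ _ ⟨x, ⟨hx, hxV⟩, rfl⟩ ?_) hy₀
  have a1 := hg x hx
  rw [← dist_eq_norm] at a1 hy
  linarith [dist_triangle_left y₀ (f x) (g x)]

theorem not_tri_iff {f : E → E} {y : E} : ¬ Tri f y ↔ (fib f S y).encard ≤ 2 := by
  rw [Tri, not_le]
  exact (ENat.lt_add_one_iff (n := 2) (by simp))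

theorem tri_iff {f : E → E} {y : E} :
    Tri f y ↔ ∃ x : Fin 3 → E, (∀ i, x i ∈ S) ∧ Injective x ∧ ∀ i, f (x i) = y := by
  rw [← not_iff_not, not_tri_iff]
  refine (encard_le_iff (k := 2)).trans ⟨fun h ⟨x, h1, h2, h3⟩ => h x (fun i => ⟨h1 i, h3 i⟩) h2,
    fun h x h1 h2 => h ⟨x, fun i => (h1 i).1, h2, fun i => (h1 i).2⟩⟩

theorem TT.tri {f : E → E} {x : Fin 3 → E} {q : E} (h : TT f x q) : Tri f q := tri_iff.2 ⟨x, h.1, h.2.1, h.2.2.1⟩

theorem TT.fib_eq {f : E → E} {x : Fin 3 → E} {q : E} (hf : I4 f) (h : TT f x q) :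
    fib f S q = range x := by
  have h1 : (range x).encard = 3 := by rw [← image_univ, h.2.1.encard_image]; simp
  refine (Finite.eq_of_subset_of_encard_le (finite_range x) ?_ (h1 ▸ hf.2 q)).symm
  rintro _ ⟨i, rfl⟩
  exact ⟨h.1 i, h.2.2.1 i⟩

theorem flat_estimate {f : E → E} (hf : Imm f) {x : E} (hx : x ∈ S) {η : ℝ} (hη : 0 < η) :
    ∃ ρ, 0 < ρ ∧ ∃ δ, 0 < δ ∧ ∀ g : E → E, Differentiable ℝ g → Small δ (g - f) →
      ∀ y ∈ S, ∀ y' ∈ S, y ∈ ball x ρ → y' ∈ ball x ρ →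
        |⟪nrm f x, g y' - g y⟫| ≤ η * ‖g y' - g y‖ ∧ (g y' = g y → y' = y) := by
  set n := nrm f x
  set M := fderiv ℝ f x
  obtain ⟨c, hc, ρ₁, hρ₁, δ₁, hδ₁, h₁⟩ := robust_lower hf.1 hx (v := n)
    (by simpa [n] using hf.nrm_ne hx)
  have hC : 0 < ‖n‖ * (‖M x‖ + 1) + 1 := by positivity
  set η' := η * c / (‖n‖ * (‖M x‖ + 1) + 1) with hη'
  have hη0 : 0 < η' := by positivity
  obtain ⟨ρ₂, hρ₂, δ₂, hδ₂, h₂⟩ := core_estimate hf.1 x hη0
  refine ⟨min ρ₁ (min ρ₂ η'), by positivity, min δ₁ δ₂, by positivity,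
    fun g hg hgf y hy y' hy' hb hb' => ?_⟩
  have a1 := h₁ g hg (hgf.mono (min_le_left _ _)) n (by simpa using hδ₁.le) y hy y' hy'
    (ball_subset_ball (min_le_left _ _) hb) (ball_subset_ball (min_le_left _ _) hb') 0
  simp only [abs_zero, add_zero, zero_smul] at a1
  have a2 := h₂ g hg (hgf.mono (min_le_right _ _)) y hy y' hy'
    (ball_subset_ball ((min_le_right _ _).trans (min_le_left _ _)) hb)
    (ball_subset_ball ((min_le_right _ _).trans (min_le_left _ _)) hb')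
  have a3 := inner_chord hy hy' (ball_subset_ball ((min_le_right _ _).trans (min_le_right _ _)) hb)
    (ball_subset_ball ((min_le_right _ _).trans (min_le_right _ _)) hb')
  refine ⟨?_, fun h0 => ?_⟩
  · set Δ := y' - y
    have hp : ⟪x, Δ - ⟪x, Δ⟫ • x⟫ = 0 := by
      rw [inner_sub_right, real_inner_smul_right, inner_self_S hx]; ring
    have b1 := inner_nrm_fderiv f hp
    have e : ⟪n, g y' - g y⟫ = ⟪n, g y' - g y - M Δ⟫ + ⟪x, Δ⟫ * ⟪n, M x⟫ := by
      rw [map_sub, map_smul, inner_sub_right, real_inner_smul_right] at b1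
      rw [inner_sub_right n (g y' - g y)]; linarith
    have b2 : |⟪n, g y' - g y - M Δ⟫| ≤ ‖n‖ * (η' * ‖Δ‖) :=
      (abs_real_inner_le_norm _ _).trans (mul_le_mul_of_nonneg_left a2 (norm_nonneg _))
    have b3 : |⟪x, Δ⟫ * ⟪n, M x⟫| ≤ η' * ‖Δ‖ * (‖n‖ * ‖M x‖) := by
      rw [abs_mul]
      exact mul_le_mul a3 (abs_real_inner_le_norm _ _) (abs_nonneg _) (by positivity)
    have b4 : η' * (‖n‖ * (‖M x‖ + 1) + 1) = η * c := by rw [hη']; field_simp
    rw [e]
    calc _ ≤ _ := abs_add_le _ _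
      _ ≤ η' * (‖n‖ * (‖M x‖ + 1) + 1) * ‖Δ‖ := by
        nlinarith [mul_nonneg hη0.le (norm_nonneg Δ)]
      _ = η * (c * ‖Δ‖) := by rw [b4]; ring
      _ ≤ _ := mul_le_mul_of_nonneg_left a1 hη.le
  · rw [h0, sub_self, norm_zero] at a1
    have h1 : ‖y' - y‖ ≤ 0 := by
      by_contra h4; rw [not_le] at h4; nlinarith
    exact sub_eq_zero.1 (norm_le_zero_iff.1 h1)

/-- Robust isolation of a transverse triple point. -/
theorem TT.isolated {f : E → E} {x : Fin 3 → E} {q : E} (hf : I4 f) (h : TT f x q) :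
    ∃ ρ, 0 < ρ ∧ ∃ δ, 0 < δ ∧ ∀ g : E → E, ContDiff ℝ ∞ g → Small δ (g - f) →
      (∀ i, g (x i) = q) → I4 g ∧ TT g x q ∧ ∀ y, ‖y - q‖ < ρ → Tri g y → y = q := by
  set n : Fin 3 → E := fun i => nrm f (x i) with hn
  have hdet : det3 (n 0) (n 1) (n 2) ≠ 0 := h.2.2.2
  set C := ‖cross (n 1) (n 2)‖ + ‖cross (n 2) (n 0)‖ + ‖cross (n 0) (n 1)‖ + 1 with hC
  have hC0 : 0 < C := by positivity
  have hD : 0 < |det3 (n 0) (n 1) (n 2)| := abs_pos.2 hdet
  set η := |det3 (n 0) (n 1) (n 2)| / C with hη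
  have hη0 : 0 < η := by positivity
  have h1 := fun i => flat_estimate hf.1 (h.1 i) hη0
  choose ρ hρ δ hδ h1 using h1
  obtain ⟨δ₁, hδ₁, h₁⟩ := hf.close
  obtain ⟨δ₂, hδ₂, h₂⟩ := preimage_near hf.1.1.continuous (C := {q}) isClosed_singleton
    (V := ⋃ i, ball (x i) (ρ i)) (isOpen_iUnion fun _ => isOpen_ball) (by
      intro y hy hyq
      have : y ∈ fib f S q := ⟨hy, hyq⟩
      rw [h.fib_eq hf] at this
      obtain ⟨i, rfl⟩ := this
      exact mem_iUnion.2 ⟨i, mem_ball_self (hρ i)⟩)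
  have c1 : Continuous fun z : E × E × E => det3 z.1 z.2.1 z.2.2 := by fun_prop
  obtain ⟨η₃, hη₃, h₃'⟩ := Metric.eventually_nhds_iff.1
    ((c1.continuousAt (x := (n 0, n 1, n 2))).eventually_ne hdet)
  obtain ⟨δ₃, hδ₃, h₃⟩ := nrm_close hf.1.1 (half_pos hη₃)
  refine ⟨δ₂, hδ₂, min (min δ₁ δ₂) (min δ₃ (min (δ 0) (min (δ 1) (δ 2)))),
    by have := hδ 0; have := hδ 1; have := hδ 2; positivity, fun g hg hgf hgq => ?_⟩
  have s1 := hgf.mono ((min_le_left _ _).trans (min_le_left _ _))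
  have s2 := hgf.mono ((min_le_left _ _).trans (min_le_right _ _))
  have s3 := hgf.mono ((min_le_right _ _).trans (min_le_left _ _))
  have s4 : ∀ i, Small (δ i) (g - f) := by
    intro i
    refine hgf.mono ((min_le_right _ _).trans ((min_le_right _ _).trans ?_))
    fin_cases i
    · exact min_le_left _ _
    · exact (min_le_right _ _).trans (min_le_left _ _)
    · exact (min_le_right _ _).trans (min_le_right _ _)
  refine ⟨(h₁ g hg s1).1, ⟨h.1, h.2.1, hgq, ?_⟩, fun y hy hT => ?_⟩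
  · apply h₃' (y := (nrm g (x 0), nrm g (x 1), nrm g (x 2)))
    have := fun i => h₃ g (smooth_diff hg) s3 (x i) (h.1 i)
    rw [Prod.dist_eq, Prod.dist_eq, max_lt_iff, max_lt_iff]
    simp only [dist_eq_norm]
    exact ⟨by linarith [this 0], by linarith [this 1], by linarith [this 2]⟩
  · obtain ⟨x', hx'S, hx'i, hx'y⟩ := tri_iff.1 hT
    have k1 : ∀ j, ∃ i, x' j ∈ ball (x i) (ρ i) := fun j => mem_iUnion.1
      (h₂ g (fun z hz => (s2 z hz).1) _ (hx'S j) ⟨q, rfl, by rw [hx'y]; exact hy.le⟩)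
    choose ι hι using k1
    have hιinj : Injective ι := by
      intro j j' hjj
      apply hx'i
      refine (h1 (ι j') g (smooth_diff hg) (s4 _) _ (hx'S j') _ (hx'S j) (hι j') (hjj ▸ hι j)).2 ?_
      rw [hx'y, hx'y]
    have hιs := Finite.injective_iff_surjective.1 hιinj
    have k2 : ∀ i, |⟪n i, y - q⟫| ≤ η * ‖y - q‖ := by
      intro i
      obtain ⟨j, rfl⟩ := hιs i
      have := (h1 (ι j) g (smooth_diff hg) (s4 _) _ (h.1 _) _ (hx'S j) (mem_ball_self (hρ _))
        (hι j)).1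
      rwa [hx'y, hgq] at this
    have k3 := congrArg norm (cramer3 (n 0) (n 1) (n 2) (y - q))
    rw [norm_smul, Real.norm_eq_abs] at k3
    have k4 : |det3 (n 0) (n 1) (n 2)| * ‖y - q‖ ≤ η * ‖y - q‖ * (C - 1) := by
      rw [k3]
      refine norm_add₃_le.trans ?_
      simp only [norm_smul, Real.norm_eq_abs]
      have a0 := mul_le_mul_of_nonneg_right (k2 0) (norm_nonneg (cross (n 1) (n 2)))
      have a1 := mul_le_mul_of_nonneg_right (k2 1) (norm_nonneg (cross (n 2) (n 0)))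
      have a2 := mul_le_mul_of_nonneg_right (k2 2) (norm_nonneg (cross (n 0) (n 1)))
      rw [hC]; nlinarith
    have k5 : η * C = |det3 (n 0) (n 1) (n 2)| := by rw [hη]; field_simp
    have k6 : ‖y - q‖ ≤ 0 := by
      by_contra h4; rw [not_le] at h4; nlinarith [mul_pos hη0 h4]
    exact sub_eq_zero.1 (norm_le_zero_iff.1 k6)

theorem isClosed_tri {f : E → E} (hf : Imm f) : IsClosed {y | Tri f y} := by
  rw [← isOpen_compl_iff, Metric.isOpen_iff]
  intro y hy
  obtain ⟨δ, hδ, h⟩ := mult_open hf isClosed_S subset_rfl (C := {y}) isClosed_singleton (k := 2)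
    (by rintro _ rfl; exact not_tri_iff.1 hy)
  refine ⟨δ, hδ, fun y' hy' => not_tri_iff.2 (h f hf.1 (by simpa using small_zero hδ.le) y'
    ⟨y, rfl, ?_⟩)⟩
  rw [← dist_eq_norm]; exact (mem_ball.1 hy').le

theorem finite_tri {f : E → E} (hf : I4 f) (h : ∀ y, Tri f y → ∃ x, TT f x y) :
    {y | Tri f y}.Finite := by
  have hc : IsCompact {y | Tri f y} := by
    refine (isCompact_S.image hf.1.1.continuous).of_isClosed_subset (isClosed_tri hf.1) ?_
    intro y hy
    obtain ⟨x, h1, -, h3⟩ := tri_iff.1 hy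
    exact ⟨x 0, h1 0, h3 0⟩
  have h1 : ∀ y ∈ {y | Tri f y}, ∃ ρ, 0 < ρ ∧ ∀ y', ‖y' - y‖ < ρ → Tri f y' → y' = y := by
    intro y hy
    obtain ⟨x, hx⟩ := h y hy
    obtain ⟨ρ, hρ, δ, hδ, h2⟩ := hx.isolated hf
    exact ⟨ρ, hρ, (h2 f hf.1.1 (by simpa using small_zero hδ.le) hx.2.2.1).2.2⟩
  choose! ρ hρ h1 using h1
  obtain ⟨t, ht1, ht2⟩ := hc.elim_nhds_subcover (fun y => ball y (ρ y))
    fun y hy => ball_mem_nhds y (hρ y hy)
  refine t.finite_toSet.subset fun y hy => ?_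
  obtain ⟨y', hy', hb⟩ := mem_iUnion₂.1 (ht2 hy)
  rw [h1 y' (ht1 y' hy') y (by rwa [← dist_eq_norm]) hy]
  exact hy'

theorem finite_fib {f : E → E} (hf : I4 f) {T : Set E} (hT : T.Finite) :
    {x | x ∈ S ∧ f x ∈ T}.Finite := by
  refine (hT.biUnion fun y _ => finite_of_encard_le_coe (k := 3) (hf.2 y)).subset fun x hx => ?_
  exact mem_iUnion₂.2 ⟨f x, hx.2, hx.1, rfl⟩

/-- Flattening the surface at finitely many points. -/
theorem flatten {ι : Type*} [Finite ι] {f : E → E} (hf : Imm f) {x : ι → E} (hx : ∀ i, x i ∈ S)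
    (hinj : Injective x) {V : Set E} (hV : ∀ i, V ∈ 𝓝 (x i)) {δ : ℝ} (hδ : 0 < δ) :
    ∃ g : E → E, ContDiff ℝ ∞ g ∧ Small δ (g - f) ∧ tsupport (g - f) ⊆ V ∧
      ∀ i, g (x i) = f (x i) ∧ nrm g (x i) = nrm f (x i) ∧
        ∀ᶠ y in 𝓝 (x i), ⟪nrm f (x i), g y - f (x i)⟫ = 0 := by
  classical
  have := Fintype.ofFinite ι
  have hf1 := hf.1
  let h : ι → E → E := fun i y =>
    (-(⟪nrm f (x i), f y - f (x i)⟫ / ⟪nrm f (x i), nrm f (x i)⟫)) • nrm f (x i)
  have hh : ∀ i, ContDiff ℝ ∞ (h i) := fun i =>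
    (((contDiff_const.inner ℝ (hf1.sub contDiff_const)).div_const _).neg).smul contDiff_const
  have hd : ∀ i w, ⟪x i, w⟫ = 0 → fderiv ℝ (h i) (x i) w = 0 := by
    intro i w hw
    have d1 := (innerSL ℝ (nrm f (x i))).hasFDerivAt.comp (x i)
      ((smooth_diff hf1 (x i)).hasFDerivAt.sub_const (f (x i)))
    have d2 := ((d1.mul_const (⟪nrm f (x i), nrm f (x i)⟫)⁻¹).neg).smul_const (nrm f (x i))
    have d3 : fderiv ℝ (h i) (x i) = _ := d2.fderiv
    rw [d3]
    simp [inner_nrm_fderiv f hw]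
  have hV' : ∀ i, V ∩ (x '' {i}ᶜ)ᶜ ∈ 𝓝 (x i) := fun i => inter_mem (hV i)
    (((toFinite _).image x).isClosed.isOpen_compl.mem_nhds (by
      rintro ⟨j, hj, hji⟩; exact hj (hinj hji)))
  have hN : (0 : ℝ) < Fintype.card ι + 1 := by positivity
  have h1 := fun i => small_cutoff (hh i) (hx i) (by simp [h]) (hd i) (hV' i)
    (δ := δ / (Fintype.card ι + 1)) (by positivity)
  choose χ hχ hχ1 hχs _ hχS using h1
  let p : E → E := ∑ i, fun y => χ i y • h i y
  have hp : ContDiff ℝ ∞ p := by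
    have := ContDiff.sum (s := Finset.univ) (f := fun i y => χ i y • h i y)
      fun i _ => (hχ i).smul (hh i)
    convert this using 1
    ext1 y; simp [p]
  have hev : ∀ i, (f + p) =ᶠ[𝓝 (x i)] f + h i := by
    intro i
    have e1 : ∀ᶠ y in 𝓝 (x i), ∀ j, j ≠ i → χ j y = 0 := by
      rw [eventually_all]
      intro j
      by_cases hj : j = i
      · simp [hj]
      · have : x i ∉ tsupport (χ j) := fun hc => (hχs j hc).2 ⟨i, fun h' => hj h'.symm, rfl⟩
        filter_upwards [notMem_tsupport_iff_eventuallyEq.1 this] with y hy _ using hy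
    filter_upwards [e1, hχ1 i] with y a1 a2
    simp only [Pi.add_apply, p, Finset.sum_apply]
    rw [Finset.sum_eq_single i (fun j _ hj => by simp [a1 j hj]) (by simp), a2]
    simp
  refine ⟨f + p, hf1.add hp, ?_, ?_, fun i => ⟨?_, ?_, ?_⟩⟩
  · rw [add_sub_cancel_left]
    refine (Small.sum Finset.univ (fun i _ => hχS i)
      fun i _ => smooth_diff ((hχ i).smul (hh i))).mono ?_
    simp only [Finset.sum_const, Finset.card_univ, nsmul_eq_mul]
    rw [mul_div_assoc', div_le_iff₀ hN]; nlinarith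
  · rw [add_sub_cancel_left]
    intro y hy
    by_contra hyV
    apply notMem_tsupport_iff_eventuallyEq.2 _ hy
    have e1 : ∀ᶠ z in 𝓝 y, ∀ j, χ j z = 0 := by
      rw [eventually_all]
      intro j
      exact notMem_tsupport_iff_eventuallyEq.1 fun hc => hyV (hχs j hc).1
    filter_upwards [e1] with z a1
    simp [p, a1]
  · rw [(hev i).eq_of_nhds]; simp [h]
  · rw [nrm_congr_ev (hev i)]
    refine nrm_congr (hx i) fun w hw => ?_
    rw [fderiv_add (smooth_diff hf1 _) (smooth_diff (hh i) _), add_apply, hd i w hw, add_zero]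
  · filter_upwards [hev i] with y hy
    have hnn : ⟪nrm f (x i), nrm f (x i)⟫ ≠ 0 := by simpa using hf.nrm_ne (hx i)
    rw [hy, Pi.add_apply, add_sub_right_comm, inner_add_right]
    simp only [h, real_inner_smul_right]
    field_simp
    ring

/-- A smooth cut-off that equals `1` near a compact set. -/
theorem exists_cutoff {K U : Set E} (hK : IsCompact K) (hU : IsOpen U) (hKU : K ⊆ U) :
    ∃ χ : E → ℝ, ContDiff ℝ ∞ χ ∧ tsupport χ ⊆ U ∧ HasCompactSupport χ ∧
      (∀ x, χ x ∈ Icc (0 : ℝ) 1) ∧ ∀ x ∈ K, χ =ᶠ[𝓝 x] 1 := by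
  obtain ⟨K', hK', h1, h2⟩ := exists_compact_between hK hU hKU
  obtain ⟨χ, h3, h4, h5⟩ := exists_contMDiffMap_one_nhds_of_subset_interior (n := ⊤)
    (modelWithCornersSelf ℝ E) hK.isClosed h1
  have hs : tsupport χ ⊆ K' := closure_minimal (fun x hx => by
    by_contra h6; exact hx (h4 x h6)) hK'.isClosed
  exact ⟨χ, χ.contMDiff.contDiff, hs.trans h2, hK'.of_isClosed_subset (isClosed_tsupport _) hs, h5,
    fun x hx => h3.filter_mono (nhds_le_nhdsSet hx)⟩

end Pool.Agent.Lib.Quad
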