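import Pool.Agent.Lib.MP_31e762_gt.Alg

/-! The corrugation step. -/

open scoped ContDiff RealInnerProductSpace Topology
open Metric Set Function Filter

namespace Pool.Agent.Lib.Quad.Smale

theorem cross_cross_ne {a b : E} (h : cross a b ≠ 0) : cross (cross a b) b ≠ 0 := by
  intro h0
  have hb : b ≠ 0 := by rintro rfl; simp at h
  have h1 := norm_cross_sq (cross a b) b
  rw [h0, inner_cross_right] at h1
  have h2 : ‖cross a b‖ ^ 2 * ‖b‖ ^ 2 ≠ 0 := by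
    have := norm_ne_zero_iff.2 h
    have := norm_ne_zero_iff.2 hb
    positivity
  apply h2
  simpa using h1.symm

theorem comb_ne {a b : E} (h : cross a b ≠ 0) {p q : ℝ}
    (h0 : cross (p • a + q • cross a b) b = 0) : p = 0 ∧ q = 0 := by
  rw [cross_add_left, cross_smul_left, cross_smul_left] at h0
  have h1 : ⟪cross a b, p • cross a b + q • cross (cross a b) b⟫ = 0 := by rw [h0]; simp
  rw [inner_add_right, real_inner_smul_right, real_inner_smul_right, inner_left_cross] at h1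
  have hp : p = 0 := by simpa [h] using h1
  refine ⟨hp, ?_⟩
  rw [hp, zero_smul, zero_add] at h0
  exact (smul_eq_zero.1 h0).resolve_right (cross_cross_ne h)

variable {Z : Type} [NormedAddCommGroup Z] [NormedSpace ℝ Z]

omit [NormedSpace ℝ Z] in
/-- Choice of the amplitude. -/
theorem exists_amp {d a b : Z → E} {β : Z → ℝ} (hd : Continuous d) (ha : Continuous a)
    (hb : Continuous b) (hβ : Continuous β) (hβ1 : ∀ z, β z ≤ 1) {K : Set Z} (hK : IsCompact K)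
    (hab : ∀ z ∈ K, cross (a z) (b z) ≠ 0) (hβa : ∀ z ∈ K, β z < 1 → a z = d z) :
    ∃ R : ℝ, ∀ z ∈ K, ∀ σ ∈ Icc (-1 : ℝ) 1,
      cross (d z + (R * β z ^ 2 * (1 / 2 - σ ^ 2)) • a z + (R * β z * σ) • cross (a z) (b z))
        (b z) ≠ 0 := by
  have hK1 : IsCompact ((K ∩ {z | β z = 1}) ×ˢ Icc (-1 : ℝ) 1) :=
    (hK.inter_right (isClosed_eq hβ continuous_const)).prod isCompact_Icc
  have key := hK1.eventually_forall_of_forall_eventually (x₀ := (0 : ℝ))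
    (P := fun τ y => cross (τ • d y.1 + ((1 / 2 - y.2 ^ 2) • a y.1 + y.2 • cross (a y.1) (b y.1)))
      (b y.1) ≠ 0) (by
      rintro ⟨z, σ⟩ ⟨⟨hz, -⟩, -⟩
      apply ContinuousAt.eventually_ne
      · fun_prop
      · simp only [zero_smul, zero_add]
        intro h0
        obtain ⟨h1, h2⟩ := comb_ne (hab z hz) h0
        rw [h2] at h1; norm_num at h1)
  obtain ⟨τ, hτ, hτ0⟩ := ((key.filter_mono nhdsWithin_le_nhds).and
    (self_mem_nhdsWithin (s := Ioi (0 : ℝ)))).exists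
  have hτ1 : (0 : ℝ) < τ := hτ0
  refine ⟨τ⁻¹, fun z hz σ hσ => ?_⟩
  rcases (hβ1 z).lt_or_eq with h | h
  · rw [← hβa z hz h]
    intro h0
    have e : a z + (τ⁻¹ * β z ^ 2 * (1 / 2 - σ ^ 2)) • a z =
        (1 + τ⁻¹ * β z ^ 2 * (1 / 2 - σ ^ 2)) • a z := by rw [add_smul, one_smul]
    rw [e] at h0
    obtain ⟨h1, h2⟩ := comb_ne (hab z hz) h0
    have h3 : 0 < τ⁻¹ := inv_pos.2 hτ1
    have h4 : β z * σ = 0 := by
      rw [mul_assoc] at h2
      exact (mul_eq_zero.1 h2).resolve_left h3.ne'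
    have h5 : τ⁻¹ * β z ^ 2 * (1 / 2 - σ ^ 2) = τ⁻¹ * β z ^ 2 / 2 := by
      linear_combination (-τ⁻¹ * β z * σ) * h4
    rw [h5] at h1
    have : 0 ≤ τ⁻¹ * β z ^ 2 / 2 := by positivity
    linarith
  · have h1 := hτ (z, σ) ⟨⟨hz, h⟩, hσ⟩
    intro h0
    apply h1
    have e : τ • d z + ((1 / 2 - σ ^ 2) • a z + σ • cross (a z) (b z)) =
        τ • (d z + (τ⁻¹ * β z ^ 2 * (1 / 2 - σ ^ 2)) • a z +
          (τ⁻¹ * β z * σ) • cross (a z) (b z)) := by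
      rw [h, smul_add, smul_add, smul_smul, smul_smul, add_assoc]
      congr 3 <;> field_simp
    simp only
    rw [e, cross_smul_left, h0, smul_zero]

omit [NormedSpace ℝ Z] in
/-- Choice of the frequency. -/
theorem exists_freq {P : Z → ℝ → E} {b A1 A2 B1 B2 : Z → E} (hP : Continuous (uncurry P))
    (hb : Continuous b) (hA1 : Continuous A1) (hA2 : Continuous A2) (hB1 : Continuous B1)
    (hB2 : Continuous B2) {K : Set Z} (hK : IsCompact K)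
    (h : ∀ z ∈ K, ∀ σ ∈ Icc (-1 : ℝ) 1, cross (P z σ) (b z) ≠ 0) :
    ∃ τ : ℝ, 0 < τ ∧ ∀ z ∈ K, ∀ σ ∈ Icc (-1 : ℝ) 1, ∀ s ∈ Icc (-1 : ℝ) 1, ∀ c ∈ Icc (-1 : ℝ) 1,
      cross (P z σ + τ • (s • A1 z - c • B1 z)) (b z + τ • (s • A2 z - c • B2 z)) ≠ 0 := by
  have hK1 : IsCompact (K ×ˢ Icc (-1 : ℝ) 1 ×ˢ Icc (-1 : ℝ) 1 ×ˢ Icc (-1 : ℝ) 1) :=
    hK.prod (isCompact_Icc.prod (isCompact_Icc.prod isCompact_Icc))
  have key := hK1.eventually_forall_of_forall_eventually (x₀ := (0 : ℝ))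
    (P := fun τ y => cross (P y.1 y.2.1 + τ • (y.2.2.1 • A1 y.1 - y.2.2.2 • B1 y.1))
      (b y.1 + τ • (y.2.2.1 • A2 y.1 - y.2.2.2 • B2 y.1)) ≠ 0) (by
      rintro ⟨z, σ, s, c⟩ ⟨hz, hσ, -⟩
      apply ContinuousAt.eventually_ne
      · have : Continuous fun y : ℝ × Z × ℝ × ℝ × ℝ => P y.2.1 y.2.2.1 :=
          hP.comp (f := fun y : ℝ × Z × ℝ × ℝ × ℝ => (y.2.1, y.2.2.1)) (by fun_prop)
        fun_prop
      · simpa using h z hz σ hσ)
  obtain ⟨τ, hτ, hτ0⟩ := ((key.filter_mono nhdsWithin_le_nhds).and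
    (self_mem_nhdsWithin (s := Ioi (0 : ℝ)))).exists
  exact ⟨τ, hτ0, fun z hz σ hσ s hs c hc => hτ (z, σ, s, c) ⟨hz, hσ, hs, hc⟩⟩

theorem fderiv_wave (φ : Z →L[ℝ] ℝ) {F A B : Z → E} (hF : Differentiable ℝ F)
    (hA : Differentiable ℝ A) (hB : Differentiable ℝ B) {τ : ℝ} (hτ : τ ≠ 0) (z v : Z) :
    fderiv ℝ (fun z => F z + τ • (Real.sin (2 * τ⁻¹ * φ z) • A z - Real.cos (τ⁻¹ * φ z) • B z)) z v
      = fderiv ℝ F z v + φ v • ((2 * Real.cos (2 * τ⁻¹ * φ z)) • A z + Real.sin (τ⁻¹ * φ z) • B z)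
        + τ • (Real.sin (2 * τ⁻¹ * φ z) • fderiv ℝ A z v
          - Real.cos (τ⁻¹ * φ z) • fderiv ℝ B z v) := by
  have h1 := ((φ.hasFDerivAt (x := z)).const_mul (2 * τ⁻¹)).sin
  have h2 := ((φ.hasFDerivAt (x := z)).const_mul τ⁻¹).cos
  have h3 := ((hF z).hasFDerivAt.add (((h1.smul (hA z).hasFDerivAt).sub
    (h2.smul (hB z).hasFDerivAt)).const_smul τ)).fderiv
  have h4 : (fun z => F z + τ • (Real.sin (2 * τ⁻¹ * φ z) • A z - Real.cos (τ⁻¹ * φ z) • B z)) =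
      (F + τ • (((fun z => Real.sin (2 * τ⁻¹ * φ z)) • A) -
        ((fun z => Real.cos (τ⁻¹ * φ z)) • B))) := rfl
  rw [h4, h3]
  simp only [add_apply, smul_apply, sub_apply, ContinuousLinearMap.smulRight_apply, smul_eq_mul]
  have e1 : τ * (Real.cos (2 * τ⁻¹ * φ z) * (2 * τ⁻¹ * φ v)) =
      φ v * (2 * Real.cos (2 * τ⁻¹ * φ z)) := by field_simp
  have e2 : τ * (-Real.sin (τ⁻¹ * φ z) * (τ⁻¹ * φ v)) = -(φ v * Real.sin (τ⁻¹ * φ z)) := by
    field_simp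
  simp only [smul_add, smul_sub, smul_smul, e1, e2, neg_smul]
  abel

/-- The corrugation lemma. -/
theorem corr (e e' : Z) (φ : Z →L[ℝ] ℝ) (he : φ e = 1) (he' : φ e' = 0) {F a b : Z → E}
    (hF : ContDiff ℝ ∞ F) (ha : ContDiff ℝ ∞ a) (hb : ContDiff ℝ ∞ b) {β : Z → ℝ}
    (hβ : ContDiff ℝ ∞ β) (hβ1 : ∀ z, β z ≤ 1) {K : Set Z} (hK : IsCompact K)
    (hab : ∀ z ∈ K, cross (a z) (b z) ≠ 0) (hβa : ∀ z ∈ K, β z < 1 → a z = fderiv ℝ F z e) :
    ∃ F' : Z → E, ContDiff ℝ ∞ F' ∧ (∀ z, β z = 0 → F' z = F z) ∧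
      ∀ z ∈ K, cross (fderiv ℝ F' z e) (b z + fderiv ℝ F' z e' - fderiv ℝ F z e') ≠ 0 := by
  have cd : ∀ {G : Z → E}, ContDiff ℝ ∞ G → ∀ v : Z, Continuous fun z => fderiv ℝ G z v :=
    fun hG v => (hG.continuous_fderiv (by simp)).clm_apply continuous_const
  obtain ⟨R, hR⟩ := exists_amp (cd hF e) ha.continuous hb.continuous hβ.continuous hβ1 hK hab hβa
  set A : Z → E := fun z => (R / 4 * β z ^ 2) • a z with hAd
  set B : Z → E := fun z => (R * β z) • cross (a z) (b z) with hBd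
  have hA : ContDiff ℝ ∞ A := by rw [hAd]; fun_prop
  have hB : ContDiff ℝ ∞ B := by rw [hBd]; fun_prop
  obtain ⟨τ, hτ, h⟩ := exists_freq (P := fun z σ => fderiv ℝ F z e +
      (R * β z ^ 2 * (1 / 2 - σ ^ 2)) • a z + (R * β z * σ) • cross (a z) (b z))
    (by
      have h1 := cd hF e
      have h2 := ha.continuous
      have h3 := hb.continuous
      have h4 := hβ.continuous
      unfold uncurry
      fun_prop) hb.continuous (cd hA e) (cd hA e') (cd hB e) (cd hB e') hK hR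
  refine ⟨fun z => F z + τ • (Real.sin (2 * τ⁻¹ * φ z) • A z - Real.cos (τ⁻¹ * φ z) • B z),
    by fun_prop, fun z hz => by simp [hAd, hBd, hz], fun z hz => ?_⟩
  rw [fderiv_wave φ (hF.differentiable (by simp)) (hA.differentiable (by simp))
    (hB.differentiable (by simp)) hτ.ne', fderiv_wave φ (hF.differentiable (by simp))
    (hA.differentiable (by simp)) (hB.differentiable (by simp)) hτ.ne', he, he']
  have h1 := h z hz (Real.sin (τ⁻¹ * φ z)) ⟨Real.neg_one_le_sin _, Real.sin_le_one _⟩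
    (Real.sin (2 * τ⁻¹ * φ z)) ⟨Real.neg_one_le_sin _, Real.sin_le_one _⟩
    (Real.cos (τ⁻¹ * φ z)) ⟨Real.neg_one_le_cos _, Real.cos_le_one _⟩
  convert h1 using 2
  · have e1 : Real.cos (2 * τ⁻¹ * φ z) = 1 - 2 * Real.sin (τ⁻¹ * φ z) ^ 2 := by
      rw [mul_assoc, Real.cos_two_mul, Real.cos_sq']; ring
    rw [e1, one_smul, hAd, hBd]
    simp only [smul_smul]
    rw [← add_assoc]
    congr 3
    · congr 1; ring
    · ring
  · rw [zero_smul, add_zero]; abel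

/-- Two corrugations make a formal immersion holonomic. -/
theorem corr2 (e e' : Z) (φ φ' : Z →L[ℝ] ℝ) (he : φ e = 1) (he' : φ e' = 0) (h'e : φ' e = 0)
    (h'e' : φ' e' = 1) {F a b : Z → E}
    (hF : ContDiff ℝ ∞ F) (ha : ContDiff ℝ ∞ a) (hb : ContDiff ℝ ∞ b) {β : Z → ℝ}
    (hβ : ContDiff ℝ ∞ β) (hβ1 : ∀ z, β z ≤ 1) {K : Set Z} (hK : IsCompact K)
    (hab : ∀ z ∈ K, cross (a z) (b z) ≠ 0) (hβa : ∀ z ∈ K, β z < 1 → a z = fderiv ℝ F z e)
    (hβb : ∀ z ∈ K, β z < 1 → b z = fderiv ℝ F z e') :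
    ∃ F' : Z → E, ContDiff ℝ ∞ F' ∧ (∀ z, β z = 0 → F' z = F z) ∧
      ∀ z ∈ K, cross (fderiv ℝ F' z e) (fderiv ℝ F' z e') ≠ 0 := by
  have cd : ∀ {G : Z → E}, ContDiff ℝ ∞ G → ∀ v : Z, ContDiff ℝ ∞ fun z => fderiv ℝ G z v :=
    fun hG v => (hG.fderiv_right (m := ∞) (by simp)).clm_apply contDiff_const
  obtain ⟨F1, hF1, h1, h2⟩ := corr e e' φ he he' hF ha hb hβ hβ1 hK hab hβa
  obtain ⟨F2, hF2, h3, h4⟩ := corr e' e φ' h'e' h'e hF1
    (a := fun z => b z + fderiv ℝ F1 z e' - fderiv ℝ F z e') (b := fun z => fderiv ℝ F1 z e)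
    ((hb.add (cd hF1 e')).sub (cd hF e')) (cd hF1 e) hβ hβ1 hK
    (fun z hz => by rw [cross_comm]; exact neg_ne_zero.2 (h2 z hz))
    (fun z hz hz1 => by rw [hβb z hz hz1]; abel)
  refine ⟨F2, hF2, fun z hz => (h3 z hz).trans (h1 z hz), fun z hz => ?_⟩
  have h5 := h4 z hz
  rw [add_sub_cancel_left] at h5
  rw [cross_comm]; exact neg_ne_zero.2 h5

end Pool.Agent.Lib.Quad.Smale
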