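import Pool.Agent.Lib.MP_31e762_gt.SmaleRot

/-! Independent pairs over the plane that agree near infinity are homotopic. -/

open scoped ContDiff RealInnerProductSpace Topology
open Metric Set Function Filter

namespace Pool.Agent.Lib.Quad.Smale

theorem avoid_zero {Z W : Type} [NormedAddCommGroup Z] [NormedSpace ℝ Z] [FiniteDimensional ℝ Z]
    [NormedAddCommGroup W] [NormedSpace ℝ W] [FiniteDimensional ℝ W]
    (h : Module.finrank ℝ Z < Module.finrank ℝ W) {G : Z → W} (hG : Continuous G) :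
    ∃ G' : Z → W, Continuous G' ∧ (∀ z, G' z ≠ 0) ∧ ∀ z, 1 ≤ ‖G z‖ → G' z = G z := by
  obtain ⟨g, hg, hg1, -⟩ := hG.exists_contDiff_approx 1 (ε := fun _ => 1 / 4) continuous_const
    (fun _ => by norm_num)
  obtain ⟨v, hv, hv1⟩ := (hg.dense_compl_range_of_finrank_lt_finrank h).exists_mem_open
    (isOpen_ball (x := (0 : W)) (ε := 1 / 4)) ⟨0, by simp⟩
  have hc := hg.continuous
  refine ⟨fun z => G z + max 0 (min 1 (2 - 2 * ‖G z‖)) • (g z - v - G z), by fun_prop,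
    fun z => ?_, fun z hz => ?_⟩
  · rcases le_or_gt ‖G z‖ (1 / 2) with h1 | h1
    · beta_reduce
      rw [min_eq_left (by linarith), max_eq_right zero_le_one, one_smul, add_sub_cancel, sub_ne_zero]
      exact fun h2 => hv ⟨z, h2⟩
    · intro h2
      have h3 : ‖G z‖ = ‖max 0 (min 1 (2 - 2 * ‖G z‖)) • (g z - v - G z)‖ :=
        (congrArg norm (eq_neg_of_add_eq_zero_left h2)).trans (norm_neg _)
      have h4 : ‖g z - v - G z‖ < 1 / 2 := by
        have e : g z - v - G z = (g z - G z) - v := by abel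
        have h5 := hg1 z
        rw [dist_eq_norm] at h5
        rw [mem_ball_zero_iff] at hv1
        rw [e]
        linarith [norm_sub_le (g z - G z) v]
      have h5 : ‖max 0 (min 1 (2 - 2 * ‖G z‖))‖ ≤ 1 := by
        rw [Real.norm_of_nonneg (le_max_left _ _)]
        exact max_le zero_le_one (min_le_left _ _)
      rw [norm_smul] at h3
      have := mul_le_of_le_one_left (norm_nonneg (g z - v - G z)) h5
      linarith
  · have : max 0 (min 1 (2 - 2 * ‖G z‖)) = 0 :=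
      max_eq_left ((min_le_right _ _).trans (by linarith))
    simp only [this, zero_smul, add_zero]

/-- The plane. -/
abbrev P := ℝ × ℝ

theorem preconn {R : ℝ} (hR : 0 < R) : IsPreconnected {u : P | R ≤ ‖u‖} := by
  have h1 : IsPreconnected (sphere (0 : P) R ×ˢ Ici (1 : ℝ)) :=
    (isPreconnected_sphere (by simp; norm_num) _ _).prod isPreconnected_Ici
  convert h1.image (fun y : P × ℝ => y.2 • y.1) (by fun_prop) using 1
  ext u
  constructor
  · intro hu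
    have hu' : R ≤ ‖u‖ := hu
    have h0 : 0 < ‖u‖ := hR.trans_le hu'
    refine ⟨((R / ‖u‖) • u, ‖u‖ / R), ⟨?_, (one_le_div hR).2 hu'⟩, ?_⟩
    · rw [mem_sphere_zero_iff_norm, norm_smul, Real.norm_of_nonneg (by positivity)]
      field_simp
    · simp only [smul_smul]
      have : ‖u‖ / R * (R / ‖u‖) = 1 := by field_simp
      rw [this, one_smul]
  · rintro ⟨⟨x, t⟩, ⟨hx, ht⟩, rfl⟩
    have ht' : 1 ≤ t := ht
    rw [mem_sphere_zero_iff_norm] at hx
    simp only [mem_ofPred_eq, norm_smul, hx]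
    rw [Real.norm_of_nonneg (by linarith)]
    nlinarith

theorem continuous_gs {a b : P → E} (ha : Continuous a) (hb : Continuous b)
    (h : ∀ u, cross (a u) (b u) ≠ 0) : Continuous fun u => gs (a u) (b u) := by
  unfold gs
  have h1 : ∀ u, ‖a u‖ ≠ 0 := fun u => norm_ne_zero_iff.2 fun h0 => h u (by simp [h0])
  have h2 : ∀ u, ‖cross (cross (a u) (b u)) (a u)‖ ≠ 0 := fun u => norm_ne_zero_iff.2 (cca_ne (h u))
  fun_prop (disch := assumption)

theorem exists_lifts {a0 b0 a1 b1 : P → E} (ha0 : Continuous a0) (hb0 : Continuous b0)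
    (ha1 : Continuous a1) (hb1 : Continuous b1) (h0 : ∀ u, cross (a0 u) (b0 u) ≠ 0)
    (h1 : ∀ u, cross (a1 u) (b1 u) ≠ 0) {R : ℝ} (hR : 0 < R)
    (he : ∀ u, R ≤ ‖u‖ → a0 u = a1 u ∧ b0 u = b1 u) :
    ∃ q0 q1 : P → Qu, Continuous q0 ∧ Continuous q1 ∧ (∀ u, ‖q0 u‖ = 1) ∧ (∀ u, ‖q1 u‖ = 1) ∧
      (∀ u, Tri (rot (star (q0 u)) (a0 u)) (rot (star (q0 u)) (b0 u))) ∧
      (∀ u, Tri (rot (star (q1 u)) (a1 u)) (rot (star (q1 u)) (b1 u))) ∧
      ∀ u, R ≤ ‖u‖ → q0 u = q1 u := by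
  let Γ0 : C(P, Fr) := ⟨fun u => ⟨gs (a0 u) (b0 u), gs_mem (h0 u)⟩,
    (continuous_gs ha0 hb0 h0).subtype_mk _⟩
  let Γ1 : C(P, Fr) := ⟨fun u => ⟨gs (a1 u) (b1 u), gs_mem (h1 u)⟩,
    (continuous_gs ha1 hb1 h1).subtype_mk _⟩
  have hΓ : ∀ u, R ≤ ‖u‖ → Γ0 u = Γ1 u := fun u hu => Subtype.ext (by
    change gs (a0 u) (b0 u) = gs (a1 u) (b1 u)
    rw [(he u hu).1, (he u hu).2])
  have hu0 : R ≤ ‖((R, 0) : P)‖ := by simp [abs_of_pos hR]
  obtain ⟨x, y, z⟩ := gs_mem (h0 (R, 0))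
  obtain ⟨e, he1, he2, he3⟩ := exists_rot x y z
  have hfe : fr ⟨e, by simpa using he1⟩ = Γ0 (R, 0) := Subtype.ext (Prod.ext he2 he3)
  obtain ⟨Q0, ⟨hQ0, hQ0'⟩, -⟩ := fr_cov.existsUnique_continuousMap_lifts Γ0 (R, 0) _ hfe
  obtain ⟨Q1, ⟨hQ1, hQ1'⟩, -⟩ := fr_cov.existsUnique_continuousMap_lifts Γ1 (R, 0) _
    (hfe.trans (hΓ _ hu0))
  have heq := fr_cov.eqOn_of_comp_eqOn (preconn hR) Q0.continuous.continuousOn
    Q1.continuous.continuousOn (fun u hu => by rw [hQ0', hQ1']; exact hΓ u hu) hu0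
    (hQ0.trans hQ1.symm)
  refine ⟨fun u => Q0 u, fun u => Q1 u, by fun_prop, by fun_prop, fun u => S3n _, fun u => S3n _,
    fun u => ?_, fun u => ?_, fun u hu => congrArg Subtype.val (heq hu)⟩
  · have := Prod.ext_iff.1 (congrArg Subtype.val (congrFun hQ0' u))
    exact tri_of_gs (h0 u) (S3n _) this.1 this.2
  · have := Prod.ext_iff.1 (congrArg Subtype.val (congrFun hQ1' u))
    exact tri_of_gs (h1 u) (S3n _) this.1 this.2

/-- The homotopy of independent pairs. -/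
theorem pi2 {a0 b0 a1 b1 : P → E} (ha0 : Continuous a0) (hb0 : Continuous b0)
    (ha1 : Continuous a1) (hb1 : Continuous b1) (h0 : ∀ u, cross (a0 u) (b0 u) ≠ 0)
    (h1 : ∀ u, cross (a1 u) (b1 u) ≠ 0) {R : ℝ} (hR : 0 < R)
    (he : ∀ u, R ≤ ‖u‖ → a0 u = a1 u ∧ b0 u = b1 u) :
    ∃ A B : ℝ × P → E, Continuous A ∧ Continuous B ∧ (∀ z, cross (A z) (B z) ≠ 0) ∧
      (∀ z : ℝ × P, z.1 ≤ 0 → A z = a0 z.2 ∧ B z = b0 z.2) ∧
      (∀ z : ℝ × P, 1 ≤ z.1 → A z = a1 z.2 ∧ B z = b1 z.2) ∧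
      ∀ z : ℝ × P, R ≤ ‖z.2‖ → A z = a0 z.2 ∧ B z = b0 z.2 := by
  obtain ⟨q0, q1, c0, c1, n0, n1, t0, t1, hq⟩ := exists_lifts ha0 hb0 ha1 hb1 h0 h1 hR he
  set l : ℝ → ℝ := Real.smoothTransition with hl
  have cl : Continuous l := Real.smoothTransition.continuous
  have l0 : ∀ t, t ≤ 0 → l t = 0 := fun t => Real.smoothTransition.zero_of_nonpos
  have l1 : ∀ t, 1 ≤ t → l t = 1 := fun t => Real.smoothTransition.one_of_one_le
  obtain ⟨Q, cQ, hQ, hQ1⟩ := avoid_zero (Z := ℝ × P) (W := Qu)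
    (by simp [Quaternion.finrank_eq_four])
    (G := fun z => (1 - l z.1) • q0 z.2 + l z.1 • q1 z.2) (by fun_prop)
  have rr : ∀ q : Qu, ‖q‖ = 1 → ∀ v, rot q (rot (star q) v) = v := fun q hq v => by
    rw [rot_rot_star, ns_one hq]; simp
  refine ⟨fun z => rot (Q z) ((1 - l z.1) • rot (star (q0 z.2)) (a0 z.2) +
      l z.1 • rot (star (q1 z.2)) (a1 z.2)),
    fun z => rot (Q z) ((1 - l z.1) • rot (star (q0 z.2)) (b0 z.2) +
      l z.1 • rot (star (q1 z.2)) (b1 z.2)), by fun_prop, by fun_prop,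
    fun z => cross_rot_ne (hQ z) ((t0 z.2).conv (t1 z.2) (Real.smoothTransition.nonneg _)
      (Real.smoothTransition.le_one _)), fun z hz => ?_, fun z hz => ?_, fun z hz => ?_⟩
  · have := hQ1 z (by simp [l0 _ hz, n0])
    simp only [this, l0 _ hz, sub_zero, one_smul, zero_smul, add_zero, rr _ (n0 _), and_self]
  · have := hQ1 z (by simp [l1 _ hz, n1])
    simp only [this, l1 _ hz, sub_self, one_smul, zero_smul, zero_add, rr _ (n1 _), and_self]
  · have e : ∀ {V : Type} [AddCommGroup V] [Module ℝ V] (v : V),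
        (1 - l z.1) • v + l z.1 • v = v := fun v => by rw [← add_smul]; simp
    have := hQ1 z (by simp only [← hq _ hz, e, n0, le_refl])
    simp only [this, ← hq _ hz, ← (he _ hz).1, ← (he _ hz).2, e, rr _ (n0 _), and_self]

end Pool.Agent.Lib.Quad.Smale
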