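import Pool.Agent.Lib.MP_31e762_gt.SmalePi2
import Pool.Agent.Lib.MP_31e762_gt.SmaleCorr

/-! Immersions of the plane that agree near infinity are regularly homotopic. -/

open scoped ContDiff RealInnerProductSpace Topology Manifold
open Metric Set Function Filter

namespace Pool.Agent.Lib.Quad.Smale

theorem fderiv_slice {H : ℝ × P → E} (hH : Differentiable ℝ H) (t : ℝ) (u v : P) :
    fderiv ℝ (fun u => H (t, u)) u v = fderiv ℝ H (t, u) (0, v) := by
  have h1 : HasFDerivAt (fun u : P => ((t, u) : ℝ × P)) (ContinuousLinearMap.inr ℝ ℝ P) u :=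
    hasFDerivAt_prodMk_right t u
  rw [((hH (t, u)).hasFDerivAt.comp u h1).fderiv.symm.symm.trans rfl |> fun h =>
    (show fderiv ℝ (fun u => H (t, u)) u = _ from h)]
  rfl

theorem exists_delta {Z : Type} [TopologicalSpace Z] {A B : Z → E} (hA : Continuous A)
    (hB : Continuous B) {K : Set Z} (hK : IsCompact K) (h : ∀ z ∈ K, cross (A z) (B z) ≠ 0) :
    ∃ δ > 0, ∀ z ∈ K, ∀ x y : E, ‖x‖ < δ → ‖y‖ < δ → cross (A z + x) (B z + y) ≠ 0 := by
  have key := hK.eventually_forall_of_forall_eventually (x₀ := (0 : E × E))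
    (P := fun x z => cross (A z + x.1) (B z + x.2) ≠ 0) (by
      intro z hz
      apply ContinuousAt.eventually_ne
      · fun_prop
      · simpa using h z hz)
  obtain ⟨δ, hδ, h1⟩ := Metric.eventually_nhds_iff.1 key
  refine ⟨δ, hδ, fun z hz x y hx hy => h1 (y := (x, y)) ?_ z hz⟩
  rw [dist_zero_right, Prod.norm_def]
  exact max_lt hx hy

/-- Immersions of the plane. -/
def PImm (f : P → E) : Prop := ∀ u, cross (fderiv ℝ f u (1, 0)) (fderiv ℝ f u (0, 1)) ≠ 0

theorem plane {f g : P → E} (hf : ContDiff ℝ ∞ f) (hg : ContDiff ℝ ∞ g) (hfi : PImm f)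
    (hgi : PImm g) {R : ℝ} (hR : 0 < R) (he : ∀ u, R ≤ ‖u‖ → f u = g u) :
    ∃ H : ℝ × P → E, ContDiff ℝ ∞ H ∧ (∀ t ∈ Icc (-1 : ℝ) 2, PImm fun u => H (t, u)) ∧
      (∀ u, H (-1, u) = f u) ∧ (∀ u, H (2, u) = g u) ∧ ∀ t u, R + 2 ≤ ‖u‖ → H (t, u) = f u := by
  set l : ℝ → ℝ := Real.smoothTransition with hl
  have cl : ContDiff ℝ ∞ l := Real.smoothTransition.contDiff
  have l0 : ∀ t, t ≤ 0 → l t = 0 := fun t => Real.smoothTransition.zero_of_nonpos
  have l1 : ∀ t, 1 ≤ t → l t = 1 := fun t => Real.smoothTransition.one_of_one_le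
  set F : ℝ × P → E := fun z => f z.2 + l z.1 • (g z.2 - f z.2) with hFd
  have hF : ContDiff ℝ ∞ F := by rw [hFd]; fun_prop
  have hFD := hF.differentiable (by simp)
  have cd : ∀ {G : P → E}, ContDiff ℝ ∞ G → ∀ v : P, Continuous fun z => fderiv ℝ G z v :=
    fun hG v => (hG.continuous_fderiv (by simp)).clm_apply continuous_const
  have cF : ∀ v : ℝ × P, ContDiff ℝ ∞ fun z => fderiv ℝ F z v :=
    fun v => (hF.fderiv_right (m := ∞) (by simp)).clm_apply contDiff_const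
  have hout : ∀ u : P, R < ‖u‖ → ∀ᶠ y in 𝓝 u, f y = g y := fun u hu =>
    ((isOpen_lt continuous_const continuous_norm).mem_nhds hu |> fun h =>
      eventually_of_mem h fun y hy => he y (le_of_lt hy))
  have hfg : ∀ u : P, R + 1 ≤ ‖u‖ → fderiv ℝ f u = fderiv ℝ g u := fun u hu =>
    EventuallyEq.fderiv_eq (hout u (by linarith))
  obtain ⟨A, B, cA, cB, hAB, h0, h1, h2⟩ := pi2 (cd hf (1, 0)) (cd hf (0, 1)) (cd hg (1, 0))
    (cd hg (0, 1)) hfi hgi (R := R + 1) (by linarith) (fun u hu => by rw [hfg u hu]; simp)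
  have hFout : ∀ (t : ℝ) (u : P), R < ‖u‖ → (fun y => F (t, y)) =ᶠ[𝓝 u] f := fun t u hu =>
    (hout u hu).mono fun y hy => by simp [hFd, hy]
  have hC : ∀ z : ℝ × P, z ∉ Icc (0 : ℝ) 1 ×ˢ closedBall (0 : P) (R + 1) →
      A z = fderiv ℝ F z (0, (1, 0)) ∧ B z = fderiv ℝ F z (0, (0, 1)) := by
    rintro ⟨t, u⟩ hz
    rw [← fderiv_slice hFD, ← fderiv_slice hFD]
    by_cases ht0 : t ≤ 0
    · have : (fun u => F (t, u)) = f := funext fun u => by simp [hFd, l0 t ht0]
      rw [this]; exact h0 _ ht0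
    by_cases ht1 : 1 ≤ t
    · have : (fun u => F (t, u)) = g := funext fun u => by simp [hFd, l1 t ht1]
      rw [this]; exact h1 _ ht1
    have hu : R + 1 ≤ ‖u‖ := by
      by_contra hu
      exact hz ⟨⟨(not_le.1 ht0).le, (not_le.1 ht1).le⟩, by simpa using (not_le.1 hu).le⟩
    rw [(hFout t u (by linarith)).fderiv_eq]
    exact h2 _ hu
  have hK : IsCompact (Icc (-1 : ℝ) 2 ×ˢ closedBall (0 : P) (R + 2)) :=
    isCompact_Icc.prod (isCompact_closedBall _ _)
  obtain ⟨δ, hδ, hδ1⟩ := exists_delta cA cB hK fun z _ => hAB z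
  obtain ⟨a, ha, ha1, ha2⟩ := (cA.sub (cF (0, (1, 0))).continuous).exists_contDiff_approx ⊤
    (ε := fun _ => δ) continuous_const fun _ => hδ
  obtain ⟨b, hb, hb1, hb2⟩ := (cB.sub (cF (0, (0, 1))).continuous).exists_contDiff_approx ⊤
    (ε := fun _ => δ) continuous_const fun _ => hδ
  obtain ⟨β, hβ0, hβ1, hβ⟩ := exists_contMDiffMap_zero_one_of_isClosed (n := ⊤) 𝓘(ℝ, ℝ × P)
    (s := {z : ℝ × P | z.1 ≤ -1 ∨ 2 ≤ z.1 ∨ R + 2 ≤ ‖z.2‖})
    (t := Icc (0 : ℝ) 1 ×ˢ closedBall (0 : P) (R + 1))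
    ((isClosed_le continuous_fst continuous_const).union
      ((isClosed_le continuous_const continuous_fst).union
        (isClosed_le continuous_const continuous_snd.norm)))
    (isClosed_Icc.prod isClosed_closedBall) (by
      rw [disjoint_left]
      rintro ⟨t, u⟩ h ⟨⟨h3, h4⟩, h5⟩
      simp only [mem_closedBall_zero_iff] at h3 h4 h5
      rcases h with h | h | h <;> simp only at h <;> linarith)
  have hβC : ∀ z, β z < 1 → z ∉ Icc (0 : ℝ) 1 ×ˢ closedBall (0 : P) (R + 1) :=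
    fun z hz h => hz.ne (hβ1 h)
  obtain ⟨H, hH, hH0, hH1⟩ := corr2 (Z := ℝ × P) (0, (1, 0)) (0, (0, 1))
    ((ContinuousLinearMap.fst ℝ ℝ ℝ).comp (ContinuousLinearMap.snd ℝ ℝ P))
    ((ContinuousLinearMap.snd ℝ ℝ ℝ).comp (ContinuousLinearMap.snd ℝ ℝ P)) rfl rfl rfl rfl hF
    (a := fun z => fderiv ℝ F z (0, (1, 0)) + a z) (b := fun z => fderiv ℝ F z (0, (0, 1)) + b z)
    ((cF _).add ha) ((cF _).add hb) β.contMDiff.contDiff (fun z => (hβ z).2) hK
    (fun z hz => by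
      have h3 := hδ1 z hz _ _ (by simpa only [dist_eq_norm] using ha1 z)
        (by simpa only [dist_eq_norm] using hb1 z)
      convert h3 using 2 <;> simp only [Pi.sub_apply] <;> abel)
    (fun z _ hz => by
      have : a z = 0 := by
        by_contra h
        exact ha2 h (by simp [(hC z (hβC z hz)).1])
      simp [this])
    (fun z _ hz => by
      have : b z = 0 := by
        by_contra h
        exact hb2 h (by simp [(hC z (hβC z hz)).2])
      simp [this])
  have hHD := hH.differentiable (by simp)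
  have hend : ∀ t u, R + 2 ≤ ‖u‖ → H (t, u) = f u := fun t u hu => by
    rw [hH0 _ (hβ0 (Or.inr (Or.inr hu)))]
    simp [hFd, he u (by linarith)]
  refine ⟨H, hH, fun t ht u => ?_, fun u => ?_, fun u => ?_, hend⟩
  · rcases le_or_gt ‖u‖ (R + 2) with hu | hu
    · rw [fderiv_slice hHD, fderiv_slice hHD]
      exact hH1 _ ⟨ht, by simpa using hu⟩
    · have : (fun y => H (t, y)) =ᶠ[𝓝 u] f :=
        eventually_of_mem ((isOpen_lt continuous_const continuous_norm).mem_nhds hu)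
          fun y hy => hend t y (le_of_lt hy)
      rw [this.fderiv_eq]
      exact hfi u
  · rw [hH0 _ (hβ0 (Or.inl le_rfl))]
    simp [hFd, l0 (-1) (by norm_num)]
  · rw [hH0 _ (hβ0 (Or.inr (Or.inl le_rfl)))]
    simp [hFd, l1 2 (by norm_num)]

end Pool.Agent.Lib.Quad.Smale
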