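import Pool.Agent.Lib.MP_31e762_gt.Alg

/-! Rotations by quaternions and the double covering of the space of orthonormal pairs. -/

open scoped ContDiff RealInnerProductSpace Topology
open Metric Set Function Filter

namespace Pool.Agent.Lib.Quad.Smale

/-- Quaternions. -/
abbrev Qu := Quaternion ℝ

@[simp] theorem qre_one : (1 : Qu).re = 1 := rfl
@[simp] theorem qimI_one : (1 : Qu).imI = 0 := rfl
@[simp] theorem qimJ_one : (1 : Qu).imJ = 0 := rfl
@[simp] theorem qimK_one : (1 : Qu).imK = 0 := rfl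

/-- The action of a quaternion on three-space by conjugation. -/
noncomputable def rot (q : Qu) (v : E) : E :=
  !₂[(q.re ^ 2 + q.imI ^ 2 - q.imJ ^ 2 - q.imK ^ 2) * v 0 + 2 * (q.imI * q.imJ - q.re * q.imK) * v 1
      + 2 * (q.imI * q.imK + q.re * q.imJ) * v 2,
    2 * (q.imI * q.imJ + q.re * q.imK) * v 0 + (q.re ^ 2 - q.imI ^ 2 + q.imJ ^ 2 - q.imK ^ 2) * v 1
      + 2 * (q.imJ * q.imK - q.re * q.imI) * v 2,
    2 * (q.imI * q.imK - q.re * q.imJ) * v 0 + 2 * (q.imJ * q.imK + q.re * q.imI) * v 1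
      + (q.re ^ 2 - q.imI ^ 2 - q.imJ ^ 2 + q.imK ^ 2) * v 2]

@[simp] theorem rot0 (q : Qu) (v : E) : rot q v 0 =
    (q.re ^ 2 + q.imI ^ 2 - q.imJ ^ 2 - q.imK ^ 2) * v 0 + 2 * (q.imI * q.imJ - q.re * q.imK) * v 1
      + 2 * (q.imI * q.imK + q.re * q.imJ) * v 2 := by simp [rot]
@[simp] theorem rot1 (q : Qu) (v : E) : rot q v 1 =
    2 * (q.imI * q.imJ + q.re * q.imK) * v 0 + (q.re ^ 2 - q.imI ^ 2 + q.imJ ^ 2 - q.imK ^ 2) * v 1
      + 2 * (q.imJ * q.imK - q.re * q.imI) * v 2 := by simp [rot]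
@[simp] theorem rot2 (q : Qu) (v : E) : rot q v 2 =
    2 * (q.imI * q.imK - q.re * q.imJ) * v 0 + 2 * (q.imJ * q.imK + q.re * q.imI) * v 1
      + (q.re ^ 2 - q.imI ^ 2 - q.imJ ^ 2 + q.imK ^ 2) * v 2 := by simp [rot]

/-- Squared norm. -/
def ns (g : Qu) : ℝ := g.re ^ 2 + g.imI ^ 2 + g.imJ ^ 2 + g.imK ^ 2

theorem ns_eq (g : Qu) : ns g = ‖g‖ ^ 2 := by
  rw [sq, ← Quaternion.normSq_eq_norm_mul_self, Quaternion.normSq_def']; rfl

theorem ns_ne {g : Qu} (h : g ≠ 0) : ns g ≠ 0 := by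
  rw [ns_eq]; exact pow_ne_zero 2 (norm_ne_zero_iff.2 h)

theorem ns_one {g : Qu} (h : ‖g‖ = 1) : ns g = 1 := by rw [ns_eq, h]; norm_num

theorem rot_mul (p q : Qu) (v : E) : rot (p * q) v = rot p (rot q v) := by
  apply ext3 <;> simp <;> ring

theorem rot_one (v : E) : rot 1 v = v := by apply ext3 <;> simp

theorem rot_neg (q : Qu) (v : E) : rot (-q) v = rot q v := by apply ext3 <;> simp

theorem rot_smul_left (t : ℝ) (q : Qu) (v : E) : rot (t • q) v = t ^ 2 • rot q v := by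
  apply ext3 <;> simp <;> ring

theorem rot_add (q : Qu) (v w : E) : rot q (v + w) = rot q v + rot q w := by
  apply ext3 <;> simp <;> ring

theorem rot_smul (q : Qu) (t : ℝ) (v : E) : rot q (t • v) = t • rot q v := by
  apply ext3 <;> simp <;> ring

theorem rot_star_rot (q : Qu) (v : E) : rot (star q) (rot q v) = ns q ^ 2 • v := by
  apply ext3 <;> simp [ns] <;> ring

theorem rot_rot_star (q : Qu) (v : E) : rot q (rot (star q) v) = ns q ^ 2 • v := by
  apply ext3 <;> simp [ns] <;> ring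

theorem inner_rot (q : Qu) (a b : E) : ⟪rot q a, rot q b⟫ = ns q ^ 2 * ⟪a, b⟫ := by
  simp [inner3, ns]; ring

theorem cross_rot (q : Qu) (a b : E) : cross (rot q a) (rot q b) = ns q • rot q (cross a b) := by
  apply ext3 <;> simp [ns] <;> ring

theorem rot_eq_zero {q : Qu} (h : q ≠ 0) {v : E} (hv : rot q v = 0) : v = 0 := by
  have h1 := rot_star_rot q v
  have h2 : rot (star q) 0 = 0 := by apply ext3 <;> simp
  rw [hv, h2] at h1
  exact (smul_eq_zero.1 h1.symm).resolve_left (pow_ne_zero 2 (ns_ne h))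

theorem cross_rot_ne {q : Qu} (h : q ≠ 0) {a b : E} (hab : cross a b ≠ 0) :
    cross (rot q a) (rot q b) ≠ 0 := by
  rw [cross_rot]
  exact smul_ne_zero (ns_ne h) fun h0 => hab (rot_eq_zero h h0)

theorem norm_rot {q : Qu} (h : ‖q‖ = 1) (v : E) : ‖rot q v‖ = ‖v‖ := by
  have h1 := inner_rot q v v
  rw [ns_one h, real_inner_self_eq_norm_sq, real_inner_self_eq_norm_sq] at h1
  exact (pow_left_inj₀ (norm_nonneg _) (norm_nonneg _) two_ne_zero).1 (by simpa using h1)

@[fun_prop] theorem continuous_rot {P : Type*} [TopologicalSpace P] {q : P → Qu} {v : P → E}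
    (hq : Continuous q) (hv : Continuous v) : Continuous fun p => rot (q p) (v p) := by
  have h0 := Quaternion.continuous_re.comp hq
  have h1 := Quaternion.continuous_imI.comp hq
  have h2 := Quaternion.continuous_imJ.comp hq
  have h3 := Quaternion.continuous_imK.comp hq
  simp only [comp_def] at h0 h1 h2 h3
  have : ∀ p, rot (q p) (v p) = rot (q p) (v p) 0 • ε 0 + rot (q p) (v p) 1 • ε 1 +
    rot (q p) (v p) 2 • ε 2 := fun p => decomp _
  rw [funext this]
  simp only [rot0, rot1, rot2]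
  fun_prop

theorem exists_unit {g : Qu} (h : ns g ≠ 0) :
    ∃ u : Qu, ‖u‖ = 1 ∧ ∀ v w, rot g v = ns g • w → rot u v = w := by
  have h0 : ‖g‖ ≠ 0 := fun h0 => h (by rw [ns_eq, h0]; norm_num)
  refine ⟨‖g‖⁻¹ • g, by simp [norm_smul, h0], fun v w hw => ?_⟩
  rw [rot_smul_left, hw, ns_eq, smul_smul]
  have : ‖g‖⁻¹ ^ 2 * ‖g‖ ^ 2 = 1 := by field_simp
  rw [this, one_smul]

theorem exists_rot0 {x : E} (hx : ‖x‖ = 1) : ∃ u : Qu, ‖u‖ = 1 ∧ rot u (ε 0) = x := by
  have h := S_sq (mem_S.2 hx)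
  by_cases h1 : x 0 = -1
  · have h2 : x 1 = 0 := by rw [h1] at h; nlinarith [sq_nonneg (x 1), sq_nonneg (x 2)]
    have h3 : x 2 = 0 := by rw [h1] at h; nlinarith [sq_nonneg (x 1), sq_nonneg (x 2)]
    obtain ⟨u, hu, hu1⟩ := exists_unit (g := ⟨0, 0, 1, 0⟩) (by simp [ns])
    exact ⟨u, hu, hu1 _ _ (by apply ext3 <;> simp [ns, h1, h2, h3])⟩
  · obtain ⟨u, hu, hu1⟩ := exists_unit (g := ⟨1 + x 0, 0, -x 2, x 1⟩) (by
      have : 1 + x 0 ≠ 0 := fun h0 => h1 (by linarith)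
      simp only [ns]; positivity)
    refine ⟨u, hu, hu1 _ _ ?_⟩
    apply ext3 <;> simp [ns]
    · linear_combination (-1 - x 0) * h
    · linear_combination (-x 1) * h
    · linear_combination (-x 2) * h

theorem exists_rot1 {y : E} (hy : ‖y‖ = 1) (h0 : y 0 = 0) :
    ∃ u : Qu, ‖u‖ = 1 ∧ rot u (ε 0) = ε 0 ∧ rot u (ε 1) = y := by
  have h := S_sq (mem_S.2 hy)
  rw [h0] at h
  by_cases h1 : y 1 = -1
  · have h3 : y 2 = 0 := by rw [h1] at h; nlinarith [sq_nonneg (y 2)]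
    obtain ⟨u, hu, hu1⟩ := exists_unit (g := ⟨0, 1, 0, 0⟩) (by simp [ns])
    exact ⟨u, hu, hu1 _ _ (by apply ext3 <;> simp [ns]),
      hu1 _ _ (by apply ext3 <;> simp [ns, h1, h0, h3])⟩
  · obtain ⟨u, hu, hu1⟩ := exists_unit (g := ⟨1 + y 1, y 2, 0, 0⟩) (by
      have : 1 + y 1 ≠ 0 := fun h0 => h1 (by linarith)
      simp only [ns]; positivity)
    refine ⟨u, hu, hu1 _ _ (by apply ext3 <;> simp [ns]), hu1 _ _ ?_⟩
    apply ext3 <;> simp [ns, h0]
    · linear_combination (-1 - y 1) * h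
    · linear_combination (-y 2) * h

theorem exists_rot {x y : E} (hx : ‖x‖ = 1) (hy : ‖y‖ = 1) (hxy : ⟪x, y⟫ = 0) :
    ∃ u : Qu, ‖u‖ = 1 ∧ rot u (ε 0) = x ∧ rot u (ε 1) = y := by
  obtain ⟨g, hg, hg0⟩ := exists_rot0 hx
  have hs : ‖star g‖ = 1 := by rw [Quaternion.norm_star, hg]
  obtain ⟨k, hk, hk0, hk1⟩ := exists_rot1 (y := rot (star g) y) (by rw [norm_rot hs, hy]) (by
    have h1 := inner_rot (star g) x y
    rw [hxy, mul_zero, ← hg0, rot_star_rot, ns_one hg] at h1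
    simpa [inner3] using h1)
  refine ⟨g * k, by rw [norm_mul, hg, hk, one_mul], by rw [rot_mul, hk0, hg0], ?_⟩
  rw [rot_mul, hk1, rot_rot_star, ns_one hg]; simp

theorem eq_of_rot {r : Qu} (hr : ‖r‖ = 1) (h0 : rot r (ε 0) = ε 0) (h1 : rot r (ε 1) = ε 1) :
    r = 1 ∨ r = -1 := by
  have a := congrArg (· 0) h0
  have b := congrArg (· 1) h1
  have c := ns_one hr
  simp [ns] at a b c
  have hx : r.imI = 0 := by nlinarith [sq_nonneg r.imI, sq_nonneg r.imK]
  have hy : r.imJ = 0 := by nlinarith [sq_nonneg r.imJ, sq_nonneg r.imK]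
  have hz : r.imK = 0 := by nlinarith [sq_nonneg r.imI, sq_nonneg r.imK]
  rw [hx, hy, hz] at c
  have hw : (r.re - 1) * (r.re + 1) = 0 := by linear_combination c
  rcases mul_eq_zero.1 hw with h | h
  · left; exact Quaternion.ext _ _ (by simp; linarith) hx hy hz
  · right
    exact Quaternion.ext _ _ (by simp; linarith) (by simp [hx]) (by simp [hy]) (by simp [hz])

/-- The unit quaternions. -/
abbrev S3 : Type := sphere (0 : Qu) 1

/-- Orthonormal pairs. -/
abbrev Fr := {p : E × E // ‖p.1‖ = 1 ∧ ‖p.2‖ = 1 ∧ ⟪p.1, p.2⟫ = 0}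

theorem S3n (q : S3) : ‖(q : Qu)‖ = 1 := by simp

/-- The orthonormal pair of a unit quaternion. -/
noncomputable def fr (q : S3) : Fr :=
  ⟨(rot q (ε 0), rot q (ε 1)), by rw [norm_rot (S3n q)]; simp [ε],
    by rw [norm_rot (S3n q)]; simp [ε], by rw [inner_rot]; simp [inner3]⟩

/-- The group of signs. -/
def sg : Subgroup S3 where
  carrier := {1, -1}
  mul_mem' := by
    rintro a b (rfl | rfl) (rfl | rfl)
    · left; exact mul_one _
    · right; exact one_mul _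
    · right; exact mul_one _
    · left; exact Subtype.ext (by change (-1 : Qu) * (-1) = 1; simp)
  one_mem' := by simp
  inv_mem' := by
    rintro a (rfl | rfl)
    · simp
    · right; exact inv_eq_of_mul_eq_one_right (Subtype.ext (by change (-1 : Qu) * (-1) = 1; simp))

theorem fr_cov : IsCoveringMap fr := by
  have hc : Continuous fr := by
    refine Continuous.subtype_mk ?_ _
    fun_prop
  have hs : Surjective fr := by
    rintro ⟨⟨x, y⟩, hx, hy, hxy⟩
    obtain ⟨u, hu, h0, h1⟩ := exists_rot hx hy hxy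
    exact ⟨⟨u, by simpa using hu⟩, Subtype.ext (Prod.ext h0 h1)⟩
  refine ((Topology.IsQuotientMap.of_surjective_continuous hs hc).isQuotientCoveringMap_of_subgroupOp
    sg (Set.Finite.isDiscrete (Set.toFinite ({1, -1} : Set S3))) ?_).isCoveringMap
  intro p q
  have hst : ((p⁻¹ * q : S3) : Qu) = star (p : Qu) * q := by
    have h1 : (p : Qu)⁻¹ = star (p : Qu) := by
      rw [Quaternion.inv_def, Quaternion.normSq_eq_norm_mul_self, (S3n p)]; simp
    rw [← h1]; rfl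
  constructor
  · intro h
    have h1 := congrArg Subtype.val h
    obtain ⟨h2, h3⟩ := Prod.ext_iff.1 h1
    change rot p (ε 0) = rot q (ε 0) at h2
    change rot p (ε 1) = rot q (ε 1) at h3
    rcases eq_of_rot (S3n (p⁻¹ * q))
      (by rw [hst, rot_mul, ← h2, rot_star_rot, ns_one (S3n p)]; simp)
      (by rw [hst, rot_mul, ← h3, rot_star_rot, ns_one (S3n p)]; simp) with h | h
    · left; exact Subtype.ext h
    · right; exact Subtype.ext h
  · rintro (h | h)
    · rw [inv_mul_eq_one] at h; rw [h]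
    · rw [mem_singleton_iff, inv_mul_eq_iff_eq_mul, mul_neg_one] at h
      subst h
      exact Subtype.ext (Prod.ext (rot_neg _ _).symm (rot_neg _ _).symm)

/-- Gram-Schmidt. -/
noncomputable def gs (a b : E) : E × E :=
  (‖a‖⁻¹ • a, ‖cross (cross a b) a‖⁻¹ • cross (cross a b) a)

theorem cca_ne {a b : E} (h : cross a b ≠ 0) : cross (cross a b) a ≠ 0 := by
  intro h0
  have ha : a ≠ 0 := by rintro rfl; simp at h
  have h1 := norm_cross_sq (cross a b) a
  rw [h0, inner_cross_left] at h1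
  have h2 : ‖cross a b‖ ^ 2 * ‖a‖ ^ 2 ≠ 0 := by
    have := norm_ne_zero_iff.2 h
    have := norm_ne_zero_iff.2 ha
    positivity
  apply h2
  simpa using h1.symm

theorem gs_mem {a b : E} (h : cross a b ≠ 0) :
    ‖(gs a b).1‖ = 1 ∧ ‖(gs a b).2‖ = 1 ∧ ⟪(gs a b).1, (gs a b).2⟫ = 0 := by
  have ha : a ≠ 0 := by rintro rfl; simp at h
  have hc := cca_ne h
  refine ⟨by simp [gs, norm_smul, ha], by simp [gs, norm_smul, hc], ?_⟩
  simp only [gs, real_inner_smul_left, real_inner_smul_right, inner_right_cross, mul_zero]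

/-- Pairs in standard triangular position. -/
def Tri (a b : E) : Prop := 0 < a 0 ∧ a 1 = 0 ∧ a 2 = 0 ∧ 0 < b 1 ∧ b 2 = 0

theorem tri_of_gs {a b : E} (h : cross a b ≠ 0) {q : Qu} (hq : ‖q‖ = 1)
    (h0 : rot q (ε 0) = (gs a b).1) (h1 : rot q (ε 1) = (gs a b).2) :
    Tri (rot (star q) a) (rot (star q) b) := by
  have ha : 0 < ‖a‖ := norm_pos_iff.2 (by rintro rfl; simp at h)
  have hc : 0 < ‖cross (cross a b) a‖ := norm_pos_iff.2 (cca_ne h)
  have e0 : rot (star q) a = ‖a‖ • ε 0 := by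
    have : a = ‖a‖ • rot q (ε 0) := by rw [h0, gs, smul_smul]; simp [ha.ne']
    conv_lhs => rw [this]
    rw [rot_smul, rot_star_rot, ns_one hq]; simp
  have e1 : rot (star q) (cross (cross a b) a) = ‖cross (cross a b) a‖ • ε 1 := by
    have : cross (cross a b) a = ‖cross (cross a b) a‖ • rot q (ε 1) := by
      rw [h1, gs, smul_smul]; simp [hc.ne']
    conv_lhs => rw [this]
    rw [rot_smul, rot_star_rot, ns_one hq]; simp
  have e2 : ‖a‖ ^ 2 • b = cross (cross a b) a + ⟪b, a⟫ • a := by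
    rw [cross_cross_left, real_inner_self_eq_norm_sq]; simp
  have e3 : ‖a‖ ^ 2 • rot (star q) b = ‖cross (cross a b) a‖ • ε 1 + (⟪b, a⟫ * ‖a‖) • ε 0 := by
    rw [← rot_smul, e2, rot_add, rot_smul, e0, e1, smul_smul]
  generalize rot (star q) b = c at e3
  have f1 := congrArg (· 1) e3
  have f2 := congrArg (· 2) e3
  simp [ha.ne'] at f1 f2
  rw [e0]
  refine ⟨by simpa using ha, by simp, by simp, ?_, f2⟩
  have : 0 < ‖a‖ ^ 2 := by positivity
  exact (mul_pos_iff_of_pos_left this).1 (f1 ▸ hc)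

theorem exists_tri {a b : E} (h : cross a b ≠ 0) :
    ∃ q : Qu, ‖q‖ = 1 ∧ Tri (rot q a) (rot q b) := by
  obtain ⟨h1, h2, h3⟩ := gs_mem h
  obtain ⟨q, hq, h4, h5⟩ := exists_rot h1 h2 h3
  exact ⟨star q, by rw [Quaternion.norm_star, hq], tri_of_gs h hq h4 h5⟩

theorem Tri.conv {a b a' b' : E} (h : Tri a b) (h' : Tri a' b') {t : ℝ} (h0 : 0 ≤ t) (h1 : t ≤ 1) :
    cross ((1 - t) • a + t • a') ((1 - t) • b + t • b') ≠ 0 := by
  obtain ⟨a0, a1, -, b1, -⟩ := h
  obtain ⟨a0', a1', -, b1', -⟩ := h'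
  intro h2
  have h3 := congrArg (· 2) h2
  simp [a1, a1'] at h3
  have hm : ∀ x y : ℝ, 0 < x → 0 < y → (1 - t) * x + t * y ≠ 0 := fun x y hx hy => by
    rcases h0.lt_or_eq with h | h
    · have : 0 ≤ (1 - t) * x := mul_nonneg (by linarith) hx.le
      have : 0 < t * y := mul_pos h hy
      linarith
    · subst h; simpa using hx.ne'
  rcases h3 with h3 | h3
  · exact hm _ _ a0 a0' h3
  · exact hm _ _ b1 b1' h3

end Pool.Agent.Lib.Quad.Smale
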