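import Pool.Agent.Lib.MP_31e762_gt.SmalePlane

/-! Transfer from the plane to the sphere by stereographic projection. -/

open scoped ContDiff RealInnerProductSpace Topology
open Metric Set Function Filter

namespace Pool.Agent.Lib.Quad.Smale

theorem inj_iff_cross (L : P →L[ℝ] E) :
    cross (L (1, 0)) (L (0, 1)) ≠ 0 ↔ ∀ v, L v = 0 → v = 0 := by
  have hL : ∀ v : P, L v = v.1 • L (1, 0) + v.2 • L (0, 1) := fun v => by
    rw [← map_smul, ← map_smul, ← map_add]; congr 1; ext <;> simp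
  constructor
  · intro h v hv
    rw [hL] at hv
    have h1 : cross (v.1 • L (1, 0) + v.2 • L (0, 1)) (L (0, 1)) = 0 := by rw [hv]; simp
    have h2 : cross (L (1, 0)) (v.1 • L (1, 0) + v.2 • L (0, 1)) = 0 := by rw [hv]; simp
    rw [cross_add_left, cross_smul_left, cross_smul_left, cross_self, smul_zero, add_zero] at h1
    rw [cross_add_right, cross_smul_right, cross_smul_right, cross_self, smul_zero, zero_add] at h2
    exact Prod.ext ((smul_eq_zero.1 h1).resolve_right h) ((smul_eq_zero.1 h2).resolve_right h)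
  · intro h h0
    have hb : L (0, 1) ≠ 0 := fun h1 => by simpa using h _ h1
    obtain ⟨t, ht⟩ := (cross_eq_zero_iff hb).1 h0
    have := h (1, -t) (by rw [hL, ht]; simp)
    simp at this

/-- Inverse stereographic projection. -/
noncomputable def ψ (u : P) : E :=
  ε 2 + (2 * (1 + u.1 ^ 2 + u.2 ^ 2)⁻¹) • (u.1 • ε 0 + u.2 • ε 1 - ε 2)

/-- Stereographic projection. -/
noncomputable def φ (x : E) : P := (x 0 * (1 - x 2)⁻¹, x 1 * (1 - x 2)⁻¹)

theorem D_pos (u : P) : 0 < 1 + u.1 ^ 2 + u.2 ^ 2 := by positivity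

theorem contDiff_ψ : ContDiff ℝ ∞ ψ := by
  unfold ψ
  have h : ∀ u : P, 1 + u.1 ^ 2 + u.2 ^ 2 ≠ 0 := fun u => (D_pos u).ne'
  fun_prop (disch := assumption)

theorem ψ_mem (u : P) : ψ u ∈ S := by
  have := (D_pos u).ne'
  rw [mem_S, ← pow_eq_one_iff_of_nonneg (norm_nonneg _) two_ne_zero, norm_sq3]
  simp [ψ]; field_simp; ring

theorem one_sub_ψ (u : P) : 1 - ψ u 2 = 2 * (1 + u.1 ^ 2 + u.2 ^ 2)⁻¹ := by simp [ψ]

theorem φ_ψ (u : P) : φ (ψ u) = u := by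
  have := (D_pos u).ne'
  ext <;> simp [φ, ψ] <;> field_simp

theorem exists_ψ {x : E} (hx : x ∈ S) (h : x ≠ ε 2) : ∃ u, ψ u = x := by
  have h1 := S_sq hx
  have h2 : 1 - x 2 ≠ 0 := by
    intro h2
    have h3 : x 2 = 1 := by linarith
    rw [h3] at h1
    refine h (ext3 ?_ ?_ ?_) <;> simp
    · nlinarith [sq_nonneg (x 0), sq_nonneg (x 1)]
    · nlinarith [sq_nonneg (x 0), sq_nonneg (x 1)]
    · exact h3
  have h3 : 2 * (1 + (x 0 * (1 - x 2)⁻¹) ^ 2 + (x 1 * (1 - x 2)⁻¹) ^ 2)⁻¹ = 1 - x 2 := by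
    have h4 : 1 + (x 0 * (1 - x 2)⁻¹) ^ 2 + (x 1 * (1 - x 2)⁻¹) ^ 2 = 2 * (1 - x 2)⁻¹ := by
      field_simp; linear_combination h1
    rw [h4]; field_simp
  refine ⟨φ x, ?_⟩
  simp only [ψ, φ, h3]
  apply ext3 <;> simp <;> field_simp

theorem fderiv_ψ (u v : P) : fderiv ℝ ψ u v =
    (2 * (1 + u.1 ^ 2 + u.2 ^ 2)⁻¹) • (v.1 • ε 0 + v.2 • ε 1) -
      (4 * (u.1 * v.1 + u.2 * v.2) * (1 + u.1 ^ 2 + u.2 ^ 2)⁻¹ ^ 2) •
        (u.1 • ε 0 + u.2 • ε 1 - ε 2) := by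
  have hD := (D_pos u).ne'
  have h1 : HasFDerivAt (fun u : P => u.1) (ContinuousLinearMap.fst ℝ ℝ ℝ) u := hasFDerivAt_fst
  have h2 : HasFDerivAt (fun u : P => u.2) (ContinuousLinearMap.snd ℝ ℝ ℝ) u := hasFDerivAt_snd
  have h3 := (((h1.pow 2).const_add 1).add (h2.pow 2))
  have h4 := ((hasDerivAt_inv hD).comp_hasFDerivAt u h3).const_mul 2
  have h5 := ((h1.smul_const (ε 0)).add (h2.smul_const (ε 1))).sub_const (ε 2)
  have h6 := ((h4.smul h5).const_add (ε 2)).fderiv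
  have h7 : fderiv ℝ ψ u = _ := h6
  rw [h7]
  apply ext3 <;> simp <;> field_simp <;> ring

theorem inner_ψ (u v : P) : ⟪ψ u, fderiv ℝ ψ u v⟫ = 0 := by
  have hD := (D_pos u).ne'
  rw [fderiv_ψ, inner3]
  simp [ψ]; field_simp; ring

theorem dψ_inj {u v : P} (h : fderiv ℝ ψ u v = 0) : v = 0 := by
  have hD := (D_pos u).ne'
  rw [fderiv_ψ] at h
  have h0 := congrArg (· 0) h
  have h1 := congrArg (· 1) h
  have h2 := congrArg (· 2) h
  simp [hD] at h0 h1 h2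
  rw [h2] at h0 h1
  ext
  · simpa [hD] using h0
  · simpa [hD] using h1

theorem dψ_surj {u : P} {w : E} (h : ⟪ψ u, w⟫ = 0) : ∃ v, fderiv ℝ ψ u v = w := by
  have hD := (D_pos u).ne'
  rw [inner3] at h
  simp [ψ] at h
  field_simp at h
  refine ⟨((1 + u.1 ^ 2 + u.2 ^ 2) / 2 * (w 0 + u.1 * w 2),
    (1 + u.1 ^ 2 + u.2 ^ 2) / 2 * (w 1 + u.2 * w 2)), ?_⟩
  rw [fderiv_ψ]
  apply ext3 <;> simp <;> field_simp
  · linear_combination (-2 * u.1) * h
  · linear_combination (-2 * u.2) * h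
  · linear_combination 2 * h

theorem fderiv_comp_ψ {f : E → E} (hf : ContDiff ℝ ∞ f) (u v : P) :
    fderiv ℝ (fun u => f (ψ u)) u v = fderiv ℝ f (ψ u) (fderiv ℝ ψ u v) := by
  have := fderiv_comp u (hf.differentiable (by simp) (ψ u)) (contDiff_ψ.differentiable (by simp) u)
  exact congrArg (· v) this

theorem pimm_of_imm {f : E → E} (hf : Imm f) : PImm fun u => f (ψ u) := fun u =>
  (inj_iff_cross _).2 fun v hv => by
    rw [fderiv_comp_ψ hf.1] at hv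
    exact dψ_inj (hf.2 _ (ψ_mem u) _ (inner_ψ u v) hv)

theorem dist_ψ (u : P) : ‖ψ u - ε 2‖ ^ 2 * (1 + u.1 ^ 2 + u.2 ^ 2) = 4 := by
  have hD := (D_pos u).ne'
  rw [norm_sq3]
  simp [ψ]; field_simp; ring

theorem norm_sq_le (u : P) : ‖u‖ ^ 2 ≤ u.1 ^ 2 + u.2 ^ 2 := by
  rw [Prod.norm_def]
  rcases le_total ‖u.1‖ ‖u.2‖ with h | h
  · rw [max_eq_right h, Real.norm_eq_abs, sq_abs]; nlinarith [sq_nonneg u.1]
  · rw [max_eq_left h, Real.norm_eq_abs, sq_abs]; nlinarith [sq_nonneg u.2]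

theorem le_norm_sq (u : P) : u.1 ^ 2 + u.2 ^ 2 ≤ 2 * ‖u‖ ^ 2 := by
  have h1 : u.1 ^ 2 ≤ ‖u‖ ^ 2 := by
    rw [← sq_abs]; exact pow_le_pow_left₀ (abs_nonneg _) (norm_fst_le u) 2
  have h2 : u.2 ^ 2 ≤ ‖u‖ ^ 2 := by
    rw [← sq_abs]; exact pow_le_pow_left₀ (abs_nonneg _) (norm_snd_le u) 2
  linarith

theorem exists_far {f g : E → E} (h : f =ᶠ[𝓝 (ε 2)] g) :
    ∃ R > 0, ∀ u : P, R ≤ ‖u‖ → f (ψ u) = g (ψ u) := by
  obtain ⟨r, hr, h1⟩ := Metric.eventually_nhds_iff.1 h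
  refine ⟨2 / r, by positivity, fun u hu => h1 ?_⟩
  rw [dist_eq_norm]
  by_contra h2
  rw [not_lt] at h2
  have h3 := dist_ψ u
  have h4 := norm_sq_le u
  have h5 : 2 ≤ ‖u‖ * r := (div_le_iff₀ hr).1 hu
  have h6 : r ^ 2 ≤ ‖ψ u - ε 2‖ ^ 2 := pow_le_pow_left₀ hr.le h2 2
  have h7 : 4 ≤ ‖u‖ ^ 2 * r ^ 2 := by nlinarith
  have h8 : r ^ 2 * (1 + ‖u‖ ^ 2) ≤ 4 := by
    rw [← h3]; exact mul_le_mul h6 (by linarith) (by positivity) (by positivity)
  nlinarith [sq_pos_of_pos hr]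

theorem istep_of_eventuallyEq {f g : E → E} (hf : Imm f) (hg : Imm g) (h : f =ᶠ[𝓝 (ε 2)] g) :
    IStep f g := by
  obtain ⟨R, hR, he⟩ := exists_far h
  obtain ⟨H, hH, hHi, hH0, hH1, hH2⟩ := plane (hf.1.comp contDiff_ψ) (hg.1.comp contDiff_ψ)
    (pimm_of_imm hf) (pimm_of_imm hg) hR he
  simp only [comp_apply] at hH0 hH1 hH2
  set η : ℝ := 2 * (1 + 2 * (R + 2) ^ 2)⁻¹ with hη
  have hη0 : 0 < η := by positivity
  set χ : E → ℝ := fun x => Real.smoothTransition (2 * (1 - x 2) / η - 1) with hχ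
  have hχs : ContDiff ℝ ∞ χ := Real.smoothTransition.contDiff.comp (by fun_prop)
  have hχ0 : ∀ x : E, 1 - x 2 < η / 2 → χ x = 0 := fun x hx =>
    Real.smoothTransition.zero_of_nonpos (by
      rw [sub_nonpos, div_le_one hη0]; linarith)
  have hχ1 : ∀ u : P, ‖u‖ ≤ R + 2 → χ (ψ u) = 1 := fun u hu =>
    Real.smoothTransition.one_of_one_le (by
      rw [le_sub_iff_add_le, le_div_iff₀ hη0, one_sub_ψ, hη]
      have h1 := le_norm_sq u
      have h2 : ‖u‖ ^ 2 ≤ (R + 2) ^ 2 := pow_le_pow_left₀ (norm_nonneg _) hu 2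
      have h3 : (1 + 2 * (R + 2) ^ 2)⁻¹ ≤ (1 + u.1 ^ 2 + u.2 ^ 2)⁻¹ :=
        inv_anti₀ (D_pos u) (by linarith)
      linarith)
  have hop : IsOpen {x : E | 1 - x 2 < η / 2} := isOpen_lt (by fun_prop) continuous_const
  set F : ℝ × E → E := fun z => f z.2 + z.1 • (g z.2 - f z.2) with hFd
  have hF : ContDiff ℝ ∞ F := by
    have := hf.1
    have := hg.1
    rw [hFd]; fun_prop
  set W : ℝ × E → E := fun z => χ z.2 • (H (3 * z.1 - 1, φ z.2) - F (z.1, ψ (φ z.2))) with hWd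
  have hW : ContDiff ℝ ∞ W := by
    rw [contDiff_iff_contDiffAt]
    intro z
    rcases lt_or_ge (1 - z.2 2) (η / 2) with h1 | h1
    · refine (contDiffAt_const (c := (0 : E))).congr_of_eventuallyEq ?_
      refine eventually_of_mem ((hop.preimage continuous_snd).mem_nhds h1) fun y hy => ?_
      simp [hWd, hχ0 _ hy]
    · have h2 : 1 - z.2 2 ≠ 0 := by linarith
      have h3 : ContDiffAt ℝ ∞ (fun z : ℝ × E => φ z.2) z := by
        unfold φ
        fun_prop (disch := assumption)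
      have h4 : ContDiffAt ℝ ∞ (fun z : ℝ × E => ψ (φ z.2)) z := contDiff_ψ.contDiffAt.comp z h3
      refine (hχs.comp contDiff_snd).contDiffAt.smul (ContDiffAt.sub ?_ ?_)
      · exact hH.contDiffAt.comp z (ContDiffAt.prodMk (by fun_prop) h3)
      · exact hF.contDiffAt.comp z (contDiffAt_fst.prodMk h4)
  have hG : ContDiff ℝ ∞ fun z => F z + W z := hF.add hW
  refine ⟨fun t x => F (t, x) + W (t, x), hG, fun t ht => ?_, ?_, ?_⟩
  · have hGt : ContDiff ℝ ∞ fun x => F (t, x) + W (t, x) :=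
      hG.comp (contDiff_const.prodMk contDiff_id)
    refine ⟨hGt, fun x hx w hw hw0 => ?_⟩
    by_cases hN : x = ε 2
    · subst hN
      have h1 : (fun x => F (t, x) + W (t, x)) =ᶠ[𝓝 (ε 2)] f := by
        filter_upwards [h, hop.mem_nhds (show 1 - ε 2 2 < η / 2 by simpa using hη0)] with y h1 h2
        simp [hFd, hWd, hχ0 _ h2, h1]
      rw [h1.fderiv_eq] at hw0
      exact hf.2 _ hx w hw hw0
    · obtain ⟨u, rfl⟩ := exists_ψ hx hN
      obtain ⟨v, rfl⟩ := dψ_surj hw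
      rw [← fderiv_comp_ψ hGt] at hw0
      have h1 : (fun u => F (t, ψ u) + W (t, ψ u)) = fun u => H (3 * t - 1, u) := by
        funext y
        simp only [hWd, φ_ψ]
        rcases le_total ‖y‖ (R + 2) with h1 | h1
        · rw [hχ1 y h1]; simp
        · rw [hH2 _ _ h1]
          simp [hFd, he y (by linarith)]
      rw [h1] at hw0
      rw [(inj_iff_cross _).1 (hHi (3 * t - 1) ⟨by linarith [ht.1], by linarith [ht.2]⟩ u) v hw0]
      simp
  · funext x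
    simp [hFd, hWd, hH0]
  · funext x
    have : (3 : ℝ) * 1 - 1 = 2 := by norm_num
    simp only [hFd, hWd, this, hH1]
    simp

end Pool.Agent.Lib.Quad.Smale
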