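import Pool.Agent.Lib.MP_31e762_gt.Defs2

/-! Rotations, local twists of space and ambient maps. -/

namespace Pool.Agent.Lib.Quad

open scoped ContDiff RealInnerProductSpace Topology
open Metric Set Function Filter

theorem rot_den_pos (z : E) : 0 < 1 + ‖z‖ ^ 2 := by positivity

theorem rot_den_ne3 (z : E) : 1 + (z 0 ^ 2 + z 1 ^ 2 + z 2 ^ 2) ≠ 0 := by positivity

theorem rot_apply0 (z y : E) : rot z y 0 = (1 + (z 0 ^ 2 + z 1 ^ 2 + z 2 ^ 2))⁻¹ *
    ((1 - (z 0 ^ 2 + z 1 ^ 2 + z 2 ^ 2)) * y 0 + 2 * (z 0 * y 0 + z 1 * y 1 + z 2 * y 2) * z 0 +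
      2 * (z 1 * y 2 - z 2 * y 1)) := by
  simp [rot, norm_sq3, inner3, mul_add]

theorem rot_apply1 (z y : E) : rot z y 1 = (1 + (z 0 ^ 2 + z 1 ^ 2 + z 2 ^ 2))⁻¹ *
    ((1 - (z 0 ^ 2 + z 1 ^ 2 + z 2 ^ 2)) * y 1 + 2 * (z 0 * y 0 + z 1 * y 1 + z 2 * y 2) * z 1 +
      2 * (z 2 * y 0 - z 0 * y 2)) := by
  simp [rot, norm_sq3, inner3, mul_add]

theorem rot_apply2 (z y : E) : rot z y 2 = (1 + (z 0 ^ 2 + z 1 ^ 2 + z 2 ^ 2))⁻¹ *
    ((1 - (z 0 ^ 2 + z 1 ^ 2 + z 2 ^ 2)) * y 2 + 2 * (z 0 * y 0 + z 1 * y 1 + z 2 * y 2) * z 2 +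
      2 * (z 0 * y 1 - z 1 * y 0)) := by
  simp [rot, norm_sq3, inner3, mul_add]

@[simp] theorem rot_zero (y : E) : rot 0 y = y := by simp [rot]
@[simp] theorem rot_zero_right (z : E) : rot z 0 = 0 := by simp [rot]

theorem inner_rot (z a b : E) : ⟪rot z a, rot z b⟫ = ⟪a, b⟫ := by
  have h := rot_den_ne3 z
  simp only [inner3, rot_apply0, rot_apply1, rot_apply2]
  field_simp
  ring

theorem norm_rot (z a : E) : ‖rot z a‖ = ‖a‖ := by
  have h := inner_rot z a a
  rw [real_inner_self_eq_norm_sq, real_inner_self_eq_norm_sq] at h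
  exact (pow_left_inj₀ (norm_nonneg _) (norm_nonneg _) two_ne_zero).1 h

theorem cross_rot (z a b : E) : cross (rot z a) (rot z b) = rot z (cross a b) := by
  have h := rot_den_ne3 z
  apply ext3 <;>
    simp only [cross0, cross1, cross2, rot_apply0, rot_apply1, rot_apply2] <;>
    field_simp <;> ring

theorem det3_rot (z a b c : E) : det3 (rot z a) (rot z b) (rot z c) = det3 a b c := by
  rw [det3, cross_rot, inner_rot, det3]

theorem rot_smul (z : E) (t : ℝ) (a : E) : rot z (t • a) = t • rot z a := by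
  apply ext3 <;>
    simp only [rot_apply0, rot_apply1, rot_apply2, PiLp.smul_apply, smul_eq_mul] <;> ring

theorem rot_add (z a b : E) : rot z (a + b) = rot z a + rot z b := by
  apply ext3 <;>
    simp only [rot_apply0, rot_apply1, rot_apply2, PiLp.add_apply] <;> ring

theorem rot_sub (z a b : E) : rot z (a - b) = rot z a - rot z b := by
  apply ext3 <;>
    simp only [rot_apply0, rot_apply1, rot_apply2, PiLp.sub_apply] <;> ring

theorem rot_eq_zero {z a : E} (h : rot z a = 0) : a = 0 := by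
  have := norm_rot z a
  rw [h, norm_zero] at this
  exact norm_eq_zero.1 this.symm

theorem rot_injective (z : E) : Injective (rot z) := by
  intro a b h
  have : rot z (a - b) = 0 := by rw [rot_sub, h, sub_self]
  exact sub_eq_zero.1 (rot_eq_zero this)

/-- The rotation as a continuous linear map. -/
noncomputable def rotL (z : E) : E →L[ℝ] E :=
  LinearMap.toContinuousLinearMap
    { toFun := rot z, map_add' := rot_add z, map_smul' := fun t a => rot_smul z t a }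

@[simp] theorem rotL_apply (z y : E) : rotL z y = rot z y := rfl

theorem zvec_den_pos {n m : E} (hn : n ≠ 0) (hm : ∀ μ : ℝ, 0 ≤ μ → m + μ • n ≠ 0) :
    0 < ‖n‖ * ‖m‖ + ⟪n, m⟫ := by
  have hn' : 0 < ‖n‖ := norm_pos_iff.2 hn
  have h1 : -(‖n‖ * ‖m‖) ≤ ⟪n, m⟫ := (abs_le.1 (abs_real_inner_le_norm n m)).1
  by_contra h
  have h2 : ⟪n, m⟫ = -(‖n‖ * ‖m‖) := by linarith [not_lt.1 h]
  apply hm (‖m‖ / ‖n‖) (by positivity)
  have h3 : ‖m + (‖m‖ / ‖n‖) • n‖ ^ 2 = 0 := by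
    rw [norm_add_sq_real, real_inner_smul_right, real_inner_comm, h2, norm_smul, Real.norm_eq_abs,
      abs_of_nonneg (by positivity)]
    field_simp
    ring
  exact norm_eq_zero.1 (pow_eq_zero_iff two_ne_zero |>.1 h3)

theorem rot_zvec {n m : E} (hn : n ≠ 0) (hm : ∀ μ : ℝ, 0 ≤ μ → m + μ • n ≠ 0) :
    rot (zvec n m) n = (‖n‖ / ‖m‖) • m := by
  have hd := zvec_den_pos hn hm
  have hn' : 0 < ‖n‖ := norm_pos_iff.2 hn
  have hm' : 0 < ‖m‖ := norm_pos_iff.2 (by simpa using hm 0 le_rfl)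
  have h1 : ⟪zvec n m, n⟫ = 0 := by rw [zvec, real_inner_smul_left, inner_cross_left, mul_zero]
  have h2 : cross (zvec n m) n = (‖n‖ * ‖m‖ + ⟪n, m⟫)⁻¹ • (‖n‖ ^ 2 • m - ⟪n, m⟫ • n) := by
    rw [zvec, cross_smul_left, cross_cross_left, real_inner_self_eq_norm_sq, real_inner_comm n m]
  have h3 : ‖zvec n m‖ ^ 2 = (‖n‖ * ‖m‖ - ⟪n, m⟫) / (‖n‖ * ‖m‖ + ⟪n, m⟫) := by
    rw [zvec, norm_smul, mul_pow, norm_cross_sq, Real.norm_eq_abs, sq_abs]
    field_simp
    ring
  rw [rot, h1, h2, h3]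
  set p := ⟪n, m⟫
  set a := ‖n‖
  set b := ‖m‖
  have e1 : 1 + (a * b - p) / (a * b + p) = 2 * (a * b) / (a * b + p) := by field_simp; ring
  have e2 : 1 - (a * b - p) / (a * b + p) = 2 * p / (a * b + p) := by field_simp; ring
  rw [e1, e2]
  apply ext3 <;> simp <;> field_simp <;> ring

@[simp] theorem zvec_self (n : E) : zvec n n = 0 := by simp [zvec]

/-- The polynomial whose zeros are the bad rotations on a line through the origin. -/
theorem inner_rot_eq (z a b : E) : ⟪rot z a, b⟫ = (1 + ‖z‖ ^ 2)⁻¹ *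
    ((1 - ‖z‖ ^ 2) * ⟪a, b⟫ + 2 * ⟪z, a⟫ * ⟪z, b⟫ + 2 * ⟪cross z a, b⟫) := by
  simp only [rot, real_inner_smul_left, inner_add_left]

theorem dense_generic_rot {a b : E} (ha : a ≠ 0) (hb : b ≠ 0) :
    Dense {z : E | ⟪rot z a, b⟫ ≠ 0} := by
  set P : E → ℝ := fun z =>
    (1 - ⟪z, z⟫) * ⟪a, b⟫ + 2 * ⟪z, a⟫ * ⟪z, b⟫ + 2 * ⟪cross z a, b⟫ with hP
  have hPz : ∀ z, ⟪rot z a, b⟫ = (1 + ‖z‖ ^ 2)⁻¹ * P z := by
    intro z; rw [inner_rot_eq, hP]; simp only [real_inner_self_eq_norm_sq]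
  -- a witness
  obtain ⟨z₁, hz₁⟩ : ∃ z₁, P z₁ ≠ 0 := by
    by_cases h : ⟪a, b⟫ = 0
    · refine ⟨cross a b, ?_⟩
      have e : P (cross a b) = 2 * (‖a‖ ^ 2 * ‖b‖ ^ 2) := by
        simp only [hP, h, inner_cross_left, cross_cross_left, inner_sub_left, real_inner_smul_left,
          real_inner_self_eq_norm_sq]
        ring
      rw [e]
      have := norm_pos_iff.2 ha
      have := norm_pos_iff.2 hb
      positivity
    · exact ⟨0, by simpa [hP] using h⟩
  intro z₀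
  -- the restriction of `P` to the line through `z₀` and `z₁` is a nonzero polynomial
  set v := z₁ - z₀ with hv
  let c0 : ℝ := P z₀
  let c1 : ℝ := -2 * ⟪z₀, v⟫ * ⟪a, b⟫ + 2 * (⟪z₀, a⟫ * ⟪v, b⟫ + ⟪v, a⟫ * ⟪z₀, b⟫) +
    2 * ⟪cross v a, b⟫
  let c2 : ℝ := -⟪v, v⟫ * ⟪a, b⟫ + 2 * ⟪v, a⟫ * ⟪v, b⟫
  have hline : ∀ t : ℝ, P (z₀ + t • v) = c0 + c1 * t + c2 * t ^ 2 := by
    intro t
    simp only [c0, c1, c2, hP, inner3, cross0, cross1, cross2, PiLp.add_apply, PiLp.smul_apply,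
      smul_eq_mul]
    ring
  let Q : Polynomial ℝ := Polynomial.C c0 + Polynomial.C c1 * Polynomial.X +
    Polynomial.C c2 * Polynomial.X ^ 2
  have hQ : ∀ t, Q.eval t = P (z₀ + t • v) := by intro t; rw [hline]; simp [Q]
  have hQ0 : Q ≠ 0 := by
    intro h
    have := hQ 1
    rw [h, one_smul, hv, add_sub_cancel] at this
    exact hz₁ (by simpa using this.symm)
  have hfin : {t : ℝ | Q.IsRoot t}.Finite := Polynomial.finite_setOfPred_isRoot hQ0
  have hd : Dense {t : ℝ | Q.IsRoot t}ᶜ := hfin.countable.dense_compl ℝ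
  have hc : Continuous fun t : ℝ => z₀ + t • v := by fun_prop
  have h0 : (fun t : ℝ => z₀ + t • v) 0 ∈ closure {z : E | ⟪rot z a, b⟫ ≠ 0} := by
    refine map_mem_closure (f := fun t : ℝ => z₀ + t • v) hc (hd 0) fun t ht => ?_
    simp only [mem_ofPred_eq, hPz]
    refine mul_ne_zero (inv_ne_zero (rot_den_pos _).ne') ?_
    rw [← hQ]
    exact ht
  simpa using h0

@[fun_prop] theorem contDiff_rot {P : Type*} [NormedAddCommGroup P] [NormedSpace ℝ P]
    {z y : P → E} (hz : ContDiff ℝ ∞ z) (hy : ContDiff ℝ ∞ y) :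
    ContDiff ℝ ∞ fun p => rot (z p) (y p) := by
  have h1 : ContDiff ℝ ∞ fun p => ‖z p‖ ^ 2 := hz.norm_sq ℝ
  have h2 : ContDiff ℝ ∞ fun p => (1 + ‖z p‖ ^ 2)⁻¹ :=
    (contDiff_const.add h1).inv fun p => (rot_den_pos _).ne'
  have h3 : ContDiff ℝ ∞ fun p => ⟪z p, y p⟫ := hz.inner ℝ hy
  unfold rot
  exact h2.smul ((((contDiff_const.sub h1).smul hy).add ((contDiff_const.mul h3).smul hz)).add
    ((contDiff_cross hz hy).const_smul (2 : ℝ)))

/-- A rotation in general position with respect to finitely many pairs of vectors. -/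
theorem exists_generic_rot {ι : Type*} [Finite ι] (a b : ι → E) (ha : ∀ i, a i ≠ 0)
    (hb : ∀ i, b i ≠ 0) : ∃ z : E, ∀ i, ⟪rot z (a i), b i⟫ ≠ 0 := by
  have h : Dense (⋂ i, {z : E | ⟪rot z (a i), b i⟫ ≠ 0}) := by
    refine dense_iInter_of_isOpen (fun i => ?_) fun i => dense_generic_rot (ha i) (hb i)
    have hc : Continuous fun z : E => rot z (a i) :=
      (contDiff_rot contDiff_id contDiff_const).continuous
    exact isOpen_ne_fun (hc.inner continuous_const) continuous_const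
  obtain ⟨z, hz⟩ := h.nonempty
  exact ⟨z, fun i => mem_iInter.1 hz i⟩

theorem contDiff_cut : ContDiff ℝ ∞ cut := by
  unfold cut
  exact Real.smoothTransition.contDiff.comp (by fun_prop)

theorem cut_of_le_half {t : ℝ} (h : t ≤ 1 / 2) : cut t = 1 :=
  Real.smoothTransition.one_of_one_le (by linarith)

theorem cut_of_one_le {t : ℝ} (h : 1 ≤ t) : cut t = 0 :=
  Real.smoothTransition.zero_of_nonpos (by linarith)

theorem contDiff_tw {P : Type*} [NormedAddCommGroup P] [NormedSpace ℝ P] {c z y : P → E}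
    {κ : P → ℝ} (hc : ContDiff ℝ ∞ c) (hz : ContDiff ℝ ∞ z) (hκ : ContDiff ℝ ∞ κ)
    (hy : ContDiff ℝ ∞ y) : ContDiff ℝ ∞ fun p => tw (c p) (z p) (κ p) (y p) := by
  have h1 : ContDiff ℝ ∞ fun p => ‖y p - c p‖ ^ 2 := (hy.sub hc).norm_sq ℝ
  have h2 : ContDiff ℝ ∞ fun p => cut (κ p ^ 2 * ‖y p - c p‖ ^ 2) :=
    contDiff_cut.comp ((hκ.pow 2).mul h1)
  unfold tw
  exact hc.add (contDiff_rot (h2.smul hz) (hy.sub hc))

@[simp] theorem tw_center (c z : E) (κ : ℝ) : tw c z κ c = c := by simp [tw]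
@[simp] theorem tw_zero (c : E) (κ : ℝ) : tw c 0 κ = id := by
  funext y; simp [tw]
theorem norm_tw_sub (c z : E) (κ : ℝ) (y : E) : ‖tw c z κ y - c‖ = ‖y - c‖ := by
  rw [tw, add_sub_cancel_left, norm_rot]

theorem tw_of_far {c : E} (z : E) {κ : ℝ} {y : E} (h : 1 ≤ κ * ‖y - c‖) : tw c z κ y = y := by
  have h1 : 1 ≤ κ ^ 2 * ‖y - c‖ ^ 2 := by rw [← mul_pow]; nlinarith
  simp [tw, cut_of_one_le h1]

theorem tw_eventually_far {c : E} (z : E) {κ : ℝ} {y : E} (h : 1 < κ * ‖y - c‖) :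
    tw c z κ =ᶠ[𝓝 y] id := by
  have hc : ContinuousAt (fun y : E => κ * ‖y - c‖) y := by fun_prop
  filter_upwards [continuousAt_const.eventually_lt hc h] with y' hy'
  exact tw_of_far z hy'.le

theorem tw_eventually_center (c z : E) (κ : ℝ) :
    tw c z κ =ᶠ[𝓝 c] fun y => c + rot z (y - c) := by
  have hc : ContinuousAt (fun y : E => κ ^ 2 * ‖y - c‖ ^ 2) c := by fun_prop
  filter_upwards [hc.eventually_lt (continuousAt_const (y := (1 / 2 : ℝ))) (by simp)] with y hy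
  simp [tw, cut_of_le_half hy.le]

theorem tw_amb (c z : E) (κ : ℝ) : Amb (tw c z κ) := by
  have hs : ContDiff ℝ ∞ (tw c z κ) :=
    contDiff_tw contDiff_const contDiff_const contDiff_const contDiff_id
  refine ⟨hs, fun y y' h => ?_, fun y => ?_⟩
  · have h1 : ‖y - c‖ = ‖y' - c‖ := by rw [← norm_tw_sub c z κ y, h, norm_tw_sub]
    simp only [tw, h1, add_right_inj] at h
    exact sub_left_injective (rot_injective _ h)
  · rw [injective_iff_map_eq_zero]
    intro w hw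
    -- the radius is preserved, so `w` is tangent to the sphere about `c`
    have d0 : HasFDerivAt (fun y : E => y - c) (ContinuousLinearMap.id ℝ E) y :=
      (hasFDerivAt_id y).sub_const c
    have d1 := d0.norm_sq
    have d2 := (((smooth_diff hs y).hasFDerivAt).sub_const c).norm_sq
    have e : (fun y : E => ‖tw c z κ y - c‖ ^ 2) = fun y : E => ‖y - c‖ ^ 2 := by
      funext y; rw [norm_tw_sub]
    rw [e] at d2
    have h1 := congrArg (fun L : E →L[ℝ] ℝ => L w) (d1.unique d2)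
    simp only [smul_apply, ContinuousLinearMap.comp_apply, hw, map_zero,
      smul_zero, ContinuousLinearMap.id_apply] at h1
    -- the derivative as a composition
    set s : E → ℝ := fun y => ‖y - c‖ ^ 2 with hsdef
    let G : ℝ × E → E := fun p => c + rot (cut (κ ^ 2 * p.1) • z) p.2
    have hG : ContDiff ℝ ∞ G := by
      have k1 : ContDiff ℝ ∞ fun p : ℝ × E => cut (κ ^ 2 * p.1) :=
        contDiff_cut.comp (contDiff_const.mul contDiff_fst)
      have k2 : ContDiff ℝ ∞ fun p : ℝ × E => cut (κ ^ 2 * p.1) • z :=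
        k1.smul (contDiff_const (c := z))
      exact contDiff_const.add (contDiff_rot k2 contDiff_snd)
    have d3 := d1.prodMk d0
    have d4 := ((smooth_diff hG (s y, y - c)).hasFDerivAt).comp y d3
    have e2 : fderiv ℝ (tw c z κ) y = _ := d4.fderiv
    have d5 : HasFDerivAt (fun u : E => G (s y, u)) (rotL (cut (κ ^ 2 * s y) • z)) (y - c) :=
      (rotL (cut (κ ^ 2 * s y) • z)).hasFDerivAt.const_add c
    have d6 : HasFDerivAt (fun u : E => ((s y, u) : ℝ × E)) (ContinuousLinearMap.inr ℝ ℝ E)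
        (y - c) := hasFDerivAt_prodMk_right (s y) (y - c)
    have d7 := ((smooth_diff hG (s y, y - c)).hasFDerivAt).comp (y - c) d6
    have h2 := congrArg (fun L : E →L[ℝ] E => L w) (d5.unique d7)
    rw [e2] at hw
    simp only [ContinuousLinearMap.comp_apply, ContinuousLinearMap.prod_apply,
      smul_apply, ContinuousLinearMap.id_apply, h1] at hw
    simp only [ContinuousLinearMap.comp_apply, ContinuousLinearMap.inr_apply, rotL_apply] at h2
    rw [hw] at h2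
    exact rot_eq_zero h2

theorem Amb.comp {Θ Θ' : E → E} (h : Amb Θ) (h' : Amb Θ') : Amb (Θ ∘ Θ') := by
  refine ⟨h.1.comp h'.1, h.2.1.comp h'.2.1, fun y => ?_⟩
  rw [fderiv_comp y (smooth_diff h.1 _) (smooth_diff h'.1 _)]
  exact (h.2.2 _).comp (h'.2.2 y)

theorem Amb.imm {Θ f : E → E} (h : Amb Θ) (hf : Imm f) : Imm (Θ ∘ f) := by
  refine ⟨h.1.comp hf.1, fun x hx w hw h0 => hf.2 x hx w hw ?_⟩
  rw [fderiv_comp x (smooth_diff h.1 _) (smooth_diff hf.1 _)] at h0
  exact (injective_iff_map_eq_zero _).1 (h.2.2 _) _ h0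

theorem Amb.fib_eq {Θ : E → E} (h : Amb Θ) (f : E → E) (A : Set E) (y : E) :
    fib (Θ ∘ f) A (Θ y) = fib f A y := by
  ext x
  simp only [fib, mem_ofPred_eq, comp_apply, h.2.1.eq_iff]

theorem fib_comp_of_notMem {Θ : E → E} (f : E → E) (A : Set E) {y : E} (hy : y ∉ range Θ) :
    fib (Θ ∘ f) A y = ∅ := by
  ext x
  simp only [fib, mem_ofPred_eq, comp_apply, mem_empty_iff_false, iff_false, not_and]
  exact fun _ h => hy ⟨_, h⟩

theorem Amb.i4 {Θ f : E → E} (h : Amb Θ) (hf : I4 f) : I4 (Θ ∘ f) := by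
  refine ⟨h.imm hf.1, fun y => ?_⟩
  by_cases hy : y ∈ range Θ
  · obtain ⟨y', rfl⟩ := hy
    rw [h.fib_eq]; exact hf.2 y'
  · rw [fib_comp_of_notMem f S hy]; simp

theorem Amb.tri_iff {Θ : E → E} (h : Amb Θ) (f : E → E) (y : E) :
    Tri (Θ ∘ f) y ↔ ∃ y', Θ y' = y ∧ Tri f y' := by
  constructor
  · intro ht
    by_cases hy : y ∈ range Θ
    · obtain ⟨y', rfl⟩ := hy
      refine ⟨y', rfl, ?_⟩
      rwa [Tri, h.fib_eq] at ht
    · rw [Tri, fib_comp_of_notMem f S hy] at ht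
      simp at ht
  · rintro ⟨y', rfl, ht⟩
    rwa [Tri, h.fib_eq]

theorem cof_rotL (z x : E) : cof (rotL z) x = rot z x := by
  have e0 : cross (ε 1) (ε 2) = ε 0 := by apply ext3 <;> simp
  have e1 : cross (ε 2) (ε 0) = ε 1 := by apply ext3 <;> simp
  have e2 : cross (ε 0) (ε 1) = ε 2 := by apply ext3 <;> simp
  simp only [cof, rotL_apply, cross_rot, e0, e1, e2]
  conv_rhs => rw [decomp x]
  rw [rot_add, rot_add, rot_smul, rot_smul, rot_smul]

theorem nrm_tw_center {f : E → E} (hf : ContDiff ℝ ∞ f) (z : E) (κ : ℝ) (x : E) :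
    nrm (tw (f x) z κ ∘ f) x = rot z (nrm f x) := by
  have d1 : HasFDerivAt (fun y : E => f x + rot z (y - f x)) (rotL z) (f x) := by
    have d0 : HasFDerivAt (fun y : E => y - f x) (ContinuousLinearMap.id ℝ E) (f x) :=
      (hasFDerivAt_id (f x)).sub_const (f x)
    have := ((rotL z).hasFDerivAt.comp (f x) d0).const_add (f x)
    simpa using this
  have d2 : HasFDerivAt (tw (f x) z κ) (rotL z) (f x) :=
    d1.congr_of_eventuallyEq (tw_eventually_center (f x) z κ)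
  have d3 := d2.comp x (smooth_diff hf x).hasFDerivAt
  rw [nrm, d3.fderiv, cof_comp, cof_rotL, nrm]

theorem tw_comp_eventually_far {f : E → E} (hf : Continuous f) {c : E} (z : E) {κ : ℝ} {x : E}
    (h : 1 < κ * ‖f x - c‖) : tw c z κ ∘ f =ᶠ[𝓝 x] f := by
  filter_upwards [hf.continuousAt.eventually (tw_eventually_far z h)] with y hy
  simpa using hy

end Pool.Agent.Lib.Quad
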