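import Pool.Agent.Lib.MP_31e762_gt.Vert
import Pool.Agent.Lib.MP_31e762_gt.Twist
import Pool.Agent.Lib.MP_31e762_gt.Generic

/-! The class of a finger depends only on the triple point and the side. -/

namespace Pool.Agent.Lib.Quad

open scoped ContDiff RealInnerProductSpace Topology
open Metric Set Function Filter

/-- Finitely many differentiable two-parameter families miss a point of any open set. -/
theorem exists_avoid {ι : Type*} [Finite ι] (φ : ι → ℝ × ℝ → E) (s : ι → Set (ℝ × ℝ))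
    (h : ∀ i, ∀ a ∈ s i, DifferentiableAt ℝ (φ i) a) {U : Set E} (hU : IsOpen U)
    (hne : U.Nonempty) : ∃ z ∈ U, ∀ i, ∀ a ∈ s i, φ i a ≠ z := by
  have h0 : ∀ i, MeasureTheory.volume (φ i '' s i) = 0 := by
    intro i
    refine Generic.sard MeasureTheory.volume (by simp) fun a ha =>
      ⟨_, (h i a ha).hasFDerivAt, fun hs => ?_⟩
    have := LinearMap.finrank_le_finrank_of_surjective
      (f := (fderiv ℝ (φ i) a : ℝ × ℝ →ₗ[ℝ] E)) hs
    simp at this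
  have h1 : ∀ᵐ z : E, ∀ i, z ∉ φ i '' s i :=
    MeasureTheory.ae_all_iff.2 fun i => MeasureTheory.measure_eq_zero_iff_ae_notMem.1 (h0 i)
  obtain ⟨z, hz1, hz2⟩ := (MeasureTheory.Measure.dense_of_ae h1).exists_mem_open hU hne
  exact ⟨z, hz2, fun i a ha h2 => hz1 i ⟨a, ha, h2⟩⟩

theorem small_const {c : E} {δ : ℝ} (h : ‖c‖ ≤ δ) : Small δ fun _ => c := by
  intro x _
  refine ⟨h, fun w _ => ?_⟩
  have := (norm_nonneg _).trans h
  simp; positivity

/-- Fingers persist, in the same class, under small changes of the map and of the base point. -/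
theorem thin_finger_rel {f g : E → E} (hf : I4 f) {b q : E} (h : Finger f b q g) {ρ : ℝ}
    (hρ : 0 < ρ) (hiso : ∀ y, ‖y - q‖ < ρ → Tri f y → y = q) :
    ∃ δ, 0 < δ ∧ ∀ f' : E → E, ContDiff ℝ ∞ f' → Small δ (f' - f) →
      (∀ y, ‖y - q‖ < ρ → Tri f' y → y = q) → ∀ b' ∈ S, ‖b' - b‖ ≤ δ →
        ∃ g', Finger f' b' q g' ∧ Rel g' g ∧
          0 < ⟪nrm f b, q - f b⟫ * ⟪nrm f' b', q - f' b'⟫ := by
  have hf1 := hf.1.1
  obtain ⟨χ, hχ, -, δ₁, hδ₁, h₁⟩ := thin_finger hf.1 h.1 h.seg.1 h.seg.2 hρ univ_mem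
  have h0 := (h₁ f hf1 (by simpa using small_zero hδ₁.le) hiso b h.1 (by simpa using hδ₁.le)).1
  obtain ⟨δ₂, hδ₂, h₂⟩ := (h0.i4 hf).close
  obtain ⟨C, hC, h₃⟩ := exists_small_smul hχ
  set η := δ₂ / (2 * C + 1) with hη
  have hη0 : 0 < η := by positivity
  have hη1 : η + C * (η + η) = δ₂ := by rw [hη]; field_simp; ring
  obtain ⟨δ₃, hδ₃, h₄⟩ := Metric.continuousAt_iff.1 (hf1.continuous.continuousAt (x := b)) η hη0
  refine ⟨min (min δ₁ η) (δ₃ / 2), by positivity, fun f' hf' hs hiso' b' hb' hbb => ?_⟩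
  have s1 := hs.mono ((min_le_left _ _).trans (min_le_left _ _))
  have s2 := hs.mono ((min_le_left _ _).trans (min_le_right _ _))
  obtain ⟨k1, k2⟩ := h₁ f' hf' s1 hiso' b' hb'
    (hbb.trans ((min_le_left _ _).trans (min_le_left _ _)))
  refine ⟨_, k1, Rel.trans (Rel.symm (h₂ _ (vm_smooth hf' hχ _) ?_).2) (h0.unique hf h), k2⟩
  have a1 : ‖f b - f' b'‖ ≤ η + η := by
    have b1 : ‖f' b' - f b'‖ ≤ η := (s2 b' hb').1
    have b2 := h₄ (x := b') (by
      rw [dist_eq_norm]; linarith [hbb.trans (min_le_right _ _)])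
    rw [← dist_eq_norm] at b1 ⊢
    linarith [dist_triangle_right (f b) (f' b') (f b'), dist_comm (f b') (f b)]
  have a2 := h₃ _ _ (differentiable_const _) (small_const a1)
  have a3 := s2.add a2 ((smooth_diff hf').sub (smooth_diff hf1))
    (smooth_diff (hχ.smul contDiff_const))
  rw [hη1] at a3
  convert a3 using 1
  ext1 x
  simp only [vm, Pi.sub_apply, Pi.add_apply]
  module

theorem finger_path {P : Type*} [NormedAddCommGroup P] [NormedSpace ℝ P] {G : P → E → E}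
    (hG : ContDiff ℝ ∞ (uncurry G)) {p : ℝ → P} {b : ℝ → E} (hp : ContinuousOn p (Icc 0 1))
    (hb : ContinuousOn b (Icc 0 1)) {q : E} {ρ : ℝ} (hρ : 0 < ρ)
    (h : ∀ s ∈ Icc (0 : ℝ) 1, I4 (G (p s)) ∧ (∃ g, Finger (G (p s)) (b s) q g) ∧
      ∀ y, ‖y - q‖ < ρ → Tri (G (p s)) y → y = q)
    {g₀ g₁ : E → E} (h₀ : Finger (G (p 0)) (b 0) q g₀) (h₁ : Finger (G (p 1)) (b 1) q g₁) :
    Rel g₀ g₁ := by
  have key := (isPreconnected_Icc (a := (0 : ℝ)) (b := 1)).induction₂'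
    (fun s s' => I4 (G (p s)) ∧ I4 (G (p s')) ∧ ∃ g g', Finger (G (p s)) (b s) q g ∧
      Finger (G (p s')) (b s') q g' ∧ Rel g g') ?_ ?_ (left_mem_Icc.2 zero_le_one)
      (right_mem_Icc.2 zero_le_one)
  · obtain ⟨a0, a1, g, g', a2, a3, a4⟩ := key
    exact (h₀.unique a0 a2).trans (a4.trans (a3.unique a1 h₁))
  · intro s hs
    obtain ⟨a1, ⟨g, a2⟩, a3⟩ := h s hs
    obtain ⟨δ, hδ, h2⟩ := thin_finger_rel a1 a2 hρ a3
    have e1 : ∀ᶠ s' in 𝓝[Icc 0 1] s, Small δ (G (p s') - G (p s)) :=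
      (hp s hs).tendsto.eventually (fam_small hG (p s) hδ)
    have e2 : ∀ᶠ s' in 𝓝[Icc 0 1] s, b s' ∈ closedBall (b s) δ :=
      (hb s hs).tendsto.eventually (closedBall_mem_nhds _ hδ)
    filter_upwards [e1, e2, self_mem_nhdsWithin] with s' b1 b2 b3
    obtain ⟨c1, ⟨g2, c2⟩, c3⟩ := h s' b3
    obtain ⟨g', d1, d2, -⟩ := h2 _ (fam_member hG _) b1 c3 (b s') c2.1
      (by rwa [mem_closedBall, dist_eq_norm] at b2)
    exact ⟨⟨a1, c1, g, g', a2, d1, d2.symm⟩, c1, a1, g', g, d1, a2, d2⟩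
  · rintro s1 s2 s3 - - - ⟨a1, a2, g1, g2, a3, a4, a5⟩ ⟨-, b2, g3, g4, b3, b4, b5⟩
    exact ⟨a1, b2, g1, g4, a3, b4, a5.trans ((a4.unique a2 b3).trans b5)⟩

/-- Local translation of space. -/
noncomputable def tr (β : E → ℝ) (w : E) : E → E := fun y => y + β y • w

theorem tr_amb {β : E → ℝ} (hβ : ContDiff ℝ ∞ β) {L : ℝ} (hL : ∀ y, ‖fderiv ℝ β y‖ ≤ L) {w : E}
    (hw : L * ‖w‖ < 1) : Amb (tr β w) := by
  refine ⟨contDiff_id.add (hβ.smul contDiff_const), fun y y' h => ?_, fun y => ?_⟩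
  · have h1 : ‖β y' - β y‖ ≤ L * ‖y' - y‖ :=
      convex_univ.norm_image_sub_le_of_norm_fderiv_le (fun z _ => smooth_diff hβ z)
        (fun z _ => hL z) trivial trivial
    have h2 : y' - y = -((β y' - β y) • w) := by
      simp only [tr] at h
      rw [sub_smul, neg_sub, sub_eq_sub_iff_add_eq_add, ← h, add_comm]
    have h3 : ‖y' - y‖ ≤ L * ‖y' - y‖ * ‖w‖ := by
      conv_lhs => rw [h2, norm_neg, norm_smul]
      exact mul_le_mul_of_nonneg_right h1 (norm_nonneg _)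
    have h4 : ‖y' - y‖ ≤ 0 := by
      by_contra h5; rw [not_le] at h5; nlinarith
    exact (sub_eq_zero.1 (norm_le_zero_iff.1 h4)).symm
  · have hd : fderiv ℝ (tr β w) y = ContinuousLinearMap.id ℝ E + (fderiv ℝ β y).smulRight w :=
      ((hasFDerivAt_id y).add ((smooth_diff hβ y).hasFDerivAt.smul_const w)).fderiv
    rw [hd, injective_iff_map_eq_zero]
    intro u hu
    have h2 : u = -(fderiv ℝ β y u • w) := by
      rw [eq_neg_iff_add_eq_zero]; simpa using hu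
    have h3 : ‖u‖ ≤ L * ‖u‖ * ‖w‖ := by
      conv_lhs => rw [h2, norm_neg, norm_smul]
      exact mul_le_mul_of_nonneg_right (((fderiv ℝ β y).le_opNorm u).trans
        (mul_le_mul_of_nonneg_right (hL y) (norm_nonneg _))) (norm_nonneg _)
    have h4 : ‖u‖ ≤ 0 := by
      by_contra h5; rw [not_le] at h5; nlinarith
    exact norm_le_zero_iff.1 h4

/-- The family of twisted and translated maps. -/
noncomputable def fam (f : E → E) (β : E → ℝ) (p : E × E × ℝ × E) : E → E :=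
  tw p.1 p.2.1 p.2.2.1 ∘ (tr β p.2.2.2 ∘ f)

theorem fam_smooth {f : E → E} {β : E → ℝ} (hf : ContDiff ℝ ∞ f) (hβ : ContDiff ℝ ∞ β) :
    ContDiff ℝ ∞ (uncurry (fam f β)) := by
  change ContDiff ℝ ∞ fun z : (E × E × ℝ × E) × E =>
    tw z.1.1 z.1.2.1 z.1.2.2.1 (f z.2 + β (f z.2) • z.1.2.2.2)
  apply contDiff_tw <;> fun_prop

theorem fam_zero (f : E → E) (β : E → ℝ) (c z : E) (κ : ℝ) :
    fam f β (c, z, κ, 0) = tw c z κ ∘ f := by
  ext1 x; simp [fam, tr]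

/-- Admissible data: base point, new normal direction, twist scale, translation. -/
structure DV (f : E → E) (β : E → ℝ) (q : E) (σ L ρ : ℝ) (b m : E) (κ : ℝ) (w : E) : Prop where
  mem : b ∈ S
  ray : ∀ μ : ℝ, 0 ≤ μ → m + μ • nrm f b ≠ 0
  side : 0 < σ * ⟪m, q - f b⟫
  off : f b ∉ tsupport β
  lip : L * ‖w‖ < 1
  small : ‖w‖ ≤ ρ
  far : 1 < κ * ‖q - f b‖
  far' : ∀ y, Tri f y → y ≠ q → 1 < κ * ‖y + w - f b‖ ∧ y + w ∉ segment ℝ (f b) q

theorem inner_rot_zvec {n m v : E} (hn : n ≠ 0) (hm : ∀ μ : ℝ, 0 ≤ μ → m + μ • n ≠ 0) {σ : ℝ}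
    (h : 0 < σ * ⟪m, v⟫) : 0 < σ * ⟪rot (zvec n m) n, v⟫ := by
  have hm0 : m ≠ 0 := by simpa using hm 0 le_rfl
  have h1 : 0 < ‖n‖ / ‖m‖ := div_pos (norm_pos_iff.2 hn) (norm_pos_iff.2 hm0)
  rw [rot_zvec hn hm, real_inner_smul_left, mul_left_comm]
  exact mul_pos h1 h

section
variable {f : E → E} {β : E → ℝ} {q : E} {σ L ρ : ℝ}

theorem DV.good (hf : I4 f) (hβ : ContDiff ℝ ∞ β) (hL : ∀ y, ‖fderiv ℝ β y‖ ≤ L)
    (hq : β q = 0) (h1 : ∀ y, Tri f y → y ≠ q → β y = 1 ∧ 2 * ρ ≤ ‖y - q‖) (hρ : 0 < ρ)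
    {b m w : E} {κ : ℝ} (h : DV f β q σ L ρ b m κ w) :
    I4 (fam f β (f b, zvec (nrm f b) m, κ, w)) ∧
      (∃ g, Finger (fam f β (f b, zvec (nrm f b) m, κ, w)) b q g) ∧
      ∀ y, ‖y - q‖ < ρ → Tri (fam f β (f b, zvec (nrm f b) m, κ, w)) y → y = q := by
  have hT := tr_amb hβ hL h.lip
  have hf' : I4 (tr β w ∘ f) := hT.i4 hf
  have hev : tr β w ∘ f =ᶠ[𝓝 b] f := by
    filter_upwards [hf.1.1.continuous.continuousAt.eventually
      (notMem_tsupport_iff_eventuallyEq.1 h.off)] with y hy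
    simp only [comp, tr]
    rw [show β (f y) = 0 from hy]; simp
  have hb : (tr β w ∘ f) b = f b := hev.eq_of_nhds
  set g := fam f β (f b, zvec (nrm f b) m, κ, w) with hg
  have hg' : g = tw (f b) (zvec (nrm f b) m) κ ∘ (tr β w ∘ f) := rfl
  have hI : I4 g := (tw_amb _ _ _).i4 hf'
  have hgb : g b = f b := by rw [hg', comp_apply, hb, tw_center]
  have hn : nrm g b = rot (zvec (nrm f b) m) (nrm f b) := by
    have := nrm_tw_center hf'.1.1 (zvec (nrm f b) m) κ b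
    rwa [hb, nrm_congr_ev hev] at this
  have htri : ∀ y, Tri g y → y = q ∨ ∃ y', Tri f y' ∧ y' ≠ q ∧ y = y' + w := by
    intro y hy
    obtain ⟨y1, rfl, hy1⟩ := ((tw_amb _ _ _).tri_iff _ _).1 hy
    obtain ⟨y2, rfl, hy2⟩ := (hT.tri_iff _ _).1 hy1
    by_cases h2 : y2 = q
    · left
      have : tr β w y2 = q := by simp [tr, h2, hq]
      rw [this]; exact tw_of_far _ h.far.le
    · right
      have : tr β w y2 = y2 + w := by simp [tr, (h1 y2 hy2 h2).1]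
      rw [this]; exact ⟨y2, hy2, h2, tw_of_far _ (h.far' y2 hy2 h2).1.le⟩
  have hiso : ∀ y, ‖y - q‖ < ρ → Tri g y → y = q := by
    intro y hy hT'
    refine (htri y hT').resolve_right ?_
    rintro ⟨y', a1, a2, rfl⟩
    have a3 := (h1 y' a1 a2).2
    have a4 : ‖y' - q‖ ≤ ‖y' + w - q‖ + ‖w‖ := by
      calc _ = ‖(y' + w - q) - w‖ := by congr 1; abel
        _ ≤ _ := norm_sub_le _ _
    linarith [h.small]
  have hqb : q - f b ≠ 0 := by
    intro h0; have := h.far; rw [h0] at this; norm_num at this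
  refine ⟨hI, ?_, hiso⟩
  obtain ⟨χ, -, -, δ, hδ, h2⟩ := thin_finger hI.1 h.mem (q := q) (by
      rw [hn, hgb]; intro h0
      have := inner_rot_zvec (hf.1.nrm_ne h.mem) h.ray h.side
      rw [h0] at this; simp at this) (by
      intro t ht
      refine le_trans (encard_le_encard fun z hz => ?_)
        ((not_tri_iff (f := g) (y := g b + t • (q - g b))).1 fun hT' => ?_)
      · exact ⟨hz.1.1, hz.2⟩
      · rw [hgb] at hT'
        rcases htri _ hT' with a | ⟨y', a1, a2, a3⟩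
        · have h2 : (t - 1) • (q - f b) = 0 := by
            rw [sub_smul, one_smul, sub_eq_zero, eq_sub_iff_add_eq', a]
          exact ht.2.ne (sub_eq_zero.1 ((smul_eq_zero.1 h2).resolve_right hqb))
        · apply (h.far' y' a1 a2).2
          rw [← a3, segment_eq_image']
          exact ⟨t, ⟨ht.1, ht.2.le⟩, rfl⟩) hρ univ_mem
  exact ⟨_, (h2 g hI.1.1 (by simpa using small_zero hδ.le) hiso b h.mem
    (by simpa using hδ.le)).1⟩

theorem dv_path (hf : I4 f) (hβ : ContDiff ℝ ∞ β) (hL : ∀ y, ‖fderiv ℝ β y‖ ≤ L)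
    (hq : β q = 0) (h1 : ∀ y, Tri f y → y ≠ q → β y = 1 ∧ 2 * ρ ≤ ‖y - q‖) (hρ : 0 < ρ)
    {b m w : ℝ → E} {κ : ℝ → ℝ} (hb : ContinuousOn b (Icc 0 1)) (hm : ContinuousOn m (Icc 0 1))
    (hw : ContinuousOn w (Icc 0 1)) (hκ : ContinuousOn κ (Icc 0 1))
    (h : ∀ s ∈ Icc (0 : ℝ) 1, DV f β q σ L ρ (b s) (m s) (κ s) (w s)) {g₀ g₁ : E → E}
    (h₀ : Finger (fam f β (f (b 0), zvec (nrm f (b 0)) (m 0), κ 0, w 0)) (b 0) q g₀)
    (h₁ : Finger (fam f β (f (b 1), zvec (nrm f (b 1)) (m 1), κ 1, w 1)) (b 1) q g₁) :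
    Rel g₀ g₁ := by
  refine finger_path (fam_smooth hf.1.1 hβ)
    (p := fun s => (f (b s), zvec (nrm f (b s)) (m s), κ s, w s)) ?_ hb hρ
    (fun s hs => (h s hs).good hf hβ hL hq h1 hρ) h₀ h₁
  have c1 : ContinuousOn (fun s => f (b s)) (Icc 0 1) := hf.1.1.continuous.comp_continuousOn hb
  have c2 : ContinuousOn (fun s => nrm f (b s)) (Icc 0 1) :=
    (continuous_nrm hf.1.1).comp_continuousOn hb
  refine c1.prodMk (ContinuousOn.prodMk ?_ (hκ.prodMk hw))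
  exact (((c2.norm.mul hm.norm).add (c2.inner hm)).inv₀ fun s hs =>
    (zvec_den_pos (hf.1.nrm_ne (h s hs).mem) (h s hs).ray).ne').smul (continuousOn_cross c2 hm)

end

theorem conv_ge {a b s : ℝ} (hab : a ≤ b) (hs : s ∈ Icc (0 : ℝ) 1) : a ≤ (1 - s) * a + s * b := by
  nlinarith [hs.1]

/-- A smooth path on the sphere avoiding a finite set. -/
theorem exists_path {a b : E} (ha : a ∈ S) (hb : b ∈ S) {Z : Set E} (hZ : Z.Finite) (haZ : a ∉ Z)
    (hbZ : b ∉ Z) : ∃ c : ℝ → E, c 0 = a ∧ c 1 = b ∧ ∀ s ∈ Icc (0 : ℝ) 1,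
      c s ∈ S ∧ c s ∉ Z ∧ DifferentiableAt ℝ c s := by
  have := hZ.insert 0 |>.to_subtype
  obtain ⟨ζ, -, hζ⟩ := exists_avoid (ι := ↥(insert 0 Z))
    (fun y z => (z.1 * (1 - z.1))⁻¹ • (z.2 • (y : E) - (1 - z.1) • a - z.1 • b))
    (fun _ => {z | z.1 ∈ Ioo (0 : ℝ) 1}) (fun y z hz => by
      have : z.1 * (1 - z.1) ≠ 0 := mul_ne_zero hz.1.ne' (sub_pos.2 hz.2).ne'
      fun_prop (disch := assumption)) isOpen_univ univ_nonempty
  let u : ℝ → E := fun s => (1 - s) • a + s • b + (s * (1 - s)) • ζ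
  have hu : ∀ s ∈ Ioo (0 : ℝ) 1, ∀ y ∈ insert 0 Z, ∀ l : ℝ, u s ≠ l • y := by
    intro s hs y hy l h
    apply hζ ⟨y, hy⟩ (s, l) hs
    have h0 : s * (1 - s) ≠ 0 := mul_ne_zero hs.1.ne' (sub_pos.2 hs.2).ne'
    simp only [← h, u]
    rw [show (1 - s) • a + s • b + (s * (1 - s)) • ζ - (1 - s) • a - s • b = (s * (1 - s)) • ζ by abel,
      smul_smul, inv_mul_cancel₀ h0, one_smul]
  have u0 : u 0 = a := by simp [u]
  have u1 : u 1 = b := by simp [u]
  have c0 : ‖u 0‖⁻¹ • u 0 = a := by simp [u0, mem_S.1 ha]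
  have c1 : ‖u 1‖⁻¹ • u 1 = b := by simp [u1, mem_S.1 hb]
  refine ⟨fun s => ‖u s‖⁻¹ • u s, c0, c1, fun s hs => ?_⟩
  have hne : u s ≠ 0 := by
    rcases hs.1.eq_or_lt with rfl | h0
    · rw [u0]; rintro rfl; simpa using mem_S.1 ha
    rcases hs.2.eq_or_lt with rfl | h1
    · rw [u1]; rintro rfl; simpa using mem_S.1 hb
    simpa using hu s ⟨h0, h1⟩ 0 (mem_insert _ _) 0
  have hd : DifferentiableAt ℝ u s := by simp only [u]; fun_prop
  refine ⟨normalize_mem hne, ?_, ((hd.norm ℝ hne).inv (by simpa using hne)).smul hd⟩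
  rcases hs.1.eq_or_lt with rfl | h0
  · simpa only [c0] using haZ
  rcases hs.2.eq_or_lt with rfl | h1
  · simpa only [c1] using hbZ
  intro hz
  apply hu s ⟨h0, h1⟩ _ (mem_insert_of_mem _ hz) ‖u s‖
  rw [smul_smul, mul_inv_cancel₀ (by simpa using hne), one_smul]

theorem eventually_far {K : Set E} (hK : IsCompact K) {Y : Set E} (hY : Y.Finite)
    (h : ∀ y ∈ Y, y ∉ K) : ∀ᶠ κ : ℝ in atTop, ∀ y ∈ Y, ∀ c ∈ K, 1 < κ * ‖y - c‖ := by
  rw [eventually_all_finite hY]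
  intro y hy
  obtain ⟨a, ha, ha'⟩ := hK.exists_forall_le' (f := fun c => ‖y - c‖) (a := 0) (by fun_prop)
    fun c hc => norm_pos_iff.2 (sub_ne_zero.2 fun h0 => h y hy (h0 ▸ hc))
  filter_upwards [eventually_gt_atTop a⁻¹] with κ hκ c hc
  have h1 : 1 < κ * a := by rwa [inv_lt_iff_one_lt_mul₀ ha] at hκ
  have h2 : 0 < κ := (inv_pos.2 ha).trans hκ
  nlinarith [ha' c hc]

theorem GF.not_mem_segment {f g : E → E} {b m q : E} {κ : ℝ}
    (hfar : ∀ y, Tri f y → 1 < κ * ‖y - f b‖)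
    (h : Finger (tw (f b) (zvec (nrm f b) m) κ ∘ f) b q g) {y : E} (hy : Tri f y) (hyq : y ≠ q) :
    y ∉ segment ℝ (f b) q := by
  rw [segment_eq_image']
  rintro ⟨t, ht, rfl⟩
  have h1 := hfar _ hy
  have ht1 : t < 1 := ht.2.lt_of_ne (by rintro rfl; simp at hyq)
  have h2 := h.seg.2 t ⟨ht.1, ht1⟩
  simp only [comp_apply, tw_center] at h2 h1 hy
  rw [← tw_of_far (zvec (nrm f b) m) h1.le, (tw_amb _ _ _).fib_eq] at h2
  refine not_tri_iff.2 (le_trans (encard_le_encard fun z hz => ?_) h2) hy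
  refine ⟨⟨hz.1, ?_⟩, hz.2⟩
  rintro rfl
  rw [← hz.2] at h1
  norm_num at h1

/-- The swap lemma for maps with finitely many triple points. -/
theorem gf_swap {f g₀ g₁ : E → E} (hf : I4 f) (hT : {y | Tri f y}.Finite) {q : E} {σ : ℝ}
    (h₀ : GF f q σ g₀) (h₁ : GF f q σ g₁) : Rel g₀ g₁ := by
  obtain ⟨b₀, hb₀, m₀, κ₀, hκ₀, r₀, s₀, q₀, t₀, F₀⟩ := h₀
  obtain ⟨b₁, hb₁, m₁, κ₁, hκ₁, r₁, s₁, q₁, t₁, F₁⟩ := h₁
  have hf1 := hf.1.1
  have hfc := hf1.continuous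
  have hσ : σ ≠ 0 := by rintro rfl; simp at s₀
  have hZ := finite_fib hf (hT.insert q)
  have hnZ : ∀ (b : E) (κ : ℝ), 1 < κ * ‖q - f b‖ → (∀ y, Tri f y → 1 < κ * ‖y - f b‖) →
      b ∉ {x | x ∈ S ∧ f x ∈ insert q {y | Tri f y}} := by
    rintro b κ a1 a2 ⟨-, h | h⟩
    · rw [h] at a1; norm_num at a1
    · have := a2 _ h; norm_num at this
  obtain ⟨c, c0, c1, hc⟩ := exists_path hb₀ hb₁ hZ (hnZ _ _ q₀ t₀) (hnZ _ _ q₁ t₁)
  have hcc : ContinuousOn c (Icc 0 1) := fun s hs => (hc s hs).2.2.continuousAt.continuousWithinAt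
  have hcq : ∀ s ∈ Icc (0 : ℝ) 1, f (c s) ≠ q := fun s hs h =>
    (hc s hs).2.1 ⟨(hc s hs).1, Or.inl h⟩
  have hK : IsCompact ((fun s => f (c s)) '' Icc 0 1) :=
    isCompact_Icc.image_of_continuousOn (hfc.comp_continuousOn hcc)
  set K := (fun s => f (c s)) '' Icc 0 1 with hKdef
  set T' := {y | Tri f y} \ {q} with hT'
  have hT'f : T'.Finite := hT.subset sdiff_subset
  obtain ⟨β, hβ, hβs, hβc, -, hβ1⟩ := exists_cutoff hT'f.isCompact
    (hK.insert q).isClosed.isOpen_compl (by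
      rintro y hy (h | ⟨s, hs, h⟩)
      · exact hy.2 h
      · exact (hc s hs).2.1 ⟨(hc s hs).1, Or.inr (by simp only at h; rw [h]; exact hy.1)⟩)
  obtain ⟨L, hL⟩ := (hβc.fderiv ℝ).exists_bound_of_continuous (smooth_cont_fderiv hβ)
  have hβq : β q = 0 := zero_of_tsupport hβs (by simp)
  have hoff : ∀ s ∈ Icc (0 : ℝ) 1, f (c s) ∉ tsupport β := fun s hs h =>
    hβs h (Or.inr ⟨s, hs, rfl⟩)
  obtain ⟨ρ, hρ, hρ'⟩ : ∃ ρ, 0 < ρ ∧ ∀ y ∈ T', 2 * ρ ≤ ‖y - q‖ := by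
    obtain ⟨a, ha, ha'⟩ := hT'f.isCompact.exists_forall_le' (f := fun y => ‖y - q‖) (a := 0)
      (by fun_prop) fun y hy => norm_pos_iff.2 (sub_ne_zero.2 hy.2)
    exact ⟨a / 2, by positivity, fun y hy => by linarith [ha' y hy]⟩
  have h1 : ∀ y, Tri f y → y ≠ q → β y = 1 ∧ 2 * ρ ≤ ‖y - q‖ := fun y a1 a2 =>
    ⟨(hβ1 y ⟨a1, a2⟩).eq_of_nhds, hρ' y ⟨a1, a2⟩⟩
  -- small translations are harmless at both ends
  have hev : ∀ (b m : E) (κ : ℝ) (g : E → E), (∀ y, Tri f y → 1 < κ * ‖y - f b‖) →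
      Finger (tw (f b) (zvec (nrm f b) m) κ ∘ f) b q g → ∀ᶠ w in 𝓝 (0 : E), ∀ y ∈ T',
        1 < κ * ‖y + w - f b‖ ∧ y + w ∉ segment ℝ (f b) q := by
    intro b m κ g a1 a2
    rw [eventually_all_finite hT'f]
    intro y hy
    have hsc : IsClosed (segment ℝ (f b) q) := by
      rw [segment_eq_image]; exact (isCompact_Icc.image (by fun_prop)).isClosed
    have k1 : Continuous fun w : E => κ * ‖y + w - f b‖ := by fun_prop
    have k2 : Continuous fun w : E => y + w := by fun_prop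
    refine (continuousAt_const.eventually_lt k1.continuousAt (by simpa using a1 y hy.1)).and ?_
    exact k2.continuousAt.eventually (hsc.isOpen_compl.mem_nhds
      (by simpa using GF.not_mem_segment a1 a2 hy.1 hy.2))
  have hev2 : ∀ᶠ w in 𝓝 (0 : E), L * ‖w‖ < 1 ∧ ‖w‖ < ρ := by
    have k1 : Continuous fun w : E => L * ‖w‖ := by fun_prop
    exact (k1.continuousAt.eventually_lt continuousAt_const (by simp)).and
      (continuous_norm.continuousAt.eventually_lt continuousAt_const (by simpa using hρ))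
  obtain ⟨η, hη, hη'⟩ := Metric.eventually_nhds_iff.1
    ((hev _ _ _ _ t₀ F₀).and ((hev _ _ _ _ t₁ F₁).and hev2))
  have := hT'f.to_subtype
  obtain ⟨w, hwη, hw⟩ := exists_avoid (ι := ↥T')
    (fun y z => q + z.2 • (f (c z.1) - q) - (y : E)) (fun _ => {z | z.1 ∈ Icc (0 : ℝ) 1})
    (fun y z hz => by
      have d1 : DifferentiableAt ℝ (fun z : ℝ × ℝ => f (c z.1)) z :=
        (smooth_diff hf1 _).comp z ((hc _ hz).2.2.comp z differentiableAt_fst)
      have d2 : DifferentiableAt ℝ (fun z : ℝ × ℝ => z.2 • (f (c z.1) - q)) z :=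
        DifferentiableAt.fun_smul differentiableAt_snd (d1.sub_const q)
      exact (d2.const_add q).sub_const _) isOpen_ball (nonempty_ball.2 hη : (ball (0 : E) η).Nonempty)
  have hwseg : ∀ s ∈ Icc (0 : ℝ) 1, ∀ y ∈ T', y + w ∉ segment ℝ (f (c s)) q := by
    intro s hs y hy hm
    rw [segment_symm, segment_eq_image'] at hm
    obtain ⟨t, -, ht⟩ := hm
    exact hw ⟨y, hy⟩ (s, t) hs (by simp only at ht ⊢; rw [ht]; abel)
  have hθ : ∀ θ ∈ Icc (0 : ℝ) 1, dist (θ • w) 0 < η := by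
    intro θ hθ
    rw [mem_ball] at hwη
    rw [dist_zero_right] at hwη ⊢
    rw [norm_smul, Real.norm_eq_abs, abs_of_nonneg hθ.1]
    nlinarith [hθ.2, norm_nonneg w]
  have hw1 := hη' (mem_ball.1 hwη)
  -- the twist scale along the path
  obtain ⟨κ, ⟨hκa, hκb⟩, hκc⟩ := (((eventually_ge_atTop κ₀).and (eventually_ge_atTop κ₁)).and
    (eventually_far hK ((hT'f.image fun y => y + w).insert q) (by
      rintro y (rfl | ⟨y', hy', rfl⟩) ⟨s, hs, h⟩
      · exact hcq s hs h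
      · exact hwseg s hs y' hy' (by simp only at h; rw [← h]; exact left_mem_segment _ _ _)))).exists
  -- the new normal direction along the path
  let u : ℝ → E := fun s => σ • (q - f (c s))
  have huc : ContinuousOn u (Icc 0 1) :=
    (continuousOn_const.sub (hfc.comp_continuousOn hcc)).const_smul σ
  obtain ⟨a, ha, ha'⟩ := isCompact_Icc.exists_forall_le' (f := fun s => ‖u s‖) (a := 0) huc.norm
    fun s hs => norm_pos_iff.2 (smul_ne_zero hσ (sub_ne_zero.2 (hcq s hs).symm))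
  have hnd : Differentiable ℝ (nrm f) :=
    smooth_diff (contDiff_cof (hf1.fderiv_right (m := ∞) (by simp)) contDiff_id)
  obtain ⟨ζ, hζa, hζ⟩ := exists_avoid (ι := Fin 3)
    ![fun z => -(z.2 • nrm f (c z.1)) - u z.1, fun z => z.1 • nrm f b₀ + z.2 • m₀ - u 0,
      fun z => z.1 • nrm f b₁ + z.2 • m₁ - u 1]
    ![{z | z.1 ∈ Icc (0 : ℝ) 1}, univ, univ] (by
      intro i z hz
      fin_cases i
      · have d0 : DifferentiableAt ℝ (fun z : ℝ × ℝ => c z.1) z :=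
          (hc _ hz).2.2.comp z differentiableAt_fst
        have d1 : DifferentiableAt ℝ (fun z : ℝ × ℝ => f (c z.1)) z := (smooth_diff hf1 _).comp z d0
        have d2 : DifferentiableAt ℝ (fun z : ℝ × ℝ => nrm f (c z.1)) z := (hnd _).comp z d0
        have d3 : DifferentiableAt ℝ (fun z : ℝ × ℝ => z.2 • nrm f (c z.1)) z :=
          DifferentiableAt.fun_smul differentiableAt_snd d2
        have d4 : DifferentiableAt ℝ (fun z : ℝ × ℝ => σ • (q - f (c z.1))) z :=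
          DifferentiableAt.fun_const_smul (d1.const_sub q) σ
        change DifferentiableAt ℝ
          (fun z : ℝ × ℝ => -(z.2 • nrm f (c z.1)) - σ • (q - f (c z.1))) z
        exact DifferentiableAt.fun_sub (DifferentiableAt.fun_neg d3) d4
      · simp only [Fin.mk_one, Matrix.cons_val_one, Matrix.cons_val_zero]; fun_prop
      · simp only [Fin.reduceFinMk, Matrix.cons_val]; fun_prop)
    isOpen_ball (nonempty_ball.2 ha : (ball (0 : E) a).Nonempty)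
  have hside : ∀ s ∈ Icc (0 : ℝ) 1, 0 < σ * ⟪u s + ζ, q - f (c s)⟫ := by
    intro s hs
    rw [← real_inner_smul_right, inner_add_left, real_inner_self_eq_norm_sq]
    have b1 := abs_le.1 (abs_real_inner_le_norm ζ (u s))
    have b2 : ‖ζ‖ < ‖u s‖ := (mem_ball_zero_iff.1 hζa).trans_le (ha' s hs)
    have b3 : 0 < ‖u s‖ := ha.trans_le (ha' s hs)
    change 0 < ‖u s‖ ^ 2 + ⟪ζ, u s⟫
    nlinarith [b1.1]
  have hDV : ∀ s ∈ Icc (0 : ℝ) 1, DV f β q σ L ρ (c s) (u s + ζ) κ w := by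
    intro s hs
    refine ⟨(hc s hs).1, fun μ _ h => hζ 0 (s, μ) hs ?_, hside s hs, hoff s hs, hw1.2.2.1,
      hw1.2.2.2.le, hκc q (mem_insert _ _) _ ⟨s, hs, rfl⟩, fun y a1 a2 =>
        ⟨hκc _ (mem_insert_of_mem _ ⟨y, ⟨a1, a2⟩, rfl⟩) _ ⟨s, hs, rfl⟩, hwseg s hs y ⟨a1, a2⟩⟩⟩
    simp only [Matrix.cons_val_zero]
    rw [← sub_eq_zero, ← neg_eq_zero, ← h]; abel
  -- the two ends
  have hend : ∀ (s : ℝ) (m : E) (κ' : ℝ) (g g' : E → E), s ∈ Icc (0 : ℝ) 1 → κ' ≤ κ →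
      (∀ μ : ℝ, 0 ≤ μ → m + μ • nrm f (c s) ≠ 0) → 0 < σ * ⟪m, q - f (c s)⟫ →
      1 < κ' * ‖q - f (c s)‖ →
      (∀ θ ∈ Icc (0 : ℝ) 1, ∀ y ∈ T', 1 < κ' * ‖y + θ • w - f (c s)‖ ∧
        y + θ • w ∉ segment ℝ (f (c s)) q) →
      (∀ z : ℝ × ℝ, z.1 • nrm f (c s) + z.2 • m - u s ≠ ζ) →
      Finger (tw (f (c s)) (zvec (nrm f (c s)) m) κ' ∘ f) (c s) q g →
      Finger (fam f β (f (c s), zvec (nrm f (c s)) (u s + ζ), κ, w)) (c s) q g' → Rel g g' := by
    intro s m κ' g g' hs a0 a1 a2 a3 a4 a5 a6 a7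
    have dA : ∀ θ ∈ Icc (0 : ℝ) 1, DV f β q σ L ρ (c s) m κ' (θ • w) := fun θ hθ' =>
      ⟨(hc s hs).1, a1, a2, hoff s hs, (hη' (hθ θ hθ')).2.2.1, (hη' (hθ θ hθ')).2.2.2.le, a3,
        fun y b1 b2 => a4 θ hθ' y ⟨b1, b2⟩⟩
    have dA1 := dA 1 (right_mem_Icc.2 zero_le_one)
    rw [one_smul] at dA1
    obtain ⟨g2, hg2⟩ := (dA1.good hf hβ hL hβq h1 hρ).2.1
    refine Rel.trans (dv_path hf hβ hL hβq h1 hρ (b := fun _ => c s) (m := fun _ => m)
      (κ := fun _ => κ') (w := fun θ => θ • w) continuousOn_const continuousOn_const (by fun_prop)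
      continuousOn_const dA (g₁ := g2) (by simpa only [zero_smul, fam_zero] using a6)
      (by simpa only [one_smul] using hg2)) ?_
    refine dv_path hf hβ hL hβq h1 hρ (σ := σ) (b := fun _ => c s)
      (m := fun l => (1 - l) • m + l • (u s + ζ))
      (κ := fun l => (1 - l) * κ' + l * κ) (w := fun _ => w) continuousOn_const (by fun_prop)
      continuousOn_const (by fun_prop) (fun l hl => ?_) (by simpa using hg2) (by simpa using a7)
    have hκl := conv_ge a0 hl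
    refine ⟨dA1.mem, fun μ hμ h => ?_, ?_, dA1.off, dA1.lip, dA1.small,
      a3.trans_le (mul_le_mul_of_nonneg_right hκl (norm_nonneg _)), fun y b1 b2 =>
        ⟨(dA1.far' y b1 b2).1.trans_le (mul_le_mul_of_nonneg_right hκl (norm_nonneg _)),
          (dA1.far' y b1 b2).2⟩⟩
    · rcases hl.1.eq_or_lt with rfl | hl0
      · exact a1 μ hμ (by simpa using h)
      · apply a5 (-(μ / l), -((1 - l) / l))
        have e1 : l • ((-(μ / l)) • nrm f (c s) + (-((1 - l) / l)) • m - u s - ζ) =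
            -((1 - l) • m + l • (u s + ζ) + μ • nrm f (c s)) := by
          have b1 : l * -(μ / l) = -μ := by field_simp
          have b2 : l * -((1 - l) / l) = -(1 - l) := by field_simp
          simp only [smul_sub, smul_add, smul_smul, b1, b2]
          module
        rw [h, neg_zero] at e1
        exact sub_eq_zero.1 ((smul_eq_zero.1 e1).resolve_left hl0.ne')
    · rw [inner_add_left, real_inner_smul_left, real_inner_smul_left]
      have := conv_gt a2 (hside s hs) hl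
      linarith
  have i0 : (0 : ℝ) ∈ Icc (0 : ℝ) 1 := left_mem_Icc.2 zero_le_one
  have i1 : (1 : ℝ) ∈ Icc (0 : ℝ) 1 := right_mem_Icc.2 zero_le_one
  obtain ⟨g2, hg2⟩ := ((hDV 0 i0).good hf hβ hL hβq h1 hρ).2.1
  obtain ⟨g3, hg3⟩ := ((hDV 1 i1).good hf hβ hL hβq h1 hρ).2.1
  subst c0 c1
  have e0 := hend 0 m₀ κ₀ g₀ g2 i0 hκa r₀ s₀ q₀ (fun θ hθ' => (hη' (hθ θ hθ')).1)
    (fun z => hζ 1 z trivial) F₀ hg2
  have e1 := hend 1 m₁ κ₁ g₁ g3 i1 hκb r₁ s₁ q₁ (fun θ hθ' => (hη' (hθ θ hθ')).2.1)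
    (fun z => hζ 2 z trivial) F₁ hg3
  refine e0.trans (Rel.trans ?_ e1.symm)
  exact dv_path hf hβ hL hβq h1 hρ (b := c) (m := fun s => u s + ζ) (κ := fun _ => κ)
    (w := fun _ => w) hcc (huc.add continuousOn_const) continuousOn_const continuousOn_const
    hDV hg2 hg3

end Pool.Agent.Lib.Quad
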