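import Pool.Agent.Lib.MP_31e762_gt.Swap

/-! The class obtained by crossing a transverse triple point from a given side. -/

namespace Pool.Agent.Lib.Quad

open scoped ContDiff RealInnerProductSpace Topology
open Metric Set Function Filter

theorem Tau.rel {f γ γ' : E → E} {q : E} {σ : ℝ} (h : Tau f q σ γ) (h' : Rel γ γ') :
    Tau f q σ γ' := by
  obtain ⟨δ, hδ, h⟩ := h
  refine ⟨δ, hδ, fun f' a1 a2 a3 a4 => ?_⟩
  obtain ⟨g, b1, b2⟩ := h f' a1 a2 a3 a4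
  exact ⟨g, b1, b2.trans h'⟩

theorem TT.keep {f f' : E → E} {x : Fin 3 → E} {q : E} (hf : I4 f) (hq : TT f x q) :
    (∀ y ∈ S, f y = q → f' y = q) ↔ ∀ i, f' (x i) = q := by
  refine ⟨fun h i => h _ (hq.1 i) (hq.2.2.1 i), fun h y hy hyq => ?_⟩
  have : y ∈ fib f S q := ⟨hy, hyq⟩
  rw [hq.fib_eq hf] at this
  obtain ⟨i, rfl⟩ := this
  exact h i

/-- Approximation by maps with finitely many triple points, keeping a transverse triple point. -/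
theorem exists_finite_approx {f : E → E} {x : Fin 3 → E} {q : E} (hf : I4 f) (hq : TT f x q)
    {δ : ℝ} (hδ : 0 < δ) : ∃ f' : E → E, ContDiff ℝ ∞ f' ∧ Small δ (f' - f) ∧ (∀ i, f' (x i) = q) ∧
      I4 f' ∧ {y | Tri f' y}.Finite := by
  obtain ⟨ρ, hρ, δ₁, hδ₁, h₁⟩ := hq.isolated hf
  have hfc := hf.1.1.continuous
  set V := f ⁻¹' ball q (ρ / 2) with hV
  have hVo : IsOpen V := isOpen_ball.preimage hfc
  set U := (range x)ᶜ with hU
  have hUo : IsOpen U := (finite_range x).isClosed.isOpen_compl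
  obtain ⟨p, hp, hs, hpU, hg⟩ := generic (J := Unit) (fun _ => f) (fun _ => hf.1)
    (isCompact_S.diff hVo) sdiff_subset hUo (by
      rintro y hy ⟨i, rfl⟩
      apply hy.2
      rw [hV, mem_preimage, hq.2.2.1 i]; exact mem_ball_self (half_pos hρ)) q (ε 0)
    (by intro h; have := congrArg (· 0) h; simp at this)
    (δ := min δ (min δ₁ (ρ / 2))) (by positivity)
  have hs' : Small (min δ (min δ₁ (ρ / 2))) (f + p - f) := by simpa using hs
  have hx : ∀ i, (f + p) (x i) = q := by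
    intro i
    have : p (x i) = 0 := by
      by_contra h; exact hpU (subset_tsupport _ h) ⟨i, rfl⟩
    rw [Pi.add_apply, this, add_zero, hq.2.2.1 i]
  obtain ⟨a1, a2, a3⟩ := h₁ (f + p) (hf.1.1.add hp)
    (hs'.mono ((min_le_right _ _).trans (min_le_left _ _))) hx
  refine ⟨f + p, hf.1.1.add hp, hs'.mono (min_le_left _ _), hx, a1, finite_tri a1 fun y hy => ?_⟩
  by_cases hyq : y = q
  · exact ⟨x, hyq ▸ a2⟩
  obtain ⟨x', b1, b2, b3⟩ := tri_iff.1 hy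
  refine ⟨x', b1, b2, b3, (hg ()).2.1 x' (fun i => ⟨b1 i, fun hi => hyq (a3 y ?_ hy)⟩) b2
    fun i => (b3 i).trans (b3 0).symm⟩
  have c1 : ‖p (x' i)‖ ≤ ρ / 2 :=
    (hs _ (b1 i)).1.trans ((min_le_right _ _).trans (min_le_right _ _))
  have c2 : ‖f (x' i) - q‖ < ρ / 2 := by rw [← dist_eq_norm]; exact mem_ball.1 (mem_preimage.1 hi)
  rw [← b3 i, Pi.add_apply, add_sub_right_comm]
  linarith [norm_add_le (f (x' i) - q) (p (x' i))]

theorem tau_unique {f γ γ' : E → E} {x : Fin 3 → E} {q : E} {σ : ℝ} (hf : I4 f) (hq : TT f x q)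
    (h : Tau f q σ γ) (h' : Tau f q σ γ') : Rel γ γ' := by
  obtain ⟨δ, hδ, h⟩ := h
  obtain ⟨δ', hδ', h'⟩ := h'
  obtain ⟨f', a1, a2, a3, a4, a5⟩ := exists_finite_approx hf hq (lt_min hδ hδ')
  obtain ⟨g, b1, b2⟩ := h f' a1 (a2.mono (min_le_left _ _)) ((hq.keep hf).2 a3) a5
  obtain ⟨g', c1, c2⟩ := h' f' a1 (a2.mono (min_le_right _ _)) ((hq.keep hf).2 a3) a5
  exact b2.symm.trans ((gf_swap a4 a5 b1 c1).trans c2)

theorem tri_tw {f : E → E} {c z : E} {κ : ℝ} (h : ∀ y, Tri f y → 1 < κ * ‖y - c‖) {y : E}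
    (hy : Tri (tw c z κ ∘ f) y) : Tri f y := by
  obtain ⟨y', rfl, hy'⟩ := ((tw_amb _ _ _).tri_iff _ _).1 hy
  rwa [tw_of_far _ (h y' hy').le]

theorem ray_of_den_pos {n m : E} (h : 0 < ‖n‖ * ‖m‖ + ⟪n, m⟫) (μ : ℝ) (hμ : 0 ≤ μ) :
    m + μ • n ≠ 0 := by
  intro h0
  have : m = -(μ • n) := eq_neg_of_add_eq_zero_left h0
  rw [this, norm_neg, norm_smul, inner_neg_right, real_inner_smul_right,
    real_inner_self_eq_norm_sq, Real.norm_eq_abs, abs_of_nonneg hμ] at h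
  nlinarith

theorem gf_tau {f g : E → E} {x : Fin 3 → E} {q : E} {σ : ℝ} (hf : I4 f) (hq : TT f x q)
    (h : GF f q σ g) : Tau f q σ g := by
  obtain ⟨b, hb, m, κ, hκ, r₀, s₀, q₀, t₀, F₀⟩ := h
  have hf1 := hf.1.1
  obtain ⟨ρ, hρ, δ₁, hδ₁, h₁⟩ := hq.isolated hf
  have hiso := (h₁ f hf1 (by simpa using small_zero hδ₁.le) hq.2.2.1).2.2
  obtain ⟨δ₂, hδ₂, h₂⟩ := thin_finger_rel ((tw_amb _ _ _).i4 hf) F₀ hρ
    fun y a1 a2 => hiso y a1 (tri_tw t₀ a2)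
  have hG : ContDiff ℝ ∞ (uncurry fun (p : E × E) (y : E) => tw p.1 p.2 κ y) := by
    change ContDiff ℝ ∞ fun z : (E × E) × E => tw z.1.1 z.1.2 κ z.2
    apply contDiff_tw <;> fun_prop
  obtain ⟨δ₃, hδ₃, h₃⟩ := comp_small hG (f b, zvec (nrm f b) m) hf1 hδ₂
  obtain ⟨δ₄, hδ₄, h₄⟩ := mult_open hf.1 isClosed_S subset_rfl (C := closedBall (f b) κ⁻¹)
    isClosed_closedBall (k := 2) (fun y hy => not_tri_iff.1 fun hT => by
      have a1 := t₀ y hT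
      rw [mem_closedBall, dist_eq_norm, ← one_div, le_div_iff₀' hκ] at hy
      linarith)
  have hden := zvec_den_pos (hf.1.nrm_ne hb) r₀
  have e1 : ∀ᶠ n in 𝓝 (nrm f b), 0 < ‖n‖ * ‖m‖ + ⟪n, m⟫ ∧
      zvec n m ∈ closedBall (zvec (nrm f b) m) δ₃ := by
    have c1 : Continuous fun n : E => ‖n‖ * ‖m‖ + ⟪n, m⟫ := by fun_prop
    have c2 : ContinuousAt (fun n : E => zvec n m) (nrm f b) :=
      (c1.continuousAt.inv₀ hden.ne').smul (continuousAt_cross continuousAt_id continuousAt_const)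
    exact (continuousAt_const.eventually_lt c1.continuousAt hden).and
      (c2.eventually (closedBall_mem_nhds _ hδ₃))
  obtain ⟨η₅, hη₅, h₅'⟩ := Metric.eventually_nhds_iff.1 e1
  obtain ⟨δ₅, hδ₅, h₅⟩ := nrm_close hf1 (half_pos hη₅)
  have e2 : ∀ᶠ c in 𝓝 (f b), 0 < σ * ⟪m, q - c⟫ ∧ 1 < κ * ‖q - c‖ := by
    have c1 : Continuous fun c : E => σ * ⟪m, q - c⟫ := by fun_prop
    have c2 : Continuous fun c : E => κ * ‖q - c‖ := by fun_prop
    exact (continuousAt_const.eventually_lt c1.continuousAt s₀).and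
      (continuousAt_const.eventually_lt c2.continuousAt q₀)
  obtain ⟨δ₆, hδ₆, h₆⟩ := Metric.eventually_nhds_iff.1 e2
  refine ⟨min (min δ₁ δ₃) (min δ₄ (min δ₅ (δ₆ / 2))), by positivity, fun f' a1 a2 a3 _ => ?_⟩
  have s1 := a2.mono ((min_le_left _ _).trans (min_le_left _ _))
  have s3 := a2.mono ((min_le_left _ _).trans (min_le_right _ _))
  have s4 := a2.mono ((min_le_right _ _).trans (min_le_left _ _))
  have s5 := a2.mono ((min_le_right _ _).trans ((min_le_right _ _).trans (min_le_left _ _)))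
  have s6 := a2.mono ((min_le_right _ _).trans ((min_le_right _ _).trans (min_le_right _ _)))
  have k5 := h₅' (y := nrm f' b) (by
    rw [dist_eq_norm]; linarith [h₅ f' (smooth_diff a1) s5 b hb])
  have k6 := h₆ (y := f' b) (by
    have : ‖f' b - f b‖ ≤ δ₆ / 2 := (s6 b hb).1
    rw [dist_eq_norm]; linarith)
  have k4 : ∀ y, Tri f' y → 1 < κ * ‖y - f' b‖ := by
    intro y hy
    by_contra hn
    refine not_tri_iff.2 (h₄ f' a1 s4 y ⟨y - f' b + f b, ?_, ?_⟩) hy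
    · rw [mem_closedBall, dist_eq_norm, add_sub_cancel_right, ← one_div, le_div_iff₀' hκ]
      exact not_lt.1 hn
    · have : ‖f' b - f b‖ ≤ δ₄ := (s4 b hb).1
      rwa [show y - (y - f' b + f b) = f' b - f b by abel]
  have k1 := (h₁ f' a1 s1 ((hq.keep hf).1 a3)).2.2
  have k3 := h₃ (f' b, zvec (nrm f' b) m) (by
    rw [Prod.norm_def, max_le_iff]
    exact ⟨(s3 b hb).1, by simpa [dist_eq_norm] using k5.2⟩) f' a1 s3
  obtain ⟨g', b1, b2, -⟩ := h₂ _ ((tw_amb _ _ _).1.comp a1) k3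
    (fun y c1 c2 => k1 y c1 (tri_tw k4 c2)) b hb (by simpa using hδ₂.le)
  exact ⟨g', ⟨b, hb, m, κ, hκ, ray_of_den_pos k5.1, k6.1, k6.2, k4, b1⟩, b2⟩

theorem tau_exists {f : E → E} {x : Fin 3 → E} {q : E} {σ : ℝ} (hf : I4 f) (hq : TT f x q)
    (hσ : σ ≠ 0) : ∃ γ, I4 γ ∧ Tau f q σ γ := by
  have hf1 := hf.1.1
  obtain ⟨ρ, hρ, δ₁, hδ₁, h₁⟩ := hq.isolated hf
  have hiso := (h₁ f hf1 (by simpa using small_zero hδ₁.le) hq.2.2.1).2.2
  obtain ⟨b, hb, hbV, hbx⟩ := exists_near_not_mem (hq.1 0) (V := f ⁻¹' ball q (ρ / 2))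
    (hf1.continuous.continuousAt.preimage_mem_nhds
      (by rw [hq.2.2.1 0]; exact ball_mem_nhds _ (half_pos hρ))) (finite_range x)
  have hbq : q - f b ≠ 0 := by
    intro h
    apply hbx
    rw [← hq.fib_eq hf]
    exact ⟨hb, (sub_eq_zero.1 h).symm⟩
  have hb2 : ‖q - f b‖ < ρ / 2 := by
    rw [norm_sub_rev, ← dist_eq_norm]; exact mem_ball.1 (mem_preimage.1 hbV)
  have hn := hf.1.nrm_ne hb
  obtain ⟨m, hm, hm'⟩ := exists_avoid (ι := Unit) (fun _ z => -(z.1 • nrm f b)) (fun _ => univ)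
    (fun _ _ _ => by fun_prop) (U := {m | 0 < σ * ⟪m, q - f b⟫})
    (isOpen_lt continuous_const (by fun_prop)) ⟨σ • (q - f b), by
      rw [mem_ofPred_eq, real_inner_smul_left, ← mul_assoc, real_inner_self_eq_norm_sq]
      exact mul_pos (mul_self_pos.2 hσ) (pow_pos (norm_pos_iff.2 hbq) 2)⟩
  have hray : ∀ μ : ℝ, 0 ≤ μ → m + μ • nrm f b ≠ 0 := fun μ _ h =>
    hm' () (μ, 0) trivial (eq_neg_of_add_eq_zero_left h).symm
  have hpos := norm_pos_iff.2 hbq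
  set κ := 2 / ‖q - f b‖ + 4 / ρ with hκ
  have hκ0 : 0 < κ := by positivity
  have q₀ : 1 < κ * ‖q - f b‖ := by
    have : κ * ‖q - f b‖ = 2 + 4 / ρ * ‖q - f b‖ := by rw [hκ]; field_simp
    rw [this]; have : 0 ≤ 4 / ρ * ‖q - f b‖ := by positivity
    linarith
  have t₀ : ∀ y, Tri f y → 1 < κ * ‖y - f b‖ := by
    intro y hy
    by_cases hyq : y = q
    · rwa [hyq]
    have a1 : ρ ≤ ‖y - q‖ := not_lt.1 fun h => hyq (hiso y h hy)
    have a2 : ‖y - q‖ ≤ ‖y - f b‖ + ‖q - f b‖ := by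
      calc _ = ‖(y - f b) - (q - f b)‖ := by congr 1; abel
        _ ≤ _ := norm_sub_le _ _
    have a3 : 4 / ρ * (ρ / 2) ≤ κ * ‖y - f b‖ :=
      mul_le_mul (by rw [hκ]; have : 0 ≤ 2 / ‖q - f b‖ := by positivity
                     linarith) (by linarith) (by positivity) hκ0.le
    have a4 : 4 / ρ * (ρ / 2) = 2 := by field_simp; norm_num
    linarith
  set g := tw (f b) (zvec (nrm f b) m) κ ∘ f with hg
  have hI : I4 g := (tw_amb _ _ _).i4 hf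
  have hgb : g b = f b := by rw [hg, comp_apply, tw_center]
  have hisog : ∀ y, ‖y - q‖ < ρ → Tri g y → y = q := fun y a1 a2 => hiso y a1 (tri_tw t₀ a2)
  obtain ⟨χ, -, -, δ, hδ, h2⟩ := thin_finger hI.1 hb (q := q) (by
      rw [hg, nrm_tw_center hf1, ← hg, hgb]; intro h0
      have := inner_rot_zvec hn hray hm
      rw [h0] at this; simp at this) (by
      intro t ht
      refine le_trans (encard_le_encard fun z hz => ?_)
        ((not_tri_iff (f := g) (y := g b + t • (q - g b))).1 fun hT' => ?_)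
      · exact ⟨hz.1.1, hz.2⟩
      · rw [hgb] at hT'
        have e : f b + t • (q - f b) - q = (t - 1) • (q - f b) := by module
        have a := hisog _ (by
          rw [e, norm_smul, Real.norm_eq_abs, abs_sub_comm, abs_of_pos (sub_pos.2 ht.2)]
          nlinarith [ht.1]) hT'
        rw [← sub_eq_zero, e] at a
        exact ht.2.ne (sub_eq_zero.1 ((smul_eq_zero.1 a).resolve_right hbq))) hρ univ_mem
  have F := (h2 g hI.1.1 (by simpa using small_zero hδ.le) hisog b hb (by simpa using hδ.le)).1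
  exact ⟨_, F.i4 hI, gf_tau hf hq ⟨b, hb, m, κ, hκ0, hray, hm, q₀, t₀, F⟩⟩

theorem tau_finger {f g : E → E} {x : Fin 3 → E} {b q : E} {σ : ℝ} (hf : I4 f) (hq : TT f x q)
    (h : Finger f b q g) (hσ : 0 < σ * ⟪nrm f b, q - f b⟫) : Tau f q σ g := by
  have hf1 := hf.1.1
  obtain ⟨ρ, hρ, δ₁, hδ₁, h₁⟩ := hq.isolated hf
  have hiso := (h₁ f hf1 (by simpa using small_zero hδ₁.le) hq.2.2.1).2.2
  obtain ⟨δ₂, hδ₂, h₂⟩ := thin_finger_rel hf h hρ hiso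
  refine ⟨min δ₁ δ₂, by positivity, fun f' a1 a2 a3 a4 => ?_⟩
  obtain ⟨b1, -, b3⟩ := h₁ f' a1 (a2.mono (min_le_left _ _)) ((hq.keep hf).1 a3)
  obtain ⟨b', hb', hbV, hbZ⟩ := exists_near_not_mem h.1 (closedBall_mem_nhds b hδ₂)
    (finite_fib b1 (a4.insert q))
  obtain ⟨g', c1, c2, c3⟩ := h₂ f' a1 (a2.mono (min_le_right _ _)) b3 b' hb'
    (by rwa [mem_closedBall, dist_eq_norm] at hbV)
  obtain ⟨κ, hκ0, hκ⟩ := ((eventually_gt_atTop (0 : ℝ)).and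
    (eventually_far (isCompact_singleton (x := f' b')) (a4.insert q) (by
      rintro y hy rfl; exact hbZ ⟨hb', hy⟩))).exists
  refine ⟨g', ⟨b', hb', nrm f' b', κ, hκ0, fun μ hμ h0 => ?_, ?_, hκ q (mem_insert _ _) _ rfl,
    fun y hy => hκ y (mem_insert_of_mem _ hy) _ rfl, by simpa using c1⟩, c2⟩
  · have : (1 + μ) • nrm f' b' = 0 := by rw [add_smul, one_smul, h0]
    exact b1.1.nrm_ne hb' ((smul_eq_zero.1 this).resolve_left (by linarith))
  · have := mul_pos hσ c3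
    have h2 : 0 < ⟪nrm f b, q - f b⟫ * ⟪nrm f b, q - f b⟫ := mul_self_pos.2 h.seg.1
    exact (mul_pos_iff_of_pos_left h2).1 (by linarith)

theorem Tau.sign {f γ : E → E} {q : E} {σ σ' : ℝ} (h : Tau f q σ γ) (hσ : 0 < σ * σ') :
    Tau f q σ' γ := by
  obtain ⟨δ, hδ, h⟩ := h
  refine ⟨δ, hδ, fun f' a1 a2 a3 a4 => ?_⟩
  obtain ⟨g, ⟨b, hb, m, κ, b1, b2, b3, b4⟩, c⟩ := h f' a1 a2 a3 a4
  refine ⟨g, ⟨b, hb, m, κ, b1, b2, ?_, b4⟩, c⟩
  have h0 : σ ≠ 0 := left_ne_zero_of_mul hσ.ne'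
  have := mul_pos hσ b3
  exact (mul_pos_iff_of_pos_left (mul_self_pos.2 h0)).1 (by linarith)

theorem Tau.near {f γ : E → E} {x : Fin 3 → E} {q : E} {σ : ℝ} (hf : I4 f) (hq : TT f x q)
    (h : Tau f q σ γ) : ∃ δ, 0 < δ ∧ ∀ g : E → E, I4 g → TT g x q → Small δ (g - f) →
      Tau g q σ γ := by
  obtain ⟨δ, hδ, h⟩ := h
  refine ⟨δ / 2, half_pos hδ, fun g hg hgq hs => ⟨δ / 2, half_pos hδ, fun f' a1 a2 a3 a4 => ?_⟩⟩
  refine h f' a1 ?_ ((hq.keep hf).2 ((hgq.keep hg).1 a3)) a4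
  simpa using hs.triangle a2 (smooth_diff hf.1.1) (smooth_diff hg.1.1) (smooth_diff a1)

theorem tau_close {f : E → E} {x : Fin 3 → E} {q : E} (hf : I4 f) (hq : TT f x q) :
    ∃ δ, 0 < δ ∧ ∀ g : E → E, ContDiff ℝ ∞ g → Small δ (g - f) → (∀ i, g (x i) = q) →
      I4 g ∧ TT g x q ∧ ∀ (σ : ℝ) (γ : E → E), σ ≠ 0 → (Tau f q σ γ ↔ Tau g q σ γ) := by
  obtain ⟨ρ, hρ, δ₁, hδ₁, h₁⟩ := hq.isolated hf
  obtain ⟨γ₁, -, t₁⟩ := tau_exists hf hq (σ := 1) one_ne_zero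
  obtain ⟨γ₂, -, t₂⟩ := tau_exists hf hq (σ := -1) (by norm_num)
  obtain ⟨δ₂, hδ₂, h₂⟩ := t₁.near hf hq
  obtain ⟨δ₃, hδ₃, h₃⟩ := t₂.near hf hq
  refine ⟨min δ₁ (min δ₂ δ₃), by positivity, fun g hg hs hx => ?_⟩
  obtain ⟨a1, a2, -⟩ := h₁ g hg (hs.mono (min_le_left _ _)) hx
  refine ⟨a1, a2, fun σ γ hσ => ?_⟩
  have u₁ := h₂ g a1 a2 (hs.mono ((min_le_right _ _).trans (min_le_left _ _)))
  have u₂ := h₃ g a1 a2 (hs.mono ((min_le_right _ _).trans (min_le_right _ _)))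
  obtain ⟨γ₀, v₁, v₂⟩ : ∃ γ₀, Tau f q σ γ₀ ∧ Tau g q σ γ₀ := by
    rcases hσ.lt_or_gt with h | h
    · exact ⟨γ₂, t₂.sign (by linarith), u₂.sign (by linarith)⟩
    · exact ⟨γ₁, t₁.sign (by linarith), u₁.sign (by linarith)⟩
  exact ⟨fun h => v₂.rel (tau_unique hf hq v₁ h), fun h => v₁.rel (tau_unique a1 a2 v₂ h)⟩

theorem tau_family {G : ℝ → E → E} (hG : ContDiff ℝ ∞ (uncurry G)) {x : Fin 3 → E} {q : E}
    (h : ∀ s ∈ Icc (0 : ℝ) 1, I4 (G s) ∧ TT (G s) x q) {σ : ℝ} (hσ : σ ≠ 0) (γ : E → E) :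
    Tau (G 0) q σ γ ↔ Tau (G 1) q σ γ := by
  refine (isPreconnected_Icc (a := (0 : ℝ)) (b := 1)).induction₂
    (fun s s' => Tau (G s) q σ γ ↔ Tau (G s') q σ γ) (fun s hs => ?_)
    (fun _ _ _ _ _ _ a b => a.trans b) (fun _ _ _ _ a => a.symm) (left_mem_Icc.2 zero_le_one)
    (right_mem_Icc.2 zero_le_one)
  obtain ⟨δ, hδ, h2⟩ := tau_close (h s hs).1 (h s hs).2
  filter_upwards [nhdsWithin_le_nhds (fam_small hG s hδ), self_mem_nhdsWithin] with s' a1 a2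
  exact (h2 (G s') (fam_member hG s') a1 (h s' a2).2.2.2.1).2.2 σ γ hσ

end Pool.Agent.Lib.Quad
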