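import Pool.Agent.Lib.MP_31e762_gt.Rel

/-! Vertical moves and fingers. -/

namespace Pool.Agent.Lib.Quad

open scoped ContDiff RealInnerProductSpace Topology
open Metric Set Function Filter

theorem vm_smooth {f : E → E} {χ : E → ℝ} (hf : ContDiff ℝ ∞ f) (hχ : ContDiff ℝ ∞ χ) (v : E) :
    ContDiff ℝ ∞ (vm f χ v) := hf.add (hχ.smul contDiff_const)

theorem inner_nrm_vm {f : E → E} {χ : E → ℝ} (hf : ContDiff ℝ ∞ f) (hχ : ContDiff ℝ ∞ χ)
    (v x : E) : ⟪nrm (vm f χ v) x, v⟫ = ⟪nrm f x, v⟫ := by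
  have : fderiv ℝ (vm f χ v) x = fderiv ℝ f x + (fderiv ℝ χ x).smulRight v :=
    ((smooth_diff hf x).hasFDerivAt.add ((smooth_diff hχ x).hasFDerivAt.smul_const v)).fderiv
  rw [nrm, this, inner_cof_vertical, nrm]

theorem vm_eventuallyEq (f : E → E) {χ : E → ℝ} (v : E) {x : E} (hx : x ∉ tsupport χ) :
    vm f χ v =ᶠ[𝓝 x] f := by
  filter_upwards [notMem_tsupport_iff_eventuallyEq.1 hx] with y hy
  simp [vm, hy]

/-- A vertical move of the part of an immersion that is transverse to `v` is an immersion. -/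
theorem vm_imm {f : E → E} {χ : E → ℝ} {v : E} (hf : Imm f) (hχ : ContDiff ℝ ∞ χ)
    (h : ∀ x ∈ S, x ∈ tsupport χ → ⟪nrm f x, v⟫ ≠ 0) : Imm (vm f χ v) := by
  refine imm_iff.2 ⟨vm_smooth hf.1 hχ v, fun x hx => ?_⟩
  by_cases hs : x ∈ tsupport χ
  · intro h0
    apply h x hx hs
    rw [← inner_nrm_vm hf.1 hχ, h0, inner_zero_left]
  · rw [nrm_congr_ev (vm_eventuallyEq f v hs)]; exact hf.nrm_ne hx

theorem VD.vm {f : E → E} {χ : E → ℝ} {D : Set E} {v : E} (hf : ContDiff ℝ ∞ f)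
    (hχ : ContDiff ℝ ∞ χ) (h : VD f D v) : VD (vm f χ v) D v := by
  refine ⟨h.1, fun x hx hD => by rw [inner_nrm_vm hf hχ]; exact h.2.1 x hx hD,
    fun x hx x' hx' a b t ht => h.2.2 x hx x' hx' a b (χ x + t - χ x') ?_⟩
  simp only [Quad.vm] at ht
  rw [sub_smul, add_smul, ← add_sub_assoc, ← add_assoc, ← ht]; abel

theorem zero_of_tsupport {χ : E → ℝ} {D : Set E} (hs : tsupport χ ⊆ D) {x : E} (hx : x ∉ D) :
    χ x = 0 := by
  by_contra h; exact hx (hs (subset_tsupport _ h))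

theorem VD.ne_zero {f : E → E} {D : Set E} {v x : E} (h : VD f D v) (hx : x ∈ S) (hD : x ∈ D) :
    v ≠ 0 := by
  rintro rfl; exact h.2.1 x hx hD (by simp)

theorem VD.fib_le_one {f : E → E} {D : Set E} {v : E} (h : VD f D v) (y : E) :
    (fib f (S ∩ D) y).encard ≤ 1 := by
  rw [encard_le_one_iff]
  intro a b ha hb
  exact h.2.2 b hb.1.1 a ha.1.1 hb.1.2 ha.1.2 0 (by rw [ha.2, hb.2]; simp)

/-- Fibres after a vertical move, at a moved point. -/
theorem fib_vm_subset {f : E → E} {χ : E → ℝ} {D : Set E} {v : E} (h : VD f D v)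
    (hs : tsupport χ ⊆ D) {x : E} (hx : x ∈ S) (hxD : x ∈ D) (t : ℝ) :
    fib (vm f χ v) (S \ {x}) (f x + t • v) = fib f (S \ {x}) (f x + t • v) := by
  ext z
  simp only [fib, mem_ofPred_eq, Set.mem_sdiff, mem_singleton_iff, and_congr_right_iff, and_imp]
  intro hz hzx
  by_cases hD : z ∈ D
  · refine iff_of_false (fun h1 => hzx (h.2.2 x hx z hz hxD hD (t - χ z) ?_))
      fun h1 => hzx (h.2.2 x hx z hz hxD hD t h1)
    simp only [vm] at h1
    rw [sub_smul, ← add_sub_assoc, ← h1]; abel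
  · simp [vm, zero_of_tsupport hs hD]

theorem vm_I4 {f : E → E} {χ : E → ℝ} {D : Set E} {v : E} (hf : I4 f) (h : VD f D v)
    (hχ : ContDiff ℝ ∞ χ) (hs : tsupport χ ⊆ D)
    (hm : ∀ x ∈ S, x ∈ D → χ x ≠ 0 → (fib f (S \ {x}) (f x + χ x • v)).encard ≤ 2) :
    I4 (vm f χ v) := by
  refine ⟨vm_imm hf.1 hχ fun x hx hxs => h.2.1 x hx (hs hxs), fun y => ?_⟩
  by_cases hy : ∃ x ∈ S, χ x ≠ 0 ∧ vm f χ v x = y
  · obtain ⟨x, hx, h0, rfl⟩ := hy
    have hD : x ∈ D := hs (subset_tsupport _ h0)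
    have h1 : fib (vm f χ v) S (vm f χ v x) ⊆
        {x} ∪ fib (vm f χ v) (S \ {x}) (f x + χ x • v) := by
      intro z hz
      by_cases hzx : z = x
      · exact Or.inl hzx
      · exact Or.inr ⟨⟨hz.1, hzx⟩, hz.2⟩
    rw [fib_vm_subset h hs hx hD] at h1
    refine (encard_le_encard h1).trans ((encard_union_le _ _).trans ?_)
    rw [encard_singleton]
    exact (add_le_add le_rfl (hm x hx hD h0)).trans (by norm_num)
  · refine (encard_le_encard fun z hz => ?_).trans (hf.2 y)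
    have : χ z = 0 := by by_contra h0; exact hy ⟨z, hz.1, h0, hz.2⟩
    exact ⟨hz.1, by simpa [vm, this] using hz.2⟩

/-- Linear interpolation of two vertical moves. -/
theorem step_vm {f : E → E} {χ₀ χ₁ : E → ℝ} {v : E} (hf : ContDiff ℝ ∞ f) (h₀ : ContDiff ℝ ∞ χ₀)
    (h₁ : ContDiff ℝ ∞ χ₁)
    (h : ∀ s ∈ Icc (0 : ℝ) 1, I4 (vm f (fun x => (1 - s) * χ₀ x + s * χ₁ x) v)) :
    Step (vm f χ₀ v) (vm f χ₁ v) := by
  refine ⟨fun s => vm f (fun x => (1 - s) * χ₀ x + s * χ₁ x) v, ?_, h, by simp, by simp⟩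
  change ContDiff ℝ ∞ fun p : ℝ × E => f p.2 + ((1 - p.1) * χ₀ p.2 + p.1 * χ₁ p.2) • v
  fun_prop

theorem I4_of_cond {f : E → E} {ψ : E → ℝ} {D : Set E} {b q : E} (hf : I4 f) (hb : b ∈ S)
    (hD : VD f D (q - f b)) (hbD : b ∈ D) (hψ : ContDiff ℝ ∞ ψ) (hs : tsupport ψ ⊆ D)
    (h1 : ψ b ≠ 1) (hc : ∀ x ∈ S, x ∈ D →
      (fib f (S \ {x}) (f x + ψ x • (q - f b))).encard ≤ 2 ∨ f x + ψ x • (q - f b) = q) :
    I4 (vm f ψ (q - f b)) := by
  refine vm_I4 hf hD hψ hs fun x hx hxD _ => (hc x hx hxD).resolve_right fun h => ?_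
  have hxb : x = b := by
    refine hD.2.2 b hb x hx hbD hxD (1 - ψ x) ?_
    rw [sub_smul, one_smul, ← add_sub_assoc, add_sub_cancel, eq_sub_iff_add_eq, h]
  subst hxb
  have h2 : (ψ x - 1) • (q - f x) = 0 := by
    rw [sub_smul, one_smul, sub_eq_zero, eq_sub_iff_add_eq', h]
  exact h1 (sub_eq_zero.1 ((smul_eq_zero.1 h2).resolve_right (hD.ne_zero hx hxD)))

theorem tsupport_subset_of_zero {χ ψ : E → ℝ} (h : ∀ x, χ x = 0 → ψ x = 0) :
    tsupport ψ ⊆ tsupport χ :=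
  closure_mono fun x hx h0 => hx (h x h0)

theorem mul_mem_uIcc {a l : ℝ} (hl : l ∈ Icc (0 : ℝ) 1) : l * a ∈ uIcc 0 a := by
  rcases le_total 0 a with h | h
  · rw [uIcc_of_le h]; exact ⟨by nlinarith [hl.1], by nlinarith [hl.2]⟩
  · rw [uIcc_of_ge h]; exact ⟨by nlinarith [hl.2], by nlinarith [hl.1]⟩

theorem conv_mem_uIcc {a b s : ℝ} (hs : s ∈ Icc (0 : ℝ) 1) :
    (1 - s) * a + s * b ∈ uIcc 0 a ∨ (1 - s) * a + s * b ∈ uIcc 0 b := by
  have h1 : (1 - s) * a + s * b ∈ uIcc a b := by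
    rcases le_total a b with h | h
    · rw [uIcc_of_le h]; exact ⟨by nlinarith [hs.1], by nlinarith [hs.2]⟩
    · rw [uIcc_of_ge h]; exact ⟨by nlinarith [hs.2], by nlinarith [hs.1]⟩
  have := uIcc_subset_uIcc_union_uIcc (b := 0) h1
  rwa [uIcc_comm a 0] at this

theorem conv_gt {a b c s : ℝ} (ha : c < a) (hb : c < b) (hs : s ∈ Icc (0 : ℝ) 1) :
    c < (1 - s) * a + s * b := by
  rcases le_total a b with h | h
  · nlinarith [hs.1]
  · nlinarith [hs.2]

theorem bump_range {τ b t : ℝ} (hτ : 0 < τ) (hb : b ∈ Icc (0 : ℝ) 1)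
    (ht : t ∈ uIcc 0 ((1 + τ) * b)) : t ∈ Icc 0 (1 + τ) := by
  rw [uIcc_of_le (by nlinarith [hb.1])] at ht
  exact ⟨ht.1, ht.2.trans (by nlinarith [hb.2])⟩

theorem coef_mem {s b : ℝ} (hs : s ∈ Icc (0 : ℝ) 1) (hb : b ∈ Icc (0 : ℝ) 1) :
    1 - s + s * b ∈ Icc (0 : ℝ) 1 :=
  ⟨by nlinarith [hs.1, hs.2, hb.1], by nlinarith [hs.1, hb.2]⟩

theorem coef_mem' {τ s b : ℝ} (hτ : 0 < τ) (hs : s ∈ Icc (0 : ℝ) 1) (hb : b ∈ Icc (0 : ℝ) 1) :
    s * ((1 + τ) * b) ∈ Icc (0 : ℝ) (1 + τ) := by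
  have h1 : s * b ≤ 1 := by nlinarith [hb.1, hb.2, hs.1, hs.2]
  exact ⟨mul_nonneg hs.1 (by nlinarith [hb.1]), by nlinarith⟩

theorem Finger.i4 {f g : E → E} {b q : E} (hf : I4 f) (h : Finger f b q g) : I4 g := by
  obtain ⟨hb, D, χ, hD, hbD, hχ, hs, h1, hc, rfl⟩ := h
  exact I4_of_cond hf hb hD hbD hχ hs h1.ne' fun x hx hxD => hc x hx hxD _ right_mem_uIcc

theorem Finger.unique {f g g' : E → E} {b q : E} (hf : I4 f) (h : Finger f b q g)
    (h' : Finger f b q g') : Rel g g' := by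
  obtain ⟨hb, D, χ, hD, hbD, hχ, hs, h1, hc, rfl⟩ := h
  obtain ⟨-, D', χ', hD', hbD', hχ', hs', h1', hc', rfl⟩ := h'
  obtain ⟨β, hβs, -, hβ, hβr, hβ1⟩ := exists_contDiff_tsupport_subset (n := ⊤)
    ((hD.1.inter hD'.1).mem_nhds ⟨hbD, hbD'⟩)
  have hβ01 : ∀ x, β x ∈ Icc (0 : ℝ) 1 := fun x => hβr ⟨x, rfl⟩
  have key : ∀ (D : Set E) (χ : E → ℝ), VD f D (q - f b) → b ∈ D → ContDiff ℝ ∞ χ →
      tsupport χ ⊆ D → 1 < χ b → (∀ x ∈ S, x ∈ D → ∀ t ∈ uIcc 0 (χ x),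
      (fib f (S \ {x}) (f x + t • (q - f b))).encard ≤ 2 ∨ f x + t • (q - f b) = q) →
      Step (vm f χ (q - f b)) (vm f (fun x => β x * χ x) (q - f b)) := by
    intro D χ hD hbD hχ hs h1 hc
    refine step_vm hf.1.1 hχ (hβ.mul hχ) fun s hs01 => ?_
    refine I4_of_cond hf hb hD hbD (by fun_prop)
      ((tsupport_subset_of_zero fun x h0 => by simp [h0]).trans hs) ?_ fun x hx hxD => ?_
    · simp only [hβ1]; linarith
    · apply hc x hx hxD
      have : (1 - s) * χ x + s * (β x * χ x) = (1 - s + s * β x) * χ x := by ring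
      rw [this]
      exact mul_mem_uIcc (coef_mem hs01 (hβ01 x))
  refine (key D χ hD hbD hχ hs h1 hc).rel.trans
    (Rel.trans (Step.rel ?_) (key D' χ' hD' hbD' hχ' hs' h1' hc').symm.rel)
  refine step_vm hf.1.1 (hβ.mul hχ) (hβ.mul hχ') fun s hs01 => ?_
  refine I4_of_cond hf hb (hD.mono (hD.1.inter hD'.1) inter_subset_left) ⟨hbD, hbD'⟩ (by fun_prop)
    ((tsupport_subset_of_zero fun x h0 => by simp [h0]).trans hβs) ?_ fun x hx hxD => ?_
  · simp only [hβ1, one_mul]; exact (conv_gt h1 h1' hs01).ne'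
  · rcases conv_mem_uIcc (a := β x * χ x) (b := β x * χ' x) hs01 with h | h
    · exact hc x hx hxD.1 _ (uIcc_subset_uIcc left_mem_uIcc (mul_mem_uIcc (hβ01 x)) h)
    · exact hc' x hx hxD.2 _ (uIcc_subset_uIcc left_mem_uIcc (mul_mem_uIcc (hβ01 x)) h)

/-- Robust existence of thin fingers: the segment from `f b` to `q` carries no triple point of the
rest of the surface, and `q` is an isolated triple point of the nearby map `g`. -/
theorem thin_finger {f : E → E} (hf : Imm f) {b q : E} (hb : b ∈ S)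
    (htr : ⟪nrm f b, q - f b⟫ ≠ 0)
    (hseg : ∀ t ∈ Ico (0 : ℝ) 1, (fib f (S \ {b}) (f b + t • (q - f b))).encard ≤ 2)
    {ρ : ℝ} (hρ : 0 < ρ) {V : Set E} (hV : V ∈ 𝓝 b) :
    ∃ χ : E → ℝ, ContDiff ℝ ∞ χ ∧ tsupport χ ⊆ V ∧ ∃ δ, 0 < δ ∧ ∀ g : E → E, ContDiff ℝ ∞ g →
      Small δ (g - f) → (∀ y, ‖y - q‖ < ρ → Tri g y → y = q) → ∀ b' ∈ S, ‖b' - b‖ ≤ δ →
        Finger g b' q (vm g χ (q - g b')) ∧ 0 < ⟪nrm f b, q - f b⟫ * ⟪nrm g b', q - g b'⟫ := by
  set v := q - f b with hv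
  obtain ⟨ρ₁, hρ₁, δ₁, hδ₁, h₁⟩ := exists_VD hf.1 hb htr
  have hv1 : 0 < ‖v‖ + 1 := by positivity
  set τ := min (1 / 2) (ρ / 8 / (‖v‖ + 1)) with hτ
  have hτ0 : 0 < τ := by positivity
  have hτ1 : τ ≤ 1 / 2 := min_le_left _ _
  have hτ2 : τ * (‖v‖ + 1) ≤ ρ / 8 := by rw [← le_div_iff₀ hv1]; exact min_le_right _ _
  have hC : IsCompact ((fun t : ℝ => f b + t • v) '' Icc 0 (1 - τ)) :=
    isCompact_Icc.image (by fun_prop)
  obtain ⟨δ₂, hδ₂, h₂⟩ := mult_open hf (A := S \ ball b ρ₁) (isClosed_S.sdiff isOpen_ball)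
    sdiff_subset hC.isClosed (k := 2) (by
      rintro _ ⟨t, ht, rfl⟩
      refine (encard_le_encard fun z hz => ?_).trans (hseg t ⟨ht.1, by linarith [ht.2]⟩)
      refine ⟨⟨hz.1.1, ?_⟩, hz.2⟩
      rintro rfl
      exact hz.1.2 (mem_ball_self hρ₁))
  set η := min δ₁ (min δ₂ ρ) / 8 with hη
  have hη0 : 0 < η := by positivity
  have hη1 : 8 * η ≤ δ₁ := by rw [hη]; linarith [min_le_left δ₁ (min δ₂ ρ)]
  have hη2 : 8 * η ≤ δ₂ := by
    rw [hη]; linarith [min_le_right δ₁ (min δ₂ ρ), min_le_left δ₂ ρ]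
  have hη3 : 8 * η ≤ ρ := by
    rw [hη]; linarith [min_le_right δ₁ (min δ₂ ρ), min_le_right δ₂ ρ]
  obtain ⟨ρ₂, hρ₂, h₃⟩ := Metric.continuousAt_iff.1 (hf.1.continuous.continuousAt (x := b)) η hη0
  set D := ball b (min ρ₁ ρ₂) with hD
  have hD1 : D ⊆ ball b ρ₁ := ball_subset_ball (min_le_left _ _)
  have hD2 : D ⊆ ball b ρ₂ := ball_subset_ball (min_le_right _ _)
  obtain ⟨β, hβs, -, hβ, hβr, hβ1⟩ := exists_contDiff_tsupport_subset (n := ⊤)
    (inter_mem hV (ball_mem_nhds b (lt_min hρ₁ hρ₂)))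
  have hβ01 : ∀ x, β x ∈ Icc (0 : ℝ) 1 := fun x => hβr ⟨x, rfl⟩
  have hs : tsupport (fun x => (1 + τ) * β x) ⊆ tsupport β :=
    tsupport_subset_of_zero fun x h0 => by simp [h0]
  have e1 : ∀ᶠ x in 𝓝 b, 1 < (1 + τ) * β x ∧ x ∈ D := by
    have c : Continuous fun x => (1 + τ) * β x := by have := hβ.continuous; fun_prop
    exact (continuousAt_const.eventually_lt c.continuousAt (by rw [hβ1]; linarith)).and
      (ball_mem_nhds b (lt_min hρ₁ hρ₂))
  obtain ⟨δ₃, hδ₃, h₄⟩ := Metric.eventually_nhds_iff.1 e1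
  refine ⟨fun x => (1 + τ) * β x, by fun_prop, hs.trans (hβs.trans inter_subset_left),
    min η (δ₃ / 2), by positivity, fun g hg hgf hiso b' hb' hbb => ?_⟩
  have hb3 := h₄ (y := b') (by rw [dist_eq_norm]; linarith [min_le_right η (δ₃ / 2)])
  have sη := hgf.mono (min_le_left _ _)
  have hg1 : ∀ x ∈ S, x ∈ D → ‖g x - f b‖ ≤ 2 * η := by
    intro x hx hxD
    have a1 : ‖g x - f x‖ ≤ η := (sη x hx).1
    have a2 := h₃ (hD2 hxD)
    rw [← dist_eq_norm] at a1 ⊢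
    linarith [dist_triangle (g x) (f x) (f b)]
  set v' := q - g b' with hv'
  have hvv : ‖v' - v‖ ≤ 2 * η := by
    rw [hv, hv', sub_sub_sub_cancel_left, norm_sub_rev]; exact hg1 b' hb' hb3.2
  obtain ⟨hVD, hsign⟩ := h₁ g hg (sη.mono (by linarith)) v' (by linarith)
  refine ⟨⟨hb', D, _, hVD.mono isOpen_ball hD1, hb3.2, by fun_prop,
    hs.trans (hβs.trans inter_subset_right), hb3.1, fun x hx hxD t ht => ?_, rfl⟩,
    hsign b' hb' (hD1 hb3.2)⟩
  have ht0 : 0 ≤ t ∧ t ≤ 1 + τ := bump_range hτ0 (hβ01 x) ht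
  have hy : ‖g x + t • v' - (f b + t • v)‖ ≤ 6 * η := by
    have e : g x + t • v' - (f b + t • v) = (g x - f b) + t • (v' - v) := by
      rw [smul_sub t v' v]; abel
    rw [e]
    refine (norm_add_le _ _).trans ?_
    rw [norm_smul, Real.norm_eq_abs, abs_of_nonneg ht0.1]
    have a1 := hg1 x hx hxD
    have a2 : t * ‖v' - v‖ ≤ 2 * (2 * η) :=
      mul_le_mul (by linarith [ht0.2]) hvv (norm_nonneg _) (by norm_num)
    linarith
  rcases le_or_gt t (1 - τ) with h | h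
  · left
    refine (encard_le_encard fun z hz => ?_).trans (h₂ g hg (sη.mono (by linarith))
      (g x + t • v') ⟨_, ⟨t, ⟨ht0.1, h⟩, rfl⟩, by linarith⟩)
    exact ⟨⟨hz.1.1, fun hzb => hz.1.2 (hVD.2.2 x hx z hz.1.1 (hD1 hxD) hzb t hz.2)⟩, hz.2⟩
  · by_cases hT : Tri g (g x + t • v')
    · right
      apply hiso _ _ hT
      have e : g x + t • v' - q = (g x + t • v' - (f b + t • v)) + (t - 1) • v := by
        rw [hv, sub_smul, one_smul]; abel
      rw [e]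
      refine (norm_add_le _ _).trans_lt ?_
      rw [norm_smul, Real.norm_eq_abs]
      have a1 : |t - 1| ≤ τ := abs_le.2 ⟨by linarith, by linarith [ht0.2]⟩
      have a2 : |t - 1| * ‖v‖ ≤ τ * (‖v‖ + 1) :=
        mul_le_mul a1 (by linarith) (norm_nonneg _) hτ0.le
      linarith
    · left
      refine le_trans (encard_le_encard fun z hz => ?_) (not_tri_iff.1 hT)
      exact ⟨hz.1.1, hz.2⟩

/-- A finger satisfies the segment condition. -/
theorem Finger.seg {f g : E → E} {b q : E} (h : Finger f b q g) :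
    ⟪nrm f b, q - f b⟫ ≠ 0 ∧
      ∀ t ∈ Ico (0 : ℝ) 1, (fib f (S \ {b}) (f b + t • (q - f b))).encard ≤ 2 := by
  obtain ⟨hb, D, χ, hD, hbD, -, -, h1, hc, -⟩ := h
  refine ⟨hD.2.1 b hb hbD, fun t ht => (hc b hb hbD t ?_).resolve_right fun h => ?_⟩
  · rw [uIcc_of_le (by linarith)]; exact ⟨ht.1, by linarith [ht.2]⟩
  · have h2 : (t - 1) • (q - f b) = 0 := by
      rw [sub_smul, one_smul, sub_eq_zero, eq_sub_iff_add_eq', h]
    exact ht.2.ne (sub_eq_zero.1 ((smul_eq_zero.1 h2).resolve_right (hD.ne_zero hb hbD)))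

theorem finger_line_aux {f : E → E} (hf : I4 f) {x x' : E} (hx : x ∈ S) (hx' : x' ∈ S)
    {D D' U : Set E} (hD : VD f D (f x' - f x)) (hD' : VD f D' (f x' - f x)) (hxD : x ∈ D)
    (hxD' : x' ∈ D') {τ r : ℝ} (hτ : 0 < τ) (hr : 0 < r)
    (hU : ∀ y, ‖y - f x‖ < r → ∀ t ∈ Icc 0 (1 + τ), y + t • (f x' - f x) ∈ U)
    (hrest : ∀ y ∈ U, (fib f (S \ (D ∪ D')) y).encard ≤ 2 ∧
      (2 ≤ (fib f (S \ (D ∪ D')) y).encard → cross (y - f x) (f x' - f x) = 0)) :
    ∃ χ : E → ℝ, ContDiff ℝ ∞ χ ∧ tsupport χ ⊆ D ∧ χ x = 1 + τ ∧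
      (∀ z, χ z ≠ 0 → ∀ s ∈ Icc (0 : ℝ) 1, f z + (s * χ z) • (f x' - f x) ∈ U) ∧
      Finger f x (f x') (vm f χ (f x' - f x)) := by
  set v := f x' - f x with hv
  have hv0 := hD.ne_zero hx hxD
  have hO : IsOpen (D ∩ f ⁻¹' ball (f x) r) := hD.1.inter (isOpen_ball.preimage hf.1.1.continuous)
  have hxO : x ∈ D ∩ f ⁻¹' ball (f x) r := ⟨hxD, mem_preimage.2 (mem_ball_self hr)⟩
  obtain ⟨β, hβs, -, hβ, hβr, hβ1⟩ := exists_contDiff_tsupport_subset (n := ⊤) (hO.mem_nhds hxO)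
  have hβ01 : ∀ x, β x ∈ Icc (0 : ℝ) 1 := fun x => hβr ⟨x, rfl⟩
  have hs : tsupport (fun x => (1 + τ) * β x) ⊆ D ∩ f ⁻¹' ball (f x) r :=
    (tsupport_subset_of_zero fun x h0 => by simp [h0]).trans hβs
  refine ⟨fun x => (1 + τ) * β x, by fun_prop, hs.trans inter_subset_left, by simp [hβ1],
    fun z hz s hs01 => ?_, hx, _, _, hD.mono hO inter_subset_left, hxO,
    by fun_prop, hs, by simp [hβ1, hτ], fun z hz hzD t ht => ?_, rfl⟩
  · exact hU _ (by rw [← dist_eq_norm]; exact (hs (subset_tsupport _ hz)).2) _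
      (coef_mem' hτ hs01 (hβ01 z))
  · have ht0 : t ∈ Icc 0 (1 + τ) := bump_range hτ (hβ01 z) ht
    have hy := hrest _ (hU (f z) (by rw [← dist_eq_norm]; exact hzD.2) t ht0)
    set y := f z + t • v with hy'
    have hsub : fib f (S \ {z}) y ⊆ fib f (S \ (D ∪ D')) y ∪ fib f (S ∩ D') y := by
      intro w hw
      by_cases h1 : w ∈ D'
      · exact Or.inr ⟨⟨hw.1.1, h1⟩, hw.2⟩
      · refine Or.inl ⟨⟨hw.1.1, ?_⟩, hw.2⟩
        rintro (h2 | h2)
        · exact hw.1.2 (hD.2.2 z hz w hw.1.1 hzD.1 h2 t hw.2)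
        · exact h1 h2
    have hle := (encard_le_encard hsub).trans (encard_union_le _ _)
    rcases (fib f (S ∩ D') y).eq_empty_or_nonempty with h0 | ⟨w, hw⟩
    · left; rw [h0, encard_empty, add_zero] at hle; exact hle.trans hy.1
    · rcases le_or_gt 2 (fib f (S \ (D ∪ D')) y).encard with h2 | h2
      · right
        obtain ⟨s, hs'⟩ := (cross_eq_zero_iff hv0).1 (hy.2 h2)
        have : w = x' := by
          refine hD'.2.2 x' hx' w hw.1.1 hxD' hw.1.2 (s - 1) ?_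
          rw [hw.2, sub_smul, ← hs', one_smul, hv]; abel
        rw [← this]; exact hw.2.symm
      · left
        have h3 : (fib f (S \ (D ∪ D')) y).encard ≤ 1 :=
          (ENat.lt_add_one_iff (n := 1) (by simp)).1 h2
        exact hle.trans ((add_le_add h3 (hD'.fib_le_one y)).trans (by norm_num))

/-- Two consecutive triple points `f x`, `f x'` on a straight double line: pushing the sheet at `x`
across `f x'` or the sheet at `x'` across `f x` gives the same class. -/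
theorem finger_swap_line {f : E → E} (hf : I4 f) {x x' : E} (hx : x ∈ S) (hx' : x' ∈ S)
    {D D' U : Set E} (hD : VD f D (f x' - f x)) (hD' : VD f D' (f x' - f x)) (hxD : x ∈ D)
    (hxD' : x' ∈ D') (hdisj : Disjoint D D') (hU : IsOpen U) (hseg : segment ℝ (f x) (f x') ⊆ U)
    (hrest : ∀ y ∈ U, (fib f (S \ (D ∪ D')) y).encard ≤ 2 ∧
      (2 ≤ (fib f (S \ (D ∪ D')) y).encard → cross (y - f x) (f x' - f x) = 0)) :
    ∃ g g', Finger f x (f x') g ∧ Finger f x' (f x) g' ∧ Rel g g' := by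
  set v := f x' - f x with hv
  have hv0 := hD.ne_zero hx hxD
  have hsc : IsCompact (segment ℝ (f x) (f x')) := by
    rw [segment_eq_image]; exact isCompact_Icc.image (by fun_prop)
  obtain ⟨e, he, he'⟩ := hsc.exists_cthickening_subset_open hU hseg
  have hv1 : 0 < ‖v‖ + 1 := by positivity
  set τ := e / 2 / (‖v‖ + 1) with hτ
  have hτ0 : 0 < τ := by positivity
  have hτ2 : τ * (‖v‖ + 1) = e / 2 := by rw [hτ]; field_simp
  have hU1 : ∀ a b : E, segment ℝ a b = segment ℝ (f x) (f x') → ‖b - a‖ = ‖v‖ →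
      ∀ y, ‖y - a‖ < e / 2 → ∀ t ∈ Icc 0 (1 + τ), y + t • (b - a) ∈ U := by
    intro a b hab hn y hy t ht
    apply he'
    refine mem_cthickening_of_dist_le _ (a + min t 1 • (b - a)) _ _ ?_ ?_
    · rw [← hab, segment_eq_image']
      exact ⟨min t 1, ⟨le_min ht.1 zero_le_one, min_le_right _ _⟩, rfl⟩
    · have e1 : y + t • (b - a) - (a + min t 1 • (b - a)) = (y - a) + (t - min t 1) • (b - a) := by
        rw [sub_smul]; abel
      rw [dist_eq_norm, e1]
      refine (norm_add_le _ _).trans ?_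
      rw [norm_smul, Real.norm_eq_abs, hn]
      have : |t - min t 1| ≤ τ := by
        rw [abs_le]; constructor
        · linarith [min_le_left t 1]
        · rcases le_total t 1 with h | h
          · rw [min_eq_left h]; linarith
          · rw [min_eq_right h]; linarith [ht.2]
      have a2 : |t - min t 1| * ‖v‖ ≤ τ * (‖v‖ + 1) :=
        mul_le_mul this (by linarith) (norm_nonneg _) hτ0.le
      linarith
  have hneg : f x - f x' = (-1 : ℝ) • v := by rw [hv]; simp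
  obtain ⟨χ, hχ, hs, h1, hm, hF⟩ := finger_line_aux hf hx hx' hD hD' hxD hxD' hτ0 (half_pos he)
    (hU1 (f x) (f x') rfl rfl) hrest
  have hDn : VD f D (f x - f x') := by rw [hneg]; exact hD.smul (by norm_num)
  have hDn' : VD f D' (f x - f x') := by rw [hneg]; exact hD'.smul (by norm_num)
  obtain ⟨χ', hχ', hs', h1', hm', hF'⟩ := finger_line_aux hf hx' hx (D := D') (D' := D) (U := U)
    hDn' hDn hxD' hxD hτ0 (half_pos he)
    (hU1 (f x') (f x) (segment_symm ℝ (f x') (f x)) (norm_sub_rev (f x) (f x'))) (by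
      intro y hy
      rw [union_comm]
      refine ⟨(hrest y hy).1, fun h2 => ?_⟩
      have := (hrest y hy).2 h2
      have e1 : y - f x' = (y - f x) - v := by rw [hv]; abel
      rw [hneg, cross_smul_right, e1, cross_sub_left, this]; simp)
  refine ⟨_, _, hF, hF', Step.rel (Step.symm ?_)⟩
  have e0 : vm f χ' (f x - f x') = vm f (fun z => -χ' z) v := by
    ext1 z; simp only [vm]; rw [hneg, smul_smul]; simp
  rw [e0]
  refine step_vm hf.1.1 hχ'.neg hχ fun s hs01 => ?_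
  set ψ : E → ℝ := fun z => (1 - s) * -χ' z + s * χ z with hψ
  have hψs : ContDiff ℝ ∞ ψ := by fun_prop
  have hψD : ∀ z ∈ D, ψ z = s * χ z := fun z hz => by
    simp [hψ, zero_of_tsupport hs' (Set.disjoint_left.1 hdisj hz)]
  have hψD' : ∀ z, z ∉ D → ψ z = -((1 - s) * χ' z) := fun z hz => by
    simp [hψ, zero_of_tsupport hs hz]
  have hts : tsupport ψ ⊆ D ∪ D' := by
    intro z hz
    by_contra hz'
    rw [mem_union, not_or] at hz'
    refine notMem_tsupport_iff_eventuallyEq.2 ?_ hz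
    filter_upwards [notMem_tsupport_iff_eventuallyEq.1 fun h => hz'.1 (hs h),
      notMem_tsupport_iff_eventuallyEq.1 fun h => hz'.2 (hs' h)] with w a1 a2
    simp [hψ, a1, a2]
  refine ⟨vm_imm hf.1 hψs fun z hz hzs => (hts hzs).elim (hD.2.1 z hz) (hD'.2.1 z hz), fun y => ?_⟩
  by_cases hy : ∃ z ∈ S, ψ z ≠ 0 ∧ vm f ψ v z = y
  · have hyU : y ∈ U := by
      obtain ⟨z, -, h0, rfl⟩ := hy
      by_cases hzD : z ∈ D
      · rw [hψD z hzD] at h0
        simpa only [vm, hψD z hzD] using hm z (right_ne_zero_of_mul h0) s hs01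
      · rw [hψD' z hzD] at h0
        have := hm' z (right_ne_zero_of_mul (neg_ne_zero.1 h0)) (1 - s)
          ⟨by linarith [hs01.2], by linarith [hs01.1]⟩
        rw [hneg, smul_smul] at this
        simpa [vm, hψD' z hzD] using this
    have hsub : fib (vm f ψ v) S y ⊆ fib f (S \ (D ∪ D')) y ∪ fib (vm f ψ v) (S ∩ D) y ∪
        fib (vm f ψ v) (S ∩ D') y := by
      intro w hw
      by_cases a1 : w ∈ D
      · exact Or.inl (Or.inr ⟨⟨hw.1, a1⟩, hw.2⟩)
      by_cases a2 : w ∈ D'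
      · exact Or.inr ⟨⟨hw.1, a2⟩, hw.2⟩
      have a3 : w ∉ D ∪ D' := by simp [a1, a2]
      exact Or.inl (Or.inl ⟨⟨hw.1, a3⟩, by simpa [vm, zero_of_tsupport hts a3] using hw.2⟩)
    have hle := (encard_le_encard hsub).trans ((encard_union_le _ _).trans
      (add_le_add (encard_union_le _ _) le_rfl))
    have b1 := (hD.vm hf.1.1 hψs).fib_le_one y
    have b2 := (hD'.vm hf.1.1 hψs).fib_le_one y
    have b0 := hrest y hyU
    rcases (fib (vm f ψ v) (S ∩ D) y).eq_empty_or_nonempty with h0 | ⟨w, hw⟩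
    · rw [h0, encard_empty, add_zero] at hle
      exact hle.trans ((add_le_add b0.1 b2).trans (by norm_num))
    rcases (fib (vm f ψ v) (S ∩ D') y).eq_empty_or_nonempty with h0 | ⟨w', hw'⟩
    · rw [h0, encard_empty, add_zero] at hle
      exact hle.trans ((add_le_add b0.1 b1).trans (by norm_num))
    rcases le_or_gt 2 (fib f (S \ (D ∪ D')) y).encard with h2 | h2
    · exfalso
      obtain ⟨t, ht⟩ := (cross_eq_zero_iff hv0).1 (b0.2 h2)
      have c1 : f w + ψ w • v = y := hw.2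
      have c2 : f w' + ψ w' • v = y := hw'.2
      have d1 : w = x := by
        refine hD.2.2 x hx w hw.1.1 hxD hw.1.2 (t - ψ w) ?_
        rw [sub_smul, ← ht, ← c1]; abel
      have d2 : w' = x' := by
        refine hD'.2.2 x' hx' w' hw'.1.1 hxD' hw'.1.2 (t - 1 - ψ w') ?_
        rw [sub_smul, sub_smul, ← ht, ← c2, one_smul, hv]; abel
      rw [d1, hψD x hxD, h1] at c1
      rw [d2, hψD' x' (Set.disjoint_right.1 hdisj hxD'), h1'] at c2
      have d3 : τ • v = 0 := by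
        have e2 : f x' = f x + v := by rw [hv]; abel
        rw [e2, ← c1] at c2
        have e3 : τ • v = (f x + (s * (1 + τ)) • v) - (f x + v + -((1 - s) * (1 + τ)) • v) := by
          module
        rw [e3, c2, sub_self]
      exact hv0 ((smul_eq_zero.1 d3).resolve_left hτ0.ne')
    · have h3 : (fib f (S \ (D ∪ D')) y).encard ≤ 1 :=
        (ENat.lt_add_one_iff (n := 1) (by simp)).1 h2
      exact hle.trans ((add_le_add (add_le_add h3 b1) b2).trans (by norm_num))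
  · refine (encard_le_encard fun z hz => ?_).trans (hf.2 y)
    have : ψ z = 0 := by by_contra h0; exact hy ⟨z, hz.1, h0, hz.2⟩
    exact ⟨hz.1, by simpa [vm, this] using hz.2⟩

end Pool.Agent.Lib.Quad
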